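import Pool.Agent.Lib.MP_cc7fb1_cf.ChAll

/-!
# MP_cc7fb1: the poset P_th x R0|th is structured (row B1)
-/

set_option autoImplicit false

open Cardinal Set

namespace Pool.CF

/-! ### Row B1: the poset `P_th × R0|th` is structured -/

section

variable {Θ : Type} [LinearOrder Θ] [WellFoundedLT Θ] {κ : Cardinal.{0}} {S : Θ → Lv Θ}

lemma EndExt.refl (c : Set Θ) : EndExt c c := ⟨subset_rfl, fun g hg hg' => absurd hg hg'⟩

lemma EndExt.trans {c c' c'' : Set Θ} (h : EndExt c' c) (h' : EndExt c'' c') : EndExt c'' c := by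
  refine ⟨h.1.trans h'.1, fun g hg hg' g' hg'' => ?_⟩
  by_cases hgc : g ∈ c'
  · exact h.2 g hgc hg' g' hg''
  · exact h'.2 g hg hgc g' (h.1 hg'')

lemma EndExt.antisymm {c c' : Set Θ} (h : EndExt c' c) (h' : EndExt c c') : c = c' :=
  subset_antisymm h.1 h'.1

/-- The union of a directed family is an end extension of every member. -/
lemma EndExt.sUnion {F : Set (Set Θ)} (hF : ∀ c ∈ F, ∀ c' ∈ F, ∃ c'' ∈ F, EndExt c'' c ∧ EndExt c'' c')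
    {c : Set Θ} (hc : c ∈ F) : EndExt (⋃₀ F) c := by
  refine ⟨fun g hg => ⟨c, hc, hg⟩, ?_⟩
  rintro g ⟨c', hc', hg⟩ hg' g' hg''
  obtain ⟨c'', _, h1, h2⟩ := hF c hc c' hc'
  exact h1.2 g (h2.1 hg) hg' g' hg''

/-- If all members of `F` are extended by `c'` then so is the union. -/
lemma EndExt.of_sUnion {F : Set (Set Θ)} {c' : Set Θ} (h : ∀ c ∈ F, EndExt c' c) :
    EndExt c' (⋃₀ F) := by
  refine ⟨?_, ?_⟩
  · rintro g ⟨c, hc, hg⟩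
    exact (h c hc).1 hg
  · rintro g hg hg' g' ⟨c, hc, hgc⟩
    exact (h c hc).2 g hg (fun hh => hg' ⟨c, hc, hh⟩) g' hgc

/-- The level of `P_th × R0|th` for a coding `f`. -/
def ppL (κ : Cardinal.{0}) (S : Θ → Lv Θ) (th : Θ) (f : Set (Θ × Θ) → Set Θ → Θ) : Lv Θ where
  C := {r | ∃ σ c, PP κ S th σ c ∧ r = f σ c}
  le r' r := ∃ σ c σ' c', PP κ S th σ c ∧ PP κ S th σ' c' ∧ r = f σ c ∧ r' = f σ' c' ∧
    ChLe S σ' σ ∧ EndExt c' c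
  sg r := {p | ∃ σ c, PP κ S th σ c ∧ r = f σ c ∧ p ∈ σ}

/-- The coding is injective. -/
def FInj (κ : Cardinal.{0}) (S : Θ → Lv Θ) (th : Θ) (f : Set (Θ × Θ) → Set Θ → Θ) : Prop :=
  ∀ σ c σ' c', PP κ S th σ c → PP κ S th σ' c' → f σ c = f σ' c' → σ = σ' ∧ c = c'

lemma ppL_le {th : Θ} {f : Set (Θ × Θ) → Set Θ → Θ} (hf : FInj κ S th f) {σ σ' : Set (Θ × Θ)}
    {c c' : Set Θ} (h : PP κ S th σ c) (h' : PP κ S th σ' c') :
    (ppL κ S th f).le (f σ' c') (f σ c) ↔ ChLe S σ' σ ∧ EndExt c' c := by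
  constructor
  · rintro ⟨σ₁, c₁, σ₁', c₁', h1, h1', e, e', hle, hee⟩
    obtain ⟨rfl, rfl⟩ := hf _ _ _ _ h h1 e
    obtain ⟨rfl, rfl⟩ := hf _ _ _ _ h' h1' e'
    exact ⟨hle, hee⟩
  · rintro ⟨hle, hee⟩
    exact ⟨σ, c, σ', c', h, h', rfl, rfl, hle, hee⟩

lemma ppL_sg {th : Θ} {f : Set (Θ × Θ) → Set Θ → Θ} (hf : FInj κ S th f) {σ : Set (Θ × Θ)}
    {c : Set Θ} (h : PP κ S th σ c) : (ppL κ S th f).sg (f σ c) = σ := by
  ext p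
  constructor
  · rintro ⟨σ₁, c₁, h1, e, hp⟩
    obtain ⟨rfl, rfl⟩ := hf _ _ _ _ h h1 e
    exact hp
  · intro hp
    exact ⟨σ, c, h, rfl, hp⟩

/-- Row B1.  `P_th × R0|th` is structured.  `inf`: for a directed `D` take `exists_lInf` of the first
coordinates and the union of the second ones (small: `κ` is regular).  `ext`: `(σ', c)`; the labels
of `σ'` are below `th` by `Cof`. -/
theorem isStr_ppL (hκ : κ.IsRegular) (hS : Structured κ S) {th : Θ}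
    {f : Set (Θ × Θ) → Set Θ → Θ} (hf : FInj κ S th f) : IsStr κ S th (ppL κ S th f) := by
  refine ⟨?_, ?_, ?_, ?_, ?_, ?_, ?_, ?_⟩
  · rintro r ⟨σ, c, h, rfl⟩
    exact (ppL_le hf h h).2 ⟨ChLe.refl hS h.ch, EndExt.refl c⟩
  · rintro r ⟨σ, c, h, rfl⟩ s ⟨σ', c', h', rfl⟩ t ⟨σ'', c'', h'', rfl⟩ h1 h2
    rw [ppL_le hf h' h] at h1
    rw [ppL_le hf h'' h'] at h2
    exact (ppL_le hf h'' h).2 ⟨ChLe.trans hS h''.ch h'.ch h.ch h1.1 h2.1, EndExt.trans h2.2 h1.2⟩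
  · rintro r ⟨σ, c, h, rfl⟩ s ⟨σ', c', h', rfl⟩ h1 h2
    rw [ppL_le hf h' h] at h1
    rw [ppL_le hf h h'] at h2
    rw [ChLe.antisymm hS h.ch h'.ch h1.1 h2.1, EndExt.antisymm h2.2 h1.2]
  · rintro r ⟨σ, c, h, rfl⟩
    rw [ppL_sg hf h]
    exact h.ch
  · rintro r ⟨σ, c, h, rfl⟩
    rw [ppL_sg hf h]
    exact h.lt
  · rintro r ⟨σ, c, h, rfl⟩ s ⟨σ', c', h', rfl⟩ h1
    rw [ppL_le hf h h'] at h1
    rw [ppL_sg hf h, ppL_sg hf h']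
    exact h1.1
  · intro D hD hne hcard hdir
    have hD' : ∀ d : D, ∃ σ c, PP κ S th σ c ∧ (d : Θ) = f σ c := fun d => hD d.2
    choose sD cD hPP hd using hD'
    have hsg : ∀ d : D, (ppL κ S th f).sg d = sD d := by
      intro d
      rw [hd d]
      exact ppL_sg hf (hPP d)
    have hle : ∀ d d' : D, (ppL κ S th f).le d d' ↔ ChLe S (sD d) (sD d') ∧ EndExt (cD d) (cD d') := by
      intro d d'
      have h1 := ppL_le hf (hPP d') (hPP d)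
      rw [← hd d, ← hd d'] at h1
      exact h1
    have hF1 : ((ppL κ S th f).sg '' D).Nonempty := hne.image _
    have hF2 : #((ppL κ S th f).sg '' D) < κ := Cardinal.mk_image_le.trans_lt hcard
    have hF3 : ∀ τ ∈ (ppL κ S th f).sg '' D, IsCh κ S τ := by
      rintro τ ⟨d, hdD, rfl⟩
      rw [hsg ⟨d, hdD⟩]
      exact (hPP ⟨d, hdD⟩).ch
    have hF4 : ∀ τ ∈ (ppL κ S th f).sg '' D, ∀ τ' ∈ (ppL κ S th f).sg '' D,
        ∃ τ'' ∈ (ppL κ S th f).sg '' D, ChLe S τ'' τ ∧ ChLe S τ'' τ' := by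
      rintro τ ⟨d, hdD, rfl⟩ τ' ⟨d', hdD', rfl⟩
      obtain ⟨e, heD, h1, h2⟩ := hdir d hdD d' hdD'
      refine ⟨_, ⟨e, heD, rfl⟩, ?_, ?_⟩
      · rw [hsg ⟨e, heD⟩, hsg ⟨d, hdD⟩]
        exact ((hle ⟨e, heD⟩ ⟨d, hdD⟩).1 h1).1
      · rw [hsg ⟨e, heD⟩, hsg ⟨d', hdD'⟩]
        exact ((hle ⟨e, heD⟩ ⟨d', hdD'⟩).1 h2).1
    obtain ⟨σ, hσ, hinf⟩ := exists_lInf hκ hS hF1 hF2 hF3 hF4
    have hG : ∀ c ∈ range cD, ∀ c' ∈ range cD, ∃ c'' ∈ range cD, EndExt c'' c ∧ EndExt c'' c' := by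
      rintro c ⟨d, rfl⟩ c' ⟨d', rfl⟩
      obtain ⟨e, heD, h1, h2⟩ := hdir d d.2 d' d'.2
      exact ⟨_, ⟨⟨e, heD⟩, rfl⟩, ((hle ⟨e, heD⟩ d).1 h1).2, ((hle ⟨e, heD⟩ d').1 h2).2⟩
    have hPPσ : PP κ S th σ (⋃₀ range cD) := by
      refine ⟨hσ, ?_, ?_, ?_⟩
      · apply hinf.lev_lt
        rintro τ ⟨d, hdD, rfl⟩
        rw [hsg ⟨d, hdD⟩]
        exact (hPP ⟨d, hdD⟩).lt
      · rintro g ⟨c, ⟨d, rfl⟩, hg⟩
        exact (hPP d).sub g hg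
      · rw [Set.sUnion_range]
        exact (Cardinal.card_iUnion_lt_iff_forall_of_isRegular hκ hcard).2 (fun d => (hPP d).card)
    refine ⟨f σ (⋃₀ range cD), ⟨⟨σ, _, hPPσ, rfl⟩, ?_, ?_⟩, ?_⟩
    · intro d hdD
      have h1 := (ppL_le hf (hPP ⟨d, hdD⟩) hPPσ).2 ⟨hinf.le ⟨d, hdD, hsg ⟨d, hdD⟩⟩,
        EndExt.sUnion hG ⟨⟨d, hdD⟩, rfl⟩⟩
      rw [← hd ⟨d, hdD⟩] at h1
      exact h1
    · rintro s ⟨τ, e, hτ, rfl⟩ hall
      have h2 : ∀ d : D, ChLe S τ (sD d) ∧ EndExt e (cD d) := by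
        intro d
        have h1 := hall d d.2
        rw [hd d] at h1
        exact (ppL_le hf (hPP d) hτ).1 h1
      refine (ppL_le hf hPPσ hτ).2 ⟨hinf.glb hS hF1 hF3 hσ hτ.ch ?_, EndExt.of_sUnion ?_⟩
      · rintro τ' ⟨d, hdD, rfl⟩
        rw [hsg ⟨d, hdD⟩]
        exact (h2 ⟨d, hdD⟩).1
      · rintro c ⟨d, rfl⟩
        exact (h2 d).2
    · rw [ppL_sg hf hPPσ]
      exact hinf
  · rintro r ⟨σ, c, h, rfl⟩ σ' hσ' hle hcof
    rw [ppL_sg hf h] at hle hcof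
    have hPP : PP κ S th σ' c := by
      refine ⟨hσ', ?_, h.sub, h.card⟩
      intro b hb
      obtain ⟨b', hb', hbb⟩ := hcof b hb
      exact hbb.trans_lt (h.lt b' hb')
    refine ⟨f σ' c, ⟨σ', c, hPP, rfl⟩, (ppL_le hf h hPP).2 ⟨hle, EndExt.refl c⟩, ?_⟩
    rw [ppL_sg hf hPP]
    exact ChLe.refl hS hσ'

end

end Pool.CF
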