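import Pool.Agent.Lib.MP_cc7fb1_cf.Refl
import Pool.Agent.Lib.MP_cc7fb1_cf.B1

/-!
# MP_cc7fb1: counting, codings (row B2)
-/

set_option autoImplicit false
set_option linter.unusedSectionVars false

open Cardinal Set

namespace Pool.CF

variable {Θ X : Type} [LinearOrder Θ] [WellFoundedLT Θ] [HG Θ X]

/-- The pairs are determined by subsets of a bounded part. -/
theorem B2_inj {κ' : Cardinal.{0}} {S : Θ → Lv Θ} {th m : Θ} (hth : th ≤ m)
    (hb : ∀ a < th, ∀ r ∈ (S a).C, r < m) :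
    #{p : Set (Θ × Θ) × Set Θ | PP κ' S th p.1 p.2} ≤
      2 ^ (#(Iio m) * #(Iio m)) * 2 ^ #(Iio m) := by
  let F : {p : Set (Θ × Θ) × Set Θ | PP κ' S th p.1 p.2} →
      Set (Iio m × Iio m) × Set (Iio m) :=
    fun p => ({q | (q.1.1, q.2.1) ∈ p.1.1}, {g | g.1 ∈ p.1.2})
  have hF : Function.Injective F := by
    rintro ⟨⟨σ, c⟩, h⟩ ⟨⟨σ', c'⟩, h'⟩ he
    have h1 : {q : Iio m × Iio m | (q.1.1, q.2.1) ∈ σ} =
      {q : Iio m × Iio m | (q.1.1, q.2.1) ∈ σ'} := congrArg Prod.fst he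
    have h2 : {g : Iio m | g.1 ∈ c} = {g : Iio m | g.1 ∈ c'} := congrArg Prod.snd he
    have key : ∀ τ τ' : Set (Θ × Θ), (∀ b ∈ lev τ, b < th) → (∀ a r, (a, r) ∈ τ → r ∈ (S a).C) →
        {q : Iio m × Iio m | (q.1.1, q.2.1) ∈ τ} =
          {q : Iio m × Iio m | (q.1.1, q.2.1) ∈ τ'} → τ ⊆ τ' := by
      intro τ τ' hl hm heq p hp
      have ha : p.1 < th := hl p.1 ⟨p.2, hp⟩
      have hr : p.2 < m := hb p.1 ha p.2 (hm p.1 p.2 hp)
      have h3 : ((⟨p.1, ha.trans_le hth⟩, ⟨p.2, hr⟩) : Iio m × Iio m) ∈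
          {q : Iio m × Iio m | (q.1.1, q.2.1) ∈ τ} := hp
      rw [heq] at h3
      exact h3
    have key2 : ∀ e e' : Set Θ, (∀ g ∈ e, g < th) →
        {g : Iio m | g.1 ∈ e} = {g : Iio m | g.1 ∈ e'} → e ⊆ e' := by
      intro e e' hl heq g hg
      have h3 : (⟨g, (hl g hg).trans_le hth⟩ : Iio m) ∈ {g : Iio m | g.1 ∈ e} := hg
      rw [heq] at h3
      exact h3
    have e1 : σ = σ' := subset_antisymm (key σ σ' h.lt h.ch.mem h1)
      (key σ' σ h'.lt h'.ch.mem h1.symm)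
    have e2 : c = c' := subset_antisymm (key2 c c' h.sub h2) (key2 c' c h'.sub h2.symm)
    subst e1 e2
    rfl
  refine (Cardinal.mk_le_of_injective hF).trans (le_of_eq ?_)
  simp

theorem B2_empty {S : Θ → Lv Θ} (th : Θ) : PP (κ Θ X) S th ∅ ∅ where
  ch := isCh_empty (HG.κ_reg (Θ := Θ) (X := X)).aleph0_le
  lt := by
    rintro b ⟨r, hr⟩
    exact absurd hr (Set.notMem_empty _)
  sub := by
    intro g hg
    exact absurd hg (Set.notMem_empty _)
  card := by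
    rw [Cardinal.mk_eq_zero]
    exact lt_of_lt_of_le Cardinal.aleph0_pos (HG.κ_reg (Θ := Θ) (X := X)).aleph0_le

theorem card_PP_la0 {S : Θ → Lv Θ} (hS : Rf0 X S) {th : Θ} (hth : th < la X) :
    #{p : Set (Θ × Θ) × Set Θ | PP (κ Θ X) S th p.1 p.2} < #(Iio (la X : Θ)) := by
  choose bd hbd1 hbd2 using hS.bdd_la
  obtain ⟨b, hb1, hb2⟩ := bound_la X (ι := Iio th) (HG.la_init th hth)
    (fun a => bd a.1 (a.2.trans hth)) (fun a => hbd1 a.1 (a.2.trans hth))
  have hm : max th b < la X := max_lt hth hb1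
  refine lt_of_le_of_lt (B2_inj (m := max th b) (le_max_left _ _) ?_) ?_
  · intro a ha r hr
    exact ((hbd2 a (ha.trans hth) r hr).trans (hb2 ⟨a, ha⟩)).trans_le (le_max_right _ _)
  · have h1 : #(Iio (max th b)) < #(Iio (la X : Θ)) := HG.la_init _ hm
    have h2 := (κ_lt_mul X h1 h1).1
    exact (κ_lt_mul X (HG.la_sl _ h2) (HG.la_sl _ h1)).1

/-- Fewer than `δ` elements are bounded. -/
theorem B2_bound_th (X : Type) [HG Θ X] {ι : Type} (hι : #ι < #Θ) (f : ι → Θ) :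
    ∃ b, ∀ i, f i < b := by
  by_contra hcon
  push Not at hcon
  have hreg : (#Θ).IsRegular := HG.th_reg X
  have h1 : (Set.univ : Set Θ) ⊆ ⋃ i, Iic (f i) := by
    intro b _
    obtain ⟨i, hi⟩ := hcon b
    exact Set.mem_iUnion.2 ⟨i, hi⟩
  have h2 : ∀ i, #(Iic (f i)) < #Θ := by
    intro i
    have h3 : Iic (f i) = insert (f i) (Iio (f i)) := by
      ext b
      simp only [Set.mem_Iic, Set.mem_insert_iff, Set.mem_Iio]
      exact le_iff_eq_or_lt
    rw [h3]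
    refine lt_of_le_of_lt Cardinal.mk_insert_le ?_
    exact Cardinal.add_lt_of_lt hreg.aleph0_le (HG.th_init X _)
      (lt_of_lt_of_le Cardinal.one_lt_aleph0 hreg.aleph0_le)
  have h4 : #Θ ≤ Cardinal.sum fun i => #(Iic (f i)) := by
    rw [← Cardinal.mk_univ]
    exact (Cardinal.mk_le_mk_of_subset h1).trans (Cardinal.mk_iUnion_le_sum_mk)
  exact absurd (Cardinal.sum_lt_of_isRegular hreg hι h2) (not_lt.2 h4)

/-- Row B2.  For `th < la` there is a coding into a bounded part of `Iio la`: the number of the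
`(σ, c)` is less than `λ`, as `σ` is a subset of `Iio th × Iio b`, `b` a bound of all `(S c).C`,
`c < th`. -/
theorem exists_coding {S : Θ → Lv Θ} (hS : Rf0 X S) {th : Θ} (hth : th < la X) :
    ∃ f : Set (Θ × Θ) → Set Θ → Θ, FInj (κ Θ X) S th f ∧ ∃ b < la X, ∀ σ c, f σ c < b := by
  classical
  have hP := card_PP_la0 hS hth
  obtain ⟨e⟩ : Nonempty ({p : Set (Θ × Θ) × Set Θ | PP (κ Θ X) S th p.1 p.2} ↪
    Iio (la X : Θ)) := Cardinal.le_def _ _ |>.mp hP.le
  obtain ⟨b, hb1, hb2⟩ := bound_la X hP (fun p => (e p).1) (fun p => (e p).2)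
  refine ⟨fun σ c => if h : PP (κ Θ X) S th σ c then (e ⟨(σ, c), h⟩).1 else
    (e ⟨(∅, ∅), B2_empty th⟩).1, ?_, b, hb1, ?_⟩
  · intro σ c σ' c' h h' heq
    simp only at heq
    rw [dif_pos h, dif_pos h'] at heq
    have h1 := e.injective (Subtype.ext heq)
    have h2 := congrArg Subtype.val h1
    exact ⟨congrArg Prod.fst h2, congrArg Prod.snd h2⟩
  · intro σ c
    simp only
    split_ifs with h
    · exact hb2 _
    · exact hb2 _

/-- The number of elements of `P_th × R0|th` is less than `δ`, for every `th` (the values are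
bounded: `Rf.bdd`; used by the later parts). -/
theorem card_PP {S : Θ → Lv Θ} (hS : Rf0 X S) (th : Θ) :
    #{p : Set (Θ × Θ) × Set Θ | PP (κ Θ X) S th p.1 p.2} < #Θ := by
  choose bd hbd using hS.bdd
  obtain ⟨b, hb2⟩ := B2_bound_th X (ι := Iio th) (HG.th_init X th) (fun a => bd a.1)
  refine lt_of_le_of_lt (B2_inj (m := max th b) (le_max_left _ _) ?_) ?_
  · intro a ha r hr
    exact ((hbd a r hr).trans (hb2 ⟨a, ha⟩)).trans_le (le_max_right _ _)
  · have h0 : ℵ₀ ≤ #Θ := (HG.th_reg (Θ := Θ) X).aleph0_le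
    have h1 : #(Iio (max th b)) < #Θ := HG.th_init X _
    have h2 := Cardinal.mul_lt_of_lt h0 h1 h1
    exact Cardinal.mul_lt_of_lt h0 (HG.th_sl X _ h2) (HG.th_sl X _ h1)

theorem card_PP_la {S : Θ → Lv Θ} (hS : Rf0 X S) {th : Θ} (hth : th < la X) :
    #{p : Set (Θ × Θ) × Set Θ | PP (κ Θ X) S th p.1 p.2} < #(Iio (la X : Θ)) :=
  card_PP_la0 hS hth

end Pool.CF
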