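import Pool.Agent.Lib.MP_cc7fb1_cf.B2

/-!
# MP_cc7fb1: the labels below la (row B3)
-/

set_option autoImplicit false

open Cardinal Set

namespace Pool.CF

variable {Θ X : Type} [LinearOrder Θ] [WellFoundedLT Θ] [HG Θ X]

/-- Row B3.  The labels for `th < la` (choose by `univ_la` with `a₀ = th`; `Agree` gives the formulas,
for `lab_le` use `Agree.le`). -/
theorem exists_lab_la {S : Θ → Lv Θ} (hS : Rf X S) : ∃ (lab : Θ → Θ)
    (code : Θ → Set (Θ × Θ) → Set Θ → Θ), ∀ th < la X, lab th < la X ∧ th ≤ lab th ∧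
      (S (lab th)).C = {r | ∃ σ c, PP (κ Θ X) S th σ c ∧ r = code th σ c} ∧
      FInj (κ Θ X) S th (code th) ∧
      (∀ σ c σ' c', PP (κ Θ X) S th σ c → PP (κ Θ X) S th σ' c' →
        ((S (lab th)).le (code th σ' c') (code th σ c) ↔ ChLe S σ' σ ∧ EndExt c' c)) ∧
      ∀ σ c, PP (κ Θ X) S th σ c → (S (lab th)).sg (code th σ c) = σ := by
  have key : ∀ th : Θ, ∃ (l : Θ) (cd : Set (Θ × Θ) → Set Θ → Θ), th < la X → (l < la X ∧
      th ≤ l ∧ (S l).C = {r | ∃ σ c, PP (κ Θ X) S th σ c ∧ r = cd σ c} ∧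
      FInj (κ Θ X) S th cd ∧
      (∀ σ c σ' c', PP (κ Θ X) S th σ c → PP (κ Θ X) S th σ' c' →
        ((S l).le (cd σ' c') (cd σ c) ↔ ChLe S σ' σ ∧ EndExt c' c)) ∧
      ∀ σ c, PP (κ Θ X) S th σ c → (S l).sg (cd σ c) = σ) := by
    intro th
    by_cases hth : th < la X
    · obtain ⟨f, hf, b, hb, hfb⟩ := exists_coding hS.toRf0 hth
      have hY := isStr_ppL (th := th) (HG.κ_reg (Θ := Θ) (X := X)) hS.toRf0.structured hf
      obtain ⟨a, ha, hta, hA⟩ := hS.univ_la th hth _ hY ⟨b, hb, by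
        rintro r ⟨σ, c, _, rfl⟩
        exact hfb σ c⟩
      have hmem : ∀ σ c, PP (κ Θ X) S th σ c → f σ c ∈ (S a).C := by
        intro σ c h
        rw [hA.C]
        exact ⟨σ, c, h, rfl⟩
      refine ⟨a, f, fun _ => ⟨ha, hta, hA.C, hf, ?_, ?_⟩⟩
      · intro σ c σ' c' h h'
        rw [hA.le _ (hmem σ' c' h') _ (hmem σ c h)]
        exact ppL_le hf h h'
      · intro σ c h
        rw [hA.sg _ (hmem σ c h)]
        exact ppL_sg hf h
    · exact ⟨la X, fun _ _ => la X, fun h => absurd h hth⟩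
  choose lab code h using key
  exact ⟨lab, code, h⟩

end Pool.CF
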