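import Pool.Agent.Lib.MP_cc7fb1_cf.B3

/-!
# MP_cc7fb1: the labels up to la (row B4)
-/

set_option autoImplicit false

open Cardinal Set

namespace Pool.CF

variable {Θ X : Type} [LinearOrder Θ] [WellFoundedLT Θ] [HG Θ X]

/-- Row B4.  A chain with labels below `la` is moved by no `pi x`, a.e., and is in `P_(pi x la)`. -/
theorem ae_PP {S : Θ → Lv Θ} (hS : Rf X S) {σ : Set (Θ × Θ)} {c : Set Θ}
    (h : PP (κ Θ X) S (la X) σ c) : ∀ᶠ x in FF Θ X, PP (κ Θ X) S (pi x (la X)) σ c ∧
      tr (pi x) σ = σ := by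
  have hκ : κ Θ X < #(Iio (la X : Θ)) := HG.κ_lt
  have hσ : #σ < #(Iio (la X : Θ)) := h.ch.card.trans hκ
  have hc : #c < #(Iio (la X : Θ)) := h.card.trans hκ
  have h1 : ∀ᶠ x in FF Θ X, ∀ p : σ, p.1.1 < pi x (la X) ∧ pi x p.1.1 = p.1.1 ∧
      pi x p.1.2 = p.1.2 := by
    refine HG.compl σ (fun p x => p.1.1 < pi x (la X) ∧ pi x p.1.1 = p.1.1 ∧
      pi x p.1.2 = p.1.2) hσ ?_
    rintro ⟨⟨a, r⟩, hp⟩
    have ha : a < la X := h.lt a ⟨r, hp⟩
    obtain ⟨b, hb, hrb⟩ := hS.bdd_la a ha
    have hr : r < la X := (hrb r (h.ch.mem a r hp)).trans hb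
    filter_upwards [ae_lt_la ha, HG.pi_id a ha, HG.pi_id r hr] with x i1 i2 i3
    exact ⟨i1, i2, i3⟩
  have h2 : ∀ᶠ x in FF Θ X, ∀ g : c, g.1 < pi x (la X) := by
    refine HG.compl c (fun g x => g.1 < pi x (la X)) hc ?_
    rintro ⟨g, hg⟩
    exact ae_lt_la (h.sub g hg)
  filter_upwards [h1, h2] with x i1 i2
  refine ⟨⟨h.ch, ?_, fun g hg => i2 ⟨g, hg⟩, h.card⟩, ?_⟩
  · rintro b ⟨r, hr⟩
    exact (i1 ⟨(b, r), hr⟩).1
  · apply subset_antisymm
    · rintro _ ⟨p, hp, rfl⟩
      have h3 := i1 ⟨p, hp⟩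
      simp only at h3
      simp only [h3.2.1, h3.2.2]
      exact hp
    · intro p hp
      have h3 := i1 ⟨p, hp⟩
      simp only at h3
      exact ⟨p, hp, Prod.ext h3.2.1 h3.2.2⟩

/-- Row B4.  The labels for all `th ≤ la`: `lab la` represents `x ↦ lab (pi x la)` and `code la σ c`
represents `x ↦ code (pi x la) σ c`.  For `lab_C` at `la`: if `r ∈ (S (lab la)).C` then a.e.
`pi x r = code (pi x la) σ_x c_x` with `(σ_x, c_x)` in `P_(pi x la)`; a.e. the values at the labels
`b < pi x la` are `< pi x la` (`diag_la` and the bounds), so `σ_x` and `c_x` consist of elements of `x`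
which are not moved by `pi x`, so they are constant a.e. (`rep_pairs`, `rep_set`). -/
theorem exists_lab {S : Θ → Lv Θ} (hS : Rf X S) : ∃ (lab : Θ → Θ)
    (code : Θ → Set (Θ × Θ) → Set Θ → Θ), (∀ th < la X, lab th < la X) ∧
      (∀ th ≤ la X, th ≤ lab th ∧
      (S (lab th)).C = {r | ∃ σ c, PP (κ Θ X) S th σ c ∧ r = code th σ c} ∧
      FInj (κ Θ X) S th (code th) ∧
      (∀ σ c σ' c', PP (κ Θ X) S th σ c → PP (κ Θ X) S th σ' c' →
        ((S (lab th)).le (code th σ' c') (code th σ c) ↔ ChLe S σ' σ ∧ EndExt c' c)) ∧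
      ∀ σ c, PP (κ Θ X) S th σ c → (S (lab th)).sg (code th σ c) = σ) ∧
      (∀ᶠ x in FF Θ X, pi x (lab (la X)) = lab (pi x (la X))) ∧
      ∀ σ c, PP (κ Θ X) S (la X) σ c →
        ∀ᶠ x in FF Θ X, pi x (code (la X) σ c) = code (pi x (la X)) σ c := by
  classical
  obtain ⟨lab0, code0, h0⟩ := exists_lab_la hS
  obtain ⟨L, hL⟩ := rep (X := X) (f := fun x => lab0 (pi x (la X))) (by
    filter_upwards [ae_pi_lt_la (la X)] with x hx
    exact (h0 _ hx).1)
  have hcd : ∀ (σ : Set (Θ × Θ)) (c : Set Θ), ∃ r : Θ, PP (κ Θ X) S (la X) σ c →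
      ∀ᶠ x in FF Θ X, code0 (pi x (la X)) σ c = pi x r := by
    intro σ c
    by_cases h : PP (κ Θ X) S (la X) σ c
    · obtain ⟨r, hr⟩ := rep (X := X) (f := fun x => code0 (pi x (la X)) σ c) (by
        filter_upwards [ae_pi_lt_la (la X), ae_PP hS h] with x hx hP
        obtain ⟨b, hb, hb2⟩ := hS.bdd_la _ (h0 _ hx).1
        refine (hb2 _ ?_).trans hb
        rw [(h0 _ hx).2.2.1]
        exact ⟨σ, c, hP.1, rfl⟩)
      exact ⟨r, fun _ => hr⟩
    · exact ⟨la X, fun h' => absurd h' h⟩
  choose cd hcd using hcd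
  let lab : Θ → Θ := fun th => if th < la X then lab0 th else L
  let code : Θ → Set (Θ × Θ) → Set Θ → Θ :=
    fun th σ c => if th < la X then code0 th σ c else cd σ c
  have hlab0 : ∀ th < la X, lab th = lab0 th := fun th h => if_pos h
  have hlabl : lab (la X) = L := if_neg (lt_irrefl _)
  have hcode0 : ∀ th < la X, code th = code0 th := fun th h => by
    funext σ c
    exact if_pos h
  have hcodel : code (la X) = cd := by
    funext σ c
    exact if_neg (lt_irrefl _)
  have hex : ∀ {p : Prop}, (∀ᶠ _x in FF Θ X, p) → p := fun h => h.exists.choose_spec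
  refine ⟨lab, code, ?_, ?_, ?_, ?_⟩
  · intro th hth
    rw [hlab0 th hth]
    exact (h0 th hth).1
  · intro th hth
    rcases hth.lt_or_eq with hlt | rfl
    · rw [hlab0 th hlt, hcode0 th hlt]
      exact (h0 th hlt).2
    · rw [hlabl, hcodel]
      have hC : ∀ σ c, PP (κ Θ X) S (la X) σ c → cd σ c ∈ (S L).C := by
        intro σ c h
        rw [(hS.rep L).C]
        filter_upwards [ae_pi_lt_la (la X), ae_PP hS h, hL, hcd σ c h] with x hx hP i1 i2
        rw [← i1, ← i2, (h0 _ hx).2.2.1]
        exact ⟨σ, c, hP.1, rfl⟩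
      refine ⟨?_, ?_, ?_, ?_, ?_⟩
      · rw [← ae_pi_le_iff (X := X)]
        filter_upwards [ae_pi_lt_la (la X), hL] with x hx i1
        rw [← i1]
        exact (h0 _ hx).2.1
      · apply subset_antisymm
        · intro r hr
          rw [(hS.rep L).C] at hr
          have hbd : ∀ᶠ x in FF Θ X, ∀ a < pi x (la X), ∀ s ∈ (S a).C, s < pi x (la X) := by
            refine diag_la (B := fun a x => ∀ s ∈ (S a).C, s < pi x (la X)) ?_
            intro a ha
            obtain ⟨b, hb, hb2⟩ := hS.bdd_la a ha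
            filter_upwards [ae_lt_la hb] with x hx s hs
            exact (hb2 s hs).trans hx
          have hr2 : ∀ᶠ x in FF Θ X, ∃ (σ : Set (Θ × Θ)) (c : Set Θ),
              PP (κ Θ X) S (pi x (la X)) σ c ∧ pi x r = code0 (pi x (la X)) σ c := by
            filter_upwards [hr, hL, ae_pi_lt_la (la X)] with x i1 i2 i3
            rw [← i2, (h0 _ i3).2.2.1] at i1
            exact i1
          have hch : ∀ x : X, ∃ (σ : Set (Θ × Θ)) (c : Set Θ),
              (∃ (σ : Set (Θ × Θ)) (c : Set Θ),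
              PP (κ Θ X) S (pi x (la X)) σ c ∧ pi x r = code0 (pi x (la X)) σ c) →
              PP (κ Θ X) S (pi x (la X)) σ c ∧ pi x r = code0 (pi x (la X)) σ c := by
            intro x
            by_cases h : ∃ (σ : Set (Θ × Θ)) (c : Set Θ),
              PP (κ Θ X) S (pi x (la X)) σ c ∧ pi x r = code0 (pi x (la X)) σ c
            · obtain ⟨σ, c, h'⟩ := h
              exact ⟨σ, c, fun _ => h'⟩
            · exact ⟨∅, ∅, fun h' => absurd h' h⟩
          choose sx cx hsc using hch
          have hr3 : ∀ᶠ x in FF Θ X, PP (κ Θ X) S (pi x (la X)) (sx x) (cx x) ∧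
              pi x r = code0 (pi x (la X)) (sx x) (cx x) := hr2.mono fun x hx => hsc x hx
          obtain ⟨σ, hσ, hσ2⟩ := rep_pairs (X := X) (s := sx) (by
            filter_upwards [hr3, ae_pi_lt_la (la X), hbd] with x i1 i2 i3
            refine ⟨i1.1.ch.card, fun p hp => ?_⟩
            have ha : p.1 < pi x (la X) := i1.1.lt p.1 ⟨p.2, hp⟩
            exact ⟨ha.trans i2, (i3 _ ha _ (i1.1.ch.mem _ _ hp)).trans i2⟩)
          obtain ⟨c, hc, hc2⟩ := rep_set (X := X) (s := cx) (by
            filter_upwards [hr3, ae_pi_lt_la (la X)] with x i1 i2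
            exact ⟨i1.1.card, fun g hg => (i1.1.sub g hg).trans i2⟩)
          have hfix : ∀ᶠ x in FF Θ X, ∀ d : Θ, d ∈ el x → pi x d < pi x (la X) →
              d < pi x (la X) ∧ pi x d = d ∧ d < la X := by
            filter_upwards [ae_init (Θ := Θ) (X := X), HG.fine (la X)] with x i1 i2 d hd hlt
            have hdl : d < la X := (pi_lt_iff x hd i2).1 hlt
            have h3 : d < pi x (la X) := (i1.1 d).2 ⟨hd, hdl⟩
            exact ⟨h3, i1.2 d h3, hdl⟩
          have hσ3 : ∀ᶠ x in FF Θ X, sx x = σ ∧ cx x = c := by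
            filter_upwards [hr3, hσ2, hc2, hfix, hbd] with x i1 i2 i3 i4 i5
            constructor
            · rw [i2.1]
              have hp3 : ∀ p ∈ σ, pi x p.1 = p.1 ∧ pi x p.2 = p.2 := by
                intro p hp
                have hps : (pi x p.1, pi x p.2) ∈ sx x := by
                  rw [i2.1]
                  exact ⟨p, hp, rfl⟩
                have ha : pi x p.1 < pi x (la X) := i1.1.lt _ ⟨_, hps⟩
                have hb : pi x p.2 < pi x (la X) := i5 _ ha _ (i1.1.ch.mem _ _ hps)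
                exact ⟨(i4 _ (i2.2 p hp).1 ha).2.1, (i4 _ (i2.2 p hp).2 hb).2.1⟩
              apply subset_antisymm
              · rintro _ ⟨p, hp, rfl⟩
                simp only [(hp3 p hp).1, (hp3 p hp).2]
                exact hp
              · intro p hp
                exact ⟨p, hp, Prod.ext (hp3 p hp).1 (hp3 p hp).2⟩
            · rw [i3.1]
              have hp3 : ∀ g ∈ c, pi x g = g := by
                intro g hg
                have hgs : pi x g ∈ cx x := by
                  rw [i3.1]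
                  exact ⟨g, hg, rfl⟩
                exact (i4 _ (i3.2 hg) (i1.1.sub _ hgs)).2.1
              apply subset_antisymm
              · rintro _ ⟨g, hg, rfl⟩
                rw [hp3 g hg]
                exact hg
              · intro g hg
                exact ⟨g, hg, hp3 g hg⟩
          have hPP : PP (κ Θ X) S (la X) σ c := by
            apply hex
            filter_upwards [hr3, hσ3, ae_init (Θ := Θ) (X := X)] with x i1 i2 i3
            rw [i2.1, i2.2] at i1
            exact ⟨i1.1.ch, fun b hb => ((i3.1 b).1 (i1.1.lt b hb)).2,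
              fun g hg => ((i3.1 g).1 (i1.1.sub g hg)).2, i1.1.card⟩
          refine ⟨σ, c, hPP, ?_⟩
          rw [← ae_pi_eq_iff (X := X)]
          filter_upwards [hr3, hσ3, hcd σ c hPP] with x i1 i2 i3
          rw [i1.2, i2.1, i2.2, i3]
        · rintro r ⟨σ, c, h, rfl⟩
          exact hC σ c h
      · intro σ c σ' c' h h' heq
        apply hex
        filter_upwards [ae_pi_lt_la (la X), ae_PP hS h, ae_PP hS h', hcd σ c h, hcd σ' c' h']
          with x hx i1 i2 i3 i4
        refine (h0 _ hx).2.2.2.1 σ c σ' c' i1.1 i2.1 ?_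
        rw [i3, i4, heq]
      · intro σ c σ' c' h h'
        rw [(hS.rep L).le _ (hC σ' c' h') _ (hC σ c h)]
        have hiff : ∀ᶠ x in FF Θ X, ((S (pi x L)).le (pi x (cd σ' c')) (pi x (cd σ c)) ↔
            ChLe S σ' σ ∧ EndExt c' c) := by
          filter_upwards [ae_pi_lt_la (la X), ae_PP hS h, ae_PP hS h', hcd σ c h, hcd σ' c' h',
            hL] with x hx i1 i2 i3 i4 i5
          rw [← i3, ← i4, ← i5]
          exact (h0 _ hx).2.2.2.2.1 σ c σ' c' i1.1 i2.1
        constructor
        · intro h1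
          apply hex
          filter_upwards [h1, hiff] with x i1 i2
          exact i2.1 i1
        · intro h1
          filter_upwards [hiff] with x i2
          exact i2.2 h1
      · intro σ c h
        have hsm := (hS.rep L).small _ (hC σ c h)
        apply hex
        filter_upwards [(hS.rep L).sg _ (hC σ c h), ae_pi_lt_la (la X), ae_PP hS h, hcd σ c h,
          hL, ae_pairs_mem h.ch.card, ae_pairs_mem hsm] with x i1 hx i2 i3 i4 i5 i6
        rw [← i3, ← i4, (h0 _ hx).2.2.2.2.2 σ c i2.1] at i1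
        exact (tr_inj x i5 i6 (i2.2.trans i1)).symm
  · filter_upwards [hL, ae_pi_lt_la (la X)] with x i1 i2
    rw [hlabl, hlab0 _ i2]
    exact i1.symm
  · intro σ c h
    filter_upwards [hcd σ c h, ae_pi_lt_la (la X)] with x i1 i2
    rw [hcodel, hcode0 _ i2]
    exact i1.symm

end Pool.CF
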