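import Pool.Agent.Lib.MP_cc7fb1_cf.LevDef

/-!
# MP_cc7fb1: own levels (row C1)
-/

set_option autoImplicit false
set_option linter.unusedSectionVars false

open Cardinal Set Pool.CF

namespace Pool.CV

variable {Θ X : Type} [LinearOrder Θ] [WellFoundedLT Θ] [D : SG Θ X]

private lemma C1_mem {Y : OL Θ X} (hY : Y.OK) {l : LL Θ X} (hl : l ∈ Y.Q) :
    Y.code l ∈ (D.S Y.a).C := by
  rw [hY.C]; exact ⟨l, hl, rfl⟩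

private lemma C1_tp {Y : OL Θ X} (hY : Y.OK) {l : LL Θ X} (hl : l ∈ Y.Q) :
    Y.tp l = Chn.tp Y.a (Y.code l) (C1_mem hY hl) := by
  unfold OL.tp
  rw [dif_pos (C1_mem hY hl)]

/-- C1. -/
lemma OL.OK.tp_v {Y : OL Θ X} (hY : Y.OK) {l : LL Θ X} (hl : l ∈ Y.Q) :
    (Y.tp l).v = insert (Y.a, Y.code l) (Y.sg l).v := by
  rw [C1_tp hY hl, ← hY.sgc l hl]
  rfl

/-- C1. -/
lemma OL.OK.le_tp_iff {Y : OL Θ X} (hY : Y.OK) {l : LL Θ X} (hl : l ∈ Y.Q) (p : Chn Θ X) :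
    p ≤ Y.tp l ↔ ∃ l' ∈ Y.Q, l' ≤ l ∧ (Y.a, Y.code l') ∈ p.v := by
  rw [C1_tp hY hl, Chn.le_tp_iff]
  constructor
  · rintro ⟨r', hr', hle⟩
    have hC := p.ch.mem _ _ hr'
    rw [hY.C] at hC
    obtain ⟨l', hl', rfl⟩ := hC
    exact ⟨l', hl', (hY.le l hl l' hl').1 hle, hr'⟩
  · rintro ⟨l', hl', hle, h⟩
    exact ⟨_, h, (hY.le l hl l' hl').2 hle⟩

/-- C1. -/
lemma OL.OK.tp_mono {Y : OL Θ X} (hY : Y.OK) {l l' : LL Θ X} (hl : l ∈ Y.Q) (hl' : l' ∈ Y.Q)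
    (h : l' ≤ l) : Y.tp l' ≤ Y.tp l := by
  rw [hY.le_tp_iff hl]
  exact ⟨l', hl', h, by rw [hY.tp_v hl']; exact mem_insert _ _⟩

/-- C1. -/
lemma OL.OK.tp_le {Y : OL Θ X} (hY : Y.OK) {l : LL Θ X} (hl : l ∈ Y.Q) : Y.tp l ≤ Y.sg l := by
  rw [Chn.le_def]
  intro a r h
  exact ⟨r, by rw [hY.tp_v hl]; exact mem_insert_of_mem _ h,
    (D.str a).refl r ((Y.sg l).ch.mem _ _ h)⟩

/-- C1: if `(Y.a, Y.code l) ∈ p` then the part of `p` below the label `Y.a` is `sg l`. -/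
lemma OL.OK.cut_eq {Y : OL Θ X} (hY : Y.OK) {l : LL Θ X} (hl : l ∈ Y.Q) {p : Chn Θ X}
    (h : (Y.a, Y.code l) ∈ p.v) : p.cut Y.a = Y.sg l := by
  apply Chn.ext'
  have h1 := p.ch.coh _ _ h
  rw [hY.sgc l hl] at h1
  exact h1.symm

/-- C1: the values at the label `Y.a` are codes. -/
lemma OL.OK.exists_code {Y : OL Θ X} (hY : Y.OK) {p : Chn Θ X} (h : Y.a ∈ p.lev) :
    ∃ l ∈ Y.Q, (Y.a, Y.code l) ∈ p.v := by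
  obtain ⟨r, hr⟩ := h
  have hC := p.ch.mem _ _ hr
  rw [hY.C] at hC
  obtain ⟨l, hl, rfl⟩ := hC
  exact ⟨l, hl, hr⟩

/-- C1: lifting at the label `Y.a`. -/
lemma OL.OK.lift {Y : OL Θ X} (hY : Y.OK) {p : Chn Θ X} {l l' : LL Θ X} (hl : l ∈ Y.Q)
    (h : (Y.a, Y.code l) ∈ p.v) (hl' : l' ∈ Y.Q) (hle : l' ≤ l) :
    ∃ q : Chn Θ X, q ≤ p ∧ Cof p.v q.v ∧ ∃ l'' ∈ Y.Q, l'' ≤ l' ∧ (Y.a, Y.code l'') ∈ q.v := by
  obtain ⟨q, hq, hc, r, hr, hler⟩ := Chn.lift_at h (C1_mem hY hl') ((hY.le l hl l' hl').2 hle)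
  have hC := q.ch.mem _ _ hr
  rw [hY.C] at hC
  obtain ⟨l'', hl'', rfl⟩ := hC
  exact ⟨q, hq, hc, l'', hl'', (hY.le l' hl' l'' hl'').1 hler, hr⟩

end Pool.CV
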