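import Pool.Agent.Lib.MP_cc7fb1_cf.C1

/-!
# MP_cc7fb1: own levels (row C2)
-/

set_option autoImplicit false
set_option linter.unusedSectionVars false

open Cardinal Set Pool.CF

namespace Pool.CV

variable {Θ X : Type} [LinearOrder Θ] [WellFoundedLT Θ] [D : SG Θ X]

/-- The set of labels of a chain is small. -/
private lemma C2_mk_lev (p : Chn Θ X) : #p.lev < D.κ := by
  refine lt_of_le_of_lt ?_ p.ch.card
  have h : p.lev = Prod.fst '' p.v := by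
    ext a
    constructor
    · rintro ⟨r, hr⟩
      exact ⟨(a, r), hr, rfl⟩
    · rintro ⟨⟨a', r⟩, hr, rfl⟩
      exact ⟨r, hr⟩
  rw [h]
  exact mk_image_le

variable (Θ X) in
include D in
private lemma C2_exists_bound {E : Set Θ} (h : #E < #Θ) : ∃ b, ∀ a ∈ E, a < b := by
  by_contra hcon
  push Not at hcon
  have hIic : ∀ a : Θ, #(Iic a) < #Θ := by
    intro a
    rw [← Set.Iio_insert]
    exact mk_insert_le.trans_lt (add_lt_of_lt D.th_reg.aleph0_le (D.th_init a)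
      (one_lt_aleph0.trans_le D.th_reg.aleph0_le))
  have h1 : (Set.univ : Set Θ) ⊆ ⋃ i : E, Iic i.1 := by
    intro b _
    obtain ⟨i, hi, hle⟩ := hcon b
    exact Set.mem_iUnion.2 ⟨⟨i, hi⟩, hle⟩
  have h2 : #(⋃ i : E, Iic i.1) < #Θ :=
    (card_iUnion_lt_iff_forall_of_isRegular D.th_reg h).2 fun i => hIic i.1
  have h3 := (mk_le_mk_of_subset h1).trans_lt h2
  rw [mk_univ] at h3
  exact absurd h3 (lt_irrefl _)

variable (Θ X) in
private lemma C2_kappa_lt : D.κ < #Θ :=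
  D.κ_lt.trans (D.th_init _)

private lemma C2_mk_Q (Y : PreL Θ X) (hY : Y.Good) : #Y.Q < #Θ :=
  lt_of_le_of_lt (mk_le_mk_of_subset fun l hl => hY.inn l hl) (LL.mk_lt Y.al)

private lemma C2_bound (Y : PreL Θ X) (hY : Y.Good) (a₀ : Θ) :
    ∃ a, a₀ ≤ a ∧ ∀ l ∈ Y.Q, ∀ b ∈ (Y.sg l).lev, b < a := by
  have h1 : #(⋃ l : Y.Q, (Y.sg l.1).lev : Set Θ) < #Θ := by
    refine lt_of_le_of_lt (mk_iUnion_le _) ?_
    refine mul_lt_of_lt D.th_reg.aleph0_le (C2_mk_Q Y hY) ?_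
    exact iSup_lt_of_isRegular D.th_reg (C2_mk_Q Y hY) fun l =>
      (C2_mk_lev (Y.sg l.1)).trans (C2_kappa_lt Θ X)
  obtain ⟨b, hb⟩ := C2_exists_bound Θ X h1
  refine ⟨max a₀ b, le_max_left _ _, fun l hl c hc => lt_of_lt_of_le (hb c ?_) (le_max_right _ _)⟩
  exact mem_iUnion.2 ⟨⟨l, hl⟩, hc⟩

/-- C2: every good set of conditions is a level of the system. -/
theorem exists_label (Y : PreL Θ X) (hY : Y.Good) (a₀ : Θ) :
    ∃ Z : OL Θ X, Z.toPreL = Y ∧ Z.OK ∧ a₀ ≤ Z.a := by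
  classical
  obtain ⟨a₁, ha₁, hbd⟩ := C2_bound Y hY a₀
  obtain ⟨⟨e, he⟩⟩ : #Y.Q ≤ #Θ := (C2_mk_Q Y hY).le
  let code : LL Θ X → Θ := fun l => if h : l ∈ Y.Q then e ⟨l, h⟩ else D.la
  have hcode : ∀ (l : LL Θ X) (h : l ∈ Y.Q), code l = e ⟨l, h⟩ := fun l h => dif_pos h
  have hinj : ∀ l ∈ Y.Q, ∀ l' ∈ Y.Q, code l = code l' → l = l' := by
    intro l hl l' hl' h
    rw [hcode l hl, hcode l' hl'] at h
    exact congrArg Subtype.val (he h)
  let W : Lv Θ :=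
    { C := code '' Y.Q
      le := fun r' r => ∃ l' ∈ Y.Q, ∃ l ∈ Y.Q, code l' = r' ∧ code l = r ∧ l' ≤ l
      sg := fun r => {x | ∃ l ∈ Y.Q, code l = r ∧ x ∈ (Y.sg l).v} }
  have hWle : ∀ l ∈ Y.Q, ∀ l' ∈ Y.Q, (W.le (code l') (code l) ↔ l' ≤ l) := by
    intro l hl l' hl'
    constructor
    · rintro ⟨m', hm', m, hm, e1, e2, hle⟩
      rw [← hinj _ hm' _ hl' e1, ← hinj _ hm _ hl e2]
      exact hle
    · intro h
      exact ⟨l', hl', l, hl, rfl, rfl, h⟩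
  have hWsg : ∀ l ∈ Y.Q, W.sg (code l) = (Y.sg l).v := by
    intro l hl
    ext x
    constructor
    · rintro ⟨m, hm, e1, hx⟩
      rw [← hinj _ hm _ hl e1]
      exact hx
    · intro hx
      exact ⟨l, hl, rfl, hx⟩
  have hstr : IsStr D.κ D.S a₁ W := by
    refine ⟨?_, ?_, ?_, ?_, ?_, ?_, ?_, ?_⟩
    · rintro _ ⟨l, hl, rfl⟩
      exact (hWle l hl l hl).2 le_rfl
    · rintro _ ⟨l, hl, rfl⟩ _ ⟨m, hm, rfl⟩ _ ⟨n, hn, rfl⟩ h1 h2
      exact (hWle n hn l hl).2 (((hWle m hm l hl).1 h1).trans ((hWle n hn m hm).1 h2))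
    · rintro _ ⟨l, hl, rfl⟩ _ ⟨m, hm, rfl⟩ h1 h2
      rw [le_antisymm ((hWle m hm l hl).1 h1) ((hWle l hl m hm).1 h2)]
    · rintro _ ⟨l, hl, rfl⟩
      rw [hWsg l hl]
      exact (Y.sg l).ch
    · rintro _ ⟨l, hl, rfl⟩ b hb
      rw [hWsg l hl] at hb
      exact hbd l hl b hb
    · rintro _ ⟨l, hl, rfl⟩ _ ⟨m, hm, rfl⟩ h1
      rw [hWsg l hl, hWsg m hm]
      exact hY.mono l hl m hm ((hWle l hl m hm).1 h1)
    · intro F hF hne hc hd
      let E : Set (LL Θ X) := {l | l ∈ Y.Q ∧ code l ∈ F}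
      have hEQ : E ⊆ Y.Q := fun l hl => hl.1
      have hex : ∀ d ∈ F, ∃ l ∈ E, code l = d := by
        intro d hd'
        obtain ⟨l, hl, rfl⟩ := hF hd'
        exact ⟨l, ⟨hl, hd'⟩, rfl⟩
      have hEne : E.Nonempty := by
        obtain ⟨d, hd'⟩ := hne
        obtain ⟨l, hl, -⟩ := hex d hd'
        exact ⟨l, hl⟩
      have hEc : #E < D.κ := by
        refine lt_of_le_of_lt (mk_le_of_injective (f := fun l : E => (⟨code l.1, l.2.2⟩ : F)) ?_) hc
        intro l l' h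
        exact Subtype.ext (hinj _ l.2.1 _ l'.2.1 (congrArg Subtype.val h))
      have hEd : Dir E := by
        intro l hl m hm
        obtain ⟨d, hdF, h1, h2⟩ := hd _ hl.2 _ hm.2
        obtain ⟨n, hn, rfl⟩ := hex d hdF
        exact ⟨n, hn, (hWle l hl.1 n hn.1).1 h1, (hWle m hm.1 n hn.1).1 h2⟩
      obtain ⟨g, hg⟩ := LL.dg E hEne hEc hEd
      have hgQ : g ∈ Y.Q := hY.closed E hEQ hEne hEc hEd g hg
      have hcont := hY.cont E hEQ hEne hEc hEd g hg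
      refine ⟨code g, ⟨⟨g, hgQ, rfl⟩, ?_, ?_⟩, ?_⟩
      · intro d hdF
        obtain ⟨l, hl, rfl⟩ := hex d hdF
        exact (hWle l hl.1 g hgQ).2 (hg.1 hl)
      · rintro _ ⟨m, hm, rfl⟩ h
        refine (hWle g hgQ m hm).2 (hg.2 fun l hl => ?_)
        exact (hWle l hl.1 m hm).1 (h _ hl.2)
      · rw [hWsg g hgQ]
        have hne' : (Y.sg '' E).Nonempty := hEne.image _
        have hc' : #(Y.sg '' E) < D.κ := lt_of_le_of_lt mk_image_le hEc
        have hd' : Dir (Y.sg '' E) := by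
          rintro _ ⟨l, hl, rfl⟩ _ ⟨m, hm, rfl⟩
          obtain ⟨n, hn, h1, h2⟩ := hEd l hl m hm
          exact ⟨_, ⟨n, hn, rfl⟩, hY.mono l hl.1 n hn.1 h1, hY.mono m hm.1 n hn.1 h2⟩
        have hvals : ∀ b s, s ∈ vals (W.sg '' F) b ↔ ∃ p ∈ Y.sg '' E, (b, s) ∈ p.v := by
          intro b s
          constructor
          · rintro ⟨_, ⟨d, hdF, rfl⟩, hs⟩
            obtain ⟨l, hl, rfl⟩ := hex d hdF
            rw [hWsg l hl.1] at hs
            exact ⟨_, ⟨l, hl, rfl⟩, hs⟩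
          · rintro ⟨_, ⟨l, hl, rfl⟩, hs⟩
            exact ⟨_, ⟨code l, hl.2, rfl⟩, by rw [hWsg l hl.1]; exact hs⟩
        refine ⟨fun b => ?_, fun b s hs => ?_⟩
        · have h1 := Chn.lev_glb hne' hc' hd' hcont b
          constructor
          · intro h2
            obtain ⟨p, hp, s, hs⟩ := h1.1 h2
            exact ⟨s, (hvals b s).2 ⟨p, hp, hs⟩⟩
          · rintro ⟨s, hs⟩
            obtain ⟨p, hp, hs'⟩ := (hvals b s).1 hs
            exact h1.2 ⟨p, hp, s, hs'⟩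
        · have h1 := Chn.val_glb hne' hc' hd' hcont hs
          have h2 : vals (W.sg '' F) b = {s | ∃ p ∈ Y.sg '' E, (b, s) ∈ p.v} := by
            ext s'
            exact hvals b s'
          rw [h2]
          exact h1
    · rintro _ ⟨l, hl, rfl⟩ σ hσ hle hcof
      rw [hWsg l hl] at hle hcof
      obtain ⟨l', hl', h1, h2⟩ := hY.ext l hl ⟨σ, hσ⟩ hle hcof
      refine ⟨code l', ⟨l', hl', rfl⟩, (hWle l hl l' hl').2 h1, ?_⟩
      rw [hWsg l' hl']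
      exact h2
  have hb : ∃ b, ∀ r ∈ W.C, r < b := by
    refine C2_exists_bound Θ X ?_
    exact lt_of_le_of_lt mk_image_le (C2_mk_Q Y hY)
  obtain ⟨a, ha, hag⟩ := D.univ a₁ W hstr hb
  have hmemC : ∀ l ∈ Y.Q, code l ∈ (D.S a).C := by
    intro l hl
    rw [hag.C]
    exact ⟨l, hl, rfl⟩
  refine ⟨{ toPreL := Y, a := a, code := code }, rfl, ?_, ha₁.trans ha⟩
  refine ⟨hY, ?_, hag.C, hinj, ?_, ?_⟩
  · intro l hl b hb
    exact (hbd l hl b hb).trans_le ha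
  · intro l hl l' hl'
    exact (hag.le _ (hmemC l' hl') _ (hmemC l hl)).trans (hWle l hl l' hl')
  · intro l hl
    exact (hag.sg _ (hmemC l hl)).trans (hWsg l hl)

end Pool.CV
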