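import Pool.Agent.Lib.MP_cc7fb1_cf.C2

/-!
# MP_cc7fb1: own levels (row C3)
-/

set_option autoImplicit false
set_option linter.unusedSectionVars false

open Cardinal Set Pool.CF

namespace Pool.CV

variable {Θ X : Type} [LinearOrder Θ] [WellFoundedLT Θ] [D : SG Θ X]

private lemma C3_cut_lev {p : Chn Θ X} {a b : Θ} (h : b ∈ (p.cut a).lev) : b ∈ p.lev := by
  obtain ⟨r, hr⟩ := h
  exact ⟨r, hr.1⟩

private lemma C3_lev_cut {p : Chn Θ X} {a b : Θ} (h : b ∈ p.lev) (hb : b < a) :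
    b ∈ (p.cut a).lev := by
  obtain ⟨r, hr⟩ := h
  exact ⟨r, hr, hb⟩

/-- C3: if `Y` is always known to `Z` and `W` is known to `Y` then `W` is known to `Z`. -/
lemma Lt.trans {W Y Z : OL Θ X} (hZ : Z.OK) (hY : Y.OK) (h : Lt W Y) (h' : Lt Y Z)
    (hal : ∀ l ∈ Z.Q, Y.a ∈ (Z.sg l).lev) : Lt W Z := by
  refine ⟨h.al.trans h'.al, h.a.trans h'.a, fun l hl ha => ?_, fun l hl => ?_⟩
  · obtain ⟨hq, hqv⟩ := h'.known l hl (hal l hl)
    have hcut := hY.cut_eq hq hqv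
    have ha' : W.a ∈ (Y.sg (l.res Y.al)).lev := by
      rw [← hcut]
      exact C3_lev_cut ha h.a
    obtain ⟨h1, h2⟩ := h.known _ hq ha'
    rw [LL.res_res h.al] at h1 h2
    refine ⟨h1, ?_⟩
    rw [← hcut] at h2
    exact h2.1
  · obtain ⟨q₀, hq₀, hle₀⟩ := hZ.good.dense l hl
    obtain ⟨q₁, hq₁, hle₁, ha₁⟩ := h.dense (q₀.res Y.al) (LL.res_in _ _)
    obtain ⟨m, hm1, hm2, hm3, -, hm5, -⟩ := LL.amal (hY.good.inn q₁ hq₁) hle₁
    have hmin : m.In Z.al := by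
      intro t ht
      rw [hm5] at ht
      rcases ht with ht | ht
      · exact lt_of_lt_of_le (hY.good.inn q₁ hq₁ t ht) h'.al
      · exact hZ.good.inn q₀ hq₀ t ht
    obtain ⟨q, hq, hle⟩ := hZ.good.dense m hmin
    refine ⟨q, hq, hle.trans (hm2.trans hle₀), ?_⟩
    obtain ⟨hr, hrv⟩ := h'.known q hq (hal q hq)
    have hcut := hY.cut_eq hr hrv
    have hrle : q.res Y.al ≤ q₁ := by
      rw [← hm3]
      exact LL.res_mono _ hle
    have hmono := hY.good.mono _ hq₁ _ hr hrle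
    have h3 := Chn.lev_mono hmono ha₁
    rw [← hcut] at h3
    exact C3_cut_lev h3

/-- C3: if `Y` is known at `l` then the chain of `l` extends the chain of `l.res Y.al`. -/
lemma Lt.sub {Y Z : OL Θ X} (hY : Y.OK) (h : Lt Y Z) {l : LL Θ X} (hl : l ∈ Z.Q)
    (ha : Y.a ∈ (Z.sg l).lev) : (Y.tp (l.res Y.al)).v ⊆ (Z.sg l).v := by
  obtain ⟨hq, hqv⟩ := h.known l hl ha
  rw [hY.tp_v hq, ← hY.cut_eq hq hqv]
  intro t ht
  rcases ht with rfl | ht
  · exact hqv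
  · exact ht.1

/-- C3: the levels known to `Y` at `l.res Y.al` are known to `Z` at `l`. -/
lemma Lt.sub_le {Y Z : OL Θ X} (hY : Y.OK) (h : Lt Y Z) {l : LL Θ X} (hl : l ∈ Z.Q)
    (ha : Y.a ∈ (Z.sg l).lev) : Z.sg l ≤ Y.tp (l.res Y.al) := by
  obtain ⟨hq, hqv⟩ := h.known l hl ha
  exact (hY.le_tp_iff hq _).2 ⟨_, hq, le_rfl, hqv⟩

end Pool.CV
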