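import Pool.Agent.Lib.MP_cc7fb1_cf.C3

/-!
# MP_cc7fb1: own levels (row C4)
-/

set_option autoImplicit false
set_option linter.unusedSectionVars false

open Cardinal Set Pool.CF

namespace Pool.CV

variable {Θ X : Type} [LinearOrder Θ] [WellFoundedLT Θ] [D : SG Θ X]

/-- C4. -/
lemma zr_le (a : Θ) : zr Θ X ≤ a :=
  not_lt.1 ((wellFounded_lt (α := Θ)).not_lt_min univ (mem_univ a))

private lemma C4_h {l : LL Θ X} (h : l.In (zr Θ X)) : l.1.h = ∅ := by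
  rw [eq_empty_iff_forall_notMem]
  intro t ht
  exact absurd (h t ht) (not_lt.2 (zr_le _))

private lemma C4_PP (l : LL Θ X) : PP D.κ D.S D.la l.1.s.v l.2.c where
  ch := l.1.s.ch
  lt := l.1.low
  sub := l.2.sub
  card := l.2.card

private lemma C4_mk {σ : Set (Θ × Θ)} {c : Set Θ} (h : PP D.κ D.S D.la σ c) :
    ∃ l : LL Θ X, l.In (zr Θ X) ∧ l.1.s.v = σ ∧ l.2.c = c := by
  refine ⟨(⟨⟨σ, h.ch⟩, ∅, h.lt, ⟨by rw [mk_eq_zero]; exact D.la_reg.pos,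
      fun _ h => absurd h (notMem_empty _), fun _ h => absurd h (notMem_empty _),
      fun _ h => absurd h (notMem_empty _)⟩,
    fun _ _ _ _ _ _ h => absurd h (notMem_empty _)⟩, ⟨c, h.sub, h.card⟩), ?_, rfl, rfl⟩
  intro t ht
  exact absurd ht (notMem_empty _)

private lemma C4_le {l l' : LL Θ X} (hl : l.In (zr Θ X)) (hl' : l'.In (zr Θ X)) :
    (ChLe D.S l'.1.s.v l.1.s.v ∧ EndExt l'.2.c l.2.c) ↔ l' ≤ l := by
  constructor
  · rintro ⟨h1, h2⟩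
    exact ⟨⟨h1, by rw [C4_h hl]; exact empty_subset _⟩, h2⟩
  · rintro ⟨h1, h2⟩
    exact ⟨h1.1, h2⟩

/-- C4. -/
theorem F0_ok : (F0 Θ X).OK := by
  refine ⟨⟨fun l hl => hl, fun l hl => ⟨l, hl, le_rfl⟩, ?_, fun l _ l' _ h => h.1.1, ?_, ?_⟩,
    ?_, ?_, ?_, ?_, ?_⟩
  · intro E hE hne hc hd g hg
    exact LL.in_glb hne hc hd hg hE
  · intro E _ hne hc hd g hg
    exact LL.glb_s hne hc hd hg
  · intro l hl σ hσ hcof
    have hlow : σ.Low := by
      intro b hb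
      obtain ⟨b', hb', hle⟩ := hcof b hb
      exact hle.trans_lt (l.1.low b' hb')
    obtain ⟨m, hm, hms, hmh, -⟩ := LL.with_s hlow hσ
    refine ⟨m, ?_, hm, hms.le⟩
    intro t ht
    rw [hmh] at ht
    exact hl t ht
  · intro l _ b hb
    exact (l.1.low b hb).trans_le (D.le_lab D.la le_rfl)
  · show (D.S (D.lab D.la)).C = _
    rw [D.lab_C D.la le_rfl]
    ext r
    constructor
    · rintro ⟨σ, c, h, rfl⟩
      obtain ⟨l, hl, rfl, rfl⟩ := C4_mk h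
      exact ⟨l, hl, rfl⟩
    · rintro ⟨l, _, rfl⟩
      exact ⟨_, _, C4_PP l, rfl⟩
  · intro l hl l' hl' h
    obtain ⟨h1, h2⟩ := D.code_inj D.la le_rfl _ _ _ _ (C4_PP l) (C4_PP l') h
    refine Prod.ext (BB.ext' (Chn.ext' h1) ?_) (R0.ext' h2)
    rw [C4_h hl, C4_h hl']
  · intro l hl l' hl'
    exact (D.lab_le D.la le_rfl _ _ _ _ (C4_PP l) (C4_PP l')).trans (C4_le hl hl')
  · intro l _
    exact D.lab_sg D.la le_rfl _ _ (C4_PP l)

end Pool.CV
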