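import Pool.Agent.Lib.MP_cc7fb1_cf.H3

/-!
# MP_cc7fb1: Lemmas 2 and 3 (row H4)
-/

set_option autoImplicit false

open Cardinal Set

namespace Pool.CF

variable {Θ : Type} [LinearOrder Θ] [WellFoundedLT Θ] {κ : Cardinal.{0}} {S S' : Θ → Lv Θ}
  {σ σ' τ : Set (Θ × Θ)} {a b : Θ}

/-! ### Row H4: Lemmas 2 and 3 -/

/-- The chain of an element with its top. -/
def H4_T (S : Θ → Lv Θ) (a v : Θ) : Set (Θ × Θ) := addTop ((S a).sg v) a v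

omit [WellFoundedLT Θ] in
lemma H4_self (v : Θ) : (a, v) ∈ H4_T S a v := mem_insert _ _

omit [WellFoundedLT Θ] in
lemma H4_lev (hS : Structured κ S) {v c : Θ} (hv : v ∈ (S a).C) (hc : c ∈ lev (H4_T S a v)) :
    c ≤ a := by
  obtain ⟨t, ht⟩ := hc
  rcases ht with h | h
  · exact (congrArg Prod.fst h).le
  · exact ((hS a).lt v hv c ⟨t, h⟩).le

/-- The requirement on the value at `a`. -/
def H4_Q (S : Θ → Lv Θ) (σ σ' : Set (Θ × Θ)) (ini : Set Θ) (a : Θ) (s : (j : Θ) → j < a → Θ)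
    (v : Θ) : Prop :=
  ∀ r, (a, r) ∈ σ → a ∉ ini → v ∈ (S a).C ∧ (S a).le v r ∧ ChLe S (H4_T S a v) σ' ∧
    ∀ c (hc : c < a), ∀ r', (c, r') ∈ σ → c ∉ ini → ChLe S (H4_T S a v) (H4_T S c (s c hc))

theorem H4_inf (hκ : κ.IsRegular) (hS : Structured κ S) (hσ : IsCh κ S σ) {ini : Set Θ}
    (hσ' : IsCh κ S σ') (hle : ChLe S σ' {p | p ∈ σ ∧ p.1 ∈ ini})
    (hcof : Cof {p | p ∈ σ ∧ p.1 ∈ ini} σ') (J : Set Θ)
    (s : Θ → Θ) (hs : ∀ c ∈ J, H4_Q S σ σ' ini c (fun k _ => s k) (s c)) :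
    ∃ E, IsCh κ S E ∧ ChLe S E σ' ∧
      (∀ c ∈ J, ∀ r, (c, r) ∈ σ → c ∉ ini → ChLe S E (H4_T S c (s c))) ∧
      (∀ c t, (c, t) ∈ σ → (c ∈ J ∨ c ∈ ini) → ∃ t', (c, t') ∈ E ∧ (S c).le t' t) ∧
      ∀ e ∈ lev E, (∃ b' ∈ lev σ, b' ∈ ini ∧ e ≤ b') ∨ ∃ c ∈ lev σ, c ∈ J ∧ e ≤ c := by
  have hκ0 : ℵ₀ ≤ κ := hκ.aleph0_le
  let F : Set (Set (Θ × Θ)) := insert σ' {ρ | ∃ c ∈ J, ∃ r, (c, r) ∈ σ ∧ c ∉ ini ∧
    ρ = H4_T S c (s c)}
  have hF0 : σ' ∈ F := mem_insert _ _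
  have hFc : ∀ c ∈ J, ∀ r, (c, r) ∈ σ → c ∉ ini → H4_T S c (s c) ∈ F := fun c hc r hr hi =>
    mem_insert_of_mem _ ⟨c, hc, r, hr, hi, rfl⟩
  have hcard : #F < κ := by
    have h1 : F ⊆ insert σ' ((fun p : Θ × Θ => H4_T S p.1 (s p.1)) '' σ) := by
      rintro ρ (rfl | ⟨c, _, r, hr, _, rfl⟩)
      · exact mem_insert _ _
      · exact mem_insert_of_mem _ ⟨(c, r), hr, rfl⟩
    refine (mk_le_mk_of_subset h1).trans_lt ?_
    refine (mk_insert_le).trans_lt ?_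
    refine add_lt_of_lt hκ0 (mk_image_le.trans_lt hσ.card) ?_
    exact one_lt_aleph0.trans_le hκ0
  have hchT : ∀ c ∈ J, ∀ r, (c, r) ∈ σ → c ∉ ini → IsCh κ S (H4_T S c (s c)) :=
    fun c hc r hr hi => hS.isCh_top hκ0 (hs c hc r hr hi).1
  have hch : ∀ ρ ∈ F, IsCh κ S ρ := by
    rintro ρ (rfl | ⟨c, hc, r, hr, hi, rfl⟩)
    · exact hσ'
    · exact hchT c hc r hr hi
  have hdir : ∀ ρ ∈ F, ∀ ρ' ∈ F, ∃ ρ'' ∈ F, ChLe S ρ'' ρ ∧ ChLe S ρ'' ρ' := by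
    rintro ρ (rfl | ⟨c, hc, r, hr, hi, rfl⟩) ρ' (rfl | ⟨c', hc', r', hr', hi', rfl⟩)
    · exact ⟨_, hF0, ChLe.refl hS hσ', ChLe.refl hS hσ'⟩
    · exact ⟨_, hFc c' hc' r' hr' hi', (hs c' hc' r' hr' hi').2.2.1,
        ChLe.refl hS (hchT c' hc' r' hr' hi')⟩
    · exact ⟨_, hFc c hc r hr hi, ChLe.refl hS (hchT c hc r hr hi), (hs c hc r hr hi).2.2.1⟩
    · rcases lt_trichotomy c c' with h | h | h
      · exact ⟨_, hFc c' hc' r' hr' hi', (hs c' hc' r' hr' hi').2.2.2 c h r hr hi,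
          ChLe.refl hS (hchT c' hc' r' hr' hi')⟩
      · subst h
        exact ⟨_, hFc c hc r hr hi, ChLe.refl hS (hchT c hc r hr hi),
          ChLe.refl hS (hchT c hc r hr hi)⟩
      · exact ⟨_, hFc c hc r hr hi, ChLe.refl hS (hchT c hc r hr hi),
          (hs c hc r hr hi).2.2.2 c' h r' hr' hi'⟩
  obtain ⟨E, hE, hI⟩ := exists_lInf hκ hS ⟨σ', hF0⟩ hcard hch hdir
  refine ⟨E, hE, hI.le hF0, fun c hc r hr hi => hI.le (hFc c hc r hr hi), ?_, ?_⟩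
  · intro c t hct hor
    by_cases hi : c ∈ ini
    · obtain ⟨t1, h1, h2⟩ := hle c t ⟨hct, hi⟩
      obtain ⟨t2, h3, h4⟩ := hI.le hF0 c t1 h1
      exact ⟨t2, h3, (hS c).trans t2 (hE.mem _ _ h3) t1 (hσ'.mem _ _ h1) t (hσ.mem _ _ hct) h4 h2⟩
    · have hc : c ∈ J := hor.resolve_right hi
      have hQ := hs c hc t hct hi
      obtain ⟨t2, h3, h4⟩ := hI.le (hFc c hc t hct hi) c (s c) (H4_self _)
      exact ⟨t2, h3, (hS c).trans t2 (hE.mem _ _ h3) (s c) hQ.1 t (hσ.mem _ _ hct) h4 hQ.2.1⟩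
  · rintro e he
    obtain ⟨t, ρ, hρ, het⟩ := (hI.lev e).1 he
    rcases hρ with rfl | ⟨c, hc, r, hr, hi, rfl⟩
    · obtain ⟨b', ⟨t', ht', hb'⟩, hle'⟩ := hcof e ⟨t, het⟩
      exact Or.inl ⟨b', ⟨t', ht'⟩, hb', hle'⟩
    · exact Or.inr ⟨c, ⟨r, hr⟩, hc, H4_lev hS (hs c hc r hr hi).1 ⟨t, het⟩⟩

/-- The general version, for an initial part of the labels. -/
theorem H4_core (hκ : κ.IsRegular) (hS : Structured κ S) (hσ : IsCh κ S σ) {ini : Set Θ}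
    (hini : ∀ x ∈ ini, ∀ y, y ≤ x → y ∈ ini)
    (hσ' : IsCh κ S σ') (hle : ChLe S σ' {p | p ∈ σ ∧ p.1 ∈ ini})
    (hcof : Cof {p | p ∈ σ ∧ p.1 ∈ ini} σ') :
    ∃ σ'', IsCh κ S σ'' ∧ ChLe S σ'' σ ∧ ChLe S σ'' σ' ∧ Cof σ σ'' := by
  classical
  by_cases hne : Nonempty Θ
  swap
  · have h0 : ∀ ρ : Set (Θ × Θ), ρ = ∅ := fun ρ => by
      ext p
      exact (hne ⟨p.1⟩).elim
    refine ⟨σ', hσ', ?_, ChLe.refl hS hσ', ?_⟩
    · intro a r _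
      exact (hne ⟨a⟩).elim
    · intro a _
      exact (hne ⟨a⟩).elim
  have hrec : ∀ (a : Θ) (s : Θ → Θ), (∀ j < a, H4_Q S σ σ' ini j (fun k _ => s k) (s j)) →
      ∃ v, H4_Q S σ σ' ini a (fun k _ => s k) v := by
    intro a s hs
    by_cases hex : (∃ r, (a, r) ∈ σ) ∧ a ∉ ini
    swap
    · exact ⟨a, fun r hr hi => (hex ⟨⟨r, hr⟩, hi⟩).elim⟩
    obtain ⟨⟨r, hr⟩, hi⟩ := hex
    obtain ⟨E, hE, hE1, hE2, hE3, hE4⟩ := H4_inf hκ hS hσ hσ' hle hcof (Iio a) s hs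
    have hlt : ∀ b' ∈ ini, b' < a := by
      intro b' hb'
      by_contra hcon
      exact hi (hini b' hb' a (not_lt.mp hcon))
    obtain ⟨v, hv, hvr, hvE⟩ := (hS a).ext r (hσ.mem a r hr) E hE (by
      rw [hσ.coh a r hr]
      intro c t hct
      exact hE3 c t hct.1 (Or.inl hct.2)) (by
      rw [hσ.coh a r hr]
      intro e he
      rcases hE4 e he with ⟨b', ⟨t', ht'⟩, hb', h1⟩ | ⟨c, ⟨t', ht'⟩, hc, h1⟩
      · exact ⟨b', ⟨t', ht', hlt b' hb'⟩, h1⟩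
      · exact ⟨c, ⟨t', ht', hc⟩, h1⟩)
    have hTE : ChLe S (H4_T S a v) E := by
      intro c t hct
      obtain ⟨t', h1, h2⟩ := hvE c t hct
      exact ⟨t', mem_insert_of_mem _ h1, h2⟩
    have hTch : IsCh κ S (H4_T S a v) := hS.isCh_top hκ.aleph0_le hv
    refine ⟨v, fun r1 hr1 _ => ⟨hv, ?_, ?_, ?_⟩⟩
    · rw [hσ.func a r1 r hr1 hr]
      exact hvr
    · exact ChLe.trans hS hσ' hE hTch hTE hE1
    · intro c hc r' hr' hi'
      exact ChLe.trans hS (hS.isCh_top hκ.aleph0_le (hs c hc r' hr' hi').1) hE hTch hTE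
        (hE2 c hc r' hr' hi')
  obtain ⟨s, hs⟩ := exists_wf_seq (H4_Q S σ σ' ini) hrec
  obtain ⟨E, hE, hE1, _, hE3, hE4⟩ := H4_inf hκ hS hσ hσ' hle hcof univ s (fun c _ => hs c)
  refine ⟨E, hE, fun c t hct => hE3 c t hct (Or.inl (mem_univ _)), hE1, ?_⟩
  intro e he
  rcases hE4 e he with ⟨b', hb, _, h1⟩ | ⟨c, hc, _, h1⟩
  · exact ⟨b', hb, h1⟩
  · exact ⟨c, hc, h1⟩

/-- LEMMA 2.  Recursion (`exists_wf_seq`) along the labels `a ≥ b` of `σ`: choose `ρ_a ∈ (S a).C` with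
`(S a).le ρ_a r_a` (`(a, r_a) ∈ σ`) such that the chain `σ_a = addTop ((S a).sg ρ_a) a ρ_a` is
`≤ σ'` and `≤ σ_c` for the labels `b ≤ c < a`: let `E` be the infimum (Lemma 1) of the small
descending family of `σ'` and the `σ_c`; `E ≤ cut a σ = (S a).sg r_a` and its labels are bounded by
labels of `cut a σ` (or by those of `cut b σ` if `a` is the first label), so `IsStr.ext` gives `ρ_a`.
The answer is the infimum of `σ'` and all `σ_a`. -/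
theorem lemma2 (hκ : κ.IsRegular) (hS : Structured κ S) (hσ : IsCh κ S σ) (b : Θ)
    (hσ' : IsCh κ S σ') (hle : ChLe S σ' (cut b σ)) (hcof : Cof (cut b σ) σ') :
    ∃ σ'', IsCh κ S σ'' ∧ ChLe S σ'' σ ∧ ChLe S σ'' σ' ∧ Cof σ σ'' :=
  H4_core hκ hS hσ (ini := Iio b) (fun _ hx _ hy => lt_of_le_of_lt hy hx) hσ' hle hcof

/-- LEMMA 3.  Every level of a chain can be strengthened (`lemma2` with `σ' = addTop (sg r') a r'`
and a `b > a` below the other labels; if `a` is the last label the answer is `σ'` itself).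
It is convenient to prove a version of `lemma2` with `cut b` replaced by an initial part. -/
theorem lemma3 (hκ : κ.IsRegular) (hS : Structured κ S) (hσ : IsCh κ S σ) {r r' : Θ}
    (hr : (a, r) ∈ σ) (hr' : r' ∈ (S a).C) (hle : (S a).le r' r) :
    ∃ σ'', IsCh κ S σ'' ∧ ChLe S σ'' σ ∧ Cof σ σ'' ∧ ∃ r'', (a, r'') ∈ σ'' ∧ (S a).le r'' r' := by
  obtain ⟨σ'', h1, h2, h3, h4⟩ := H4_core hκ hS hσ (ini := Iic a)
    (fun _ hx _ hy => le_trans hy hx) (σ' := H4_T S a r') (hS.isCh_top hκ.aleph0_le hr') (by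
      rintro c t ⟨hct, hca⟩
      rcases lt_or_eq_of_le (show c ≤ a from hca) with h | h
      · have h5 : (c, t) ∈ (S a).sg r := by
          rw [hσ.coh a r hr]
          exact ⟨hct, h⟩
        obtain ⟨t', h6, h7⟩ := (hS a).mono r (hσ.mem a r hr) r' hr' hle c t h5
        exact ⟨t', mem_insert_of_mem _ h6, h7⟩
      · subst h
        rw [hσ.func c t r hct hr]
        exact ⟨r', H4_self _, hle⟩) (by
      intro e he
      exact ⟨a, ⟨r, hr, le_refl a⟩, H4_lev hS hr' he⟩)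
  obtain ⟨r'', h5, h6⟩ := h3 a r' (H4_self _)
  exact ⟨σ'', h1, h2, h4, r'', h5, h6⟩

end Pool.CF
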