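import Pool.Agent.Lib.MP_cc7fb1_cf.ChnD

/-!
# MP_cc7fb1: the partial order of chains: lifting (row CA3)
-/

set_option autoImplicit false
set_option linter.unusedSectionVars false

open Cardinal Set

namespace Pool.CF

variable {Θ X : Type} [LinearOrder Θ] [WellFoundedLT Θ] [D : SG Θ X]

namespace Chn

/-- A3 (Lemma 2). -/
lemma lift {p q : Chn Θ X} {b : Θ} (h : q ≤ p.cut b) (hc : Cof (p.cut b).v q.v) :
    ∃ r : Chn Θ X, r ≤ p ∧ r ≤ q ∧ Cof p.v r.v := by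
  obtain ⟨s, h1, h2, h3, h4⟩ := lemma2 D.κ_reg D.str p.ch b q.ch h hc
  exact ⟨⟨s, h1⟩, h2, h3, h4⟩

/-- A3 (Lemma 3). -/
lemma lift_at {p : Chn Θ X} {a r r' : Θ} (h : (a, r) ∈ p.v) (hr' : r' ∈ (D.S a).C)
    (hle : (D.S a).le r' r) :
    ∃ q : Chn Θ X, q ≤ p ∧ Cof p.v q.v ∧ ∃ r'', (a, r'') ∈ q.v ∧ (D.S a).le r'' r' := by
  obtain ⟨s, h1, h2, h3, h4⟩ := lemma3 D.κ_reg D.str p.ch h hr' hle
  exact ⟨⟨s, h1⟩, h2, h3, h4⟩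

end Chn

end Pool.CF
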