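import Pool.Agent.Lib.MP_cc7fb1_cf.R4

/-!
# MP_cc7fb1: the reflected system is structured and universal (row R5)
-/

set_option autoImplicit false

open Cardinal Set

namespace Pool.CF

variable {Θ X : Type} [LinearOrder Θ] [WellFoundedLT Θ] [HG Θ X]

variable {S : Θ → Lv Θ}

/-! ### Row R5: the system is structured and universal -/

theorem Rf0.structured (hS : Rf0 X S) : Structured (κ Θ X) S := by
  intro a
  rw [los_isStr hS (hS.rep a) a]
  filter_upwards [ae_pi_lt_la (X := X) a] with x hx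
  exact hS.str_la _ hx

theorem Rf0.bdd (hS : Rf0 X S) (a : Θ) : ∃ b, ∀ r ∈ (S a).C, r < b := by
  classical
  let f : X → Θ := fun x =>
    if h : pi x a < la X then (hS.bdd_la (pi x a) h).choose else la X
  have hf : ∀ᶠ x in FF Θ X, f x < la X := by
    filter_upwards [ae_pi_lt_la (X := X) a] with x hx
    have e : f x = (hS.bdd_la (pi x a) hx).choose := dif_pos hx
    rw [e]
    exact (hS.bdd_la (pi x a) hx).choose_spec.1
  obtain ⟨b, hb⟩ := Pool.CF.rep hf
  refine ⟨b, fun r hr => ?_⟩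
  rw [← ae_pi_lt_iff (X := X)]
  filter_upwards [ae_pi_lt_la (X := X) a, hb, ((hS.rep a).C r).1 hr] with x hx hbx hrx
  have e : f x = (hS.bdd_la (pi x a) hx).choose := dif_pos hx
  rw [← hbx, e]
  exact (hS.bdd_la (pi x a) hx).choose_spec.2 _ hrx

/-- The restriction of a level to `x`, transported. -/
def resL (x : X) (Y : Lv Θ) : Lv Θ where
  C := {r | ∃ s ∈ Y.C, s ∈ el x ∧ r = pi x s}
  le r' r := ∃ s' ∈ Y.C, ∃ s ∈ Y.C, s' ∈ el x ∧ s ∈ el x ∧ r' = pi x s' ∧ r = pi x s ∧ Y.le s' s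
  sg r := {p | ∃ s ∈ Y.C, s ∈ el x ∧ r = pi x s ∧ p ∈ tr (pi x) (Y.sg s)}

theorem rep_resL {Y : Lv Θ} (hs : ∀ r ∈ Y.C, #(Y.sg r) < κ Θ X) :
    Rep Y (fun x : X => resL x Y) where
  C := by
    intro r
    constructor
    · intro hr
      filter_upwards [HG.fine (X := X) r] with x hx
      exact ⟨r, hr, hx, rfl⟩
    · intro h
      obtain ⟨x, ⟨s, hs1, hs2, hs3⟩, hx⟩ := (h.and (HG.fine (X := X) r)).exists
      rw [pi_inj x hx hs2 hs3]
      exact hs1
  le := by
    intro r hr s hs'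
    constructor
    · intro h
      filter_upwards [HG.fine (X := X) r, HG.fine (X := X) s] with x hx hx'
      exact ⟨r, hr, s, hs', hx, hx', rfl, rfl, h⟩
    · intro h
      obtain ⟨x, ⟨s1, h1, s2, h2, h3, h4, h5, h6, h7⟩, hx, hx'⟩ :=
        (h.and ((HG.fine (X := X) r).and (HG.fine (X := X) s))).exists
      rw [pi_inj x hx h3 h5, pi_inj x hx' h4 h6]
      exact h7
  sg := by
    intro r hr
    filter_upwards [HG.fine (X := X) r] with x hx
    ext p
    constructor
    · rintro ⟨s, hs1, hs2, hs3, hs4⟩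
      rw [pi_inj x hx hs2 hs3]
      exact hs4
    · intro hp
      exact ⟨r, hr, hx, rfl, hp⟩
  small := hs
  lt_la := by
    refine Filter.Eventually.of_forall fun x => ?_
    rintro r ⟨s, _, hs2, rfl⟩
    exact HG.pi_lt x s hs2

theorem Rf.univ (hS : Rf X S) (a₀ : Θ) (Y : Lv Θ) (hY : IsStr (κ Θ X) S a₀ Y) (hb : ∃ b, ∀ r ∈ Y.C, r < b) :
    ∃ a ≥ a₀, (S a).Agree Y := by
  classical
  obtain ⟨b, hb⟩ := hb
  have hsm : ∀ r ∈ Y.C, #(Y.sg r) < κ Θ X := fun r hr => (hY.ch r hr).card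
  have hrep : Rep Y (fun x : X => resL x Y) := rep_resL hsm
  have hstr := (los_isStr hS.toRf0 hrep a₀).1 hY
  have hex : ∀ᶠ x in FF Θ X, ∃ a < la X, pi x a₀ ≤ a ∧ (S a).Agree (resL x Y) := by
    filter_upwards [hstr, ae_pi_lt_la (X := X) a₀, ae_pi_lt_la (X := X) b,
      HG.fine (X := X) b] with x h1 h2 h3 h4
    refine hS.univ_la _ h2 _ h1 ⟨pi x b, h3, ?_⟩
    rintro r ⟨s, hs1, hs2, rfl⟩
    exact (pi_lt_iff x hs2 h4).2 (hb s hs1)
  let f : X → Θ := fun x =>
    if h : ∃ a < la X, pi x a₀ ≤ a ∧ (S a).Agree (resL x Y) then h.choose else la X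
  have hf1 : ∀ᶠ x in FF Θ X, f x < la X ∧ pi x a₀ ≤ f x ∧ (S (f x)).Agree (resL x Y) := by
    filter_upwards [hex] with x hx
    have e : f x = hx.choose := dif_pos hx
    rw [e]
    exact hx.choose_spec
  obtain ⟨a, ha⟩ := Pool.CF.rep (hf1.mono fun x hx => hx.1)
  have hA : ∀ᶠ x in FF Θ X, pi x a₀ ≤ pi x a ∧ (S (pi x a)).Agree (resL x Y) := by
    filter_upwards [ha, hf1] with x h1 h2
    rw [← h1]
    exact h2.2
  refine ⟨a, ?_, ?_⟩
  · exact ae_pi_le_iff.1 (hA.mono fun x hx => hx.1)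
  · have hR := hS.rep a
    have hC : ∀ r, r ∈ (S a).C ↔ r ∈ Y.C := by
      intro r
      rw [hR.C r, hrep.C r]
      constructor
      · intro h
        filter_upwards [h, hA] with x h1 h2
        rw [← h2.2.C]
        exact h1
      · intro h
        filter_upwards [h, hA] with x h1 h2
        rw [h2.2.C]
        exact h1
    refine ⟨Set.ext hC, ?_, ?_⟩
    · intro r hr s hs
      rw [hR.le r hr s hs, hrep.le r ((hC r).1 hr) s ((hC s).1 hs)]
      have hr' := (hR.C r).1 hr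
      have hs' := (hR.C s).1 hs
      constructor
      · intro h
        filter_upwards [h, hA, hr', hs'] with x h1 h2 h3 h4
        exact (h2.2.le _ h3 _ h4).1 h1
      · intro h
        filter_upwards [h, hA, hr', hs'] with x h1 h2 h3 h4
        exact (h2.2.le _ h3 _ h4).2 h1
    · intro r hr
      have hr2 := (hC r).1 hr
      obtain ⟨x, h1, h2, h3, h4, h5, h6⟩ := ((hR.sg r hr).and ((hrep.sg r hr2).and
        ((hA).and (((hR.C r).1 hr).and ((ae_pairs_mem (hR.small r hr)).and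
          (ae_pairs_mem (X := X) (hsm r hr2))))))).exists
      have e := h3.2.sg _ h4
      rw [h1] at e
      have h2' : (resL x Y).sg (pi x r) = tr (pi x) (Y.sg r) := h2
      rw [h2'] at e
      exact tr_inj x h5 h6 e

end Pool.CF
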