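import Pool.Agent.Lib.MP_cc7fb1_cf.R4
import Pool.Agent.Lib.MP_cc7fb1_cf.R5

/-!
# MP_cc7fb1: the universal system reflects in the sense of `Rf0`
-/

set_option autoImplicit false
set_option linter.unusedSectionVars false

open Cardinal Set

namespace Pool.CF

variable {Θ X : Type} [LinearOrder Θ] [WellFoundedLT Θ]

theorem SG.rf0 [D : SG Θ X] : Rf0 X D.S where
  rep a :=
    { C := fun r => D.refl_C a r
      le := fun r _ s _ => D.refl_le a s r
      sg := fun r hr => D.refl_sg a r hr
      small := fun r hr => ((D.str a).ch r hr).card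
      lt_la := by
        refine (ae_pi_lt_la a).mono fun x hx r hr => ?_
        obtain ⟨b, hb, h⟩ := D.bdd_la _ hx
        exact (h r hr).trans hb }
  str_la a _ := D.str a
  bdd_la a ha := D.bdd_la a ha

end Pool.CF
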