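import Pool.Agent.Lib.MP_cc7fb1_cf.ChnD
import Pool.Agent.Lib.MP_cc7fb1_cf.SGRf
import Pool.Agent.Lib.MP_cc7fb1_cf.B2

/-!
# MP_cc7fb1: the number of chains (row CA4)
-/

set_option autoImplicit false
set_option linter.unusedSectionVars false

open Cardinal Set

namespace Pool.CF

variable {Θ X : Type} [LinearOrder Θ] [WellFoundedLT Θ] [D : SG Θ X]

namespace Chn

private lemma pp_of (a : Θ) (p : Chn Θ X) (hp : ∀ b ∈ p.lev, b < a) :
    PP D.κ D.S a p.v ∅ where
  ch := p.ch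
  lt := hp
  sub := fun _ h => absurd h (notMem_empty _)
  card := by
    rw [Cardinal.mk_eq_zero]
    exact D.κ_reg.pos

private lemma mk_le (a : Θ) : #{p : Chn Θ X | ∀ b ∈ p.lev, b < a} ≤
    #{p : Set (Θ × Θ) × Set Θ | PP D.κ D.S a p.1 p.2} := by
  refine Cardinal.mk_le_of_injective
    (f := fun p => ⟨(p.1.v, ∅), pp_of a p.1 p.2⟩) ?_
  intro p q h
  have h1 : p.1.v = q.1.v := congrArg (fun z => z.1.1) h
  exact Subtype.ext (Chn.ext' h1)

/-- A4: there are fewer than `δ` chains with labels below `a`. -/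
lemma mk_lt (a : Θ) : #{p : Chn Θ X | ∀ b ∈ p.lev, b < a} < #Θ :=
  (mk_le a).trans_lt (card_PP SG.rf0 a)

/-- A4: there are fewer than `λ` chains with labels below `a < λ`. -/
lemma mk_low_lt (a : Θ) (ha : a < D.la) :
    #{p : Chn Θ X | ∀ b ∈ p.lev, b < a} < #(Iio D.la) :=
  (mk_le a).trans_lt (card_PP_la SG.rf0 ha)

end Chn

end Pool.CF
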