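import Pool.Agent.Lib.MP_cc7fb1_cf.RfDef

/-!
# MP_cc7fb1: transfer for chains (row R2)
-/

set_option autoImplicit false

open Cardinal Set

namespace Pool.CF

variable {Θ X : Type} [LinearOrder Θ] [WellFoundedLT Θ] [HG Θ X]


/-! ### auxiliary lemmas -/

private lemma R2_forall {σ : Set (Θ × Θ)} (hσ : #σ < κ Θ X) {p : (Θ × Θ) → X → Prop}
    (h : ∀ q ∈ σ, ∀ᶠ x in FF Θ X, p q x) : ∀ᶠ x in FF Θ X, ∀ q ∈ σ, p q x := by
  have h1 := HG.compl (Θ := Θ) σ (fun q x => p q.1 x) (hσ.trans HG.κ_lt) fun q => h q.1 q.2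
  filter_upwards [h1] with x hx q hq
  exact hx ⟨q, hq⟩

private lemma R2_tr_card (f : Θ → Θ) {σ : Set (Θ × Θ)} {c : Cardinal.{0}} (h : #σ < c) :
    #(tr f σ) < c := lt_of_le_of_lt mk_image_le h

private lemma R2_mem_tr {f : Θ → Θ} {σ : Set (Θ × Θ)} {a r : Θ} (h : (a, r) ∈ tr f σ) :
    ∃ b s, (b, s) ∈ σ ∧ f b = a ∧ f s = r := by
  obtain ⟨⟨b, s⟩, hp, he⟩ := h
  rw [Prod.mk.injEq] at he
  exact ⟨b, s, hp, he.1, he.2⟩

private lemma R2_tr_mem {f : Θ → Θ} {σ : Set (Θ × Θ)} {a r : Θ} (h : (a, r) ∈ σ) :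
    (f a, f r) ∈ tr f σ := ⟨(a, r), h, rfl⟩

variable {S : Θ → Lv Θ} (hS : Rf0 X S)
include hS

/-! ### Row R2: transfer for small sets of pairs -/

theorem ae_lev {σ : Set (Θ × Θ)} (hσ : #σ < κ Θ X) :
    ∀ᶠ x in FF Θ X, lev (tr (pi x) σ) = pi x '' lev σ ∧ ∀ b, cut (pi x b) (tr (pi x) σ) =
      tr (pi x) {p | p ∈ σ ∧ pi x p.1 < pi x b} := by
  refine Filter.Eventually.of_forall fun x => ⟨?_, fun b => ?_⟩
  · ext a
    constructor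
    · rintro ⟨r, hr⟩
      obtain ⟨b, s, hp, rfl, rfl⟩ := R2_mem_tr hr
      exact ⟨b, ⟨s, hp⟩, rfl⟩
    · rintro ⟨b, ⟨s, hp⟩, rfl⟩
      exact ⟨pi x s, R2_tr_mem hp⟩
  · ext ⟨a, r⟩
    constructor
    · rintro ⟨hr, hlt⟩
      obtain ⟨c, s, hp, rfl, rfl⟩ := R2_mem_tr hr
      exact ⟨(c, s), ⟨hp, hlt⟩, rfl⟩
    · intro h
      obtain ⟨c, s, ⟨hp, hlt⟩, rfl, rfl⟩ := R2_mem_tr h
      exact ⟨R2_tr_mem hp, hlt⟩

theorem ae_cut {σ : Set (Θ × Θ)} (hσ : #σ < κ Θ X) (b : Θ) :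
    ∀ᶠ x in FF Θ X, cut (pi x b) (tr (pi x) σ) = tr (pi x) (cut b σ) := by
  filter_upwards [ae_lev hS hσ, ae_pairs_mem hσ, HG.fine b] with x hx hm hb
  rw [hx.2 b]
  congr 1
  ext p
  constructor
  · rintro ⟨hp, hlt⟩
    exact ⟨hp, (pi_lt_iff x (hm p hp).1 hb).1 hlt⟩
  · rintro ⟨hp, hlt⟩
    exact ⟨hp, (pi_lt_iff x (hm p hp).1 hb).2 hlt⟩

theorem los_isCh {σ : Set (Θ × Θ)} (hσ : #σ < κ Θ X) :
    IsCh (κ Θ X) S σ ↔ ∀ᶠ x in FF Θ X, IsCh (κ Θ X) S (tr (pi x) σ) := by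
  constructor
  · intro h
    have h1 : ∀ᶠ x in FF Θ X, ∀ q ∈ σ, pi x q.2 ∈ (S (pi x q.1)).C ∧
        (S (pi x q.1)).sg (pi x q.2) = cut (pi x q.1) (tr (pi x) σ) := by
      refine R2_forall hσ fun q hq => ?_
      have hC : q.2 ∈ (S q.1).C := h.mem q.1 q.2 hq
      filter_upwards [((hS.rep q.1).C q.2).1 hC, (hS.rep q.1).sg q.2 hC, ae_cut hS hσ q.1]
        with x h1 h2 h3
      refine ⟨h1, ?_⟩
      rw [h2, h3, h.coh q.1 q.2 hq]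
    filter_upwards [h1, ae_pairs_mem hσ] with x hx hm
    refine ⟨R2_tr_card _ hσ, ?_, ?_, ?_⟩
    · intro a r r' hr hr'
      obtain ⟨b, s, hp, rfl, rfl⟩ := R2_mem_tr hr
      obtain ⟨b', s', hp', hb, rfl⟩ := R2_mem_tr hr'
      have hbb : b' = b := pi_inj x (hm _ hp').1 (hm _ hp).1 hb
      subst hbb
      rw [h.func _ _ _ hp hp']
    · intro a r hr
      obtain ⟨b, s, hp, rfl, rfl⟩ := R2_mem_tr hr
      exact (hx _ hp).1
    · intro a r hr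
      obtain ⟨b, s, hp, rfl, rfl⟩ := R2_mem_tr hr
      exact (hx _ hp).2
  · intro h
    have hmem : ∀ a r, (a, r) ∈ σ → r ∈ (S a).C := by
      intro a r hr
      rw [(hS.rep a).C r]
      filter_upwards [h] with x hx
      exact hx.mem _ _ (R2_tr_mem hr)
    refine ⟨hσ, ?_, hmem, ?_⟩
    · intro a r r' hr hr'
      rw [← ae_pi_eq_iff (X := X)]
      filter_upwards [h] with x hx
      exact hx.func _ _ _ (R2_tr_mem hr) (R2_tr_mem hr')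
    · intro a r hr
      have hC := hmem a r hr
      have hcut : #(cut a σ) < κ Θ X := lt_of_le_of_lt (mk_le_mk_of_subset fun p hp => hp.1) hσ
      have h1 : ∀ᶠ x in FF Θ X, (S a).sg r = cut a σ := by
        filter_upwards [h, (hS.rep a).sg r hC, ae_cut hS hσ a, ae_pairs_mem hcut,
          ae_pairs_mem ((hS.rep a).small r hC)] with x h1 h2 h3 h4 h5
        refine tr_inj x h5 h4 ?_
        rw [← h2, ← h3]
        exact h1.coh _ _ (R2_tr_mem hr)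
      obtain ⟨x, hx⟩ := h1.exists
      exact hx

theorem los_chLe {σ σ' : Set (Θ × Θ)} (hσ : #σ < κ Θ X) (hσ' : #σ' < κ Θ X) :
    (ChLe S σ' σ ∧ (∀ p ∈ σ, p.2 ∈ (S p.1).C) ∧ ∀ p ∈ σ', p.2 ∈ (S p.1).C) ↔
    ∀ᶠ x in FF Θ X, (ChLe S (tr (pi x) σ') (tr (pi x) σ) ∧
      (∀ p ∈ tr (pi x) σ, p.2 ∈ (S p.1).C) ∧ ∀ p ∈ tr (pi x) σ', p.2 ∈ (S p.1).C) := by
  constructor
  · rintro ⟨hle, h1, h2⟩
    have h3 : ∀ᶠ x in FF Θ X, ∀ q ∈ σ, pi x q.2 ∈ (S (pi x q.1)).C ∧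
        ∃ r', (q.1, r') ∈ σ' ∧ (S (pi x q.1)).le (pi x r') (pi x q.2) := by
      refine R2_forall hσ fun q hq => ?_
      obtain ⟨r', hr', hl⟩ := hle q.1 q.2 hq
      filter_upwards [((hS.rep q.1).C q.2).1 (h1 q hq),
        ((hS.rep q.1).le r' (h2 _ hr') q.2 (h1 q hq)).1 hl] with x h3 h4
      exact ⟨h3, r', hr', h4⟩
    have h4 : ∀ᶠ x in FF Θ X, ∀ q ∈ σ', pi x q.2 ∈ (S (pi x q.1)).C :=
      R2_forall hσ' fun q hq => ((hS.rep q.1).C q.2).1 (h2 q hq)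
    filter_upwards [h3, h4] with x h5 h6
    refine ⟨?_, ?_, ?_⟩
    · intro a r hr
      obtain ⟨b, s, hp, rfl, rfl⟩ := R2_mem_tr hr
      obtain ⟨_, r', hr', hl⟩ := h5 _ hp
      exact ⟨pi x r', R2_tr_mem hr', hl⟩
    · rintro ⟨a, r⟩ hr
      obtain ⟨b, s, hp, rfl, rfl⟩ := R2_mem_tr hr
      exact (h5 _ hp).1
    · rintro ⟨a, r⟩ hr
      obtain ⟨b, s, hp, rfl, rfl⟩ := R2_mem_tr hr
      exact h6 _ hp
  · intro h
    have h1 : ∀ p ∈ σ, p.2 ∈ (S p.1).C := by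
      rintro ⟨a, r⟩ hr
      rw [(hS.rep a).C r]
      filter_upwards [h] with x hx
      exact hx.2.1 _ (R2_tr_mem hr)
    have h2 : ∀ p ∈ σ', p.2 ∈ (S p.1).C := by
      rintro ⟨a, r⟩ hr
      rw [(hS.rep a).C r]
      filter_upwards [h] with x hx
      exact hx.2.2 _ (R2_tr_mem hr)
    refine ⟨?_, h1, h2⟩
    intro a r hr
    by_contra hcon
    have h3 : ∀ᶠ x in FF Θ X, ∀ q ∈ σ', q.1 = a → ¬ (S (pi x a)).le (pi x q.2) (pi x r) := by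
      refine R2_forall hσ' fun q hq => ?_
      by_cases hqa : q.1 = a
      · have hq2 : q.2 ∈ (S a).C := by
          rw [← hqa]
          exact h2 q hq
        have h4 : ¬ ∀ᶠ x in FF Θ X, (S (pi x a)).le (pi x q.2) (pi x r) := by
          intro h5
          refine hcon ⟨q.2, ?_, ((hS.rep a).le q.2 hq2 r (h1 _ hr)).2 h5⟩
          rw [← hqa]
          exact hq
        filter_upwards [ae_not.2 h4] with x hx _
        exact hx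
      · exact Filter.Eventually.of_forall fun x hx => absurd hx hqa
    have h4 : ∀ᶠ x in FF Θ X, False := by
      filter_upwards [h, h3, ae_pairs_mem hσ, ae_pairs_mem hσ'] with x h5 h6 h7 h8
      obtain ⟨r', hr', hl⟩ := h5.1 _ _ (R2_tr_mem hr)
      obtain ⟨b, s, hp, hb, rfl⟩ := R2_mem_tr hr'
      have hba : b = a := pi_inj x (h8 _ hp).1 (h7 _ hr).1 hb
      exact h6 _ hp hba hl
    obtain ⟨x, hx⟩ := h4.exists
    exact hx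

theorem los_cof {σ σ' : Set (Θ × Θ)} (hσ : #σ < κ Θ X) (hσ' : #σ' < κ Θ X) :
    Cof σ σ' ↔ ∀ᶠ x in FF Θ X, Cof (tr (pi x) σ) (tr (pi x) σ') := by
  constructor
  · intro h
    filter_upwards [ae_pairs_mem hσ, ae_pairs_mem hσ'] with x h1 h2
    rintro b ⟨s, hs⟩
    obtain ⟨c, t, hp, rfl, rfl⟩ := R2_mem_tr hs
    obtain ⟨b', ⟨t', ht'⟩, hle⟩ := h c ⟨t, hp⟩
    exact ⟨pi x b', ⟨pi x t', R2_tr_mem ht'⟩, (pi_le_iff x (h2 _ hp).1 (h1 _ ht').1).2 hle⟩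
  · intro h
    have h3 : ∀ᶠ x in FF Θ X, Cof σ σ' := by
      filter_upwards [h, ae_pairs_mem hσ, ae_pairs_mem hσ'] with x h0 h1 h2
      rintro b ⟨s, hs⟩
      obtain ⟨b', ⟨t', ht'⟩, hle⟩ := h0 (pi x b) ⟨pi x s, R2_tr_mem hs⟩
      obtain ⟨c, t, hp, rfl, rfl⟩ := R2_mem_tr ht'
      exact ⟨c, ⟨t, hp⟩, (pi_le_iff x (h2 _ hs).1 (h1 _ hp).1).1 hle⟩
    obtain ⟨x, hx⟩ := h3.exists
    exact hx

end Pool.CF
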