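import Pool.Agent.Lib.MP_cc7fb1_cf.ChnD
import Pool.Agent.Lib.MP_cc7fb1_cf.SGRf
import Pool.Agent.Lib.MP_cc7fb1_cf.R2

/-!
# MP_cc7fb1: the reflection of chains (row CA5)
-/

set_option autoImplicit false
set_option linter.unusedSectionVars false

open Cardinal Set

namespace Pool.CF

variable {Θ X : Type} [LinearOrder Θ] [WellFoundedLT Θ] [D : SG Θ X]

namespace Chn

open Classical in
/-- The reflection of a chain to `x`. -/
noncomputable def rx (x : X) (p : Chn Θ X) : Chn Θ X :=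
  if h : IsCh D.κ D.S (tr (D.pi x) p.v) then ⟨tr (D.pi x) p.v, h⟩ else ⊤

private lemma CA5_ch (p : Chn Θ X) :
    ∀ᶠ x in (D.U : Filter X), IsCh D.κ D.S (tr (D.pi x) p.v) :=
  (los_isCh (SG.rf0 (Θ := Θ) (X := X)) p.ch.card).mp p.ch

private lemma CA5_mem (p : Chn Θ X) :
    ∀ᶠ x in (D.U : Filter X), ∀ q ∈ p.v, q.1 ∈ D.el x ∧ q.2 ∈ D.el x :=
  ae_pairs_mem (X := X) p.ch.card

/-- A5. -/
lemma rx_v (p : Chn Θ X) : ∀ᶠ x in (D.U : Filter X), (p.rx x).v = tr (D.pi x) p.v := by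
  filter_upwards [CA5_ch p] with x hx
  unfold rx
  rw [dif_pos hx]

/-- A5. -/
lemma rx_low (p : Chn Θ X) : ∀ᶠ x in (D.U : Filter X), (p.rx x).Low := by
  filter_upwards [rx_v p, CA5_mem p] with x hx hm
  intro b hb
  obtain ⟨r, hr⟩ := hb
  rw [hx] at hr
  obtain ⟨q, hq, he⟩ := hr
  have h1 : D.pi x q.1 = b := congrArg Prod.fst he
  rw [← h1]
  exact D.pi_lt x _ (hm q hq).1

/-- A5. -/
lemma rx_le (p q : Chn Θ X) : (∀ᶠ x in (D.U : Filter X), p.rx x ≤ q.rx x) ↔ p ≤ q := by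
  have key := los_chLe (SG.rf0 (Θ := Θ) (X := X)) q.ch.card p.ch.card
  constructor
  · intro h
    refine (key.mpr ?_).1
    filter_upwards [h, rx_v p, rx_v q, CA5_ch p, CA5_ch q] with x hx h1 h2 h3 h4
    refine ⟨?_, fun r hr => h4.mem _ _ hr, fun r hr => h3.mem _ _ hr⟩
    have h5 : ChLe D.S (p.rx x).v (q.rx x).v := hx
    rw [h1, h2] at h5
    exact h5
  · intro h
    have h6 := key.mp ⟨h, fun r hr => q.ch.mem _ _ hr, fun r hr => p.ch.mem _ _ hr⟩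
    filter_upwards [h6, rx_v p, rx_v q] with x hx h1 h2
    show ChLe D.S (p.rx x).v (q.rx x).v
    rw [h1, h2]
    exact hx.1

/-- A5. -/
lemma rx_of_low (p : Chn Θ X) (h : p.Low) : ∀ᶠ x in (D.U : Filter X), p.rx x = p := by
  have h1 : ∀ q : p.v, ∀ᶠ x in (D.U : Filter X), D.pi x q.1.1 = q.1.1 ∧ D.pi x q.1.2 = q.1.2 := by
    rintro ⟨⟨a, r⟩, hq⟩
    have ha : a < D.la := h a ⟨r, hq⟩
    obtain ⟨b, hb, hr⟩ := D.bdd_la a ha
    have hr' : r < D.la := (hr r (p.ch.mem a r hq)).trans hb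
    filter_upwards [D.pi_id a ha, D.pi_id r hr'] with x h1 h2
    exact ⟨h1, h2⟩
  have h2 := D.compl p.v (fun q x => D.pi x q.1.1 = q.1.1 ∧ D.pi x q.1.2 = q.1.2)
    (p.ch.card.trans D.κ_lt) h1
  filter_upwards [h2, rx_v p] with x hx h3
  apply ext'
  rw [h3]
  ext ⟨a, r⟩
  constructor
  · rintro ⟨q, hq, he⟩
    have h4 := hx ⟨q, hq⟩
    have h5 : D.pi x q.1 = a := congrArg Prod.fst he
    have h6 : D.pi x q.2 = r := congrArg Prod.snd he
    have h7 : q = (a, r) := Prod.ext (h4.1.symm.trans h5) (h4.2.symm.trans h6)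
    rw [← h7]
    exact hq
  · intro hq
    have h4 := hx ⟨(a, r), hq⟩
    exact ⟨(a, r), hq, Prod.ext h4.1 h4.2⟩

/-- A5 (representation, S5). -/
lemma rep (F : X → Chn Θ X) (h : ∀ᶠ x in (D.U : Filter X), (F x).Low) :
    ∃ p : Chn Θ X, ∀ᶠ x in (D.U : Filter X), F x = p.rx x := by
  obtain ⟨t, ht, hr⟩ := rep_pairs (Θ := Θ) (X := X) (s := fun x => (F x).v) (by
    filter_upwards [h] with x hx
    refine ⟨(F x).ch.card, ?_⟩
    rintro ⟨a, r⟩ hq
    have ha : a < D.la := hx a ⟨r, hq⟩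
    obtain ⟨b, hb, hr⟩ := D.bdd_la a ha
    exact ⟨ha, (hr r ((F x).ch.mem a r hq)).trans hb⟩)
  have hch : IsCh D.κ D.S t := by
    refine (los_isCh (SG.rf0 (Θ := Θ) (X := X)) ht).mpr ?_
    filter_upwards [hr] with x hx
    have h1 := (F x).ch
    rw [hx.1] at h1
    exact h1
  refine ⟨⟨t, hch⟩, ?_⟩
  filter_upwards [hr, rx_v (⟨t, hch⟩ : Chn Θ X)] with x hx h2
  apply ext'
  rw [h2]
  exact hx.1

/-- A5. -/
lemma rx_mem (p : Chn Θ X) (a r : Θ) :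
    (∀ᶠ x in (D.U : Filter X), (D.pi x a, D.pi x r) ∈ (p.rx x).v) ↔ (a, r) ∈ p.v := by
  have h1 : ∀ᶠ x in (D.U : Filter X), ((D.pi x a, D.pi x r) ∈ (p.rx x).v ↔ (a, r) ∈ p.v) := by
    filter_upwards [rx_v p, CA5_mem p, D.fine a, D.fine r] with x hx hm ha hr
    rw [hx]
    exact mem_tr x hm ha hr
  constructor
  · intro h
    obtain ⟨x, hx, hx'⟩ := (h.and h1).exists
    exact hx'.mp hx
  · intro h
    filter_upwards [h1] with x hx
    exact hx.mpr h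

/-- A5: the reflection of a part of `p` is a part. -/
lemma rx_cut (p : Chn Θ X) (b : Θ) :
    ∀ᶠ x in (D.U : Filter X), (p.cut b).rx x = (p.rx x).cut (D.pi x b) := by
  filter_upwards [rx_v p, rx_v (p.cut b), ae_cut (SG.rf0 (Θ := Θ) (X := X)) p.ch.card b] with x h1 h2 h3
  apply ext'
  rw [h2]
  show tr (D.pi x) (Pool.CF.cut b p.v) = Pool.CF.cut (D.pi x b) (p.rx x).v
  rw [h1]
  exact h3.symm

end Chn

end Pool.CF
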