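import Pool.Agent.Lib.MP_cc7fb1_cf.ChnD

/-!
# MP_cc7fb1: the partial order of chains: greatest lower bounds (row CA2)
-/

set_option autoImplicit false
set_option linter.unusedSectionVars false

open Cardinal Set

namespace Pool.CF

variable {Θ X : Type} [LinearOrder Θ] [WellFoundedLT Θ] [D : SG Θ X]

namespace Chn

/-- The family of the sets of pairs. -/
private def fam (E : Set (Chn Θ X)) : Set (Set (Θ × Θ)) := (fun p : Chn Θ X => p.v) '' E

private lemma fam_ch (E : Set (Chn Θ X)) : ∀ τ ∈ fam E, IsCh D.κ D.S τ := by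
  rintro τ ⟨p, -, rfl⟩
  exact p.ch

private lemma mem_vals_fam {E : Set (Chn Θ X)} {a s : Θ} :
    s ∈ vals (fam E) a ↔ ∃ p ∈ E, (a, s) ∈ p.v := by
  constructor
  · rintro ⟨τ, ⟨p, hp, rfl⟩, h⟩
    exact ⟨p, hp, h⟩
  · rintro ⟨p, hp, h⟩
    exact ⟨p.v, ⟨p, hp, rfl⟩, h⟩

private lemma glb_of_lInf {E : Set (Chn Θ X)} (hne : E.Nonempty) {g : Chn Θ X}
    (h : IsLInf D.S (fam E) g.v) : IsGLB E g := by
  constructor
  · intro p hp
    exact h.le ⟨p, hp, rfl⟩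
  · intro q hq
    refine IsLInf.glb D.str (hne.image _) (fam_ch E) h g.ch q.ch ?_
    rintro τ ⟨p, hp, rfl⟩
    exact hq hp

private lemma exists_lInf' {E : Set (Chn Θ X)} (hne : E.Nonempty) (hc : #E < D.κ)
    (hd : Dir E) : ∃ g : Chn Θ X, IsLInf D.S (fam E) g.v := by
  obtain ⟨σ, h1, h2⟩ := exists_lInf (S := D.S) D.κ_reg D.str (F := fam E) (hne.image _)
    (lt_of_le_of_lt mk_image_le hc) (fam_ch E) (by
      rintro τ ⟨p, hp, rfl⟩ τ' ⟨p', hp', rfl⟩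
      obtain ⟨c, hc, h1, h2⟩ := hd p hp p' hp'
      exact ⟨c.v, ⟨c, hc, rfl⟩, h1, h2⟩)
  exact ⟨⟨σ, h1⟩, h2⟩

private lemma lInf_of_glb {E : Set (Chn Θ X)} (hne : E.Nonempty) (hc : #E < D.κ)
    (hd : Dir E) {g : Chn Θ X} (hg : IsGLB E g) : IsLInf D.S (fam E) g.v := by
  obtain ⟨g', h⟩ := exists_lInf' hne hc hd
  rw [(glb_of_lInf hne h).unique hg] at h
  exact h

/-- A2 (Lemma 1): small directed sets of chains have a greatest lower bound. -/
lemma dg : DG D.κ (Chn Θ X) := by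
  intro E hne hc hd
  obtain ⟨g, h⟩ := exists_lInf' hne hc hd
  exact ⟨g, glb_of_lInf hne h⟩

/-- A2: it is computed levelwise. -/
lemma lev_glb {E : Set (Chn Θ X)} (hne : E.Nonempty) (hc : #E < D.κ) (hd : Dir E) {g : Chn Θ X}
    (hg : IsGLB E g) (a : Θ) : a ∈ g.lev ↔ ∃ p ∈ E, a ∈ p.lev := by
  have h := lInf_of_glb hne hc hd hg
  refine (h.lev a).trans ?_
  constructor
  · rintro ⟨s, hs⟩
    obtain ⟨p, hp, hps⟩ := mem_vals_fam.1 hs
    exact ⟨p, hp, s, hps⟩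
  · rintro ⟨p, hp, s, hps⟩
    exact ⟨s, mem_vals_fam.2 ⟨p, hp, hps⟩⟩

/-- A2. -/
lemma val_glb {E : Set (Chn Θ X)} (hne : E.Nonempty) (hc : #E < D.κ) (hd : Dir E) {g : Chn Θ X}
    (hg : IsGLB E g) {a r : Θ} (h : (a, r) ∈ g.v) :
    (D.S a).IsInf {s | ∃ p ∈ E, (a, s) ∈ p.v} r := by
  have h1 := (lInf_of_glb hne hc hd hg).val a r h
  have e : vals (fam E) a = {s | ∃ p ∈ E, (a, s) ∈ p.v} := by
    ext s
    exact mem_vals_fam
  rw [← e]
  exact h1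

/-- A2. -/
lemma low_glb {E : Set (Chn Θ X)} (hne : E.Nonempty) (hc : #E < D.κ) (hd : Dir E) {g : Chn Θ X}
    (hg : IsGLB E g) (h : ∀ p ∈ E, p.Low) : g.Low := by
  intro b hb
  obtain ⟨p, hp, hpb⟩ := (lev_glb hne hc hd hg b).1 hb
  exact h p hp b hpb

/-- A2. -/
lemma cut_glb {E : Set (Chn Θ X)} (hne : E.Nonempty) (hc : #E < D.κ) (hd : Dir E) {g : Chn Θ X}
    (hg : IsGLB E g) (b : Θ) : IsGLB (Chn.cut b '' E) (g.cut b) := by
  have h := lInf_of_glb hne hc hd hg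
  refine glb_of_lInf (hne.image _) ?_
  have e : ∀ a, a < b → vals (fam (Chn.cut b '' E)) a = vals (fam E) a := by
    intro a hab
    ext s
    rw [mem_vals_fam, mem_vals_fam]
    constructor
    · rintro ⟨_, ⟨p, hp, rfl⟩, hps⟩
      exact ⟨p, hp, hps.1⟩
    · rintro ⟨p, hp, hps⟩
      exact ⟨p.cut b, ⟨p, hp, rfl⟩, hps, hab⟩
  refine ⟨fun a => ?_, fun a s hs => ?_⟩
  · constructor
    · rintro ⟨s, hs, hab⟩
      rw [e a hab]
      exact (h.lev a).1 ⟨s, hs⟩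
    · intro hv
      have hab : a < b := by
        obtain ⟨s, hs⟩ := hv
        obtain ⟨_, ⟨p, hp, rfl⟩, hps⟩ := mem_vals_fam.1 hs
        exact hps.2
      rw [e a hab] at hv
      obtain ⟨s, hs⟩ := (h.lev a).2 hv
      exact ⟨s, hs, hab⟩
  · rw [e a hs.2]
    exact h.val a s hs.1

end Chn

end Pool.CF
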