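import Pool.Agent.Lib.MP_cc7fb1_cf.Data
import Pool.Agent.Lib.MP_cc7fb1_cf.H4

/-!
# MP_cc7fb1: the partial order of chains (row CA1)
-/

set_option autoImplicit false
set_option linter.unusedSectionVars false

open Cardinal Set

namespace Pool.CF

section gen
variable {P : Type} [PartialOrder P]

/-- `E` is directed downwards. -/
def Dir (E : Set P) : Prop := ∀ a ∈ E, ∀ b ∈ E, ∃ c ∈ E, c ≤ a ∧ c ≤ b

/-- Small nonempty directed sets have greatest lower bounds. -/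
def DG (κ : Cardinal.{0}) (P : Type) [PartialOrder P] : Prop :=
  ∀ E : Set P, E.Nonempty → #E < κ → Dir E → ∃ g, IsGLB E g

end gen

variable {Θ X : Type} [LinearOrder Θ] [WellFoundedLT Θ]

variable (Θ X) in
/-- Chains over the universal system. -/
structure Chn [D : SG Θ X] where
  /-- the set of pairs -/
  v : Set (Θ × Θ)
  ch : IsCh D.κ D.S v

variable [D : SG Θ X]

namespace Chn

@[ext] lemma ext' {p q : Chn Θ X} (h : p.v = q.v) : p = q := by
  cases p; cases q; congr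

/-- The labels. -/
def lev (p : Chn Θ X) : Set Θ := Pool.CF.lev p.v

/-- A1. -/
lemma le_refl' (p : Chn Θ X) : ChLe D.S p.v p.v := ChLe.refl D.str p.ch

/-- A1. -/
lemma le_trans' {p q r : Chn Θ X} (h₁ : ChLe D.S p.v q.v) (h₂ : ChLe D.S q.v r.v) :
    ChLe D.S p.v r.v := ChLe.trans D.str r.ch q.ch p.ch h₁ h₂

/-- A1. -/
lemma le_antisymm' {p q : Chn Θ X} (h₁ : ChLe D.S p.v q.v) (h₂ : ChLe D.S q.v p.v) : p = q :=
  ext' (ChLe.antisymm D.str p.ch q.ch h₁ h₂)

instance : PartialOrder (Chn Θ X) where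
  le p q := ChLe D.S p.v q.v
  le_refl := le_refl'
  le_trans _ _ _ := le_trans'
  le_antisymm _ _ := le_antisymm'

lemma le_def {p q : Chn Θ X} : p ≤ q ↔ ChLe D.S p.v q.v := Iff.rfl

/-- A1: the empty chain. -/
lemma empty_ch : IsCh D.κ D.S (∅ : Set (Θ × Θ)) := isCh_empty D.κ_reg.aleph0_le

instance : OrderTop (Chn Θ X) where
  top := ⟨∅, empty_ch⟩
  le_top _ _ _ h := absurd h (notMem_empty _)

/-- All labels are below `λ`. -/
def Low (p : Chn Θ X) : Prop := ∀ b ∈ p.lev, b < D.la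

/-- A1. -/
lemma cut_ch (b : Θ) (p : Chn Θ X) : IsCh D.κ D.S (Pool.CF.cut b p.v) := p.ch.cut b

/-- The part below the label `b`. -/
def cut (b : Θ) (p : Chn Θ X) : Chn Θ X := ⟨Pool.CF.cut b p.v, cut_ch b p⟩

/-- A1. -/
lemma le_cut (b : Θ) (p : Chn Θ X) : p ≤ p.cut b :=
  ChLe.of_subset D.str (cut_ch b p) fun _ h => h.1

/-- A1. -/
lemma cut_mono (b : Θ) {p q : Chn Θ X} (h : p ≤ q) : p.cut b ≤ q.cut b := ChLe.cut h b

/-- A1. -/
lemma tp_ch {a r : Θ} (h : r ∈ (D.S a).C) : IsCh D.κ D.S (insert (a, r) ((D.S a).sg r)) :=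
  Structured.isCh_top D.κ_reg.aleph0_le D.str h

/-- The chain attached to an element of a level, with this element on top. -/
def tp (a r : Θ) (h : r ∈ (D.S a).C) : Chn Θ X := ⟨insert (a, r) ((D.S a).sg r), tp_ch h⟩

/-- A1. -/
lemma le_tp_iff {a r : Θ} (h : r ∈ (D.S a).C) (p : Chn Θ X) :
    p ≤ tp a r h ↔ ∃ r', (a, r') ∈ p.v ∧ (D.S a).le r' r := by
  constructor
  · intro hp
    exact hp a r (mem_insert _ _)
  · rintro ⟨r', h1, h2⟩ b s hs
    rcases mem_insert_iff.1 hs with h3 | h3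
    · have hb : b = a := congrArg Prod.fst h3
      have hs' : s = r := congrArg Prod.snd h3
      rw [hb, hs']
      exact ⟨r', h1, h2⟩
    · obtain ⟨s', h4, h5⟩ := (D.str a).mono r h r' (p.ch.mem a r' h1) h2 b s h3
      rw [p.ch.coh a r' h1] at h4
      exact ⟨s', h4.1, h5⟩

/-- A1. -/
lemma lev_mono {p q : Chn Θ X} (h : p ≤ q) : q.lev ⊆ p.lev := ChLe.lev_subset h

end Chn

end Pool.CF
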