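import Pool.Agent.Lib.MP_cc7fb1_cf.K1

/-!
# MP_cc7fb1: many tasks, closing off (row K2)
-/

set_option autoImplicit false
set_option linter.unusedSectionVars false

open Cardinal Set Pool.CF

namespace Pool.CV

variable {P : Type} [PartialOrder P] {κ : Cardinal.{0}}

/-- K2: closing off.  `T p` is the set of tasks present at `p`.  Proof: iterate `many_tasks`
`ω` times and take the greatest lower bound. -/
lemma closing_off (hκ : κ.IsRegular) (hω : ℵ₀ < κ) {A : Set P} (hA : DGOn κ A) {ι : Type}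
    (Dn : ι → Set P) (hD : ∀ i, ∀ p ∈ A, ∃ q ∈ Dn i, q ∈ A ∧ q ≤ p)
    (hcl : ∀ i, ∀ f : ℕ → P, Antitone f → (∀ n, f n ∈ Dn i) → ∀ g, IsGLB (range f) g → g ∈ Dn i)
    (T : P → Set ι) (hT : ∀ p ∈ A, #(T p) < κ)
    (hcont : ∀ f : ℕ → P, Antitone f → (∀ n, f n ∈ A) →
      (∀ n, ∀ i ∈ T (f n), ∃ d ∈ Dn i, d ≤ f n ∧ f (n + 1) ≤ d) →
      ∀ g, IsGLB (range f) g → ∀ i ∈ T g, ∃ n, ∀ m ≥ n, i ∈ T (f m)) (p : P) (hp : p ∈ A) :
    ∃ q ∈ A, q ≤ p ∧ ∀ i ∈ T q, q ∈ Dn i := by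
  have hstep : ∀ p ∈ A, ∃ q ∈ A, q ≤ p ∧ ∀ i ∈ T p, ∃ d ∈ Dn i, d ≤ p ∧ q ≤ d := by
    intro p hp
    obtain ⟨q, hq, hqp, hqd⟩ := many_tasks hκ hA (ι := T p) (hT p hp) (fun i => Dn i.1)
      (fun i => hD i.1) p hp
    exact ⟨q, hq, hqp, fun i hi => hqd ⟨i, hi⟩⟩
  choose! nx hnx using hstep
  let f : ℕ → P := fun n => nx^[n] p
  have hfs : ∀ n, f (n + 1) = nx (f n) := fun n => Function.iterate_succ_apply' nx n p
  have hfA : ∀ n, f n ∈ A := by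
    intro n
    induction n with
    | zero => exact hp
    | succ n ih =>
      rw [hfs]
      exact (hnx _ ih).1
  have hanti : Antitone f := antitone_nat_of_succ_le fun n => by
    rw [hfs]
    exact (hnx _ (hfA n)).2.1
  have hfT : ∀ n, ∀ i ∈ T (f n), ∃ d ∈ Dn i, d ≤ f n ∧ f (n + 1) ≤ d := by
    intro n i hi
    rw [hfs]
    exact (hnx _ (hfA n)).2.2 i hi
  obtain ⟨g, hgA, hg⟩ := exists_glb_seq hω hA hanti hfA
  refine ⟨g, hgA, hg.1 ⟨0, rfl⟩, fun i hi => ?_⟩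
  obtain ⟨n, hn⟩ := hcont f hanti hfA hfT g hg i hi
  have hd : ∀ m, ∃ d, m ≥ n → d ∈ Dn i ∧ d ≤ f m ∧ f (m + 1) ≤ d := by
    intro m
    by_cases hm : m ≥ n
    · obtain ⟨d, h1, h2⟩ := hfT m i (hn m hm)
      exact ⟨d, fun _ => ⟨h1, h2⟩⟩
    · exact ⟨p, fun h => absurd h hm⟩
  choose d hd using hd
  refine hcl i (fun k => d (k + n)) (antitone_nat_of_succ_le fun k => ?_)
    (fun k => (hd (k + n) (Nat.le_add_left _ _)).1) g
    (glb_interleave (n₀ := n) (fun m hm => (hd m hm).2) hanti hg)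
  have h1 := (hd (k + 1 + n) (Nat.le_add_left _ _)).2.1
  have h2 := (hd (k + n) (Nat.le_add_left _ _)).2.2
  have h3 : k + n + 1 = k + 1 + n := by omega
  rw [h3] at h2
  exact h1.trans h2

end Pool.CV
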