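import Pool.Agent.Lib.MP_cc7fb1_cf.ChnD

/-!
# MP_cc7fb1: closure under infima
-/

set_option autoImplicit false
set_option linter.unusedSectionVars false

open Cardinal Set Pool.CF

namespace Pool.CV

variable {P : Type} [PartialOrder P] {κ : Cardinal.{0}}

/-- `A` is closed under greatest lower bounds of small directed sets, which exist. -/
def DGOn (κ : Cardinal.{0}) (A : Set P) : Prop :=
  ∀ E ⊆ A, E.Nonempty → #E < κ → Dir E → ∃ g ∈ A, IsGLB E g

end Pool.CV
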