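import Pool.Agent.Lib.MP_cc7fb1_cf.Ord
import Pool.Agent.Lib.MP_cc7fb1_cf.VS

/-!
# MP_cc7fb1: the chain condition (row D1)
-/

set_option autoImplicit false
set_option linter.unusedSectionVars false

open Cardinal Set Pool.CF

namespace Pool.CV

variable {Θ X : Type} [LinearOrder Θ] [WellFoundedLT Θ] [D : SG Θ X]

private lemma D1_in_mono {al al' : Θ} (h : al ≤ al') {b : BB Θ X} (hb : b.In al) : b.In al' :=
  fun t ht => (hb t ht).trans_le h

private lemma D1_le_res (al : Θ) (b : BB Θ X) : b ≤ b.res al :=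
  ⟨le_rfl, sep_subset _ _⟩

variable (Θ X) in
private def D1_r0 : R0 Θ X where
  c := ∅
  sub := fun _ h => absurd h (notMem_empty _)
  card := by
    rw [Cardinal.mk_eq_zero]
    exact (Cardinal.aleph0_pos).trans D.κ_unc

private lemma D1_mk_lt (al : Θ) : #{b : BB Θ X | b.In al} < #Θ := by
  refine lt_of_le_of_lt ?_ (LL.mk_lt (X := X) al)
  refine Cardinal.mk_le_of_injective
    (f := fun b : {b : BB Θ X | b.In al} =>
      (⟨(b.1, D1_r0 Θ X), b.2⟩ : {l : LL Θ X | l.In al})) ?_
  intro b b' h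
  have h1 : (b.1, D1_r0 Θ X) = (b'.1, D1_r0 Θ X) := congrArg Subtype.val h
  exact Subtype.ext (Prod.ext_iff.mp h1).1

/-- The closure function. -/
private lemma D1_g (A : Set (BB Θ X)) (al : Θ) : ∃ ga : Θ, al ≤ ga ∧
    ∀ a ∈ A, ∃ a' ∈ A, a'.res al = a.res al ∧ a'.In ga := by
  classical
  have hin : ∀ b : BB Θ X, ∃ ga, b.In ga := fun b => LL.exists_in (b, D1_r0 Θ X)
  choose γ hγ using hin
  let rep : BB Θ X → BB Θ X := fun b =>
    if h : ∃ a ∈ A, a.res al = b then Classical.choose h else b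
  have hrep : ∀ b, (∃ a ∈ A, a.res al = b) → rep b ∈ A ∧ (rep b).res al = b := by
    intro b h
    have e : rep b = Classical.choose h := dif_pos h
    rw [e]
    exact Classical.choose_spec h
  have hE : #((fun b : BB Θ X => γ (rep b)) '' {b : BB Θ X | b.In al}) < #Θ :=
    (Cardinal.mk_image_le).trans_lt (D1_mk_lt al)
  obtain ⟨c, hc⟩ := exists_bound (X := X) hE
  refine ⟨max al c, le_max_left _ _, fun a ha => ?_⟩
  obtain ⟨h1, h2⟩ := hrep (a.res al) ⟨a, ha, rfl⟩
  refine ⟨rep (a.res al), h1, h2, ?_⟩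
  have h3 : γ (rep (a.res al)) < c :=
    hc _ ⟨a.res al, fun t ht => ht.2, rfl⟩
  exact D1_in_mono (h3.le.trans (le_max_right _ _)) (hγ _)

include D in
/-- Iteration. -/
private lemma D1_iter (g : Θ → Θ) : ∃ F : Θ → Θ, ∀ ξ η, η < ξ → g (F η) < F ξ := by
  classical
  let bd : Set Θ → Θ := fun E => if h : #E < #Θ then Classical.choose (exists_bound (X := X) h)
    else D.la
  have hbd : ∀ E : Set Θ, #E < #Θ → ∀ a ∈ E, a < bd E := by
    intro E h
    have e : bd E = Classical.choose (exists_bound (X := X) h) := dif_pos h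
    rw [e]
    exact Classical.choose_spec (exists_bound (X := X) h)
  let F : Θ → Θ := (wellFounded_lt (α := Θ)).fix
    (fun ξ rec => bd (range fun η : Iio ξ => g (rec η.1 η.2)))
  refine ⟨F, fun ξ η h => ?_⟩
  have e : F ξ = bd (range fun η : Iio ξ => g (F η.1)) :=
    (wellFounded_lt (α := Θ)).fix_eq _ ξ
  rw [e]
  apply hbd
  · exact (Cardinal.mk_range_le).trans_lt (D.th_init ξ)
  · exact ⟨⟨η, h⟩, rfl⟩

/-- D1: chain condition: fewer than `δ` conditions in an antichain.  Proof: choose `g : Θ → Θ`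
such that for every `b` with `b.In al`: if some `a ∈ A` has `a.res al = b` then some such `a` lies
in `g al` (`exists_bound`, `LL.mk_lt`); iterate `λ` times (recursion over `Iio D.la`), `al := ` the
least upper bound.  Every `a ∈ A` has fewer than `λ` coordinates below `al`, so they are below some
earlier `al'`; a member `a' ∈ A` with `a'.res al' = a.res al'` and `a'.In al` is compatible with
`a` (same chain, the common coordinates are in `a.res al'`), so `a = a'` and `a.In al`. -/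
theorem BB.cc (A : Set (BB Θ X)) (h : ∀ a ∈ A, ∀ b ∈ A, a ≠ b → ∀ c : BB Θ X, c ≤ a → ¬ c ≤ b) :
    #A < #Θ := by
  classical
  choose g hg1 hg2 using D1_g A
  obtain ⟨F, hF⟩ := D1_iter (X := X) g
  have hne : {x : Θ | ∀ ξ < D.la, F ξ < x}.Nonempty :=
    ⟨F D.la, fun ξ hξ => (hg1 _).trans_lt (hF _ _ hξ)⟩
  set al := (wellFounded_lt (α := Θ)).min _ hne with hal
  have hal1 : ∀ ξ < D.la, F ξ < al := (wellFounded_lt (α := Θ)).min_mem _ hne
  have hal2 : ∀ e < al, ∃ ξ < D.la, e ≤ F ξ := by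
    intro e he
    by_contra hcon
    apply (wellFounded_lt (α := Θ)).not_lt_min _ (x := e) ?_ he
    intro ξ hξ
    by_contra h2
    exact hcon ⟨ξ, hξ, not_lt.mp h2⟩
  have hin : ∀ a ∈ A, a.In al := by
    intro a ha
    have hch : ∀ t : {t // t ∈ a.h ∧ t.2.1 < al}, ∃ ξ < D.la, t.1.2.1 ≤ F ξ :=
      fun t => hal2 _ t.2.2
    choose ξ hξ1 hξ2 using hch
    have hcard : #(range ξ) < #(Iio D.la) := by
      refine (Cardinal.mk_range_le).trans_lt (lt_of_le_of_lt ?_ a.ok.card)
      exact Cardinal.mk_le_mk_of_subset (s := {t | t ∈ a.h ∧ t.2.1 < al}) (fun t ht => ht.1)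
    obtain ⟨b, hb, hb'⟩ := exists_bound_la (X := X) hcard (by
      rintro _ ⟨t, rfl⟩
      exact hξ1 t)
    obtain ⟨b', hb1, hb2⟩ := exists_bound_la (X := X) (E := {b}) (by
      rw [mk_singleton]
      exact lt_of_lt_of_le Cardinal.one_lt_aleph0 (D.la_reg.aleph0_le)) (by
      rintro _ rfl
      exact hb)
    have hb3 : b < b' := hb2 b rfl
    obtain ⟨a', ha', e, hin'⟩ := hg2 (F b) a ha
    have h1 : a'.In al := D1_in_mono ((hF _ _ hb3).le.trans (hal1 _ hb1).le) hin'
    have h2 : a.res al = a.res (F b) := by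
      apply BB.ext'
      · rfl
      · ext t
        constructor
        · rintro ⟨ht1, ht2⟩
          refine ⟨ht1, ?_⟩
          have h3 := hξ2 ⟨t, ht1, ht2⟩
          have h4 := hb' _ ⟨⟨t, ht1, ht2⟩, rfl⟩
          exact h3.trans_lt ((hg1 _).trans_lt (hF _ _ h4))
        · rintro ⟨ht1, ht2⟩
          exact ⟨ht1, lt_trans ht2 (hal1 _ hb)⟩
    have h3 : a' ≤ a.res al := by
      rw [h2, ← e]
      exact D1_le_res _ _
    obtain ⟨m, hm1, hm2, -⟩ := BB.amal h1 h3
    by_cases hEq : a = a'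
    · rw [hEq]; exact h1
    · exact absurd hm1 (h a ha a' ha' hEq m hm2)
  exact (Cardinal.mk_le_mk_of_subset hin).trans_lt (D1_mk_lt al)

end Pool.CV
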