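import Pool.Agent.Lib.MP_cc7fb1_cf.Ord

/-!
# MP_cc7fb1: tasks (definitions)
-/

set_option autoImplicit false
set_option linter.unusedSectionVars false

open Cardinal Set Pool.CF

namespace Pool.CV

variable {Θ X : Type} [LinearOrder Θ] [WellFoundedLT Θ] [D : SG Θ X]

/-- A dense set, closed under weakly stronger conditions. -/
structure OpenD (T : Set (BB Θ X)) : Prop where
  dense : ∀ b : BB Θ X, ∃ b' ∈ T, b' ≤ b
  wk : ∀ b ∈ T, ∀ b' : BB Θ X, b'.Wk b → b' ∈ T

/-- `T` is determined by the coordinates below `al`. -/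
def Det (al : Θ) (T : Set (BB Θ X)) : Prop := ∀ b : BB Θ X, b ∈ T ↔ b.res al ∈ T

end Pool.CV
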