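import Pool.Agent.Lib.MP_cc7fb1_cf.Ord
import Pool.Agent.Lib.MP_cc7fb1_cf.VS
import Pool.Agent.Lib.MP_cc7fb1_cf.ProcDef

/-!
# MP_cc7fb1: regular open sets (row D3)
-/

set_option autoImplicit false
set_option linter.unusedSectionVars false

open Cardinal Set Pool.CF

namespace Pool.CV

variable {Θ X : Type} [LinearOrder Θ] [WellFoundedLT Θ] [D : SG Θ X]

private lemma D3_le_res (al : Θ) (b : BB Θ X) : b ≤ b.res al := ⟨le_rfl, fun _ ht => ht.1⟩

private lemma D3_res_mono (al : Θ) {b b' : BB Θ X} (h : b ≤ b') : b.res al ≤ b'.res al :=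
  ⟨h.1, fun _ ht => ⟨h.2 ht.1, ht.2⟩⟩

private lemma D3_res_in (al : Θ) (b : BB Θ X) : (b.res al).In al := fun _ ht => ht.2

private lemma D3_res_res {al al' : Θ} (h : al ≤ al') (b : BB Θ X) :
    (b.res al').res al = b.res al := by
  refine BB.ext' rfl ?_
  ext t
  exact ⟨fun ht => ⟨ht.1.1, ht.2⟩, fun ht => ⟨⟨ht.1, lt_of_lt_of_le ht.2 h⟩, ht.2⟩⟩

/-- D3: regular open sets are closed under weakly stronger conditions (`BB.Wk.union` for all
`q ≤ b'`). -/
lemma RegOpen_wk {A : Set (BB Θ X)} (hA : RegOpen A) {b b' : BB Θ X} (hb : b ∈ A) (h : b'.Wk b) :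
    b' ∈ A := by
  refine hA.2 b' fun q hq => ?_
  obtain ⟨m, h1, h2, _⟩ := ((BB.Wk.of_le hq).trans h).union
  exact ⟨m, h1, hA.1 b hb m h2⟩

/-- D3. -/
lemma RegOpen_perp {P : Type} [PartialOrder P] {A : Set P} (hA : ∀ b ∈ A, ∀ b' ≤ b, b' ∈ A) :
    RegOpen (perp A) := by
  refine ⟨fun p hp q hq r hr => hp r (hr.trans hq), fun p hp r hr hrA => ?_⟩
  obtain ⟨r', h1, h2⟩ := hp r hr
  exact h2 r' le_rfl (hA r hrA r' h1)

/-- D3: the union of an open set and its complement is dense. -/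
lemma dense_union_perp {P : Type} [PartialOrder P] (A : Set P) (b : P) :
    ∃ b' ≤ b, b' ∈ A ∪ perp A := by
  by_cases h : ∃ r ≤ b, r ∈ A
  · obtain ⟨r, h1, h2⟩ := h
    exact ⟨r, h1, Or.inl h2⟩
  · exact ⟨b, le_rfl, Or.inr fun r hr hrA => h ⟨r, hr, hrA⟩⟩

/-- D3. -/
lemma Det.mono {al al' : Θ} (h : al ≤ al') {A : Set (BB Θ X)} (hA : Det al A) : Det al' A := by
  intro b
  rw [hA b, hA (b.res al'), D3_res_res h]

/-- D3: `perp` of a determined open set is determined (`BB.amal`). -/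
lemma Det_perp {al : Θ} {A : Set (BB Θ X)} (hA : Det al A) (ho : ∀ b ∈ A, ∀ b' ≤ b, b' ∈ A) :
    Det al (perp A) := by
  intro b
  constructor
  · intro hb r hr hrA
    have h1 : r.res al ∈ A := (hA r).1 hrA
    have h2 : r.res al ≤ b.res al := by
      have h3 := D3_res_mono al hr
      rwa [D3_res_res le_rfl] at h3
    obtain ⟨m, h4, h5, _⟩ := BB.amal (D3_res_in al r) h2
    exact hb m h5 (ho _ h1 m h4)
  · intro hb r hr
    exact hb r (hr.trans (D3_le_res al b))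

/-- D3: the task of deciding the regular open set `A`. -/
lemma OpenD_union_perp {A : Set (BB Θ X)} (hA : RegOpen A) : OpenD (A ∪ perp A) := by
  refine ⟨fun b => ?_, fun b hb b' h => ?_⟩
  · obtain ⟨b', h1, h2⟩ := dense_union_perp A b
    exact ⟨b', h2, h1⟩
  · rcases hb with hb | hb
    · exact Or.inl (RegOpen_wk hA hb h)
    · exact Or.inr (RegOpen_wk (RegOpen_perp hA.1) hb h)

/-- D3: the task of deciding a family of regular open sets. -/
lemma OpenD_family {ι : Type} {A : ι → Set (BB Θ X)} (hA : ∀ i, RegOpen (A i)) :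
    OpenD ({b | ∀ i, b ∈ A i} ∪ {b | ∃ i, b ∈ perp (A i)}) := by
  refine ⟨fun b => ?_, fun b hb b' h => ?_⟩
  · by_cases hc : ∃ i, ∃ q ≤ b, q ∈ perp (A i)
    · obtain ⟨i, q, h1, h2⟩ := hc
      exact ⟨q, Or.inr ⟨i, h2⟩, h1⟩
    · refine ⟨b, Or.inl fun i => (hA i).2 b fun q hq => ?_, le_rfl⟩
      by_contra hr
      exact hc ⟨i, q, hq, fun r hr' hrA => hr ⟨r, hr', hrA⟩⟩
  · rcases hb with hb | ⟨i, hb⟩
    · exact Or.inl fun i => RegOpen_wk (hA i) (hb i) h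
    · exact Or.inr ⟨i, RegOpen_wk (RegOpen_perp (hA i).1) hb h⟩

/-- D3. -/
lemma Det_family {ι : Type} {al : Θ} {A : ι → Set (BB Θ X)} (hA : ∀ i, RegOpen (A i))
    (hd : ∀ i, Det al (A i)) : Det al ({b | ∀ i, b ∈ A i} ∪ {b | ∃ i, b ∈ perp (A i)}) := by
  intro b
  constructor
  · rintro (h | ⟨i, h⟩)
    · exact Or.inl fun i => (hd i b).1 (h i)
    · exact Or.inr ⟨i, (Det_perp (hd i) (hA i).1 b).1 h⟩
  · rintro (h | ⟨i, h⟩)
    · exact Or.inl fun i => (hd i b).2 (h i)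
    · exact Or.inr ⟨i, (Det_perp (hd i) (hA i).1 b).2 h⟩

end Pool.CV
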