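import Pool.Agent.Lib.MP_cc7fb1_cf.D1
import Pool.Agent.Lib.MP_cc7fb1_cf.D3

/-!
# MP_cc7fb1: supports of regular open sets (row D2)
-/

set_option autoImplicit false
set_option linter.unusedSectionVars false

open Cardinal Set Pool.CF

namespace Pool.CV

variable {Θ X : Type} [LinearOrder Θ] [WellFoundedLT Θ] [D : SG Θ X]

private lemma D2_le_res (al : Θ) (b : BB Θ X) : b ≤ b.res al := ⟨le_rfl, fun _ ht => ht.1⟩

private lemma D2_res_mono (al : Θ) {b b' : BB Θ X} (h : b ≤ b') : b.res al ≤ b'.res al :=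
  ⟨h.1, fun _ ht => ⟨h.2 ht.1, ht.2⟩⟩

private lemma D2_res_in (al : Θ) (b : BB Θ X) : (b.res al).In al := fun _ ht => ht.2

private lemma D2_res_res (al : Θ) (b : BB Θ X) : (b.res al).res al = b.res al := by
  refine BB.ext' rfl ?_
  ext t
  exact ⟨fun ht => ht.1, fun ht => ⟨ht, ht.2⟩⟩

private lemma D2_res_of_in {al : Θ} {b : BB Θ X} (h : b.In al) : b.res al = b := by
  refine BB.ext' rfl ?_
  ext t
  exact ⟨fun ht => ht.1, fun ht => ⟨ht, h t ht⟩⟩

private lemma D2_exists_in (b : BB Θ X) : ∃ al, b.In al := by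
  have h1 : #((fun t : Chn Θ X × Θ × Θ × Θ => t.2.1) '' b.h) < #Θ :=
    mk_image_le.trans_lt (b.ok.card.trans_le ((D.th_init D.la).le))
  obtain ⟨al, hal⟩ := exists_bound (X := X) h1
  exact ⟨al, fun t ht => hal _ ⟨t, ht, rfl⟩⟩

/-- Maximal antichains. -/
private lemma D2_zorn (T : Set (BB Θ X)) : ∃ M : Set (BB Θ X), M ⊆ T ∧
    (∀ a ∈ M, ∀ b ∈ M, a ≠ b → ∀ c : BB Θ X, c ≤ a → ¬ c ≤ b) ∧
    ∀ q ∈ T, ∃ a ∈ M, ∃ c : BB Θ X, c ≤ q ∧ c ≤ a := by
  obtain ⟨M, hM⟩ := zorn_subset {M : Set (BB Θ X) | M ⊆ T ∧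
    ∀ a ∈ M, ∀ b ∈ M, a ≠ b → ∀ c : BB Θ X, c ≤ a → ¬ c ≤ b} (by
      intro C hC hch
      refine ⟨⋃₀ C, ⟨sUnion_subset fun s hs => (hC hs).1, ?_⟩, fun s hs => subset_sUnion_of_mem hs⟩
      rintro a ⟨s, hs, ha⟩ b ⟨t, ht, hb⟩ hab
      rcases hch.total hs ht with h | h
      · exact (hC ht).2 a (h ha) b hb hab
      · exact (hC hs).2 a ha b (h hb) hab)
  refine ⟨M, hM.prop.1, hM.prop.2, fun q hq => ?_⟩
  by_contra hcon
  have h1 : ∀ a ∈ M, ∀ c : BB Θ X, c ≤ q → ¬ c ≤ a := fun a ha c hc hca =>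
    hcon ⟨a, ha, c, hc, hca⟩
  have h2 : insert q M ⊆ M := by
    refine hM.le_of_ge (y := insert q M) ⟨?_, ?_⟩ (subset_insert q M)
    · rintro x (rfl | hx)
      · exact hq
      · exact hM.prop.1 hx
    · rintro a (rfl | ha) b (rfl | hb) hab c hca hcb
      · exact hab rfl
      · exact h1 b hb c hca hcb
      · exact h1 a ha c hcb hca
      · exact hM.prop.2 a ha b hb hab c hca hcb
  exact h1 q (h2 (mem_insert q M)) q le_rfl le_rfl

/-- D2: regular open sets are determined by the coordinates below some `al`.  Proof: take a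
maximal antichain in `perp (A i)` (`exists_maximal`, Zorn); it has fewer than `δ` elements by
`BB.cc`, so all are in `al`.  If `b ∈ A i` and `b.res al ∉ A i`, some `q ≤ b.res al` is in
`perp (A i)`, it has a common extension `q'` with an element `a` of the antichain;
`q'.res al ≤ a`, and the amalgam of `q'.res al` and `b` is in `A i ∩ perp (A i)`. -/
theorem exists_det {ι : Type} (hι : #ι < #Θ) (A : ι → Set (BB Θ X)) (hA : ∀ i, RegOpen (A i)) :
    ∃ al, ∀ i, Det al (A i) := by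
  choose M hM1 hM2 hM3 using fun i => D2_zorn (perp (A i))
  choose al0 hal0 using fun b : BB Θ X => D2_exists_in b
  have h1 : #(⋃ i, al0 '' M i : Set Θ) < #Θ :=
    (Cardinal.card_iUnion_lt_iff_forall_of_isRegular D.th_reg hι).2 fun i =>
      mk_image_le.trans_lt (BB.cc (M i) (hM2 i))
  obtain ⟨al, hal⟩ := exists_bound (X := X) h1
  refine ⟨al, fun i b => ⟨fun hb => ?_, fun hb => (hA i).1 _ hb b (D2_le_res al b)⟩⟩
  by_contra hcon
  have h2 : ∃ q ≤ b.res al, ∀ r ≤ q, r ∉ A i := by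
    by_contra h3
    refine hcon ((hA i).2 _ fun q hq => ?_)
    by_contra h4
    exact h3 ⟨q, hq, fun r hr hrA => h4 ⟨r, hr, hrA⟩⟩
  obtain ⟨q, hq, hqp⟩ := h2
  obtain ⟨a, ha, c, hcq, hca⟩ := hM3 i q hqp
  have hain : a.In al := fun t ht => (hal0 a t ht).trans (hal _ (mem_iUnion.2 ⟨i, a, ha, rfl⟩))
  have h5 : c.res al ≤ a := by
    have h6 := D2_res_mono al hca
    rwa [D2_res_of_in hain] at h6
  have h7 : c.res al ≤ b.res al := by
    have h8 := D2_res_mono al (hcq.trans hq)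
    rwa [D2_res_res] at h8
  obtain ⟨m, h9, h10, _⟩ := BB.amal (D2_res_in al c) h7
  exact hM1 i ha m (h9.trans h5) ((hA i).1 b hb m h10)

end Pool.CV
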