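import Pool.Agent.Lib.MP_cc7fb1_cf.Ord
import Pool.Agent.Lib.MP_cc7fb1_cf.ProcDef

/-!
# MP_cc7fb1: the enumeration of the tasks (row D4)
-/

set_option autoImplicit false
set_option linter.unusedSectionVars false

open Cardinal Set Pool.CF

namespace Pool.CV

variable {Θ X : Type} [LinearOrder Θ] [WellFoundedLT Θ] [D : SG Θ X]

private lemma D4_res_in (al : Θ) (b : BB Θ X) : (b.res al).In al := fun _ ht => ht.2

private lemma D4_res_res (al : Θ) (b : BB Θ X) : (b.res al).res al = b.res al := by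
  apply BB.ext'
  · rfl
  · ext t
    exact ⟨fun h => h.1, fun h => ⟨h, h.2⟩⟩

private lemma D4_card (al : Θ) : #{b : BB Θ X // b.In al} < #Θ := by
  refine lt_of_le_of_lt ?_ (LL.mk_lt (X := X) al)
  have hc : #(∅ : Set Θ) < D.κ := by
    rw [Cardinal.mk_eq_zero]
    exact D.κ_reg.pos
  refine mk_le_of_injective (f := fun b : {b : BB Θ X // b.In al} =>
    (⟨(b.1, (⟨∅, fun g hg => absurd hg (notMem_empty g), hc⟩ : R0 Θ X)), b.2⟩ :
      {l : LL Θ X // l ∈ {l : LL Θ X | l.In al}})) ?_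
  intro b b' h
  have h1 := congrArg (fun z => z.1.1) h
  exact Subtype.ext h1

/-- D4: all determined sequences of dense sets can be enumerated (cardinal arithmetic: a set which
is determined by `al` is given by a subset of `{b | b.In al}`, and `#{b | b.In al} < #Θ` by
`LL.mk_lt`; `#Θ` is strongly inaccessible). -/
theorem exists_tasks : ∃ (T : Θ → Θ → Set (BB Θ X)) (al₀ : Θ → Θ), (∀ τ xi, OpenD (T τ xi)) ∧
    (∀ τ xi, Det (al₀ τ) (T τ xi)) ∧
    ∀ (S : Θ → Set (BB Θ X)) (al : Θ), (∀ xi, OpenD (S xi)) → (∀ xi, Det al (S xi)) →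
      ∃ τ, ∀ xi < D.la, T τ xi = S xi := by
  classical
  have hinf : ℵ₀ ≤ #Θ := D.th_reg.aleph0_le
  let Γ : Type := Σ al : Θ, (Iio D.la → Set {b : BB Θ X // b.In al})
  have hΓ : #Γ ≤ #Θ := by
    rw [mk_sigma]
    have h1 : ∀ al : Θ, #(Iio D.la → Set {b : BB Θ X // b.In al}) ≤ #Θ := by
      intro al
      rw [mk_arrow, mk_set, lift_id, lift_id, ← power_mul]
      exact (D.th_sl _ (mul_lt_of_lt hinf (D4_card al) (D.th_init D.la))).le
    refine (sum_le_sum _ _ h1).trans ?_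
    rw [sum_const', mul_eq_self hinf]
  obtain ⟨e⟩ : Nonempty (Γ ↪ Θ) := hΓ
  have : Nonempty Γ := ⟨⟨D.la, fun _ => ∅⟩⟩
  let g : Θ → Γ := Function.invFun e
  have hg : ∀ γ, g (e γ) = γ := Function.leftInverse_invFun e.injective
  let Sg : Γ → Θ → Set (BB Θ X) := fun γ xi =>
    {b | ∃ h : xi < D.la, (⟨b.res γ.1, D4_res_in γ.1 b⟩ : {b : BB Θ X // b.In γ.1}) ∈ γ.2 ⟨xi, h⟩}
  have hdet : ∀ γ xi, Det γ.1 (Sg γ xi) := by
    intro γ xi b
    show (∃ h : xi < D.la, (⟨b.res γ.1, D4_res_in γ.1 b⟩ : {b : BB Θ X // b.In γ.1}) ∈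
      γ.2 ⟨xi, h⟩) ↔ (∃ h : xi < D.la, (⟨(b.res γ.1).res γ.1, D4_res_in γ.1 _⟩ :
      {b : BB Θ X // b.In γ.1}) ∈ γ.2 ⟨xi, h⟩)
    have h1 : (⟨(b.res γ.1).res γ.1, D4_res_in γ.1 _⟩ : {b : BB Θ X // b.In γ.1}) =
        ⟨b.res γ.1, D4_res_in γ.1 b⟩ := Subtype.ext (D4_res_res γ.1 b)
    rw [h1]
  have huniv : OpenD (univ : Set (BB Θ X)) := ⟨fun b => ⟨b, mem_univ _, le_rfl⟩,
    fun _ _ _ _ => mem_univ _⟩
  refine ⟨fun τ xi => if OpenD (Sg (g τ) xi) then Sg (g τ) xi else univ, fun τ => (g τ).1,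
    ?_, ?_, ?_⟩
  · intro τ xi
    dsimp only
    split_ifs with h
    · exact h
    · exact huniv
  · intro τ xi
    dsimp only
    split_ifs with h
    · exact hdet _ _
    · intro b
      exact ⟨fun _ => mem_univ _, fun _ => mem_univ _⟩
  · intro S al hS hSdet
    let γ : Γ := ⟨al, fun xi => {b | b.1 ∈ S xi.1}⟩
    refine ⟨e γ, fun xi hxi => ?_⟩
    dsimp only
    rw [hg]
    have h1 : Sg γ xi = S xi := by
      ext b
      constructor
      · rintro ⟨_, h⟩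
        exact (hSdet xi b).2 h
      · intro h
        exact ⟨hxi, (hSdet xi b).1 h⟩
    rw [h1, if_pos (hS xi)]

end Pool.CV
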