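import Pool.Agent.Lib.MP_cc7fb1_cf.Sys

/-!
# MP_cc7fb1: the data from the large cardinal (hugeness) and the universal system
-/

set_option autoImplicit false

open Cardinal Set

namespace Pool.CF

/-- Data from a huge cardinal.  `Θ` has order type `δ`, `la` is the element number `λ`, `X` is
the set of all subsets of `Θ` of order type `λ`, `U` a normal fine `λ`-complete ultrafilter on
`X`, `el x` the set `x` and `pi x a` the order type of `x ∩ a`. -/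
class HG (Θ X : Type) [LinearOrder Θ] [WellFoundedLT Θ] where
  κ : Cardinal.{0}
  la : Θ
  el : X → Set Θ
  pi : X → Θ → Θ
  U : Ultrafilter X
  κ_reg : κ.IsRegular
  κ_unc : ℵ₀ < κ
  κ_sl : ∀ c < κ, 2 ^ c < κ
  κ_lt : κ < #(Iio la)
  la_init : ∀ a < la, #(Iio a) < #(Iio la)
  la_reg : (#(Iio la)).IsRegular
  la_sl : ∀ c < #(Iio la), 2 ^ c < #(Iio la)
  th_init : ∀ a : Θ, #(Iio a) < #Θ
  th_reg : (#Θ).IsRegular
  th_sl : ∀ c < #Θ, 2 ^ c < #Θ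
  compl : ∀ (ι : Type) (p : ι → X → Prop), #ι < #(Iio la) → (∀ i, ∀ᶠ x in (U : Filter X), p i x) →
    ∀ᶠ x in (U : Filter X), ∀ i, p i x
  fine : ∀ a, ∀ᶠ x in (U : Filter X), a ∈ el x
  normal : ∀ f : X → Θ, (∀ᶠ x in (U : Filter X), f x ∈ el x) → ∃ a, ∀ᶠ x in (U : Filter X), f x = a
  pi_lt : ∀ x, ∀ a ∈ el x, pi x a < la
  pi_mono : ∀ x, ∀ a ∈ el x, ∀ b ∈ el x, a < b → pi x a < pi x b
  pi_surj : ∀ x, ∀ c < la, ∃ a ∈ el x, pi x a = c
  pi_id : ∀ a < la, ∀ᶠ x in (U : Filter X), pi x a = a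

export HG (κ la el pi U)

/-- `c'` is an end extension of `c`. -/
def EndExt {Θ : Type} [LinearOrder Θ] (c' c : Set Θ) : Prop :=
  c ⊆ c' ∧ ∀ g ∈ c', g ∉ c → ∀ g' ∈ c, g' < g

/-- The elements of the poset number `th`: a chain with labels below `th` and a small subset
of `th`. -/
structure PP {Θ : Type} [LinearOrder Θ] (κ : Cardinal.{0}) (S : Θ → Lv Θ) (th : Θ)
    (σ : Set (Θ × Θ)) (c : Set Θ) : Prop where
  ch : IsCh κ S σ
  lt : ∀ b ∈ lev σ, b < th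
  sub : ∀ g ∈ c, g < th
  card : #c < κ

/-- Everything about the system of levels: it is structured, universal, and reflects. -/
class SG (Θ X : Type) [LinearOrder Θ] [WellFoundedLT Θ] extends HG Θ X where
  S : Θ → Lv Θ
  str : Structured κ S
  bdd : ∀ a, ∃ b, ∀ r ∈ (S a).C, r < b
  bdd_la : ∀ a < la, ∃ b < la, ∀ r ∈ (S a).C, r < b
  univ : ∀ (a₀ : Θ) (Y : Lv Θ), IsStr κ S a₀ Y → (∃ b, ∀ r ∈ Y.C, r < b) → ∃ a ≥ a₀, (S a).Agree Y
  refl_C : ∀ a r, r ∈ (S a).C ↔ ∀ᶠ x in (U : Filter X), pi x r ∈ (S (pi x a)).C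
  refl_le : ∀ a r r', (S a).le r' r ↔ ∀ᶠ x in (U : Filter X), (S (pi x a)).le (pi x r') (pi x r)
  refl_sg : ∀ a, ∀ r ∈ (S a).C, ∀ᶠ x in (U : Filter X),
    (S (pi x a)).sg (pi x r) = tr (pi x) ((S a).sg r)
  lab : Θ → Θ
  code : Θ → Set (Θ × Θ) → Set Θ → Θ
  lab_lt : ∀ th < la, lab th < la
  le_lab : ∀ th ≤ la, th ≤ lab th
  lab_C : ∀ th ≤ la, (S (lab th)).C = {r | ∃ σ c, PP κ S th σ c ∧ r = code th σ c}
  code_inj : ∀ th ≤ la, ∀ σ c σ' c', PP κ S th σ c → PP κ S th σ' c' →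
    code th σ c = code th σ' c' → σ = σ' ∧ c = c'
  lab_le : ∀ th ≤ la, ∀ σ c σ' c', PP κ S th σ c → PP κ S th σ' c' →
    ((S (lab th)).le (code th σ' c') (code th σ c) ↔ ChLe S σ' σ ∧ EndExt c' c)
  lab_sg : ∀ th ≤ la, ∀ σ c, PP κ S th σ c → (S (lab th)).sg (code th σ c) = σ
  refl_lab : ∀ᶠ x in (U : Filter X), pi x (lab la) = lab (pi x la)
  refl_code : ∀ σ c, PP κ S la σ c → ∀ᶠ x in (U : Filter X), pi x (code la σ c) = code (pi x la) σ c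

export SG (S lab code)

end Pool.CF
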