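import Pool.Agent.Lib.MP_cc7fb1_cf.RelDef

/-!
# MP_cc7fb1: the relation `Er` (row E1)
-/

set_option autoImplicit false
set_option linter.unusedSectionVars false

open Cardinal Set Pool.CF

namespace Pool.CV

variable {Θ X : Type} [LinearOrder Θ] [WellFoundedLT Θ] [D : SG Θ X]

/-- E1: density of the conditions which are treated at the stage `τ` (`good.dense` of the level
`(ff Θ X τ).Z`, then `LL.amal`). -/
lemma exists_at (τ : Θ) (l : LL Θ X) : ∃ l' ≤ l, l'.res (ff Θ X τ).Z.al ∈ (ff Θ X τ).Z.Q := by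
  obtain ⟨q, hq, hql⟩ := (ff_spec τ).okZ.good.dense (l.res (ff Θ X τ).Z.al) (LL.res_in _ _)
  obtain ⟨m, _, hml, hmq, _⟩ := LL.amal ((ff_spec τ).okZ.good.inn q hq) hql
  exact ⟨m, hml, by rw [hmq]; exact hq⟩

/-- E1: the pair (chain, name) at the stage `τ` is a condition for almost all `x`
(`Chn.rx_low`, `SAt.ok`). -/
lemma at_cond (τ : Θ) (p : Chn Θ X) : ∀ᶠ x in (D.U : Filter X), ∃ b : BB Θ X,
    b.s = p.rx x ∧ b.h = (ff Θ X τ).h x := by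
  filter_upwards [Chn.rx_low p, (ff_spec (Θ := Θ) (X := X) τ).ok] with x h1 h2
  exact ⟨⟨p.rx x, (ff Θ X τ).h x, h1, h2.1,
    fun t t' be xi v v' h h' ρ _ h3 h4 => h2.2.1 t t' be xi v v' h h' ρ le_top h3 h4⟩, rfl, rfl⟩

/-- E1: persistence at the same stage (`tp_mono`, `inT_mono`). -/
lemma At.mono {τ : Θ} {l l' : LL Θ X} {A : Θ → Set (BB Θ X)} (hA : ∀ xi, RegOpen (A xi))
    (h : At τ l A) (hl : l' ≤ l) (hl' : l'.res (ff Θ X τ).Z.al ∈ (ff Θ X τ).Z.Q) : At τ l' A := by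
  refine ⟨hl', ?_⟩
  have hle := (ff_spec τ).okZ.tp_mono h.1 hl' (LL.res_mono _ hl)
  have h1 := h.2
  unfold InT at h1 ⊢
  filter_upwards [h1, at_cond τ ((ff Θ X τ).Z.tp (l'.res (ff Θ X τ).Z.al)),
    (Chn.rx_le _ _).2 hle] with x h2 h3 h4
  obtain ⟨b, hb, hbs, hbh⟩ := h2
  obtain ⟨b', hbs', hbh'⟩ := h3
  refine ⟨b', (hA _).1 b hb b' ?_, hbs', hbh'⟩
  rw [BB.le_def, hbs, hbs', hbh, hbh']
  exact ⟨h4, Subset.rfl⟩

/-- E1: persistence at later stages.  If `τ < τ'`: `(ff_spec τ').ltZ τ` and its `dense` give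
`q ∈ (ff τ').Z.Q` below `l'.res _` which knows `(ff τ).Z`; `l'' := ` the amalgam of `q` and `l'`;
`Lt.known`, `Lt.sub_le`, `tp_le` and `SAt.sub` (names increase). -/
lemma At.later {τ τ' : Θ} (hτ : τ ≤ τ') {l l' : LL Θ X} {A : Θ → Set (BB Θ X)}
    (hA : ∀ xi, RegOpen (A xi)) (h : At τ l A) (hl : l' ≤ l) : ∃ l'' ≤ l', At τ' l'' A := by
  rcases hτ.eq_or_lt with rfl | hτ
  · obtain ⟨l'', h1, h2⟩ := exists_at τ l'
    exact ⟨l'', h1, h.mono hA (h1.trans hl) h2⟩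
  have hlt : Lt (ff Θ X τ).Z (ff Θ X τ').Z := (ff_spec τ').ltZ (τ : WithBot Θ)
    (WithBot.coe_lt_coe.2 hτ)
  obtain ⟨q, hq, hql, hqa⟩ := hlt.dense (l'.res (ff Θ X τ').Z.al) (LL.res_in _ _)
  obtain ⟨m, _, hml, hmq, _⟩ := LL.amal ((ff_spec τ').okZ.good.inn q hq) hql
  refine ⟨m, hml, ?_, ?_⟩
  · rw [hmq]
    exact hq
  have hq1 := hlt.known q hq hqa
  have hle : (ff Θ X τ').Z.tp q ≤ (ff Θ X τ).Z.tp (l.res (ff Θ X τ).Z.al) := by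
    refine ((ff_spec τ').okZ.tp_le hq).trans ((hlt.sub_le (ff_spec τ).okZ hq hqa).trans ?_)
    refine (ff_spec τ).okZ.tp_mono h.1 hq1.1 ?_
    rw [← hmq, LL.res_res hlt.al]
    exact LL.res_mono _ (hml.trans hl)
  have h1 := h.2
  unfold InT at h1 ⊢
  rw [hmq]
  filter_upwards [h1, at_cond τ' ((ff Θ X τ').Z.tp q), (Chn.rx_le _ _).2 hle,
    (ff_spec τ').sub τ hτ] with x h2 h3 h4 h5
  obtain ⟨b, hb, hbs, hbh⟩ := h2
  obtain ⟨b', hbs', hbh'⟩ := h3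
  refine ⟨b', (hA _).1 b hb b' ?_, hbs', hbh'⟩
  rw [BB.le_def, hbs, hbs', hbh, hbh']
  exact ⟨h4, h5⟩

/-- E1: `At` implies `Er`. -/
lemma At.er {τ : Θ} {l : LL Θ X} {A : Θ → Set (BB Θ X)}
    (hA : ∀ xi, RegOpen (A xi)) (h : At τ l A) : Er l.1 l.2 A := by
  intro l' hl'
  obtain ⟨l'', h1, h2⟩ := h.later le_rfl hA (l' := l') hl'
  exact ⟨l'', h1, τ, h2⟩

end Pool.CV
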