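import Pool.Agent.Lib.MP_cc7fb1_cf.E1

/-!
# MP_cc7fb1: the relation `Er` (row E2)
-/

set_option autoImplicit false
set_option linter.unusedSectionVars false

open Cardinal Set Pool.CF

namespace Pool.CV

variable {Θ X : Type} [LinearOrder Θ] [WellFoundedLT Θ] [D : SG Θ X]

/-- E2: monotonicity. -/
lemma Er.mono {b b' : BB Θ X} {c c' : R0 Θ X} {A : Θ → Set (BB Θ X)} (h : Er b c A)
    (hb : b' ≤ b) (hc : c' ≤ c) : Er b' c' A :=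
  fun l' hl' => h l' (hl'.trans (Prod.mk_le_mk.2 ⟨hb, hc⟩))

private lemma E2_at {τ : Θ} {l : LL Θ X} {A A' : Θ → Set (BB Θ X)}
    (h : ∀ xi < D.la, A xi = A' xi) (hA : At τ l A) : At τ l A' := by
  refine ⟨hA.1, ?_⟩
  filter_upwards [hA.2, ae_pi_lt_la (Θ := Θ) (X := X) D.la] with x hx hx'
  rwa [← h _ hx']

/-- E2: only the sets `A xi`, `xi < λ`, matter (`D.pi x D.la < D.la` for almost all `x`). -/
lemma Er.congr {b : BB Θ X} {c : R0 Θ X} {A A' : Θ → Set (BB Θ X)}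
    (h : ∀ xi < D.la, A xi = A' xi) : Er b c A ↔ Er b c A' := by
  constructor
  · intro h1 l' hl'
    obtain ⟨l'', hl'', τ, hτ⟩ := h1 l' hl'
    exact ⟨l'', hl'', τ, E2_at h hτ⟩
  · intro h1 l' hl'
    obtain ⟨l'', hl'', τ, hτ⟩ := h1 l' hl'
    exact ⟨l'', hl'', τ, E2_at (fun xi hxi => (h xi hxi).symm) hτ⟩

/-- E2. -/
lemma Er.reg {b : BB Θ X} {c : R0 Θ X} {A : Θ → Set (BB Θ X)}
    (h : ∀ b' ≤ b, ∀ c' ≤ c, ∃ b'' ≤ b', ∃ c'' ≤ c', Er b'' c'' A) : Er b c A := by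
  intro l' hl'
  obtain ⟨b'', hb, c'', hc, h1⟩ := h l'.1 hl'.1 l'.2 hl'.2
  obtain ⟨l'', hl'', τ, hτ⟩ := h1 (b'', c'') le_rfl
  exact ⟨l'', hl''.trans ⟨hb, hc⟩, τ, hτ⟩

/-- E2: `At` only depends on the sets `A xi`, `xi < λ`. -/
lemma At.congr {τ : Θ} {l : LL Θ X} {A A' : Θ → Set (BB Θ X)}
    (h : ∀ xi < D.la, A xi = A' xi) (hA : At τ l A) : At τ l A' := E2_at h hA

end Pool.CV
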