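import Pool.Agent.Lib.MP_cc7fb1_cf.E1

/-!
# MP_cc7fb1: the relation `Er` (row E3): the master condition
-/

set_option autoImplicit false
set_option linter.unusedSectionVars false

open Cardinal Set Pool.CF

namespace Pool.CV

variable {Θ X : Type} [LinearOrder Θ] [WellFoundedLT Θ] [D : SG Θ X]

/-- E3: if the label `D.lab D.la` is in the chain with the value coding `(σ, c)` then the part
below it is `σ` (`ch.coh`, `D.lab_sg`). -/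
lemma cut_lab {ρ : Chn Θ X} {l : LL Θ X} (h : (D.lab D.la, (F0 Θ X).code l) ∈ ρ.v) :
    ρ.cut (D.lab D.la) = l.1.s := by
  have h1 : l.res (zr Θ X) ∈ (F0 Θ X).Q := LL.res_in (zr Θ X) l
  exact OL.OK.cut_eq F0_ok h1 h

/-- E3: a level `Y` of a stage knows `F0`: the chain of `q ∈ Y.Q` contains
`(D.lab D.la, (F0 Θ X).code (q.res (zr Θ X)))` (`SAt.base`, `SAt.ltY ⊥`). -/
lemma base_mem (τ : Θ) {q : LL Θ X} (hq : q ∈ (ff Θ X τ).Y.Q) :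
    (D.lab D.la, (F0 Θ X).code q) ∈ ((ff Θ X τ).Y.sg q).v := by
  have hS := ff_spec (Θ := Θ) (X := X) τ
  have h1 : Lt (F0 Θ X) (ff Θ X τ).Y := hS.ltY ⊥ (WithBot.bot_lt_coe τ)
  exact (h1.known q hq (hS.base q hq)).2

private lemma E3_cut_low {ρ : Chn Θ X} (h : ρ.Low) {a : Θ} (ha : D.la ≤ a) : ρ.cut a = ρ := by
  apply Chn.ext'
  ext p
  constructor
  · intro hp
    exact hp.1
  · intro hp
    exact ⟨hp, (h p.1 ⟨p.2, hp⟩).trans_le ha⟩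

private lemma E3_low_cut (ρ : Chn Θ X) : (ρ.cut D.la).Low := by
  rintro b ⟨r, hr⟩
  exact hr.2

private lemma E3_tp_le {τ : Θ} {l : LL Θ X}
    (hq : l.res (ff Θ X τ).Z.al ∈ (ff Θ X τ).Z.Q) :
    l.res (ff Θ X τ).Y.al ∈ (ff Θ X τ).Y.Q ∧
    (ff Θ X τ).Z.tp (l.res (ff Θ X τ).Z.al) ≤ (ff Θ X τ).Y.tp (l.res (ff Θ X τ).Y.al) := by
  have hS := ff_spec (Θ := Θ) (X := X) τ
  have h1 := hS.lev _ hq
  have h2 := (hS.lt.known _ hq h1).1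
  have h3 := hS.lt.sub_le hS.okY hq h1
  rw [LL.res_res hS.lt.al] at h2 h3
  exact ⟨h2, (OL.OK.tp_le hS.okZ hq).trans h3⟩

/-- E3: the master condition.  Let `b.In μ` and `τ := max τ₀ μ`, `Y := (ff Θ X τ).Y`, so
`b.In Y.al` (`SAt.al`).  Let `q := l.res Z.al`, `y := l.res Y.al ∈ Y.Q` (`SAt.lev`, `Lt.known`), so
`Z.tp q ≤ Y.tp y`.  If the claim fails for almost all `x`, then for almost all `x` there are
`t ∈ b.h` (constant `t = (τ₁, be, xi, v)` by completeness) and `ρ_x ≤ (Z.tp q).rx x`, `ρ_x ≤ τ₁`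
without `t'`.  Represent (`Chn.rep`) `ρ_x = ρ.rx x`; `ρ ≤ Z.tp q`, `ρ ≤ τ₁` (`rx_le`, `rx_of_low`).
`ρ` has a value `Y.code q'` at `Y.a` with `q' ≤ y` (`le_tp_iff`), and by `base_mem`, `cut_lab` the
part of `ρ` below `D.lab D.la` is `q'.1.s`; `τ₁` is low, so `q'.1.s ≤ τ₁` and `q'.Dc be xi v`.  As
`q'` is visible at almost all `x`, `SAt.mst` puts `((Y.tp q').rx x, be, xi, v)` into `h x`, and
`ρ_x ≤ (Y.tp q').rx x`: contradiction. -/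
lemma at_below (b : BB Θ X) (τ₀ : Θ) : ∃ τ ≥ τ₀, ∀ l : LL Θ X, l.1 ≤ b →
    l.res (ff Θ X τ).Z.al ∈ (ff Θ X τ).Z.Q → ∀ᶠ x in (D.U : Filter X), ∀ b' : BB Θ X,
      b'.s = ((ff Θ X τ).Z.tp (l.res (ff Θ X τ).Z.al)).rx x → b'.h = (ff Θ X τ).h x → b'.Wk b := by
  obtain ⟨μ, hμ⟩ := LL.exists_in ((b, LL.top.2) : LL Θ X)
  refine ⟨max τ₀ μ, le_max_left _ _, fun l hl hq => ?_⟩
  set τ := max τ₀ μ with hτ
  have hS := ff_spec (Θ := Θ) (X := X) τ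
  obtain ⟨hy, hle⟩ := E3_tp_le hq
  set Y := (ff Θ X τ).Y with hY
  set Z := (ff Θ X τ).Z with hZ
  have hμY : μ ≤ Y.al := (le_max_right τ₀ μ).trans hS.al
  -- the chain
  have hs : Y.tp (l.res Y.al) ≤ b.s := by
    have h1 := OL.OK.tp_le hS.okY hy
    have h2 := cut_lab (base_mem τ hy)
    have h3 : Y.sg (l.res Y.al) ≤ (Y.sg (l.res Y.al)).cut (D.lab D.la) := Chn.le_cut _ _
    rw [h2] at h3
    exact (h1.trans h3).trans hl.1
  have hsx : ∀ᶠ x in (D.U : Filter X), (Z.tp (l.res Z.al)).rx x ≤ b.s := by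
    have h1 := (Chn.rx_le _ _).2 (hle.trans hs)
    filter_upwards [h1, Chn.rx_of_low b.s b.low] with x hx hx'
    rwa [hx'] at hx
  -- one tuple
  have ht : ∀ t : b.h, ∀ᶠ x in (D.U : Filter X), ∀ ρ : Chn Θ X,
      ρ ≤ (Z.tp (l.res Z.al)).rx x → ρ ≤ t.1.1 →
      ∃ t' ∈ (ff Θ X τ).h x, t'.2 = t.1.2 ∧ ρ ≤ t'.1 := by
    rintro ⟨t, htb⟩
    by_contra hcon
    have hbad : ∀ᶠ x in (D.U : Filter X), ¬ ∀ ρ : Chn Θ X,
        ρ ≤ (Z.tp (l.res Z.al)).rx x → ρ ≤ t.1 →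
        ∃ t' ∈ (ff Θ X τ).h x, t'.2 = t.2 ∧ ρ ≤ t'.1 :=
      Ultrafilter.eventually_not.2 hcon
    have hex : ∀ x, ∃ ρ : Chn Θ X, (¬ ∀ ρ : Chn Θ X,
        ρ ≤ (Z.tp (l.res Z.al)).rx x → ρ ≤ t.1 →
        ∃ t' ∈ (ff Θ X τ).h x, t'.2 = t.2 ∧ ρ ≤ t'.1) →
        ρ ≤ (Z.tp (l.res Z.al)).rx x ∧ ρ ≤ t.1 ∧
        ¬ ∃ t' ∈ (ff Θ X τ).h x, t'.2 = t.2 ∧ ρ ≤ t'.1 := by
      intro x
      by_cases hx : ∀ ρ : Chn Θ X,
        ρ ≤ (Z.tp (l.res Z.al)).rx x → ρ ≤ t.1 →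
        ∃ t' ∈ (ff Θ X τ).h x, t'.2 = t.2 ∧ ρ ≤ t'.1
      · exact ⟨⊤, fun h => absurd hx h⟩
      · have hx' := hx
        push Not at hx'
        obtain ⟨ρ, h1, h2, h3⟩ := hx'
        refine ⟨ρ, fun _ => ⟨h1, h2, ?_⟩⟩
        rintro ⟨t', h4, h5, h6⟩
        exact h3 t' h4 h5 h6
    choose F hF using hex
    obtain ⟨ρ, hρ⟩ := Chn.rep (fun x => (F x).cut D.la)
      (Filter.Eventually.of_forall fun x => E3_low_cut (F x))
    have htl : t.1.Low := b.ok.low t htb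
    have hρ1 : ρ ≤ Z.tp (l.res Z.al) := by
      rw [← Chn.rx_le]
      filter_upwards [hbad, hρ, Chn.rx_low (Z.tp (l.res Z.al))] with x h1 h2 h3
      rw [← h2]
      have h4 := Chn.cut_mono D.la (hF x h1).1
      rwa [E3_cut_low h3 le_rfl] at h4
    have hρ2 : ρ ≤ t.1 := by
      rw [← Chn.rx_le]
      filter_upwards [hbad, hρ, Chn.rx_of_low t.1 htl] with x h1 h2 h3
      rw [← h2, h3]
      have h4 := Chn.cut_mono D.la (hF x h1).2.1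
      rwa [E3_cut_low htl le_rfl] at h4
    obtain ⟨q', hq', hqy, hmem⟩ := (OL.OK.le_tp_iff hS.okY hy ρ).1 (hρ1.trans hle)
    have hcut := OL.OK.cut_eq hS.okY hq' hmem
    have hbm : (D.lab D.la, (F0 Θ X).code q') ∈ ρ.v := by
      have h1 : (D.lab D.la, (F0 Θ X).code q') ∈ (ρ.cut Y.a).v := by
        rw [hcut]
        exact base_mem τ hq'
      exact h1.1
    have hcl := cut_lab hbm
    have hla : D.la ≤ D.lab D.la := D.le_lab _ le_rfl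
    have hq's : q'.1.s ≤ t.1 := by
      rw [← hcl]
      have h1 := Chn.cut_mono (D.lab D.la) hρ2
      rwa [E3_cut_low htl hla] at h1
    have htq : t ∈ q'.1.h := by
      refine hqy.1.2 ?_
      exact ⟨hl.2 htb, (hμ t htb).trans_le hμY⟩
    have hDc : q'.Dc t.2.1 t.2.2.1 t.2.2.2 := ⟨t.1, htq, hq's⟩
    have hρq : ρ ≤ Y.tp q' := (OL.OK.le_tp_iff hS.okY hq' ρ).2 ⟨q', hq', le_rfl, hmem⟩
    have hfalse : ∀ᶠ x in (D.U : Filter X), False := by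
      filter_upwards [hbad, hρ, hS.mst, D.fine (Y.code q'), (Chn.rx_le _ _).2 hρq]
        with x h1 h2 h3 h4 h5
      refine (hF x h1).2.2 ⟨((Y.tp q').rx x, t.2), h3 ⟨q', hq', h4, rfl, hDc⟩, rfl, ?_⟩
      have h6 : F x ≤ (F x).cut D.la := Chn.le_cut _ _
      rw [h2] at h6
      exact h6.trans h5
    obtain ⟨x, hx⟩ := hfalse.exists
    exact hx
  have hall := D.compl b.h _ b.ok.card ht
  filter_upwards [hsx, hall] with x h1 h2 b' hb's hb'h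
  refine ⟨by rw [hb's]; exact h1, fun t htb ρ hρ1 hρ2 => ?_⟩
  rw [hb's] at hρ1
  rw [hb'h]
  exact h2 ⟨t, htb⟩ ρ hρ1 hρ2

end Pool.CV
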