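import Pool.Agent.Lib.MP_cc7fb1_cf.E2
import Pool.Agent.Lib.MP_cc7fb1_cf.E3

/-!
# MP_cc7fb1: the relation `Er` (row E4)
-/

set_option autoImplicit false
set_option linter.unusedSectionVars false

open Cardinal Set Pool.CF

namespace Pool.CV

variable {Θ X : Type} [LinearOrder Θ] [WellFoundedLT Θ] [D : SG Θ X]

/-- E4.  `At τ l'' A` is moved (`At.later`) to the stage given by `at_below b τ`; then `b_x.Wk b`,
and `BB.Wk.union` gives `m ≤ b_x`, `m ≤ b`, `b_x.Wk m`; so `m ∈ A`, `m ∈ A'`, and `RegOpen_wk` gives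
`b_x ∈ A'`. -/
lemma Er.sub {b : BB Θ X} {c : R0 Θ X} {A A' : Θ → Set (BB Θ X)} (hA : ∀ xi, RegOpen (A xi))
    (hA' : ∀ xi, RegOpen (A' xi)) (h : Er b c A)
    (hs : ∀ xi < D.la, ∀ b' ≤ b, b' ∈ A xi → b' ∈ A' xi) : Er b c A' := by
  intro l' hl'
  obtain ⟨l'', hl'', τ, hτ⟩ := h l' hl'
  obtain ⟨τ₁, hτ₁, hbel⟩ := at_below b τ
  obtain ⟨l₃, hl₃, hat⟩ := At.later hτ₁ hA hτ (le_refl l'')
  refine ⟨l₃, hl₃.trans hl'', τ₁, hat.1, ?_⟩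
  have hlb : l₃.1 ≤ b := ((hl₃.trans hl'').trans hl').1
  filter_upwards [hat.2, ae_pi_lt_la (Θ := Θ) (X := X) D.la, hbel l₃ hlb hat.1] with x hx hx' hw
  obtain ⟨bx, hbx, hs1, hs2⟩ := hx
  have hwk : bx.Wk b := hw bx hs1 hs2
  obtain ⟨m, hm1, hm2, -, -, hm3⟩ := BB.Wk.union hwk
  exact ⟨bx, RegOpen_wk (hA' _) (hs _ hx' m hm2 ((hA _).1 _ hbx m hm1)) hm3, hs1, hs2⟩

end Pool.CV
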