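import Pool.Agent.Lib.MP_cc7fb1_cf.E2

/-!
# MP_cc7fb1: the relation `Er` (row E5)
-/

set_option autoImplicit false
set_option linter.unusedSectionVars false

open Cardinal Set Pool.CF

namespace Pool.CV

variable {Θ X : Type} [LinearOrder Θ] [WellFoundedLT Θ] [D : SG Θ X]

/-- E5 (`At.later` twice, `At.mono`; a condition is given by its chain and its name). -/
lemma Er.inter {b : BB Θ X} {c : R0 Θ X} {A A' : Θ → Set (BB Θ X)} (hA : ∀ xi, RegOpen (A xi))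
    (hA' : ∀ xi, RegOpen (A' xi)) (h : Er b c A) (h' : Er b c A') : Er b c (fun xi => A xi ∩ A' xi) := by
  intro l' hl'
  obtain ⟨l1, hl1, τ1, h1⟩ := h l' hl'
  obtain ⟨l2, hl2, τ2, h2⟩ := h' l1 (hl1.trans hl')
  obtain ⟨l3, hl3, h3⟩ := h1.later (le_max_left τ1 τ2) hA hl2
  obtain ⟨l4, hl4, h4⟩ := h2.later (le_max_right τ1 τ2) hA' hl3
  have h5 := h3.mono hA hl4 h4.1
  refine ⟨l4, hl4.trans (hl3.trans (hl2.trans hl1)), max τ1 τ2, h4.1, ?_⟩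
  have h6 := h4.2
  have h7 := h5.2
  unfold InT at h6 h7 ⊢
  filter_upwards [h6, h7] with x h8 h9
  obtain ⟨b1, hb1, hs1, hh1⟩ := h8
  obtain ⟨b2, hb2, hs2, hh2⟩ := h9
  have e : b1 = b2 := BB.ext' (hs1.trans hs2.symm) (hh1.trans hh2.symm)
  exact ⟨b1, ⟨by rw [e]; exact hb2, hb1⟩, hs1, hh1⟩

/-- E5. -/
lemma Er.bot {b : BB Θ X} {c : R0 Θ X} {A : Θ → Set (BB Θ X)} (hA : ∀ xi < D.la, A xi = ∅) :
    ¬ Er b c A := by
  intro h
  obtain ⟨l, _, τ, h1⟩ := h (b, c) le_rfl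
  have h2 := h1.2
  unfold InT at h2
  obtain ⟨x, hx⟩ := (h2.and (ae_pi_lt_la (Θ := Θ) (X := X) D.la)).exists
  obtain ⟨⟨b', hb', _⟩, hx2⟩ := hx
  rw [hA _ hx2] at hb'
  exact hb'

/-- E5 (`at_cond`; `eta < D.pi x D.la < D.la` for almost all `x`). -/
lemma Er.seg {b : BB Θ X} {c : R0 Θ X} {A : Θ → Set (BB Θ X)} (eta : Θ) (he : eta < D.la)
    (hA : ∀ xi < D.la, eta ≤ xi → A xi = Set.univ) : Er b c A := by
  intro l' _
  obtain ⟨l'', h1, h2⟩ := exists_at D.la l'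
  refine ⟨l'', h1, D.la, h2, ?_⟩
  unfold InT
  filter_upwards [at_cond D.la ((ff Θ X D.la).Z.tp (l''.res (ff Θ X D.la).Z.al)),
    ae_pi_lt_la (Θ := Θ) (X := X) D.la, ae_lt_la (Θ := Θ) (X := X) he] with x h3 h4 h5
  obtain ⟨b', hs, hh⟩ := h3
  refine ⟨b', ?_, hs, hh⟩
  rw [hA _ h4 h5.le]
  exact mem_univ _

end Pool.CV
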