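import Pool.Agent.Lib.MP_cc7fb1_cf.E5

/-!
# MP_cc7fb1: the relation `Er` (row E6)
-/

set_option autoImplicit false
set_option linter.unusedSectionVars false

open Cardinal Set Pool.CF

namespace Pool.CV

variable {Θ X : Type} [LinearOrder Θ] [WellFoundedLT Θ] [D : SG Θ X]

/-- E6: the relation decides everything.  `exists_det` for `A xi`, `xi < λ`; the task
`S xi := A xi ∪ perp (A xi)` for `xi < λ` and `univ` else (`OpenD_union_perp`), `TT_all`,
`exists_at`, `SAt.task`; the ultrafilter decides which of the two; `At.er`, `At.congr`. -/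
lemma Er.dec (b : BB Θ X) (c : R0 Θ X) {A : Θ → Set (BB Θ X)} (hA : ∀ xi, RegOpen (A xi)) :
    ∃ b' ≤ b, ∃ c' ≤ c, Er b' c' A ∨ Er b' c' (fun xi => perp (A xi)) := by
  classical
  obtain ⟨al, hal⟩ := exists_det (ι := Iio D.la) (D.th_init D.la) (fun xi => A xi.1)
    (fun xi => hA xi.1)
  obtain ⟨τ, hτ⟩ := TT_all (fun xi => if xi < D.la then A xi ∪ perp (A xi) else univ) al (by
    intro xi
    split_ifs with h
    · exact OpenD_union_perp (hA xi)
    · exact ⟨fun b => ⟨b, mem_univ _, le_rfl⟩, fun _ _ _ _ => mem_univ _⟩) (by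
    intro xi
    split_ifs with h
    · intro b
      exact or_congr (hal ⟨xi, h⟩ b) (Det_perp (hal ⟨xi, h⟩) (hA xi).1 b)
    · exact fun b => ⟨fun _ => mem_univ _, fun _ => mem_univ _⟩)
  obtain ⟨l', hl', hmem⟩ := exists_at τ ((b, c) : LL Θ X)
  have htask := (ff_spec τ).task _ hmem
  have key : ∀ᶠ x in (D.U : Filter X),
      (∃ b ∈ A (D.pi x D.la), b.s = ((ff Θ X τ).Z.tp (l'.res (ff Θ X τ).Z.al)).rx x ∧
        b.h = (ff Θ X τ).h x) ∨
      (∃ b ∈ perp (A (D.pi x D.la)), b.s = ((ff Θ X τ).Z.tp (l'.res (ff Θ X τ).Z.al)).rx x ∧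
        b.h = (ff Θ X τ).h x) := by
    filter_upwards [htask, ae_pi_lt_la (Θ := Θ) (X := X) D.la] with x hx hlt
    obtain ⟨b₁, hb₁, h1, h2⟩ := hx
    rw [hτ _ hlt, if_pos hlt] at hb₁
    rcases hb₁ with hb₁ | hb₁
    · exact Or.inl ⟨b₁, hb₁, h1, h2⟩
    · exact Or.inr ⟨b₁, hb₁, h1, h2⟩
  refine ⟨l'.1, hl'.1, l'.2, hl'.2, ?_⟩
  rcases Ultrafilter.eventually_or.1 key with h | h
  · exact Or.inl (At.er hA ⟨hmem, h⟩)
  · exact Or.inr (At.er (fun xi => RegOpen_perp (hA xi).1) ⟨hmem, h⟩)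

end Pool.CV
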