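import Pool.Agent.Lib.MP_cc7fb1_cf.E5

/-!
# MP_cc7fb1: the relation `Er` (row E7): normality
-/

set_option autoImplicit false
set_option linter.unusedSectionVars false

open Cardinal Set Pool.CF

namespace Pool.CV

variable {Θ X : Type} [LinearOrder Θ] [WellFoundedLT Θ] [D : SG Θ X]

/-- The task for the diagonal intersection. -/
private theorem E7_task {A : Θ → Θ → Set (BB Θ X)} (hA : ∀ nu xi, RegOpen (A nu xi)) :
    ∃ τ : Θ, ∀ xi < D.la, TT Θ X τ xi = {b | ∀ i : Iio xi, b ∈ A i.1 xi} ∪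
      {b | ∃ i : Iio xi, b ∈ perp (A i.1 xi)} := by
  classical
  have hlt : #(Iio D.la × Iio D.la) < #Θ := by
    rw [mk_prod]
    simp only [lift_id]
    exact mul_lt_of_lt D.th_reg.aleph0_le (D.th_init D.la) (D.th_init D.la)
  obtain ⟨al, hal⟩ := exists_det (X := X) hlt (fun p : Iio D.la × Iio D.la => A p.1.1 p.2.1)
    (fun p => hA _ _)
  obtain ⟨τ, hτ⟩ := TT_all (Θ := Θ) (X := X) (fun xi => if xi < D.la then
    {b | ∀ i : Iio xi, b ∈ A i.1 xi} ∪ {b | ∃ i : Iio xi, b ∈ perp (A i.1 xi)} else Set.univ) al (by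
      intro xi
      split_ifs with h
      · exact OpenD_family (fun i => hA i.1 xi)
      · exact ⟨fun b => ⟨b, mem_univ _, le_rfl⟩, fun _ _ _ _ => mem_univ _⟩) (by
      intro xi
      split_ifs with h
      · exact Det_family (fun i : Iio xi => hA i.1 xi)
          (fun i => hal (⟨i.1, lt_trans i.2 h⟩, ⟨xi, h⟩))
      · exact fun b => ⟨fun _ => mem_univ _, fun _ => mem_univ _⟩)
  refine ⟨τ, fun xi hxi => ?_⟩
  rw [hτ xi hxi]
  rw [if_pos hxi]

/-- E7: normality.  Task: `S xi := {b | ∀ nu < xi, b ∈ A nu xi} ∪ {b | ∃ nu < xi, b ∈ perp (A nu xi)}`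
for `xi < λ` (`OpenD_family`, `Det_family` with `ι := Iio xi`, `exists_det` for pairs below `λ`).
Given `l' ≤ (b, c)` take `l'' ≤ l'` treated at this stage.  Either almost all `b_x` are in the first
set: done.  Or there are `nu_x < D.pi x D.la` with `b_x ∈ perp (A nu_x _)`; by normality (U1/U2:
`rep`) `nu_x` is a constant `nu < λ`; so `At τ l'' (perp ∘ A nu)`, `At.er`, `Er.inter`, `Er.bot`
contradict `h nu`. -/
lemma Er.diag {b : BB Θ X} {c : R0 Θ X} {A : Θ → Θ → Set (BB Θ X)} (hA : ∀ nu xi, RegOpen (A nu xi))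
    (h : ∀ nu < D.la, Er b c (A nu)) : Er b c (fun xi => {b' | ∀ nu < xi, b' ∈ A nu xi}) := by
  classical
  intro l' hl'
  obtain ⟨τ, hτ⟩ := E7_task hA
  obtain ⟨l'', hl'', hQ⟩ := exists_at τ l'
  refine ⟨l'', hl'', τ, hQ, ?_⟩
  have htask := (ff_spec τ).task _ hQ
  unfold InT at htask ⊢
  by_contra hcon
  have hcon' := (ae_not (Θ := Θ) (X := X)).2 hcon
  have hex : ∀ᶠ x in FF Θ X, ∃ nu, nu < D.pi x D.la ∧ ∃ b' : BB Θ X,
      b'.s = ((ff Θ X τ).Z.tp (l''.res (ff Θ X τ).Z.al)).rx x ∧ b'.h = (ff Θ X τ).h x ∧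
        b' ∈ perp (A nu (D.pi x D.la)) := by
    filter_upwards [htask, hcon', ae_pi_lt_la (Θ := Θ) (X := X) D.la] with x h1 h2 h3
    obtain ⟨b', hb', hs, hh⟩ := h1
    rw [hτ _ h3] at hb'
    rcases hb' with hb' | ⟨i, hi⟩
    · exact absurd ⟨b', fun nu hnu => hb' ⟨nu, hnu⟩, hs, hh⟩ h2
    · exact ⟨i.1, i.2, b', hs, hh, hi⟩
  obtain ⟨f, hf⟩ : ∃ f : X → Θ, ∀ᶠ x in FF Θ X, f x < D.pi x D.la ∧ ∃ b' : BB Θ X,
      b'.s = ((ff Θ X τ).Z.tp (l''.res (ff Θ X τ).Z.al)).rx x ∧ b'.h = (ff Θ X τ).h x ∧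
        b' ∈ perp (A (f x) (D.pi x D.la)) := by
    refine ⟨fun x => if hx : ∃ nu, nu < D.pi x D.la ∧ ∃ b' : BB Θ X,
      b'.s = ((ff Θ X τ).Z.tp (l''.res (ff Θ X τ).Z.al)).rx x ∧ b'.h = (ff Θ X τ).h x ∧
        b' ∈ perp (A nu (D.pi x D.la)) then hx.choose else D.la, ?_⟩
    filter_upwards [hex] with x hx
    rw [dif_pos hx]
    exact hx.choose_spec
  obtain ⟨nu, hnu⟩ := D.normal f (by
    filter_upwards [hf, ae_init (Θ := Θ) (X := X)] with x h1 h2
    exact ((h2.1 _).1 h1.1).1)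
  have hnula : nu < D.la := by
    obtain ⟨x, hx⟩ := ((hnu.and hf).and (ae_pi_lt_la (Θ := Θ) (X := X) D.la)).exists
    obtain ⟨⟨h1, h2⟩, h3⟩ := hx
    rw [← h1]
    exact h2.1.trans h3
  have hat : At τ l'' (fun xi => perp (A nu xi)) := by
    refine ⟨hQ, ?_⟩
    unfold InT
    filter_upwards [hf, hnu] with x h1 h2
    obtain ⟨_, b', hs, hh, hb'⟩ := h1
    rw [h2] at hb'
    exact ⟨b', hb', hs, hh⟩
  have hperp : ∀ xi, RegOpen (perp (A nu xi)) := fun xi => RegOpen_perp (hA nu xi).1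
  have her := hat.er hperp
  have hle : l'' ≤ (b, c) := hl''.trans hl'
  have her' : Er l''.1 l''.2 (A nu) := (h nu hnula).mono hle.1 hle.2
  refine Er.bot (b := l''.1) (c := l''.2) ?_ (her'.inter (hA nu) hperp her)
  intro xi _
  ext b'
  constructor
  · rintro ⟨h1, h2⟩
    exact (h2 b' le_rfl h1).elim
  · intro h1
    exact h1.elim

end Pool.CV
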