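import Pool.Agent.Lib.MP_cc7fb1_cf.E3

/-!
# MP_cc7fb1: the relation `Er` (row E8): the sets `AC`
-/

set_option autoImplicit false
set_option linter.unusedSectionVars false

open Cardinal Set Pool.CF

namespace Pool.CV

variable {Θ X : Type} [LinearOrder Θ] [WellFoundedLT Θ] [D : SG Θ X]

/-- E8. -/
lemma AC_reg (c : R0 Θ X) (xi : Θ) : RegOpen (AC c xi) := by
  refine ⟨fun b hb b' hb' b'' hb'' => hb b'' (hb''.trans hb'), fun b hb b' hb' => ?_⟩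
  obtain ⟨r, hr, hrA⟩ := hb b' hb'
  obtain ⟨b'', h1, h2⟩ := hrA r le_rfl
  exact ⟨b'', h1.trans hr, h2⟩

/-- E8. -/
lemma AC_mono {c c' : R0 Θ X} (h : c' ≤ c) (xi : Θ) : AC c' xi ⊆ AC c xi := by
  intro b hb b' hb'
  obtain ⟨b'', h1, σ, c'', h2, h3, h4⟩ := hb b' hb'
  exact ⟨b'', h1, σ, c'', h2, h3.trans h, h4⟩

/-- E8: two witnesses are values of the same chain at `D.lab xi` (take the second witness below the
first), so by `D.lab_le` the second clock end-extends the first. -/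
lemma AC_disj {c c' : R0 Θ X} (h : ∀ e : R0 Θ X, e ≤ c → ¬ e ≤ c') (xi : Θ) (hxi : xi < D.la) :
    Disjoint (AC c xi) (AC c' xi) := by
  rw [Set.disjoint_left]
  intro b hb hb'
  obtain ⟨b1, hb1, σ1, c1, hP1, hc1, hm1⟩ := hb b le_rfl
  obtain ⟨b2, hb2, σ2, c2, hP2, hc2, hm2⟩ := hb' b1 hb1
  obtain ⟨r', hr', hle⟩ := hb2.1 _ _ hm1
  have e := b2.s.ch.func _ _ _ hr' hm2
  rw [e] at hle
  have h1 := (D.lab_le xi hxi.le _ _ _ _ hP1 hP2).1 hle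
  have h2 : c2 ≤ c1 := h1.2
  exact h c2 (h2.trans hc1) hc2

/-- E8: `l'' ≤ l'` treated at some stage; `base_mem` and `Lt.sub` give
`(D.lab D.la, D.code D.la σ c₁) ∈ (Z.tp _).v` with `σ = l''.1.s.v`, `c₁ = l''.2.c`; reflect
(`rx_mem` or `rx_v`, `D.refl_lab`, `D.refl_code`); every `b' ≤ b_x` has the value
`code _ σ' c₂` at this label with `c₂ ≤ c₁` (`D.lab_C`, `D.lab_le` at `th := D.pi x D.la`). -/
lemma Er.ac (b : BB Θ X) (c : R0 Θ X) : Er b c (AC c) := by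
  intro l' hl'
  obtain ⟨l'', hl'', hQ⟩ := exists_at D.la l'
  refine ⟨l'', hl'', D.la, hQ, ?_⟩
  obtain ⟨q, hq⟩ : ∃ q, q = l''.res (ff Θ X D.la).Z.al := ⟨_, rfl⟩
  rw [← hq] at hQ ⊢
  have hsp := ff_spec (Θ := Θ) (X := X) D.la
  have hlev := hsp.lev q hQ
  obtain ⟨hy, hya⟩ := hsp.lt.known q hQ hlev
  have hbase := base_mem D.la hy
  have hsub := hsp.lt.sub hsp.okY hQ hlev
  have hcode : (F0 Θ X).code (q.res (ff Θ X D.la).Y.al) = D.code D.la l''.1.s.v l''.2.c := by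
    rw [hq]
    rfl
  have hmem : (D.lab D.la, D.code D.la l''.1.s.v l''.2.c) ∈ ((ff Θ X D.la).Z.tp q).v := by
    rw [hsp.okZ.tp_v hQ]
    refine mem_insert_of_mem _ (hsub ?_)
    rw [hsp.okY.tp_v hy]
    refine mem_insert_of_mem _ ?_
    rw [← hcode]
    exact hbase
  have hPP : PP D.κ D.S D.la l''.1.s.v l''.2.c :=
    ⟨l''.1.s.ch, l''.1.low, l''.2.sub, l''.2.card⟩
  have hle : l'' ≤ (b, c) := hl''.trans hl'
  -- labels and elements are below `pi x la`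
  have hlab : ∀ᶠ x in (D.U : Filter X), ∀ i : l''.1.s.v, i.1.1 < D.pi x D.la :=
    D.compl _ (fun i x => i.1.1 < D.pi x D.la) (l''.1.s.ch.card.trans D.κ_lt)
      (fun i => ae_lt_la (Θ := Θ) (X := X) (l''.1.low i.1.1 ⟨i.1.2, i.2⟩))
  have hel : ∀ᶠ x in (D.U : Filter X), ∀ i : l''.2.c, i.1 < D.pi x D.la :=
    D.compl _ (fun i x => i.1 < D.pi x D.la) (l''.2.card.trans D.κ_lt)
      (fun i => ae_lt_la (Θ := Θ) (X := X) (l''.2.sub i.1 i.2))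
  unfold InT
  filter_upwards [at_cond D.la ((ff Θ X D.la).Z.tp q),
    (Chn.rx_mem ((ff Θ X D.la).Z.tp q) (D.lab D.la) (D.code D.la l''.1.s.v l''.2.c)).2 hmem,
    D.refl_lab, D.refl_code _ _ hPP, ae_pi_lt_la (Θ := Θ) (X := X) D.la, hlab, hel] with
    x h1 h2 h3 h4 h5 h6 h7
  obtain ⟨bx, hs, hh⟩ := h1
  refine ⟨bx, ?_, hs, hh⟩
  rw [h3, h4, ← hs] at h2
  have hPx : PP D.κ D.S (D.pi x D.la) l''.1.s.v l''.2.c :=
    ⟨l''.1.s.ch, fun a ha => by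
      obtain ⟨r, hr⟩ := ha
      exact h6 ⟨(a, r), hr⟩, fun g hg => h7 ⟨g, hg⟩, l''.2.card⟩
  intro b' hb'
  obtain ⟨r', hr', hrle⟩ := hb'.1 _ _ h2
  have hC := b'.s.ch.mem _ _ hr'
  rw [D.lab_C _ (le_of_lt h5)] at hC
  obtain ⟨σ2, c2, hP2, e2⟩ := hC
  have h8 := (D.lab_le _ (le_of_lt h5) _ _ _ _ hPx hP2).1 (by rw [← e2]; exact hrle)
  refine ⟨b', le_rfl, σ2, ⟨c2, fun g hg => (hP2.sub g hg).trans h5, hP2.card⟩, hP2, ?_, ?_⟩
  · exact (show (⟨c2, fun g hg => (hP2.sub g hg).trans h5, hP2.card⟩ : R0 Θ X) ≤ l''.2 from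
      h8.2).trans hle.2
  · rw [← e2]
    exact hr'

end Pool.CV
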