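import Pool.Agent.Lib.MP_cc7fb1_cf.HugeDef

/-!
# MP_cc7fb1: la is inaccessible (row G1)
-/

set_option autoImplicit false

open Cardinal Set

namespace Pool.CF

variable {lam del : Cardinal.{0}} {W : Ultrafilter (Set del.ord.ToType)}

/-- An initial segment of cardinality at least `c`. -/
private theorem G1_m {c : Cardinal.{0}} (hc : c < del) : ∃ m : del.ord.ToType, c ≤ #(Iio m) := by
  refine ⟨Ordinal.ToType.mk ⟨c.ord, ord_lt_ord.2 hc⟩, ?_⟩
  have hmem : ∀ d : c.ord.ToType, (Ordinal.ToType.mk.symm d).1 ∈ Iio del.ord := fun d =>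
    lt_trans (mem_Iio.1 (Ordinal.ToType.mk.symm d).2) (ord_lt_ord.2 hc)
  have hlt : ∀ d : c.ord.ToType, Ordinal.ToType.mk ⟨(Ordinal.ToType.mk.symm d).1, hmem d⟩ <
      (Ordinal.ToType.mk ⟨c.ord, ord_lt_ord.2 hc⟩ : del.ord.ToType) := by
    intro d
    rw [OrderIso.lt_iff_lt]
    exact (Ordinal.ToType.mk.symm d).2
  have hinj : Function.Injective (fun d : c.ord.ToType =>
      (⟨Ordinal.ToType.mk ⟨(Ordinal.ToType.mk.symm d).1, hmem d⟩, hlt d⟩ :
        Iio (Ordinal.ToType.mk ⟨c.ord, ord_lt_ord.2 hc⟩ : del.ord.ToType))) := by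
    intro d d' hdd
    have h1 := congrArg Subtype.val hdd
    simp only at h1
    have h2 := (Ordinal.ToType.mk (o := del.ord)).injective h1
    have h3 := congrArg Subtype.val h2
    simp only at h3
    exact (Ordinal.ToType.mk (o := c.ord)).symm.injective (Subtype.ext h3)
  have h4 := Cardinal.mk_le_of_injective hinj
  rwa [mk_ord_toType] at h4

/-- Completeness for indexed families. -/
private theorem G1_compl {Θ : Type} [LinearOrder Θ] {W : Ultrafilter (Set Θ)} (h : HugeUF lam W)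
    {ι : Type} (hι : #ι < lam) {p : ι → Set Θ → Prop}
    (hp : ∀ i, ∀ᶠ x in (W : Filter (Set Θ)), p i x) :
    ∀ᶠ x in (W : Filter (Set Θ)), ∀ i, p i x := by
  have h1 := h.compl (range fun i => {x | p i x}) (mk_range_le.trans_lt hι) (by
    rintro A ⟨i, rfl⟩
    exact hp i)
  have h2 : ∀ᶠ x in (W : Filter (Set Θ)), x ∈ ⋂₀ (range fun i => {x | p i x}) := h1
  filter_upwards [h2] with x hx i
  exact hx _ ⟨i, rfl⟩

/-- A function with fewer than `lam` values is constant almost everywhere. -/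
private theorem G1_const {Θ : Type} [LinearOrder Θ] {W : Ultrafilter (Set Θ)} (h : HugeUF lam W)
    {ι : Type} (hι : #ι < lam) {p : ι → Set Θ → Prop}
    (hp : ∀ᶠ x in (W : Filter (Set Θ)), ∃ i, p i x) :
    ∃ i, ∀ᶠ x in (W : Filter (Set Θ)), p i x := by
  by_contra hcon
  push Not at hcon
  have h1 : ∀ i, ∀ᶠ x in (W : Filter (Set Θ)), ¬ p i x := fun i => hcon i
  have h2 := G1_compl h hι h1
  obtain ⟨x, ⟨i, hx⟩, hx'⟩ := (hp.and h2).exists
  exact hx' i hx

/-- A function whose values are outside `x`, in a set of cardinality `lam`. -/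
private theorem G1_fun (h : HugeUF lam W) (h1 : lam < del) :
    ∃ B : Set del.ord.ToType, #B = lam ∧
      ∀ᶠ x in (W : Filter (Set del.ord.ToType)), ∃ b ∈ B, b ∉ x := by
  obtain ⟨m, hm⟩ := G1_m h1
  obtain ⟨B, hB, hBc⟩ := Cardinal.le_mk_iff_exists_subset.1 hm
  refine ⟨B, hBc, ?_⟩
  have i3 : ∀ᶠ x in (W : Filter (Set del.ord.ToType)), m ∈ x := h.fine m
  filter_upwards [i3, h.ot] with x hx ⟨φ⟩
  by_contra hcon
  push Not at hcon
  have hinj : Function.Injective
      (fun b : B => (⟨φ ⟨b.1, hcon b.1 b.2⟩, φ.lt_iff_lt.2 (hB b.2)⟩ : Iio (φ ⟨m, hx⟩))) := by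
    intro b b' hbb
    have h2 := congrArg Subtype.val hbb
    have h3 := congrArg Subtype.val (φ.injective h2)
    exact Subtype.ext h3
  have h2 := (Cardinal.mk_le_of_injective hinj).trans_lt (Cardinal.mk_Iio_toType_ord_lt _)
  rw [hBc] at h2
  exact lt_irrefl _ h2

/-- The set of values cannot be divided into fewer than `lam` sets of fewer than `lam` elements. -/
private theorem G1_no (h : HugeUF lam W) {B : Set del.ord.ToType}
    (hB : ∀ᶠ x in (W : Filter (Set del.ord.ToType)), ∃ b ∈ B, b ∉ x) {ι : Type} (hι : #ι < lam)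
    (A : ι → Set del.ord.ToType) (hA : ∀ i, #(A i) < lam) (hBA : B ⊆ ⋃ i, A i) : False := by
  have h1 : ∀ᶠ x in (W : Filter (Set del.ord.ToType)), ∃ i, ∃ b ∈ A i, b ∉ x := by
    filter_upwards [hB] with x ⟨b, hb, hbx⟩
    obtain ⟨i, hi⟩ := mem_iUnion.1 (hBA hb)
    exact ⟨i, b, hi, hbx⟩
  obtain ⟨i, hi⟩ := G1_const h hι h1
  have h2 : ∀ᶠ x in (W : Filter (Set del.ord.ToType)), ∃ b : A i, b.1 ∉ x := by
    filter_upwards [hi] with x ⟨b, hb, hbx⟩
    exact ⟨⟨b, hb⟩, hbx⟩
  obtain ⟨b, hb⟩ := G1_const h (hA i) h2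
  have h3 : ∀ᶠ x in (W : Filter (Set del.ord.ToType)), b.1 ∈ x := h.fine b.1
  obtain ⟨x, hx, hx'⟩ := (hb.and h3).exists
  exact hx hx'

/-- Row G1: `λ` is regular.  Otherwise `λ` is the union of an increasing family of fewer than `λ` proper
initial segments; use: for `e : x ≃o lam.ord.ToType`, the element `κ_x`, i.e. the first ordinal not in
`x`, is not constant a.e. (fineness), but below every `d < λ` it is ... (it is `< λ` as `x ∩ λ ≠ λ`
a.e.: otherwise `λ ⊆ x` and `λ`, if it belongs to `x` (fine), has at least `λ` predecessors in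
`x`, contradiction to the order type `λ`); if `λ = sup_{i < μ} c_i`, `μ < λ`, then `κ_x ≤ c_i` for
some `i < μ`, constant a.e.; `κ_x` takes fewer than `λ` values, constant a.e. (completeness): contradiction
to fineness. -/
theorem HugeUF.regular (h : HugeUF lam W) (h0 : ℵ₀ < lam) (h1 : lam < del) : lam.IsRegular := by
  classical
  refine ⟨h0.le, ?_⟩
  by_contra hcon
  push Not at hcon
  rw [← Ordinal.cof_toType] at hcon
  obtain ⟨s, hs, hsc⟩ := Order.exists_cof_eq (α := lam.ord.ToType)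
  obtain ⟨B, hBc, hB⟩ := G1_fun h h1
  obtain ⟨e⟩ : Nonempty (B ≃ lam.ord.ToType) := by
    rw [← Cardinal.eq, hBc, mk_ord_toType]
  refine G1_no h hB (ι := s) (by rw [hsc]; exact hcon)
    (fun d => {b | ∃ hb : b ∈ B, e ⟨b, hb⟩ ≤ d.1}) ?_ ?_
  · intro d
    have hinj : Function.Injective (fun b : {b | ∃ hb : b ∈ B, e ⟨b, hb⟩ ≤ d.1} =>
        (⟨e ⟨b.1, b.2.choose⟩, b.2.choose_spec⟩ : Iic d.1)) := by
      intro b b' hbb
      have h2 := congrArg Subtype.val hbb
      have h3 := congrArg Subtype.val (e.injective h2)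
      exact Subtype.ext h3
    refine (Cardinal.mk_le_of_injective hinj).trans_lt ?_
    have h3 : (Iic d.1 : Set lam.ord.ToType) = insert d.1 (Iio d.1) := by
      ext b
      simp only [Set.mem_Iic, Set.mem_insert_iff, Set.mem_Iio]
      exact le_iff_eq_or_lt
    rw [h3]
    refine lt_of_le_of_lt Cardinal.mk_insert_le ?_
    exact Cardinal.add_lt_of_lt h0.le (Cardinal.mk_Iio_toType_ord_lt _)
      (lt_of_lt_of_le Cardinal.one_lt_aleph0 h0.le)
  · intro b hb
    obtain ⟨d, hd, hbd⟩ := hs (e ⟨b, hb⟩)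
    exact mem_iUnion.2 ⟨⟨d, hd⟩, hb, hbd⟩

/-- Row G1: `λ` is a strong limit: if `λ ≤ 2 ^ μ`, `μ < λ`, `g : λ → Set μ` injective, then the set
`g κ_x` is constant a.e. by completeness, so `κ_x` is constant a.e. -/
theorem HugeUF.strongLimit (h : HugeUF lam W) (h0 : ℵ₀ < lam) (h1 : lam < del) :
    ∀ c < lam, (2 : Cardinal.{0}) ^ c < lam := by
  classical
  intro c hc
  by_contra hcon
  push Not at hcon
  obtain ⟨B, hBc, hB⟩ := G1_fun h h1
  have hne : Nonempty B := by
    rw [← Cardinal.mk_ne_zero_iff, hBc]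
    exact (lt_of_le_of_lt zero_le h0).ne'
  obtain ⟨g⟩ : Nonempty (B ↪ Set c.out) := by
    rw [← Cardinal.le_def, Cardinal.mk_set, Cardinal.mk_out, hBc]
    exact hcon
  let f : Set del.ord.ToType → B := fun x =>
    if hx : ∃ b ∈ B, b ∉ x then ⟨hx.choose, hx.choose_spec.1⟩ else Classical.arbitrary B
  have hf : ∀ᶠ x in (W : Filter (Set del.ord.ToType)), (f x).1 ∉ x := by
    filter_upwards [hB] with x hx
    simp only [f, dif_pos hx]
    exact hx.choose_spec.2
  let G : Set c.out := {t | ∀ᶠ x in (W : Filter (Set del.ord.ToType)), t ∈ g (f x)}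
  have h2 : ∀ᶠ x in (W : Filter (Set del.ord.ToType)), ∀ t : c.out, (t ∈ g (f x) ↔ t ∈ G) := by
    refine G1_compl h (by rw [Cardinal.mk_out]; exact hc) ?_
    intro t
    by_cases ht : t ∈ G
    · have ht' : ∀ᶠ x in (W : Filter (Set del.ord.ToType)), t ∈ g (f x) := ht
      filter_upwards [ht'] with x hx
      exact iff_of_true hx ht
    · have ht' : ∀ᶠ x in (W : Filter (Set del.ord.ToType)), ¬ t ∈ g (f x) :=
        Ultrafilter.eventually_not.2 ht
      filter_upwards [ht'] with x hx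
      exact iff_of_false hx ht
  obtain ⟨x₀, hx₀⟩ := h2.exists
  have h3 : ∀ᶠ x in (W : Filter (Set del.ord.ToType)), (f x₀).1 ∉ x := by
    filter_upwards [hf, h2] with x hx hx'
    have : f x = f x₀ := g.injective (by
      ext t
      rw [hx' t, hx₀ t])
    rw [← this]
    exact hx
  have h4 : ∀ᶠ x in (W : Filter (Set del.ord.ToType)), (f x₀).1 ∈ x := h.fine _
  obtain ⟨x, hx, hx'⟩ := (h3.and h4).exists
  exact hx hx'

end Pool.CF
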