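import Pool.Agent.Lib.MP_cc7fb1_cf.G1

/-!
# MP_cc7fb1: del is inaccessible (row G2)
-/

set_option autoImplicit false

open Cardinal Set

namespace Pool.CF

variable {lam del : Cardinal.{0}} {W : Ultrafilter (Set del.ord.ToType)}

/-- Diagonal intersections. -/
theorem G2_diag {Θ : Type} [LinearOrder Θ] [Nonempty Θ] {W : Ultrafilter (Set Θ)}
    (h : HugeUF lam W) {B : Θ → Set (Set Θ)} (hB : ∀ d, B d ∈ W) :
    ∀ᶠ x in (W : Filter (Set Θ)), ∀ d ∈ x, x ∈ B d := by
  classical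
  by_contra hcon
  have h1 : ∀ᶠ x in (W : Filter (Set Θ)), ∃ d ∈ x, x ∉ B d := by
    have h2 := Ultrafilter.eventually_not.2 hcon
    filter_upwards [h2] with x hx
    push Not at hx
    exact hx
  let f : Set Θ → Θ := fun x => if h : ∃ d ∈ x, x ∉ B d then h.choose else Classical.arbitrary Θ
  have hf : ∀ᶠ x in (W : Filter (Set Θ)), f x ∈ x ∧ x ∉ B (f x) := by
    filter_upwards [h1] with x hx
    simp only [f, dif_pos hx]
    exact hx.choose_spec
  obtain ⟨a, ha⟩ := h.normal f (hf.mono fun x hx => hx.1)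
  have h3 : ∀ᶠ _x in (W : Filter (Set Θ)), False := by
    have ha' : ∀ᶠ x in (W : Filter (Set Θ)), f x = a := ha
    have hb' : ∀ᶠ x in (W : Filter (Set Θ)), x ∈ B a := hB a
    filter_upwards [hf, ha', hb'] with x i1 i2 i3
    rw [i2] at i1
    exact i1.2 i3
  exact h3.exists.choose_spec

/-- A big initial segment. -/
theorem G2_m {c : Cardinal.{0}} (hc : c < del) : ∃ m : del.ord.ToType, c ≤ #(Iio m) := by
  refine ⟨Ordinal.ToType.mk ⟨c.ord, ord_lt_ord.2 hc⟩, ?_⟩
  have hmem : ∀ d : c.ord.ToType, (Ordinal.ToType.mk.symm d).1 ∈ Iio del.ord := fun d =>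
    lt_trans (mem_Iio.1 (Ordinal.ToType.mk.symm d).2) (ord_lt_ord.2 hc)
  have hlt : ∀ d : c.ord.ToType, Ordinal.ToType.mk ⟨(Ordinal.ToType.mk.symm d).1, hmem d⟩ <
      (Ordinal.ToType.mk ⟨c.ord, ord_lt_ord.2 hc⟩ : del.ord.ToType) := by
    intro d
    rw [OrderIso.lt_iff_lt]
    exact (Ordinal.ToType.mk.symm d).2
  have hinj : Function.Injective (fun d : c.ord.ToType =>
      (⟨Ordinal.ToType.mk ⟨(Ordinal.ToType.mk.symm d).1, hmem d⟩, hlt d⟩ :
        Iio (Ordinal.ToType.mk ⟨c.ord, ord_lt_ord.2 hc⟩ : del.ord.ToType))) := by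
    intro d d' hdd
    have h1 := congrArg Subtype.val hdd
    simp only at h1
    have h2 := (Ordinal.ToType.mk (o := del.ord)).injective h1
    have h3 := congrArg Subtype.val h2
    simp only at h3
    exact (Ordinal.ToType.mk (o := c.ord)).symm.injective (Subtype.ext h3)
  have h4 := Cardinal.mk_le_of_injective hinj
  rwa [mk_ord_toType] at h4

theorem G2_Iio {Θ : Type} [LinearOrder Θ] {x : Set Θ} (φ : ↥x ≃o lam.ord.ToType) (y : ↥x) :
    #(Iio y) < lam := by
  have hinj : Function.Injective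
      (fun z : Iio y => (⟨φ z.1, φ.lt_iff_lt.2 z.2⟩ : Iio (φ y))) := by
    intro z z' hzz
    have h1 := congrArg Subtype.val hzz
    exact Subtype.ext (φ.injective h1)
  exact (Cardinal.mk_le_of_injective hinj).trans_lt (Cardinal.mk_Iio_toType_ord_lt _)

theorem G2_Iic {Θ : Type} [LinearOrder Θ] (h0 : ℵ₀ ≤ lam) {x : Set Θ}
    (φ : ↥x ≃o lam.ord.ToType) (y : ↥x) : #(Iic y) < lam := by
  have h3 : Iic y = insert y (Iio y) := by
    ext b
    simp only [Set.mem_Iic, Set.mem_insert_iff, Set.mem_Iio]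
    exact le_iff_eq_or_lt
  rw [h3]
  refine lt_of_le_of_lt Cardinal.mk_insert_le ?_
  exact Cardinal.add_lt_of_lt h0 (G2_Iio φ y) (lt_of_lt_of_le Cardinal.one_lt_aleph0 h0)

theorem G2_card {Θ : Type} [LinearOrder Θ] {x : Set Θ} (φ : ↥x ≃o lam.ord.ToType) :
    #↥x = lam := by
  rw [Cardinal.mk_congr φ.toEquiv, mk_ord_toType]

/-- Row G2: `δ` is regular.  If `h : A → del.ord.ToType` is cofinal with `A` a proper initial
segment of cardinality `< δ`, bounded by `m`, then a.e. `x` is closed under `h` and under a function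
choosing, for `d`, some `a ∈ A` with `d ≤ h a` (`diag`); so `x ∩ A`, which has order type `< λ`
(it lies below `m ∈ x`), is mapped cofinally into `x`, contradiction to the regularity of `λ`. -/
theorem HugeUF.del_regular (h : HugeUF lam W) (h0 : ℵ₀ < lam) (h1 : lam < del) :
    del.IsRegular := by
  classical
  have hne : Nonempty del.ord.ToType := by
    rw [← Cardinal.mk_ne_zero_iff, mk_ord_toType]
    exact (lt_of_le_of_lt (zero_le) (h0.trans h1)).ne'
  refine ⟨(h0.trans h1).le, ?_⟩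
  by_contra hcon
  push Not at hcon
  rw [← Ordinal.cof_toType] at hcon
  obtain ⟨s, hs, hsc⟩ := Order.exists_cof_eq (α := del.ord.ToType)
  obtain ⟨m, hm⟩ := G2_m (c := #s) (by rw [hsc]; exact hcon)
  obtain ⟨e⟩ : Nonempty (s ↪ Iio m) := (Cardinal.le_def _ _).1 hm
  let g : del.ord.ToType → del.ord.ToType :=
    fun a => if h : ∃ b : s, (e b).1 = a then h.choose.1 else a
  have hg : ∀ b : s, g (e b).1 = b.1 := by
    intro b
    have hb : ∃ b' : s, (e b').1 = (e b).1 := ⟨b, rfl⟩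
    have h2 : e hb.choose = e b := Subtype.ext hb.choose_spec
    simp only [g, dif_pos hb]
    rw [e.injective h2]
  have i1 := G2_diag h (B := fun a => {x | g a ∈ x}) (fun a => h.fine (g a))
  have hs' : ∀ d : del.ord.ToType, ∃ b : s, d ≤ b.1 := by
    intro d
    obtain ⟨b, hb, hdb⟩ := hs d
    exact ⟨⟨b, hb⟩, hdb⟩
  choose bd hbd using hs'
  have i2 := G2_diag h (B := fun d => {x | (e (bd d)).1 ∈ x}) (fun d => h.fine (e (bd d)).1)
  have i3 : ∀ᶠ x in (W : Filter (Set del.ord.ToType)), m ∈ x := h.fine m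
  obtain ⟨x, hx1, hx2, hx3, ⟨φ⟩⟩ := (i1.and (i2.and (i3.and h.ot))).exists
  have hlam := h.regular h0 h1
  have hU : (Set.univ : Set ↥x) ⊆
      ⋃ a : Iio (⟨m, hx3⟩ : ↥x), Iic (⟨g a.1.1, hx1 _ a.1.2⟩ : ↥x) := by
    intro d _
    refine Set.mem_iUnion.2 ⟨⟨⟨(e (bd d.1)).1, hx2 d.1 d.2⟩, (e (bd d.1)).2⟩, ?_⟩
    show d.1 ≤ g (e (bd d.1)).1
    rw [hg]
    exact hbd d.1
  have hlt : #↥x < lam := by
    rw [← Cardinal.mk_univ]
    refine ((Cardinal.mk_le_mk_of_subset hU).trans Cardinal.mk_iUnion_le_sum_mk).trans_lt ?_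
    exact Cardinal.sum_lt_of_isRegular hlam (G2_Iio φ _) (fun a => G2_Iic h0.le φ _)
  rw [G2_card φ] at hlt
  exact lt_irrefl _ hlt

/-- Row G2: `δ` is a strong limit.  If `g : del.ord.ToType → Set A` is injective, `A` bounded by `m`,
then a.e. `x` contains for `d ≠ d'` in `x` an element of `A` in the difference of `g d`, `g d'`; so
`2 ^ #(x ∩ A) ≥ λ`, but `x ∩ A` has fewer than `λ` elements. -/
theorem HugeUF.del_strongLimit (h : HugeUF lam W) (h0 : ℵ₀ < lam) (h1 : lam < del) :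
    ∀ c < del, (2 : Cardinal.{0}) ^ c < del := by
  have hne : Nonempty del.ord.ToType := by
    rw [← Cardinal.mk_ne_zero_iff, mk_ord_toType]
    exact (lt_of_le_of_lt (zero_le) (h0.trans h1)).ne'
  intro c hc
  by_contra hcon
  push Not at hcon
  obtain ⟨m, hm⟩ := G2_m hc
  have hle : #(del.ord.ToType) ≤ #(Set (Iio m)) := by
    rw [mk_ord_toType, Cardinal.mk_set]
    exact hcon.trans (Cardinal.power_le_power_left two_ne_zero hm)
  obtain ⟨g⟩ : Nonempty (del.ord.ToType ↪ Set (Iio m)) := (Cardinal.le_def _ _).1 hle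
  have hsep : ∀ d d' : del.ord.ToType, ∃ a : del.ord.ToType, d ≠ d' →
      ∃ ha : a < m, ¬ ((⟨a, ha⟩ : Iio m) ∈ g d ↔ (⟨a, ha⟩ : Iio m) ∈ g d') := by
    intro d d'
    by_cases hdd : d = d'
    · exact ⟨d, fun h => absurd hdd h⟩
    · have h2 : g d ≠ g d' := fun h => hdd (g.injective h)
      obtain ⟨a, ha⟩ : ∃ a : Iio m, ¬ (a ∈ g d ↔ a ∈ g d') := by
        by_contra h3
        push Not at h3
        exact h2 (Set.ext h3)
      exact ⟨a.1, fun _ => ⟨a.2, ha⟩⟩
  choose a ha using hsep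
  have i1 := G2_diag h (B := fun d => {x | ∀ d' ∈ x, x ∈ {x | a d d' ∈ x}})
    (fun d => G2_diag h (B := fun d' => {x | a d d' ∈ x}) (fun d' => h.fine (a d d')))
  have i3 : ∀ᶠ x in (W : Filter (Set del.ord.ToType)), m ∈ x := h.fine m
  obtain ⟨x, hx1, hx3, ⟨φ⟩⟩ := (i1.and (i3.and h.ot)).exists
  have hinj : Function.Injective (fun d : ↥x =>
      ({z | (⟨z.1.1, z.2⟩ : Iio m) ∈ g d.1} : Set (Iio (⟨m, hx3⟩ : ↥x)))) := by
    intro d d' hdd
    by_contra hne'
    have hne2 : d.1 ≠ d'.1 := fun h => hne' (Subtype.ext h)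
    obtain ⟨h2, h3⟩ := ha d.1 d'.1 hne2
    have h4 : a d.1 d'.1 ∈ x := hx1 d.1 d.2 d'.1 d'.2
    apply h3
    have h5 := Set.ext_iff.1 hdd ⟨⟨a d.1 d'.1, h4⟩, h2⟩
    exact h5
  have h6 := Cardinal.mk_le_of_injective hinj
  rw [G2_card φ, Cardinal.mk_set] at h6
  exact absurd (h.strongLimit h0 h1 _ (G2_Iio φ _)) (not_lt.2 h6)

end Pool.CF
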