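import Pool.Agent.Lib.MP_cc7fb1_cf.Data

/-!
# MP_cc7fb1: tools for the normal ultrafilter (row U1)
-/

set_option autoImplicit false

open Cardinal Set

namespace Pool.CF

/-- The filter of the ultrafilter `U`. -/
abbrev FF (Θ X : Type) [LinearOrder Θ] [WellFoundedLT Θ] [HG Θ X] : Filter X :=
  ((HG.U Θ : Ultrafilter X) : Filter X)

variable {Θ X : Type} [LinearOrder Θ] [WellFoundedLT Θ] [HG Θ X]

/-! ### Row U1 -/

lemma pi_lt_iff (x : X) {a b : Θ} (ha : a ∈ el x) (hb : b ∈ el x) : pi x a < pi x b ↔ a < b := by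
  constructor
  · intro h
    rcases lt_trichotomy a b with h1 | h1 | h1
    · exact h1
    · rw [h1] at h
      exact absurd h (lt_irrefl _)
    · exact absurd (HG.pi_mono x b hb a ha h1) (lt_asymm h)
  · exact HG.pi_mono x a ha b hb

lemma pi_inj (x : X) {a b : Θ} (ha : a ∈ el x) (hb : b ∈ el x) (h : pi x a = pi x b) : a = b := by
  rcases lt_trichotomy a b with h1 | h1 | h1
  · exact absurd h (HG.pi_mono x a ha b hb h1).ne
  · exact h1
  · exact absurd h (HG.pi_mono x b hb a ha h1).ne'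

lemma pi_le_iff (x : X) {a b : Θ} (ha : a ∈ el x) (hb : b ∈ el x) : pi x a ≤ pi x b ↔ a ≤ b := by
  rw [← not_lt, ← not_lt, pi_lt_iff x hb ha]

lemma ae_pi_lt_iff {a b : Θ} : (∀ᶠ x in FF Θ X, pi x a < pi x b) ↔ a < b := by
  constructor
  · intro h
    obtain ⟨x, h1, h2, h3⟩ := (h.and ((HG.fine a).and (HG.fine b))).exists
    exact (pi_lt_iff x h2 h3).1 h1
  · intro h
    filter_upwards [HG.fine a, HG.fine b] with x h2 h3
    exact (pi_lt_iff x h2 h3).2 h

lemma ae_pi_le_iff {a b : Θ} : (∀ᶠ x in FF Θ X, pi x a ≤ pi x b) ↔ a ≤ b := by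
  constructor
  · intro h
    obtain ⟨x, h1, h2, h3⟩ := (h.and ((HG.fine a).and (HG.fine b))).exists
    exact (pi_le_iff x h2 h3).1 h1
  · intro h
    filter_upwards [HG.fine a, HG.fine b] with x h2 h3
    exact (pi_le_iff x h2 h3).2 h

lemma ae_pi_eq_iff {a b : Θ} : (∀ᶠ x in FF Θ X, pi x a = pi x b) ↔ a = b := by
  constructor
  · intro h
    obtain ⟨x, h1, h2, h3⟩ := (h.and ((HG.fine a).and (HG.fine b))).exists
    exact pi_inj x h2 h3 h1
  · rintro rfl
    exact Filter.Eventually.of_forall fun _ => rfl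

lemma ae_pi_lt_la (a : Θ) : ∀ᶠ x in FF Θ X, pi x a < la X := by
  filter_upwards [HG.fine a] with x hx
  exact HG.pi_lt x a hx

lemma ae_not {p : X → Prop} :
    (∀ᶠ x in FF Θ X, ¬ p x) ↔ ¬ ∀ᶠ x in FF Θ X, p x :=
  Ultrafilter.eventually_not

lemma ae_or {p q : X → Prop} : (∀ᶠ x in FF Θ X, p x ∨ q x) ↔
    (∀ᶠ x in FF Θ X, p x) ∨ ∀ᶠ x in FF Θ X, q x :=
  Ultrafilter.eventually_or

/-- REPRESENTATION: every function into `λ` is given by one element of `Θ` (normality applied to the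
`pi x`-preimage). -/
theorem rep {f : X → Θ} (h : ∀ᶠ x in FF Θ X, f x < la X) :
    ∃ a, ∀ᶠ x in FF Θ X, f x = pi x a := by
  classical
  have h1 : ∀ x, ∃ b : Θ, f x < la X → b ∈ el x ∧ pi x b = f x := by
    intro x
    by_cases hx : f x < la X
    · obtain ⟨b, hb1, hb2⟩ := HG.pi_surj x (f x) hx
      exact ⟨b, fun _ => ⟨hb1, hb2⟩⟩
    · exact ⟨la X, fun h2 => absurd h2 hx⟩
  choose g hg using h1
  have h2 : ∀ᶠ x in FF Θ X, g x ∈ el x := by
    filter_upwards [h] with x hx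
    exact (hg x hx).1
  obtain ⟨a, ha⟩ := HG.normal g h2
  refine ⟨a, ?_⟩
  filter_upwards [h, ha] with x hx hax
  rw [← hax]
  exact (hg x hx).2.symm

end Pool.CF
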