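import Pool.Agent.Lib.MP_cc7fb1_cf.G2
import Pool.Agent.Lib.MP_cc7fb1_cf.U1

/-!
# MP_cc7fb1: the class HG from a huge cardinal (row G3)
-/

set_option autoImplicit false

open Cardinal Set

namespace Pool.CF

variable {lam del : Cardinal.{0}} {W : Ultrafilter (Set del.ord.ToType)}

/-- The sets of order type `λ`. -/
abbrev XX (lam del : Cardinal.{0}) : Type :=
  {x : Set del.ord.ToType // Nonempty (↥x ≃o lam.ord.ToType)}

/-- The element number `λ`. -/
private noncomputable def G3_la (hd : lam < del) : del.ord.ToType :=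
  Ordinal.ToType.mk ⟨lam.ord, ord_lt_ord.2 hd⟩

private lemma G3_mem (hd : lam < del) (d : lam.ord.ToType) :
    (Ordinal.ToType.mk.symm d).1 ∈ Iio del.ord :=
  lt_trans (mem_Iio.1 (Ordinal.ToType.mk.symm d).2) (ord_lt_ord.2 hd)

/-- The inclusion of `λ` in `δ`. -/
private noncomputable def G3_g (hd : lam < del) (d : lam.ord.ToType) : del.ord.ToType :=
  Ordinal.ToType.mk ⟨(Ordinal.ToType.mk.symm d).1, G3_mem hd d⟩

private lemma G3_lt (hd : lam < del) (d : lam.ord.ToType) : G3_g hd d < G3_la hd := by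
  unfold G3_g G3_la
  rw [OrderIso.lt_iff_lt]
  exact (Ordinal.ToType.mk.symm d).2

private lemma G3_mono (hd : lam < del) {d d' : lam.ord.ToType} (h : d < d') :
    G3_g hd d < G3_g hd d' := by
  unfold G3_g
  rw [OrderIso.lt_iff_lt]
  have h1 : Ordinal.ToType.mk.symm d < Ordinal.ToType.mk.symm d' :=
    (OrderIso.lt_iff_lt _).2 h
  exact h1

private lemma G3_lt_iff (hd : lam < del) {d d' : lam.ord.ToType} :
    G3_g hd d < G3_g hd d' ↔ d < d' := by
  constructor
  · intro h
    rcases lt_trichotomy d d' with h1 | h1 | h1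
    · exact h1
    · exact absurd h (by rw [h1]; exact lt_irrefl _)
    · exact absurd h (not_lt.2 (G3_mono hd h1).le)
  · exact G3_mono hd

private lemma G3_surj (hd : lam < del) {c : del.ord.ToType} (hc : c < G3_la hd) :
    ∃ d, G3_g hd d = c := by
  have h1 : (Ordinal.ToType.mk.symm c).1 ∈ Iio lam.ord := by
    have h2 : Ordinal.ToType.mk.symm c < Ordinal.ToType.mk.symm (G3_la hd) :=
      (OrderIso.lt_iff_lt _).2 hc
    unfold G3_la at h2
    rw [OrderIso.symm_apply_apply] at h2
    exact h2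
  refine ⟨Ordinal.ToType.mk ⟨(Ordinal.ToType.mk.symm c).1, h1⟩, ?_⟩
  unfold G3_g
  apply (Ordinal.ToType.mk (o := del.ord)).symm.injective
  rw [OrderIso.symm_apply_apply]
  apply Subtype.ext
  show (Ordinal.ToType.mk.symm (Ordinal.ToType.mk
    (⟨(Ordinal.ToType.mk.symm c).1, h1⟩ : Iio lam.ord))).1 = (Ordinal.ToType.mk.symm c).1
  rw [OrderIso.symm_apply_apply]

private lemma G3_card (hd : lam < del) : #(Iio (G3_la hd)) = lam := by
  have h1 : Function.Bijective (fun d : lam.ord.ToType =>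
      (⟨G3_g hd d, G3_lt hd d⟩ : Iio (G3_la hd))) := by
    constructor
    · intro d d' h
      have h2 : G3_g hd d = G3_g hd d' := congrArg Subtype.val h
      rcases lt_trichotomy d d' with h3 | h3 | h3
      · exact absurd (G3_mono hd h3) (by rw [h2]; exact lt_irrefl _)
      · exact h3
      · exact absurd (G3_mono hd h3) (by rw [h2]; exact lt_irrefl _)
    · intro c
      obtain ⟨d, hdc⟩ := G3_surj hd c.2
      exact ⟨d, Subtype.ext hdc⟩
  rw [← Cardinal.mk_congr (Equiv.ofBijective _ h1), mk_ord_toType]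

private lemma G3_init (hd : lam < del) {a : del.ord.ToType} (ha : a < G3_la hd) :
    #(Iio a) < lam := by
  obtain ⟨d, rfl⟩ := G3_surj hd ha
  have h1 : Iio (G3_g hd d) ⊆ G3_g hd '' Iio d := by
    intro c hc
    obtain ⟨d', rfl⟩ := G3_surj hd (lt_trans hc ha)
    exact ⟨d', (G3_lt_iff hd).1 hc, rfl⟩
  refine lt_of_le_of_lt ((Cardinal.mk_le_mk_of_subset h1).trans Cardinal.mk_image_le) ?_
  have h2 := Cardinal.mk_Iio_lt d (by simp)
  rwa [mk_ord_toType] at h2

/-- The collapse. -/
private noncomputable def G3_pi (hd : lam < del) (x : XX lam del) (a : del.ord.ToType) :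
    del.ord.ToType :=
  open Classical in if ha : a ∈ x.1 then G3_g hd (x.2.some ⟨a, ha⟩) else G3_la hd

private lemma G3_pi_eq (hd : lam < del) (x : XX lam del) {a : del.ord.ToType} (ha : a ∈ x.1) :
    G3_pi hd x a = G3_g hd (x.2.some ⟨a, ha⟩) := by
  unfold G3_pi
  rw [dif_pos ha]

private lemma G3_pi_mono (hd : lam < del) (x : XX lam del) {a b : del.ord.ToType} (ha : a ∈ x.1)
    (hb : b ∈ x.1) (h : a < b) : G3_pi hd x a < G3_pi hd x b := by
  rw [G3_pi_eq hd x ha, G3_pi_eq hd x hb]
  refine G3_mono hd ((OrderIso.lt_iff_lt _).2 ?_)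
  exact h

private lemma G3_pi_surj (hd : lam < del) (x : XX lam del) {c : del.ord.ToType}
    (hc : c < G3_la hd) : ∃ a ∈ x.1, G3_pi hd x a = c := by
  obtain ⟨d, rfl⟩ := G3_surj hd hc
  refine ⟨(x.2.some.symm d).1, (x.2.some.symm d).2, ?_⟩
  rw [G3_pi_eq hd x (x.2.some.symm d).2]
  exact congrArg (G3_g hd) (OrderIso.apply_symm_apply _ _)

private lemma G3_pi_id (hd : lam < del) (x : XX lam del) {a : del.ord.ToType} (ha : a < G3_la hd)
    (hx : ∀ b ≤ a, b ∈ x.1) : ∀ b ≤ a, G3_pi hd x b = b := by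
  intro b
  induction b using WellFoundedLT.induction with
  | ind b ih =>
    intro hb
    rcases lt_trichotomy (G3_pi hd x b) b with h1 | h1 | h1
    · have h2 := ih _ h1 (h1.le.trans hb)
      have h3 := G3_pi_mono hd x (hx _ (h1.le.trans hb)) (hx b hb) h1
      rw [h2] at h3
      exact absurd h3 (lt_irrefl _)
    · exact h1
    · obtain ⟨d, hdx, hdb⟩ := G3_pi_surj hd x (lt_of_le_of_lt hb ha)
      rcases lt_or_ge d b with h2 | h2
      · have h3 := ih d h2 (h2.le.trans hb)
        rw [h3] at hdb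
        exact absurd h2 (by rw [hdb]; exact lt_irrefl _)
      · exfalso
        rcases h2.eq_or_lt with h3 | h3
        · rw [← h3] at hdb
          rw [hdb] at h1
          exact lt_irrefl _ h1
        · have h4 := G3_pi_mono hd x (hx b hb) hdx h3
          rw [hdb] at h4
          exact lt_irrefl _ (h4.trans h1)

private lemma G3_large (h : HugeUF lam W) :
    Set.range (Subtype.val : XX lam del → Set del.ord.ToType) ∈ W := by
  have h1 : Set.range (Subtype.val : XX lam del → Set del.ord.ToType) =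
      {x : Set del.ord.ToType | Nonempty (↥x ≃o lam.ord.ToType)} := Subtype.range_val
  rw [h1]
  exact h.ot

/-- The ultrafilter on the sets of order type `λ`. -/
private noncomputable def G3_U (h : HugeUF lam W) : Ultrafilter (XX lam del) :=
  W.comap Subtype.val_injective (G3_large h)

private lemma G3_ae (h : HugeUF lam W) {p : XX lam del → Prop} :
    (∀ᶠ x in (G3_U h : Filter (XX lam del)), p x) ↔
      ∀ᶠ y in (W : Filter (Set del.ord.ToType)), ∀ x : XX lam del, x.1 = y → p x := by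
  unfold G3_U
  rw [Ultrafilter.coe_comap]
  exact Filter.eventually_comap

private lemma G3_compl (h : HugeUF lam W) (ι : Type) (p : ι → XX lam del → Prop)
    (hι : #ι < lam) (hp : ∀ i, ∀ᶠ x in (G3_U h : Filter (XX lam del)), p i x) :
    ∀ᶠ x in (G3_U h : Filter (XX lam del)), ∀ i, p i x := by
  rw [G3_ae]
  have h1 := h.compl (Set.range fun i : ι => {y : Set del.ord.ToType |
    ∀ x : XX lam del, x.1 = y → p i x}) (lt_of_le_of_lt Cardinal.mk_range_le hι) (by
      rintro _ ⟨i, rfl⟩
      exact (G3_ae h).1 (hp i))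
  filter_upwards [h1] with y hy x hxy i
  exact hy _ ⟨i, rfl⟩ x hxy

private lemma G3_fine (h : HugeUF lam W) (a : del.ord.ToType) :
    ∀ᶠ x in (G3_U h : Filter (XX lam del)), a ∈ x.1 := by
  rw [G3_ae]
  filter_upwards [h.fine a] with y hy x hxy
  rw [hxy]
  exact hy

private lemma G3_normal (h : HugeUF lam W) (hd : lam < del) (f : XX lam del → del.ord.ToType)
    (hf : ∀ᶠ x in (G3_U h : Filter (XX lam del)), f x ∈ x.1) :
    ∃ a, ∀ᶠ x in (G3_U h : Filter (XX lam del)), f x = a := by
  classical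
  obtain ⟨f', hf'⟩ : ∃ f' : Set del.ord.ToType → del.ord.ToType,
      ∀ x : XX lam del, f' x.1 = f x := by
    refine ⟨fun y => if hy : Nonempty (↥y ≃o lam.ord.ToType) then f ⟨y, hy⟩ else G3_la hd,
      fun x => ?_⟩
    show (if hy : Nonempty (↥x.1 ≃o lam.ord.ToType) then f ⟨x.1, hy⟩ else G3_la hd) = f x
    rw [dif_pos x.2]
  have h1 : {y | f' y ∈ y} ∈ W := by
    filter_upwards [h.ot, (G3_ae h).1 hf] with y hy1 hy2
    have h2 := hy2 ⟨y, hy1⟩ rfl
    have h3 := hf' ⟨y, hy1⟩
    show f' y ∈ y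
    have h4 : f' y = f ⟨y, hy1⟩ := h3
    rw [h4]
    exact h2
  obtain ⟨a, ha⟩ := h.normal f' h1
  refine ⟨a, (G3_ae h).2 ?_⟩
  filter_upwards [ha] with y hy x hxy
  have h2 : f' y = a := hy
  rw [← hf' x, hxy, h2]

/-- Row G3: the class `HG`. -/
theorem exists_HG {kap lam del : Cardinal.{0}} (hk : kap.IsRegular) (hk0 : ℵ₀ < kap)
    (hks : ∀ c < kap, (2 : Cardinal.{0}) ^ c < kap) (hkl : kap < lam) (h : IsHuge lam del) :
    ∃ s : HG del.ord.ToType (XX lam del), s.κ = kap ∧ #(Iio s.la) = lam := by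
  obtain ⟨h0, hd, W, hW⟩ := h
  have hc := G3_card hd
  have hreg := hW.regular h0 hd
  have hsl := hW.strongLimit h0 hd
  have hdr := hW.del_regular h0 hd
  have hdsl := hW.del_strongLimit h0 hd
  refine ⟨{
    κ := kap
    la := G3_la hd
    el := Subtype.val
    pi := G3_pi hd
    U := G3_U hW
    κ_reg := hk
    κ_unc := hk0
    κ_sl := hks
    κ_lt := by rw [hc]; exact hkl
    la_init := fun a ha => by rw [hc]; exact G3_init hd ha
    la_reg := by rw [hc]; exact hreg
    la_sl := by rw [hc]; exact hsl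
    th_init := fun a => Cardinal.mk_Iio_lt a (by simp)
    th_reg := by rw [mk_ord_toType]; exact hdr
    th_sl := by rw [mk_ord_toType]; exact hdsl
    compl := fun ι p hι hp => G3_compl hW ι p (by rw [hc] at hι; exact hι) hp
    fine := G3_fine hW
    normal := G3_normal hW hd
    pi_lt := fun x a ha => by rw [G3_pi_eq hd x ha]; exact G3_lt hd _
    pi_mono := fun x a ha b hb hab => G3_pi_mono hd x ha hb hab
    pi_surj := fun x c hc' => G3_pi_surj hd x hc'
    pi_id := ?_ }, rfl, hc⟩
  intro a ha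
  have h1 := G3_compl hW (Iio a) (fun b x => b.1 ∈ x.1) (G3_init hd ha)
    (fun b => G3_fine hW b.1)
  filter_upwards [h1, G3_fine hW a] with x hx hxa
  refine G3_pi_id hd x ha (fun b hb => ?_) a le_rfl
  rcases hb.eq_or_lt with h2 | h2
  · rw [h2]
    exact hxa
  · exact hx ⟨b, h2⟩

end Pool.CF
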