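import Pool.Agent.Lib.MP_cc7fb1_cf.Seq

/-!
# MP_cc7fb1: chains, basics (row H1)
-/

set_option autoImplicit false
set_option linter.unusedSectionVars false

open Cardinal Set

namespace Pool.CF

variable {Θ : Type} [LinearOrder Θ] [WellFoundedLT Θ] {κ : Cardinal.{0}} {S S' : Θ → Lv Θ}
  {σ σ' τ : Set (Θ × Θ)} {a b : Θ}

/-! ### Row H1: basics -/

lemma mem_cut {p : Θ × Θ} : p ∈ cut b σ ↔ p ∈ σ ∧ p.1 < b := Iff.rfl

lemma cut_cut (hab : a ≤ b) : cut a (cut b σ) = cut a σ := by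
  ext p
  constructor
  · intro h
    exact ⟨h.1.1, h.2⟩
  · intro h
    exact ⟨⟨h.1, h.2.trans_le hab⟩, h.2⟩

lemma cut_mono (h : σ ⊆ τ) : cut b σ ⊆ cut b τ := fun _ hp => ⟨h hp.1, hp.2⟩

lemma mem_lev_cut {c : Θ} : c ∈ lev (cut b σ) ↔ c ∈ lev σ ∧ c < b := by
  constructor
  · rintro ⟨r, h1, h2⟩
    exact ⟨⟨r, h1⟩, h2⟩
  · rintro ⟨⟨r, h1⟩, h2⟩
    exact ⟨r, h1, h2⟩

lemma cut_eq_self (h : ∀ c ∈ lev σ, c < b) : cut b σ = σ := by
  ext p
  constructor
  · exact fun h => h.1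
  · exact fun h1 => ⟨h1, h p.1 ⟨p.2, h1⟩⟩

theorem isCh_empty (hκ : ℵ₀ ≤ κ) : IsCh κ S ∅ := by
  refine ⟨?_, ?_, ?_, ?_⟩
  · rw [mk_eq_zero]
    exact aleph0_pos.trans_le hκ
  · intro a r r' h
    exact absurd h (notMem_empty _)
  · intro a r h
    exact absurd h (notMem_empty _)
  · intro a r h
    exact absurd h (notMem_empty _)

theorem IsCh.cut (h : IsCh κ S σ) (b : Θ) : IsCh κ S (cut b σ) := by
  refine ⟨(mk_le_mk_of_subset fun p hp => hp.1).trans_lt h.card, ?_, ?_, ?_⟩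
  · intro a r r' h1 h2
    exact h.func a r r' h1.1 h2.1
  · intro a r h1
    exact h.mem a r h1.1
  · intro a r h1
    rw [h.coh a r h1.1, cut_cut h1.2.le]

/-- A part of a chain which is closed under smaller labels is a chain. -/
theorem IsCh.of_init (h : IsCh κ S σ) (hs : τ ⊆ σ)
    (hd : ∀ p ∈ τ, ∀ q ∈ σ, q.1 < p.1 → q ∈ τ) : IsCh κ S τ := by
  refine ⟨(mk_le_mk_of_subset hs).trans_lt h.card, ?_, ?_, ?_⟩
  · intro a r r' h1 h2
    exact h.func a r r' (hs h1) (hs h2)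
  · intro a r h1
    exact h.mem a r (hs h1)
  · intro a r h1
    rw [h.coh a r (hs h1)]
    ext q
    constructor
    · intro hq
      exact ⟨hd (a, r) h1 q hq.1 hq.2, hq.2⟩
    · intro hq
      exact ⟨hs hq.1, hq.2⟩

private theorem isCh_congr_H1 {S S' : Θ → Lv Θ} (h : ∀ c ∈ lev σ, S c = S' c)
    (hσ : IsCh κ S σ) : IsCh κ S' σ := by
  refine ⟨hσ.card, hσ.func, ?_, ?_⟩
  · intro a r h1
    rw [← h a ⟨r, h1⟩]
    exact hσ.mem a r h1
  · intro a r h1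
    rw [← h a ⟨r, h1⟩]
    exact hσ.coh a r h1

/-- Chains only see the levels with labels in them. -/
theorem IsCh.congr (h : ∀ c ∈ lev σ, S c = S' c) : IsCh κ S σ ↔ IsCh κ S' σ :=
  ⟨isCh_congr_H1 h, isCh_congr_H1 fun c hc => (h c hc).symm⟩

private theorem chLe_congr_H1 {S S' : Θ → Lv Θ} (h : ∀ c ∈ lev σ, S c = S' c)
    (hσ : ChLe S σ' σ) : ChLe S' σ' σ := by
  intro a r h1
  rw [← h a ⟨r, h1⟩]
  exact hσ a r h1

theorem ChLe.congr (h : ∀ c ∈ lev σ, S c = S' c) : ChLe S σ' σ ↔ ChLe S' σ' σ :=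
  ⟨chLe_congr_H1 h, chLe_congr_H1 fun c hc => (h c hc).symm⟩

private theorem isStr_congr_H1 {S S' : Θ → Lv Θ} {Y : Lv Θ} (h : ∀ c < a, S c = S' c)
    (hY : IsStr κ S a Y) : IsStr κ S' a Y := by
  have hl : ∀ r ∈ Y.C, ∀ c ∈ lev (Y.sg r), S c = S' c := fun r hr c hc => h c (hY.lt r hr c hc)
  refine ⟨hY.refl, hY.trans, hY.antisymm, ?_, hY.lt, ?_, ?_, ?_⟩
  · intro r hr
    exact isCh_congr_H1 (hl r hr) (hY.ch r hr)
  · intro r hr s hs hsr
    exact chLe_congr_H1 (hl r hr) (hY.mono r hr s hs hsr)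
  · intro D hD hD1 hD2 hD3
    obtain ⟨r, hr1, hr2⟩ := hY.inf D hD hD1 hD2 hD3
    refine ⟨r, hr1, hr2.lev, ?_⟩
    intro b s hbs
    rw [← hl r hr1.1 b ⟨s, hbs⟩]
    exact hr2.val b s hbs
  · intro r hr σ hσ hle hcof
    have hlσ : ∀ c ∈ lev σ, S c = S' c := by
      intro c hc
      obtain ⟨b', hb', hcb⟩ := hcof c hc
      exact h c (hcb.trans_lt (hY.lt r hr b' hb'))
    have h1 : IsCh κ S σ := (IsCh.congr hlσ).2 hσ
    have h2 : ChLe S σ (Y.sg r) := (ChLe.congr (hl r hr)).2 hle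
    obtain ⟨r', hr', h3, h4⟩ := hY.ext r hr σ h1 h2 hcof
    exact ⟨r', hr', h3, (ChLe.congr hlσ).1 h4⟩

/-- Structured posets below `a` only see the levels with labels below `a`. -/
theorem IsStr.congr {Y : Lv Θ} (h : ∀ c < a, S c = S' c) : IsStr κ S a Y ↔ IsStr κ S' a Y :=
  ⟨isStr_congr_H1 h, isStr_congr_H1 fun c hc => (h c hc).symm⟩

theorem IsStr.mono_label {Y : Lv Θ} (h : IsStr κ S a Y) (hab : a ≤ b) : IsStr κ S b Y :=
  ⟨h.refl, h.trans, h.antisymm, h.ch, fun r hr c hc => (h.lt r hr c hc).trans_le hab, h.mono,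
    h.inf, h.ext⟩

theorem IsStr.of_agree {Y Z : Lv Θ} (h : IsStr κ S a Y) (hYZ : Y.Agree Z) : IsStr κ S a Z := by
  have hC := hYZ.C
  have hle := hYZ.le
  have hsg := hYZ.sg
  refine ⟨?_, ?_, ?_, ?_, ?_, ?_, ?_, ?_⟩
  · intro r hr
    rw [← hC] at hr
    exact (hle r hr r hr).1 (h.refl r hr)
  · intro r hr s hs t ht h1 h2
    rw [← hC] at hr hs ht
    exact (hle r hr t ht).1 (h.trans r hr s hs t ht ((hle r hr s hs).2 h1) ((hle s hs t ht).2 h2))
  · intro r hr s hs h1 h2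
    rw [← hC] at hr hs
    exact h.antisymm r hr s hs ((hle r hr s hs).2 h1) ((hle s hs r hr).2 h2)
  · intro r hr
    rw [← hC] at hr
    rw [← hsg r hr]
    exact h.ch r hr
  · intro r hr
    rw [← hC] at hr
    rw [← hsg r hr]
    exact h.lt r hr
  · intro r hr s hs h1
    rw [← hC] at hr hs
    rw [← hsg r hr, ← hsg s hs]
    exact h.mono r hr s hs ((hle s hs r hr).2 h1)
  · intro D hD hD1 hD2 hD3
    rw [← hC] at hD
    obtain ⟨r, hr1, hr2⟩ := h.inf D hD hD1 hD2 fun d hd d' hd' => by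
      obtain ⟨e, he, h1, h2⟩ := hD3 d hd d' hd'
      exact ⟨e, he, (hle e (hD he) d (hD hd)).2 h1, (hle e (hD he) d' (hD hd')).2 h2⟩
    refine ⟨r, ⟨hC ▸ hr1.1, ?_, ?_⟩, ?_⟩
    · intro d hd
      exact (hle r hr1.1 d (hD hd)).1 (hr1.2.1 d hd)
    · intro s hs h1
      rw [← hC] at hs
      exact (hle s hs r hr1.1).1 (hr1.2.2 s hs fun d hd => (hle s hs d (hD hd)).2 (h1 d hd))
    · have h3 : Z.sg '' D = Y.sg '' D := by
        apply Set.image_congr
        intro d hd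
        exact (hsg d (hD hd)).symm
      rw [h3, ← hsg r hr1.1]
      exact hr2
  · intro r hr σ hσ h1 h2
    rw [← hC] at hr
    rw [← hsg r hr] at h1 h2
    obtain ⟨r', hr', h3, h4⟩ := h.ext r hr σ hσ h1 h2
    refine ⟨r', hC ▸ hr', (hle r' hr' r hr).1 h3, ?_⟩
    rw [← hsg r' hr']
    exact h4

/-- The empty level. -/
theorem isStr_empty {Y : Lv Θ} (hY : Y.C = ∅) : IsStr κ S a Y := by
  have h0 : ∀ r, r ∉ Y.C := by
    intro r hr
    rw [hY] at hr
    exact hr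
  refine ⟨?_, ?_, ?_, ?_, ?_, ?_, ?_, ?_⟩
  · exact fun r hr => absurd hr (h0 r)
  · exact fun r hr => absurd hr (h0 r)
  · exact fun r hr => absurd hr (h0 r)
  · exact fun r hr => absurd hr (h0 r)
  · exact fun r hr => absurd hr (h0 r)
  · exact fun r hr => absurd hr (h0 r)
  · rintro D hD ⟨d, hd⟩
    exact absurd (hD hd) (h0 d)
  · exact fun r hr => absurd hr (h0 r)

/-- A union of an increasing family of chains (initial segments of each other), small. -/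
theorem isCh_iUnion (hκ : κ.IsRegular) {ι : Type} (hι : #ι < κ) {f : ι → Set (Θ × Θ)}
    (hf : ∀ i, IsCh κ S (f i)) (hd : ∀ i j, (∀ p ∈ f i, p ∈ f j ∨ ∀ q ∈ f j, q.1 < p.1) ∧
      (f i ⊆ f j ∨ f j ⊆ f i)) : IsCh κ S (⋃ i, f i) := by
  refine ⟨(card_iUnion_lt_iff_forall_of_isRegular hκ hι).2 fun i => (hf i).card, ?_, ?_, ?_⟩
  · intro a r r' h1 h2
    obtain ⟨i, hi⟩ := Set.mem_iUnion.1 h1
    obtain ⟨j, hj⟩ := Set.mem_iUnion.1 h2
    rcases (hd i j).2 with h3 | h3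
    · exact (hf j).func a r r' (h3 hi) hj
    · exact (hf i).func a r r' hi (h3 hj)
  · intro a r h1
    obtain ⟨i, hi⟩ := Set.mem_iUnion.1 h1
    exact (hf i).mem a r hi
  · intro a r h1
    obtain ⟨i, hi⟩ := Set.mem_iUnion.1 h1
    rw [(hf i).coh a r hi]
    ext p
    constructor
    · intro hp
      exact ⟨Set.mem_iUnion.2 ⟨i, hp.1⟩, hp.2⟩
    · intro hp
      obtain ⟨j, hj⟩ := Set.mem_iUnion.1 hp.1
      rcases (hd j i).1 p hj with h3 | h3
      · exact ⟨h3, hp.2⟩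
      · exact absurd (h3 (a, r) hi) (lt_asymm hp.2)

/-- Adding a top level. -/
theorem IsCh.addTop (hκ : ℵ₀ ≤ κ) (h : IsCh κ S σ) (hlt : ∀ c ∈ lev σ, c < a) {r : Θ}
    (hr : r ∈ (S a).C) (hsg : (S a).sg r = σ) : IsCh κ S (addTop σ a r) := by
  have hlt' : ∀ {c s : Θ}, (c, s) ∈ σ → c < a := fun {c s} hc => hlt c ⟨s, hc⟩
  refine ⟨mk_insert_le.trans_lt (add_lt_of_lt hκ h.card (one_lt_aleph0.trans_le hκ)), ?_, ?_, ?_⟩
  · intro c s s' h1 h2
    rcases Set.mem_insert_iff.1 h1 with h1 | h1 <;> rcases Set.mem_insert_iff.1 h2 with h2 | h2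
    · rw [Prod.mk.injEq] at h1 h2
      rw [h1.2, h2.2]
    · rw [Prod.mk.injEq] at h1
      exact absurd (hlt' h2) (by rw [h1.1]; exact lt_irrefl _)
    · rw [Prod.mk.injEq] at h2
      exact absurd (hlt' h1) (by rw [h2.1]; exact lt_irrefl _)
    · exact h.func c s s' h1 h2
  · intro c s h1
    rcases Set.mem_insert_iff.1 h1 with h1 | h1
    · rw [Prod.mk.injEq] at h1
      rw [h1.1, h1.2]
      exact hr
    · exact h.mem c s h1
  · intro c s h1
    rcases Set.mem_insert_iff.1 h1 with h1 | h1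
    · rw [Prod.mk.injEq] at h1
      rw [h1.1, h1.2, hsg]
      ext p
      constructor
      · intro hp
        exact ⟨Set.mem_insert_of_mem _ hp, hlt' (c := p.1) (s := p.2) hp⟩
      · rintro ⟨hp, hp2⟩
        rcases Set.mem_insert_iff.1 hp with hp | hp
        · rw [hp] at hp2
          exact absurd hp2 (lt_irrefl _)
        · exact hp
    · rw [h.coh c s h1]
      ext p
      constructor
      · intro hp
        exact ⟨Set.mem_insert_of_mem _ hp.1, hp.2⟩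
      · rintro ⟨hp, hp2⟩
        rcases Set.mem_insert_iff.1 hp with hp | hp
        · rw [hp] at hp2
          exact absurd hp2 (lt_asymm (hlt' h1))
        · exact ⟨hp, hp2⟩

theorem Structured.isCh_top (hκ : ℵ₀ ≤ κ) (hS : Structured κ S) {r : Θ} (hr : r ∈ (S a).C) :
    IsCh κ S (Pool.CF.addTop ((S a).sg r) a r) :=
  IsCh.addTop hκ ((hS a).ch r hr) ((hS a).lt r hr) hr rfl

lemma mem_lev_addTop {r c : Θ} : c ∈ lev (addTop σ a r) ↔ c ∈ lev σ ∨ c = a := by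
  constructor
  · rintro ⟨s, hs⟩
    rcases Set.mem_insert_iff.1 hs with h1 | h1
    · rw [Prod.mk.injEq] at h1
      exact Or.inr h1.1
    · exact Or.inl ⟨s, h1⟩
  · rintro (⟨s, hs⟩ | h)
    · exact ⟨s, Set.mem_insert_of_mem _ hs⟩
    · exact ⟨r, by rw [h]; exact Set.mem_insert _ _⟩

/-- The part of a chain up to and including the label `a`. -/
theorem IsCh.cut_succ (h : IsCh κ S σ) {r : Θ} (hr : (a, r) ∈ σ) (hlt : a < b)
    (hb : ∀ c ∈ lev σ, c < b → c ≤ a) : Pool.CF.cut b σ = Pool.CF.addTop ((S a).sg r) a r := by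
  rw [h.coh a r hr]
  ext p
  obtain ⟨c, s⟩ := p
  constructor
  · rintro ⟨h1, h2⟩
    rcases (hb c ⟨s, h1⟩ h2).lt_or_eq with h3 | h3
    · exact Set.mem_insert_of_mem _ ⟨h1, h3⟩
    · have h4 : c = a := h3
      subst h4
      rw [h.func c s r h1 hr]
      exact Set.mem_insert _ _
  · intro h1
    rcases Set.mem_insert_iff.1 h1 with h1 | h1
    · rw [h1]
      exact ⟨hr, hlt⟩
    · exact ⟨h1.1, lt_trans (show c < a from h1.2) hlt⟩

end Pool.CF
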