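import Pool.Agent.Lib.MP_cc7fb1_cf.H1

/-!
# MP_cc7fb1: the order of chains (row H2)
-/

set_option autoImplicit false

open Cardinal Set

namespace Pool.CF

variable {Θ : Type} [LinearOrder Θ] [WellFoundedLT Θ] {κ : Cardinal.{0}} {S S' : Θ → Lv Θ}
  {σ σ' τ : Set (Θ × Θ)} {a b : Θ}

/-! ### Row H2: the order -/

theorem ChLe.refl (hS : Structured κ S) (h : IsCh κ S σ) : ChLe S σ σ :=
  fun a r hr => ⟨r, hr, (hS a).refl r (h.mem a r hr)⟩

theorem ChLe.trans (hS : Structured κ S) (h : IsCh κ S σ) (h' : IsCh κ S σ') (h'' : IsCh κ S τ)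
    (h1 : ChLe S τ σ') (h2 : ChLe S σ' σ) : ChLe S τ σ := by
  intro a r hr
  obtain ⟨r', hr', hle'⟩ := h2 a r hr
  obtain ⟨r'', hr'', hle''⟩ := h1 a r' hr'
  exact ⟨r'', hr'', (hS a).trans r'' (h''.mem _ _ hr'') r' (h'.mem _ _ hr') r (h.mem _ _ hr)
    hle'' hle'⟩

private theorem H2_sub (hS : Structured κ S) (h : IsCh κ S σ) (h' : IsCh κ S σ')
    (h1 : ChLe S σ σ') (h2 : ChLe S σ' σ) : σ ⊆ σ' := by
  rintro ⟨a, r⟩ hr
  obtain ⟨r', hr', hle'⟩ := h2 a r hr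
  obtain ⟨r'', hr'', hle''⟩ := h1 a r' hr'
  have e : r'' = r := h.func a r'' r hr'' hr
  rw [e] at hle''
  have e' : r = r' := (hS a).antisymm r (h.mem _ _ hr) r' (h'.mem _ _ hr') hle'' hle'
  rw [e']
  exact hr'

theorem ChLe.antisymm (hS : Structured κ S) (h : IsCh κ S σ) (h' : IsCh κ S σ')
    (h1 : ChLe S σ σ') (h2 : ChLe S σ' σ) : σ = σ' :=
  Subset.antisymm (H2_sub hS h h' h1 h2) (H2_sub hS h' h h2 h1)

theorem ChLe.val (h' : IsCh κ S σ') (hle : ChLe S σ' σ) {r r' : Θ} (hr : (a, r) ∈ σ)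
    (hr' : (a, r') ∈ σ') : (S a).le r' r := by
  obtain ⟨r'', hr'', hle''⟩ := hle a r hr
  rw [h'.func a r' r'' hr' hr'']
  exact hle''

theorem ChLe.lev_subset (hle : ChLe S σ' σ) : lev σ ⊆ lev σ' := by
  rintro a ⟨r, hr⟩
  obtain ⟨r', hr', -⟩ := hle a r hr
  exact ⟨r', hr'⟩

theorem ChLe.cut (hle : ChLe S σ' σ) (b : Θ) : ChLe S (cut b σ') (cut b σ) := by
  intro a r hr
  obtain ⟨r', hr', hle'⟩ := hle a r hr.1
  exact ⟨r', ⟨hr', hr.2⟩, hle'⟩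

theorem ChLe.of_subset (hS : Structured κ S) (h : IsCh κ S σ) (hs : σ ⊆ σ') : ChLe S σ' σ :=
  fun a r hr => ⟨r, hs hr, (hS a).refl r (h.mem a r hr)⟩

/-- Monotonicity in the top element. -/
theorem ChLe.top (hS : Structured κ S) {r r' : Θ} (hr : r ∈ (S a).C) (hr' : r' ∈ (S a).C)
    (hle : (S a).le r' r) :
    ChLe S (addTop ((S a).sg r') a r') (addTop ((S a).sg r) a r) := by
  intro c s hs
  rcases Set.mem_insert_iff.1 hs with h | h
  · obtain ⟨h1, h2⟩ := Prod.mk.inj h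
    subst h1
    subst h2
    exact ⟨r', Set.mem_insert _ _, hle⟩
  · obtain ⟨s', hs', hle'⟩ := (hS a).mono r hr r' hr' hle c s h
    exact ⟨s', Set.mem_insert_of_mem _ hs', hle'⟩

end Pool.CF
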