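import Pool.Agent.Lib.MP_cc7fb1_cf.H2

/-!
# MP_cc7fb1: Lemma 1 (row H3)
-/

set_option autoImplicit false

open Cardinal Set

namespace Pool.CF

variable {Θ : Type} [LinearOrder Θ] [WellFoundedLT Θ] {κ : Cardinal.{0}} {S S' : Θ → Lv Θ}
  {σ σ' τ : Set (Θ × Θ)} {a b : Θ}

/-! ### Row H3: Lemma 1 -/

private lemma H3_inf_unique {c : Θ} (hS : Structured κ S) {D : Set Θ} {r r' : Θ}
    (h : (S c).IsInf D r) (h' : (S c).IsInf D r') : r = r' :=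
  (hS c).antisymm r h.1 r' h'.1 (h'.2.2 r h.1 h.2.1) (h.2.2 r' h'.1 h'.2.1)

theorem IsLInf.le {F : Set (Set (Θ × Θ))} (h : IsLInf S F σ) (hτ : τ ∈ F) : ChLe S σ τ := by
  intro a r har
  obtain ⟨s, hs⟩ := (h.lev a).2 ⟨r, τ, hτ, har⟩
  exact ⟨s, hs, (h.val a s hs).2.1 r ⟨τ, hτ, har⟩⟩

theorem IsLInf.glb (hS : Structured κ S) {F : Set (Set (Θ × Θ))} (hne : F.Nonempty)
    (hch : ∀ τ ∈ F, IsCh κ S τ)
    (h : IsLInf S F σ) (hσ : IsCh κ S σ) (hτ : IsCh κ S τ) (hle : ∀ τ' ∈ F, ChLe S τ τ') :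
    ChLe S τ σ := by
  have _ := hS
  have _ := hne
  have _ := hch
  have _ := hσ
  intro a r har
  obtain ⟨s, τ₀, hτ₀, hs⟩ := (h.lev a).1 ⟨r, har⟩
  obtain ⟨r', hr', _⟩ := hle τ₀ hτ₀ a s hs
  refine ⟨r', hr', (h.val a r har).2.2 r' (hτ.mem a r' hr') ?_⟩
  rintro d ⟨τ₁, hτ₁, hd⟩
  obtain ⟨r'', hr'', hle'⟩ := hle τ₁ hτ₁ a d hd
  rwa [hτ.func a r' r'' hr' hr'']

theorem IsLInf.unique (hS : Structured κ S) {F : Set (Set (Θ × Θ))} (h : IsLInf S F σ)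
    (h' : IsLInf S F σ') : σ = σ' := by
  have key : ∀ {ρ ρ' : Set (Θ × Θ)}, IsLInf S F ρ → IsLInf S F ρ' → ρ ⊆ ρ' := by
    rintro ρ ρ' hρ hρ' ⟨a, r⟩ har
    obtain ⟨r', hr'⟩ := (hρ'.lev a).2 ((hρ.lev a).1 ⟨r, har⟩)
    rwa [H3_inf_unique hS (hρ.val a r har) (hρ'.val a r' hr')]
  exact Subset.antisymm (key h h') (key h' h)

/-- The labels stay below `th`. -/
theorem IsLInf.lev_lt {F : Set (Set (Θ × Θ))} (h : IsLInf S F σ) {th : Θ}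
    (hF : ∀ τ ∈ F, ∀ b ∈ Pool.CF.lev τ, b < th) : ∀ b ∈ Pool.CF.lev σ, b < th := by
  rintro b ⟨r, hr⟩
  obtain ⟨s, τ₀, hτ₀, hs⟩ := (h.lev b).1 ⟨r, hr⟩
  exact hF τ₀ hτ₀ b ⟨s, hs⟩

private lemma H3_vals_card {F : Set (Set (Θ × Θ))} (hF : #F < κ) (hch : ∀ τ ∈ F, IsCh κ S τ)
    (c : Θ) : #(vals F c) < κ := by
  refine lt_of_le_of_lt ?_ hF
  have hex : ∀ s : vals F c, ∃ τ : F, (c, s.1) ∈ τ.1 := by
    rintro ⟨s, τ₀, hτ₀, hs⟩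
    exact ⟨⟨τ₀, hτ₀⟩, hs⟩
  choose f hf using hex
  refine Cardinal.mk_le_of_injective (f := f) ?_
  intro s s' hss
  have h1 := hf s
  have h2 := hf s'
  rw [← hss] at h2
  exact Subtype.ext ((hch _ (f s).2).func c s.1 s'.1 h1 h2)

/-- LEMMA 1.  A small directed family of chains has a levelwise infimum, which is a chain and the
greatest lower bound.  (The infimum is the set of the `(b, s)` with `(vals F b).Nonempty` and
`(S b).IsInf (vals F b) s`; existence by `IsStr.inf` as `vals F b` is small and directed; coherence: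
for `(b, s)` in it, `(S b).sg s` is the levelwise infimum of the `(S b).sg s'`, `s' ∈ vals F b`, by
`IsStr.inf` and uniqueness of infima, and `(S b).sg s' = cut b τ` for the members `τ` of `F` with the
label `b`, which are coinitial in `F`.) -/
theorem exists_lInf (hκ : κ.IsRegular) (hS : Structured κ S) {F : Set (Set (Θ × Θ))}
    (hne : F.Nonempty) (hF : #F < κ) (hch : ∀ τ ∈ F, IsCh κ S τ)
    (hdir : ∀ τ ∈ F, ∀ τ' ∈ F, ∃ τ'' ∈ F, ChLe S τ'' τ ∧ ChLe S τ'' τ') :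
    ∃ σ, IsCh κ S σ ∧ IsLInf S F σ := by
  have _ := hne
  have hvC : ∀ c, vals F c ⊆ (S c).C := by
    rintro c s ⟨τ₀, hτ₀, hs⟩
    exact (hch τ₀ hτ₀).mem c s hs
  have hex : ∀ c, (vals F c).Nonempty →
      ∃ r, (S c).IsInf (vals F c) r ∧ IsLInf S ((S c).sg '' vals F c) ((S c).sg r) := by
    intro c hc
    refine (hS c).inf (vals F c) (hvC c) hc (H3_vals_card hF hch c) ?_
    rintro d ⟨τ₁, hτ₁, hd⟩ d' ⟨τ₂, hτ₂, hd'⟩
    obtain ⟨τ₃, hτ₃, h31, h32⟩ := hdir τ₁ hτ₁ τ₂ hτ₂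
    obtain ⟨e, he, he'⟩ := h31 c d hd
    obtain ⟨e', he2, he2'⟩ := h32 c d' hd'
    have hee : e = e' := (hch τ₃ hτ₃).func c e e' he he2
    rw [← hee] at he2'
    exact ⟨e, ⟨τ₃, hτ₃, he⟩, he', he2'⟩
  set ρ : Set (Θ × Θ) := {p | (vals F p.1).Nonempty ∧ (S p.1).IsInf (vals F p.1) p.2} with hρ
  have hL : IsLInf S F ρ := by
    refine ⟨fun c => ⟨?_, ?_⟩, ?_⟩
    · rintro ⟨s, hs⟩
      exact hs.1
    · intro hc
      obtain ⟨r, hr, _⟩ := hex c hc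
      exact ⟨r, hc, hr⟩
    · intro c s hs
      exact hs.2
  have hfunc : ∀ c r r', (c, r) ∈ ρ → (c, r') ∈ ρ → r = r' := fun c r r' h h' =>
    H3_inf_unique hS (hL.val c r h) (hL.val c r' h')
  refine ⟨ρ, ⟨?_, hfunc, fun c r h => (hL.val c r h).1, ?_⟩, hL⟩
  · -- the cardinality
    have hU : #(⋃ τ : F, τ.1) < κ :=
      (Cardinal.card_iUnion_lt_iff_forall_of_isRegular hκ hF).2 (fun τ => (hch τ.1 τ.2).card)
    refine lt_of_le_of_lt ?_ hU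
    have hex2 : ∀ p : ρ, ∃ q : (⋃ τ : F, τ.1 : Set (Θ × Θ)), q.1.1 = p.1.1 := by
      rintro ⟨⟨c, r⟩, hp⟩
      obtain ⟨s, τ₀, hτ₀, hs⟩ := hp.1
      exact ⟨⟨(c, s), mem_iUnion.2 ⟨⟨τ₀, hτ₀⟩, hs⟩⟩, rfl⟩
    choose f hf using hex2
    refine Cardinal.mk_le_of_injective (f := f) ?_
    intro p p' hpp
    have h1 := hf p
    have h2 := hf p'
    rw [← hpp] at h2
    obtain ⟨⟨c, r⟩, hp⟩ := p
    obtain ⟨⟨c', r'⟩, hp'⟩ := p'
    have hcc : c = c' := h1.symm.trans h2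
    subst hcc
    have hrr : r = r' := hfunc c r r' hp hp'
    subst hrr
    rfl
  · -- coherence
    intro c r hcr
    obtain ⟨r₀, hr₀, hr₀'⟩ := hex c hcr.1
    have hrr : r₀ = r := H3_inf_unique hS hr₀ hcr.2
    subst hrr
    refine IsLInf.unique hS hr₀' ?_
    obtain ⟨s₀, τ₀, hτ₀, hs₀⟩ := hcr.1
    -- the values of the family of the chains below c
    have hv1 : ∀ e, e < c → ∀ t ∈ vals ((S c).sg '' vals F c) e, t ∈ vals F e := by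
      rintro e he t ⟨τ₁, ⟨s', ⟨τ₂, hτ₂, hs'⟩, rfl⟩, ht⟩
      rw [(hch τ₂ hτ₂).coh c s' hs'] at ht
      exact ⟨τ₂, hτ₂, ht.1⟩
    have hv2 : ∀ e, e < c → ∀ t ∈ vals F e,
        ∃ t' ∈ vals ((S c).sg '' vals F c) e, (S e).le t' t := by
      rintro e he t ⟨τ₁, hτ₁, ht⟩
      obtain ⟨τ₂, hτ₂, h21, h20⟩ := hdir τ₁ hτ₁ τ₀ hτ₀
      obtain ⟨t', ht', hle⟩ := h21 e t ht
      obtain ⟨s', hs', _⟩ := h20 c s₀ hs₀
      refine ⟨t', ⟨(S c).sg s', ⟨s', ⟨τ₂, hτ₂, hs'⟩, rfl⟩, ?_⟩, hle⟩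
      rw [(hch τ₂ hτ₂).coh c s' hs']
      exact ⟨ht', he⟩
    have hv3 : ∀ e t, t ∈ vals ((S c).sg '' vals F c) e → e < c := by
      rintro e t ⟨τ₁, ⟨s', ⟨τ₂, hτ₂, hs'⟩, rfl⟩, ht⟩
      rw [(hch τ₂ hτ₂).coh c s' hs'] at ht
      exact ht.2
    refine ⟨fun e => ⟨?_, ?_⟩, ?_⟩
    · rintro ⟨s, hs, hec⟩
      obtain ⟨t, ht⟩ := hs.1
      obtain ⟨t', ht', _⟩ := hv2 e hec t ht
      exact ⟨t', ht'⟩
    · rintro ⟨t, ht⟩
      have hec := hv3 e t ht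
      obtain ⟨s, hs⟩ := (hL.lev e).2 ⟨t, hv1 e hec t ht⟩
      exact ⟨s, hs, hec⟩
    · rintro e s ⟨hs, hec⟩
      have hinf := hL.val e s hs
      refine ⟨hinf.1, fun d hd => hinf.2.1 d (hv1 e hec d hd), fun t ht hle => ?_⟩
      refine hinf.2.2 t ht (fun d hd => ?_)
      obtain ⟨d', hd', hd'd⟩ := hv2 e hec d hd
      exact (hS e).trans t ht d' (hvC e (hv1 e hec d' hd')) d (hvC e hd) (hle d' hd') hd'd

end Pool.CF
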