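import Pool.Agent.Lib.MP_cc7fb1_cf.B4

/-!
# MP_cc7fb1: the universal reflecting system exists
-/

set_option autoImplicit false

open Cardinal Set

namespace Pool.CF

variable {Θ X : Type} [LinearOrder Θ] [WellFoundedLT Θ] [HG Θ X]

/-- The universal reflecting system exists. -/
theorem exists_SG (Θ X : Type) [LinearOrder Θ] [WellFoundedLT Θ] [h : HG Θ X] :
    ∃ s : SG Θ X, s.toHG = h := by
  obtain ⟨S₀, h₀⟩ := exists_laSys (κ := κ Θ X) (la := (la X : Θ)) HG.κ_reg HG.la_reg HG.la_sl
    HG.la_init
  have hS : Rf X (extS X S₀) := rf_extS h₀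
  obtain ⟨lab, code, h1, h2, h3, h4⟩ := exists_lab hS
  refine ⟨{ h with
    S := extS X S₀
    str := hS.toRf0.structured
    bdd := hS.toRf0.bdd
    bdd_la := hS.bdd_la
    univ := hS.univ
    refl_C := fun a r => (hS.rep a).C r
    refl_le := ?_
    refl_sg := fun a r hr => (hS.rep a).sg r hr
    lab := lab
    code := code
    lab_lt := h1
    le_lab := fun th hth => (h2 th hth).1
    lab_C := fun th hth => (h2 th hth).2.1
    code_inj := fun th hth => (h2 th hth).2.2.1
    lab_le := fun th hth => (h2 th hth).2.2.2.1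
    lab_sg := fun th hth => (h2 th hth).2.2.2.2
    refl_lab := h3
    refl_code := h4 }, rfl⟩
  intro a r r'
  constructor
  · intro h5
    obtain ⟨h6, h7⟩ := hS.le a r r' h5
    exact ((hS.rep a).le r' h6 r h7).1 h5
  · intro h5
    have h6 : r' ∈ (extS X S₀ a).C := by
      rw [(hS.rep a).C]
      exact h5.mono fun x hx => (hS.le _ _ _ hx).1
    have h7 : r ∈ (extS X S₀ a).C := by
      rw [(hS.rep a).C]
      exact h5.mono fun x hx => (hS.le _ _ _ hx).2
    exact ((hS.rep a).le r' h6 r h7).2 h5

end Pool.CF
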