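import Mathlib

/-!
# MP_cc7fb1: huge cardinals (definitions)
-/

set_option autoImplicit false

open Cardinal Set

namespace Pool.CF

/-- `W` is a `λ`-complete fine normal ultrafilter on the set of the subsets of `Θ` (the ordinals
below `δ`) of order type `λ`. -/
structure HugeUF (lam : Cardinal.{0}) {Θ : Type} [LinearOrder Θ] (W : Ultrafilter (Set Θ)) : Prop where
  ot : ∀ᶠ x : Set Θ in (W : Filter (Set Θ)), Nonempty (↥x ≃o lam.ord.ToType)
  compl : ∀ F : Set (Set (Set Θ)), #F < lam → (∀ A ∈ F, A ∈ W) → ⋂₀ F ∈ W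
  fine : ∀ a, {x : Set Θ | a ∈ x} ∈ W
  normal : ∀ f : Set Θ → Θ, {x | f x ∈ x} ∈ W → ∃ a, {x | f x = a} ∈ W

/-- `lam` is huge with target `del`. -/
def IsHuge (lam del : Cardinal.{0}) : Prop :=
  ℵ₀ < lam ∧ lam < del ∧ ∃ W : Ultrafilter (Set del.ord.ToType), HugeUF lam W

end Pool.CF
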