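import Pool.Agent.Lib.MP_cc7fb1_cf.CloseDef

/-!
# MP_cc7fb1: many tasks, closing off (row K1)
-/

set_option autoImplicit false
set_option linter.unusedSectionVars false

open Cardinal Set Pool.CF

namespace Pool.CV

variable {P : Type} [PartialOrder P] {κ : Cardinal.{0}}

/-- K1: the range of a descending sequence is directed and small. -/
lemma dir_range (hω : ℵ₀ < κ) {f : ℕ → P} (hf : Antitone f) :
    (range f).Nonempty ∧ #(range f) < κ ∧ Dir (range f) := by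
  refine ⟨⟨f 0, mem_range_self 0⟩, ?_, ?_⟩
  · exact ((countable_range f).le_aleph0).trans_lt hω
  · rintro _ ⟨m, rfl⟩ _ ⟨n, rfl⟩
    exact ⟨f (max m n), mem_range_self _, hf (le_max_left _ _), hf (le_max_right _ _)⟩

/-- K1: countable descending sequences have greatest lower bounds. -/
lemma exists_glb_seq (hω : ℵ₀ < κ) {A : Set P} (hA : DGOn κ A) {f : ℕ → P} (hf : Antitone f)
    (hfA : ∀ n, f n ∈ A) : ∃ g ∈ A, IsGLB (range f) g := by
  obtain ⟨h1, h2, h3⟩ := dir_range hω hf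
  exact hA _ (by rintro _ ⟨n, rfl⟩; exact hfA n) h1 h2 h3

/-- K1: interleaved sequences have the same greatest lower bound. -/
lemma glb_interleave {f d : ℕ → P} {n₀ : ℕ} (h : ∀ n ≥ n₀, d n ≤ f n ∧ f (n + 1) ≤ d n)
    (hf : Antitone f) {g : P} (hg : IsGLB (range f) g) :
    IsGLB (range fun n => d (n + n₀)) g := by
  constructor
  · rintro _ ⟨n, rfl⟩
    exact (hg.1 (mem_range_self (n + n₀ + 1))).trans (h (n + n₀) (Nat.le_add_left _ _)).2
  · intro b hb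
    apply hg.2
    rintro _ ⟨m, rfl⟩
    have h1 : b ≤ d (m + n₀) := hb ⟨m, rfl⟩
    exact (h1.trans (h (m + n₀) (Nat.le_add_left _ _)).1).trans (hf (Nat.le_add_right _ _))

private lemma K1_glb (hκ : κ.IsRegular) {A : Set P} (hA : DGOn κ A) {ι : Type} [LinearOrder ι]
    (hι : #ι < κ) (p : P) (hp : p ∈ A) (s : ι → P) (S : Set ι) (hs : ∀ j ∈ S, s j ∈ A ∧ s j ≤ p)
    (hs' : ∀ j ∈ S, ∀ k ∈ S, j < k → s k ≤ s j) :
    ∃ g ∈ A, g ≤ p ∧ ∀ j ∈ S, g ≤ s j := by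
  have hmono : ∀ j ∈ S, ∀ k ∈ S, j ≤ k → s k ≤ s j := by
    intro j hj k hk hjk
    rcases hjk.lt_or_eq with h | h
    · exact hs' j hj k hk h
    · rw [h]
  have hcard : #(insert p (s '' S) : Set P) < κ := by
    refine (mk_insert_le).trans_lt ?_
    refine add_lt_of_lt hκ.aleph0_le ?_ (one_lt_aleph0.trans_le hκ.aleph0_le)
    exact (mk_image_le.trans (mk_set_le S)).trans_lt hι
  obtain ⟨g, hgA, hg⟩ := hA (insert p (s '' S)) (by
    rintro x (rfl | ⟨j, hj, rfl⟩)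
    · exact hp
    · exact (hs j hj).1) (insert_nonempty _ _) hcard (by
    rintro x (rfl | ⟨j, hj, rfl⟩) y (rfl | ⟨k, hk, rfl⟩)
    · exact ⟨_, mem_insert _ _, le_rfl, le_rfl⟩
    · exact ⟨s k, mem_insert_of_mem _ ⟨k, hk, rfl⟩, (hs k hk).2, le_rfl⟩
    · exact ⟨s j, mem_insert_of_mem _ ⟨j, hj, rfl⟩, le_rfl, (hs j hj).2⟩
    · rcases le_total j k with h | h
      · exact ⟨s k, mem_insert_of_mem _ ⟨k, hk, rfl⟩, hmono j hj k hk h, le_rfl⟩
      · exact ⟨s j, mem_insert_of_mem _ ⟨j, hj, rfl⟩, le_rfl, hmono k hk j hj h⟩)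
  exact ⟨g, hgA, hg.1 (mem_insert _ _), fun j hj => hg.1 (mem_insert_of_mem _ ⟨j, hj, rfl⟩)⟩

private lemma K1_seq {ι W : Type} [LinearOrder ι] [WellFoundedLT ι] [Nonempty W]
    (Q : ι → (ι → W) → W → Prop)
    (hQ : ∀ i s s' v, (∀ j < i, s j = s' j) → Q i s v → Q i s' v)
    (h : ∀ (i : ι) (s : ι → W), (∀ j < i, Q j s (s j)) → ∃ v, Q i s v) :
    ∃ s : ι → W, ∀ i, Q i s (s i) := by
  classical
  let w : W := Classical.arbitrary W
  let F : (i : ι) → ((j : ι) → j < i → W) → W := fun i rec =>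
    if hv : ∃ v, Q i (fun j => if hj : j < i then rec j hj else w) v then hv.choose else w
  let s : ι → W := (wellFounded_lt (α := ι)).fix F
  have hs : ∀ i, s i = F i (fun j _ => s j) := fun i => (wellFounded_lt (α := ι)).fix_eq F i
  refine ⟨s, fun i => ?_⟩
  induction i using (wellFounded_lt (α := ι)).induction with
  | _ i ih =>
    obtain ⟨v, hv⟩ := h i s ih
    have hex : ∃ v, Q i (fun j => if hj : j < i then s j else w) v :=
      ⟨v, hQ i s _ v (fun j hj => by simp [hj]) hv⟩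
    have h1 : s i = hex.choose := by
      rw [hs i]
      show (if hv : ∃ v, Q i (fun j => if hj : j < i then s j else w) v then hv.choose else w) = _
      rw [dif_pos hex]
    rw [h1]
    exact hQ i _ s _ (fun j hj => by simp [hj]) hex.choose_spec

/-- K1: fewer than `κ` dense sets can be met one after the other.  Proof: well-order `ι` in
order type `< κ`, choose `d i ∈ Dn i` below a lower bound of `{p} ∪ {d j : j < i}`. -/
lemma many_tasks (hκ : κ.IsRegular) {A : Set P} (hA : DGOn κ A) {ι : Type} (hι : #ι < κ)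
    (Dn : ι → Set P) (hD : ∀ i, ∀ p ∈ A, ∃ q ∈ Dn i, q ∈ A ∧ q ≤ p) (p : P) (hp : p ∈ A) :
    ∃ q ∈ A, q ≤ p ∧ ∀ i, ∃ d ∈ Dn i, d ≤ p ∧ q ≤ d := by
  classical
  let _ : LinearOrder ι := IsWellOrder.linearOrder WellOrderingRel
  have _ : WellFoundedLT ι := ⟨WellOrderingRel.isWellOrder.wf⟩
  have _ : Nonempty P := ⟨p⟩
  obtain ⟨s, hs⟩ := K1_seq (fun i s v => v ∈ Dn i ∧ v ∈ A ∧ v ≤ p ∧ ∀ j < i, v ≤ s j)
    (fun i s s' v hss' hv => ⟨hv.1, hv.2.1, hv.2.2.1, fun j hj => by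
      rw [← hss' j hj]; exact hv.2.2.2 j hj⟩)
    (fun i s hs => by
      obtain ⟨g, hgA, hgp, hg⟩ := K1_glb hκ hA hι p hp s (Iio i)
        (fun j hj => ⟨(hs j hj).2.1, (hs j hj).2.2.1⟩)
        (fun j _ k hk hjk => (hs k hk).2.2.2 j hjk)
      obtain ⟨q, hq1, hq2, hq3⟩ := hD i g hgA
      exact ⟨q, hq1, hq2, hq3.trans hgp, fun j hj => hq3.trans (hg j hj)⟩)
  obtain ⟨g, hgA, hgp, hg⟩ := K1_glb hκ hA hι p hp s univ
    (fun j _ => ⟨(hs j).2.1, (hs j).2.2.1⟩)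
    (fun j _ k _ hjk => (hs k).2.2.2 j hjk)
  exact ⟨g, hgA, hgp, fun i => ⟨s i, (hs i).1, (hs i).2.2.1, hg i (mem_univ i)⟩⟩

end Pool.CV
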