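import Pool.Agent.Lib.MP_cc7fb1_cf.H1

/-!
# MP_cc7fb1: normal forms, enumeration of levels (row L1)
-/

set_option autoImplicit false

open Cardinal Set

namespace Pool.CF

/-- Normal form: nothing outside the carrier. -/
structure Lv.Nrm {Θ : Type} (Y : Lv Θ) : Prop where
  le : ∀ r s, Y.le r s → r ∈ Y.C ∧ s ∈ Y.C
  sg : ∀ r, r ∉ Y.C → Y.sg r = ∅

/-- The normal form of a level. -/
def Lv.nf {Θ : Type} (Y : Lv Θ) : Lv Θ where
  C := Y.C
  le r s := r ∈ Y.C ∧ s ∈ Y.C ∧ Y.le r s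
  sg r := {p | r ∈ Y.C ∧ p ∈ Y.sg r}

lemma Lv.nf_nrm {Θ : Type} (Y : Lv Θ) : Y.nf.Nrm := by
  refine ⟨fun r s h => ⟨h.1, h.2.1⟩, fun r hr => ?_⟩
  ext p
  simp only [Lv.nf, Set.mem_empty_iff_false, iff_false]
  exact fun h => hr h.1

lemma Lv.nf_agree {Θ : Type} (Y : Lv Θ) : Y.Agree Y.nf := by
  refine ⟨rfl, fun r hr s hs => ⟨fun h => ⟨hr, hs, h⟩, fun h => h.2.2⟩, fun r hr => ?_⟩
  ext p
  exact ⟨fun h => ⟨hr, h⟩, fun h => h.2⟩

variable {Θ : Type} [LinearOrder Θ] [WellFoundedLT Θ]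

omit [WellFoundedLT Θ] in
private lemma L1_small (lam : Cardinal.{0}) (hinf : ℵ₀ ≤ lam) (hsl : ∀ c < lam, 2 ^ c < lam) (b : Θ)
    (hb : #(Iio b) < lam) :
    #{Y : Lv Θ | Y.Nrm ∧ (∀ r ∈ Y.C, r < b) ∧ ∀ r, ∀ p ∈ Y.sg r, p.1 < b ∧ p.2 < b} < lam := by
  let φ : {Y : Lv Θ | Y.Nrm ∧ (∀ r ∈ Y.C, r < b) ∧ ∀ r, ∀ p ∈ Y.sg r, p.1 < b ∧ p.2 < b} →
      Set (Iio b) × Set (Iio b × Iio b) × (Iio b → Set (Iio b × Iio b)) := fun Y =>
    ({x | x.1 ∈ Y.1.C}, {p | Y.1.le p.1.1 p.2.1}, fun r => {p | (p.1.1, p.2.1) ∈ Y.1.sg r.1})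
  have hφ : Function.Injective φ := by
    rintro ⟨Y, hY, hY1, hY2⟩ ⟨Z, hZ, hZ1, hZ2⟩ h
    have h1 := congrArg Prod.fst h
    have h2 := congrArg (fun q => q.2.1) h
    have h3 := congrArg (fun q => q.2.2) h
    have e1 : Y.C = Z.C := by
      ext r
      constructor
      · intro hr
        have : (⟨r, hY1 r hr⟩ : Iio b) ∈ {x : Iio b | x.1 ∈ Y.C} := hr
        have h1' : {x : Iio b | x.1 ∈ Y.C} = {x : Iio b | x.1 ∈ Z.C} := h1
        rw [h1'] at this
        exact this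
      · intro hr
        have : (⟨r, hZ1 r hr⟩ : Iio b) ∈ {x : Iio b | x.1 ∈ Z.C} := hr
        have h1' : {x : Iio b | x.1 ∈ Y.C} = {x : Iio b | x.1 ∈ Z.C} := h1
        rw [← h1'] at this
        exact this
    have e2 : Y.le = Z.le := by
      have h2' : {p : Iio b × Iio b | Y.le p.1.1 p.2.1} = {p : Iio b × Iio b | Z.le p.1.1 p.2.1} := h2
      funext r s
      apply propext
      constructor
      · intro hr
        obtain ⟨c1, c2⟩ := hY.le r s hr
        have : ((⟨r, hY1 r c1⟩, ⟨s, hY1 s c2⟩) : Iio b × Iio b) ∈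
          {p : Iio b × Iio b | Y.le p.1.1 p.2.1} := hr
        rw [h2'] at this
        exact this
      · intro hr
        obtain ⟨c1, c2⟩ := hZ.le r s hr
        have : ((⟨r, hZ1 r c1⟩, ⟨s, hZ1 s c2⟩) : Iio b × Iio b) ∈
          {p : Iio b × Iio b | Z.le p.1.1 p.2.1} := hr
        rw [← h2'] at this
        exact this
    have e3 : Y.sg = Z.sg := by
      funext r
      by_cases hr : r ∈ Y.C
      · have hrb := hY1 r hr
        have h3' : {p : Iio b × Iio b | (p.1.1, p.2.1) ∈ Y.sg r} =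
            {p : Iio b × Iio b | (p.1.1, p.2.1) ∈ Z.sg r} := congrFun h3 ⟨r, hrb⟩
        ext ⟨p, q⟩
        constructor
        · intro hp
          obtain ⟨c1, c2⟩ := hY2 r _ hp
          have : ((⟨p, c1⟩, ⟨q, c2⟩) : Iio b × Iio b) ∈
            {p : Iio b × Iio b | (p.1.1, p.2.1) ∈ Y.sg r} := hp
          rw [h3'] at this
          exact this
        · intro hp
          obtain ⟨c1, c2⟩ := hZ2 r _ hp
          have : ((⟨p, c1⟩, ⟨q, c2⟩) : Iio b × Iio b) ∈
            {p : Iio b × Iio b | (p.1.1, p.2.1) ∈ Z.sg r} := hp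
          rw [← h3'] at this
          exact this
      · rw [hY.sg r hr, hZ.sg r (by rw [← e1]; exact hr)]
    have : Y = Z := by
      cases Y
      cases Z
      simp only at e1 e2 e3
      subst e1 e2 e3
      rfl
    exact Subtype.ext this
  refine (Cardinal.mk_le_of_injective hφ).trans_lt ?_
  have hcc : #(Iio b) * #(Iio b) < lam := Cardinal.mul_lt_of_lt hinf hb hb
  have hccc : #(Iio b) * #(Iio b) * #(Iio b) < lam := Cardinal.mul_lt_of_lt hinf hcc hb
  have e : #(Set (Iio b) × Set (Iio b × Iio b) × (Iio b → Set (Iio b × Iio b))) =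
      2 ^ #(Iio b) * (2 ^ (#(Iio b) * #(Iio b)) * 2 ^ (#(Iio b) * #(Iio b) * #(Iio b))) := by
    rw [Cardinal.mk_prod, Cardinal.mk_prod, Cardinal.mk_set, Cardinal.mk_set, Cardinal.mk_prod]
    simp only [Cardinal.lift_id]
    rw [← Cardinal.power_def, Cardinal.mk_set, Cardinal.mk_prod, ← Cardinal.power_mul]
    simp only [Cardinal.lift_id]
  rw [e]
  exact Cardinal.mul_lt_of_lt hinf (hsl _ hb) (Cardinal.mul_lt_of_lt hinf (hsl _ hcc) (hsl _ hccc))

/-- Row L1.  ENUMERATION.  Let `la` be such that `Iio la` is a strong limit regular infinite cardinal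
with small initial segments.  There is `T : Θ → Lv Θ` such that every level `Y` in normal form with
carrier, labels and values bounded below `la` is `T a` for cofinally many `a < la`.  Proof: for `b < la`
the set of the levels with everything below `b` has fewer than `#(Iio la)` elements (a level is
determined by a subset of `Iio b`, a subset of `Iio b × Iio b` and a function from `Iio b` to subsets of
`Iio b × Iio b`; strong limit), so the set `N` of all these levels has at most `#(Iio la)` elements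
and `N × Iio la` is the image of `Iio la`; a level `Y` is hit by `#(Iio la)` many `a`, which
are unbounded as `#(Iio a₀) < #(Iio la)`. -/
theorem exists_enum {la : Θ} (hla : (#(Iio la)).IsRegular)
    (hsl : ∀ c < #(Iio la), 2 ^ c < #(Iio la)) (hinit : ∀ a < la, #(Iio a) < #(Iio la)) :
    ∃ T : Θ → Lv Θ, ∀ Y : Lv Θ, Y.Nrm → (∃ b < la, (∀ r ∈ Y.C, r < b) ∧
      ∀ r, ∀ p ∈ Y.sg r, p.1 < b ∧ p.2 < b) → ∀ a₀ < la, ∃ a < la, a₀ ≤ a ∧ T a = Y := by
  classical
  have hinf : ℵ₀ ≤ #(Iio la) := hla.aleph0_le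
  let N : Θ → Set (Lv Θ) := fun b =>
    {Y : Lv Θ | Y.Nrm ∧ (∀ r ∈ Y.C, r < b) ∧ ∀ r, ∀ p ∈ Y.sg r, p.1 < b ∧ p.2 < b}
  have hN : ∀ b < la, #(N b) < #(Iio la) := fun b hb => L1_small _ hinf hsl b (hinit b hb)
  have hcard : #((Σ b : Iio la, N b.1) × Iio la) ≤ #(Iio la) := by
    rw [Cardinal.mk_prod, Cardinal.mk_sigma]
    simp only [Cardinal.lift_id]
    have h1 : Cardinal.sum (fun b : Iio la => #(N b.1)) ≤ #(Iio la) * #(Iio la) := by
      rw [← Cardinal.sum_const']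
      exact Cardinal.sum_le_sum _ _ (fun b => (hN b.1 b.2).le)
    rw [Cardinal.mul_eq_self hinf] at h1
    calc _ ≤ #(Iio la) * #(Iio la) := mul_le_mul_left h1 _
      _ = #(Iio la) := Cardinal.mul_eq_self hinf
  obtain ⟨g⟩ : Nonempty (((Σ b : Iio la, N b.1) × Iio la) ↪ Iio la) := hcard
  let T : Θ → Lv Θ := fun a =>
    if h : ∃ p : (Σ b : Iio la, N b.1) × Iio la, (g p).1 = a then (Classical.choose h).1.2.1
    else ⟨∅, fun _ _ => False, fun _ => ∅⟩
  have hT : ∀ p : (Σ b : Iio la, N b.1) × Iio la, T (g p).1 = p.1.2.1 := by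
    intro p
    have h : ∃ p' : (Σ b : Iio la, N b.1) × Iio la, (g p').1 = (g p).1 := ⟨p, rfl⟩
    have h1 : T (g p).1 = (Classical.choose h).1.2.1 := dif_pos h
    have h2 : Classical.choose h = p := g.injective (Subtype.ext (Classical.choose_spec h))
    rw [h1, h2]
  refine ⟨T, ?_⟩
  rintro Y hY ⟨b, hb, hb1, hb2⟩ a₀ ha₀
  by_contra hcon
  push Not at hcon
  have hlt : ∀ c : Iio la, (g (⟨⟨b, hb⟩, ⟨Y, hY, hb1, hb2⟩⟩, c)).1 < a₀ := by
    intro c
    by_contra h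
    exact hcon _ (g (⟨⟨b, hb⟩, ⟨Y, hY, hb1, hb2⟩⟩, c)).2 (not_lt.1 h) (hT _)
  have hle : #(Iio la) ≤ #(Iio a₀) := by
    refine Cardinal.mk_le_of_injective
      (f := fun c : Iio la => (⟨(g (⟨⟨b, hb⟩, ⟨Y, hY, hb1, hb2⟩⟩, c)).1, hlt c⟩ : Iio a₀)) ?_
    intro c c' hcc
    have h1 := congrArg Subtype.val hcc
    have h2 := g.injective (Subtype.ext h1)
    exact (Prod.ext_iff.1 h2).2
  exact absurd (hinit a₀ ha₀) (not_lt.2 hle)

end Pool.CF
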