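import Pool.Agent.Lib.MP_cc7fb1_cf.L1

/-!
# MP_cc7fb1: the universal system below la (row L2)
-/

set_option autoImplicit false

open Cardinal Set

namespace Pool.CF

variable {Θ : Type} [LinearOrder Θ] [WellFoundedLT Θ]

/-- Everything about the system below `la`. -/
structure LaSys (κ : Cardinal.{0}) (la : Θ) (S : Θ → Lv Θ) : Prop where
  str : ∀ a < la, IsStr κ S a (S a)
  nrm : ∀ a < la, (S a).Nrm
  bdd : ∀ a < la, ∃ b < la, ∀ r ∈ (S a).C, r < b
  univ : ∀ a₀ < la, ∀ Y : Lv Θ, IsStr κ S a₀ Y → (∃ b < la, ∀ r ∈ Y.C, r < b) →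
    ∃ a < la, a₀ ≤ a ∧ (S a).Agree Y

omit [WellFoundedLT Θ] in
private lemma L2_bound {la : Θ} (hla : (#(Iio la)).IsRegular)
    (hinit : ∀ a < la, #(Iio a) < #(Iio la)) {ι : Type} (hι : #ι < #(Iio la)) (f : ι → Θ)
    (hf : ∀ i, f i < la) : ∃ b < la, ∀ i, f i < b := by
  by_contra hcon
  push Not at hcon
  have hinf : ℵ₀ ≤ #(Iio la) := hla.aleph0_le
  have h1 : ∀ i, #(Iic (f i)) < #(Iio la) := by
    intro i
    have e : Iic (f i) = insert (f i) (Iio (f i)) := by
      ext x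
      simp only [Set.mem_Iic, Set.mem_insert_iff, Set.mem_Iio]
      exact le_iff_eq_or_lt
    rw [e]
    refine (Cardinal.mk_insert_le).trans_lt ?_
    exact Cardinal.add_lt_of_lt hinf (hinit _ (hf i)) (Cardinal.one_lt_aleph0.trans_le hinf)
  have h2 : Cardinal.sum (fun i => #(Iic (f i))) < #(Iio la) :=
    Cardinal.sum_lt_of_isRegular hla hι h1
  rw [← Cardinal.mk_sigma] at h2
  have h3 : #(Iio la) ≤ #(Σ i, Iic (f i)) := by
    refine Cardinal.mk_le_of_surjective
      (f := fun p : (Σ i, Iic (f i)) => (⟨p.2.1, lt_of_le_of_lt p.2.2 (hf p.1)⟩ : Iio la)) ?_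
    rintro ⟨b, hb⟩
    obtain ⟨i, hi⟩ := hcon b hb
    exact ⟨⟨i, ⟨b, hi⟩⟩, rfl⟩
  exact absurd h2 (not_lt.2 h3)

omit [LinearOrder Θ] [WellFoundedLT Θ] in
private lemma L2_symm {Y Z : Lv Θ} (h : Y.Agree Z) : Z.Agree Y := by
  refine ⟨h.C.symm, fun r hr s hs => ?_, fun r hr => ?_⟩
  · rw [← h.C] at hr hs
    exact (h.le r hr s hs).symm
  · rw [← h.C] at hr
    exact (h.sg r hr).symm

/-- Row L2.  By recursion: `S a = T a` if `a < la`, the level `T a` is in normal form, has everything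
bounded below `la`, and is structured over `S` (which only depends on `S` below `a`: define
`S a := F a (fun b _ => S b)` by `WellFounded.fix`, where `F a s` uses the system
`fun b => if h : b < a then s b h else ⟨∅, _, _⟩`, and use `IsStr.congr`); otherwise `S a` is the empty
level.  For `univ`: `Y.nf` is structured (`IsStr.of_agree`); its values are bounded below `la`: the labels
are `< a₀`, the values at the label `c` lie in `(S c).C`, bounded by some `b c < la`; `la` is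
regular; take `a ≥ a₀` with `T a = Y.nf`. -/
theorem exists_laSys {κ : Cardinal.{0}} {la : Θ} (hκ : κ.IsRegular) (hla : (#(Iio la)).IsRegular)
    (hsl : ∀ c < #(Iio la), 2 ^ c < #(Iio la)) (hinit : ∀ a < la, #(Iio a) < #(Iio la)) :
    ∃ S : Θ → Lv Θ, LaSys κ la S := by
  classical
  obtain ⟨T, hT⟩ := exists_enum hla hsl hinit
  let E : Lv Θ := ⟨∅, fun _ _ => False, fun _ => ∅⟩
  have hEn : E.Nrm := ⟨fun r s h => h.elim, fun r _ => rfl⟩
  let cond : (i : Θ) → (Θ → Lv Θ) → Prop := fun i s =>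
    i < la ∧ (T i).Nrm ∧ (∃ b < la, ∀ r ∈ (T i).C, r < b) ∧ IsStr κ s i (T i)
  have : Nonempty (Lv Θ) := ⟨E⟩
  obtain ⟨S, hS⟩ := exists_wf_seq (ι := Θ) (W := Lv Θ)
    (fun i s v => v = if cond i (fun b => if h : b < i then s b h else E) then T i else E)
    (fun i s _ => ⟨_, rfl⟩)
  have hcong : ∀ (i : Θ) (Y : Lv Θ),
      IsStr κ (fun b => if _ : b < i then S b else E) i Y ↔ IsStr κ S i Y := by
    intro i Y
    apply IsStr.congr
    intro c hc
    simp only [hc, dite_true]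
  have hpos : ∀ i, cond i S → S i = T i := by
    intro i hi
    rw [hS i]
    apply if_pos
    exact ⟨hi.1, hi.2.1, hi.2.2.1, (hcong i _).2 hi.2.2.2⟩
  have hneg : ∀ i, ¬ cond i S → S i = E := by
    intro i hi
    rw [hS i]
    apply if_neg
    intro h
    exact hi ⟨h.1, h.2.1, h.2.2.1, (hcong i _).1 h.2.2.2⟩
  have hbdd : ∀ a < la, ∃ b < la, ∀ r ∈ (S a).C, r < b := by
    intro a ha
    by_cases h : cond a S
    · rw [hpos a h]
      exact h.2.2.1
    · rw [hneg a h]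
      exact ⟨a, ha, fun r hr => hr.elim⟩
  refine ⟨S, ?_, ?_, hbdd, ?_⟩
  · intro a ha
    by_cases h : cond a S
    · rw [hpos a h]
      exact h.2.2.2
    · rw [hneg a h]
      exact isStr_empty rfl
  · intro a ha
    by_cases h : cond a S
    · rw [hpos a h]
      exact h.2.1
    · rw [hneg a h]
      exact hEn
  · rintro a₀ ha₀ Y hY ⟨b, hb, hYb⟩
    have hg : ∀ c : Iio a₀, ∃ b < la, ∀ r ∈ (S c.1).C, r < b := fun c => hbdd c.1 (c.2.trans ha₀)
    choose g hg1 hg2 using hg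
    obtain ⟨b', hb', hgb⟩ := L2_bound hla hinit (hinit a₀ ha₀) g hg1
    have hmax : max (max a₀ b) b' < la := max_lt (max_lt ha₀ hb) hb'
    obtain ⟨a, ha, haa, hTa⟩ := hT Y.nf Y.nf_nrm ⟨max (max a₀ b) b', hmax, fun r hr =>
      (hYb r hr).trans_le ((le_max_right _ _).trans (le_max_left _ _)), fun r p hp => by
        obtain ⟨hr, hp'⟩ := hp
        have hlt : p.1 < a₀ := hY.lt r hr p.1 ⟨p.2, hp'⟩
        refine ⟨hlt.trans_le ((le_max_left _ _).trans (le_max_left _ _)), ?_⟩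
        have h1 := (hY.ch r hr).mem p.1 p.2 hp'
        exact ((hg2 ⟨p.1, hlt⟩ p.2 h1).trans (hgb ⟨p.1, hlt⟩)).trans_le (le_max_right _ _)⟩ a₀ ha₀
    have hcond : cond a S := by
      refine ⟨ha, ?_, ?_, ?_⟩
      · rw [hTa]; exact Y.nf_nrm
      · rw [hTa]; exact ⟨b, hb, hYb⟩
      · rw [hTa]
        exact (hY.of_agree Y.nf_agree).mono_label haa
    refine ⟨a, ha, haa, ?_⟩
    rw [hpos a hcond, hTa]
    exact L2_symm Y.nf_agree

end Pool.CF
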