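import Pool.Agent.Lib.MP_cc7fb1_cf.Ord
import Pool.Agent.Lib.MP_cc7fb1_cf.Close

/-!
# MP_cc7fb1: own levels (definitions)
-/

set_option autoImplicit false
set_option linter.unusedSectionVars false

open Cardinal Set Pool.CF

namespace Pool.CV

variable {Θ X : Type} [LinearOrder Θ] [WellFoundedLT Θ] [D : SG Θ X]

variable (Θ X) in
/-- A set `Q` of conditions in `LL al` with chains `sg l`. -/
structure PreL where
  al : Θ
  Q : Set (LL Θ X)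
  sg : LL Θ X → Chn Θ X

/-- `Q` is a dense subset of `LL al`, closed under small directed infima, and structured by
`sg`. -/
structure PreL.Good (Y : PreL Θ X) : Prop where
  inn : ∀ l ∈ Y.Q, l.In Y.al
  dense : ∀ l : LL Θ X, l.In Y.al → ∃ q ∈ Y.Q, q ≤ l
  closed : ∀ E ⊆ Y.Q, E.Nonempty → #E < D.κ → Dir E → ∀ g, IsGLB E g → g ∈ Y.Q
  mono : ∀ l ∈ Y.Q, ∀ l' ∈ Y.Q, l' ≤ l → Y.sg l' ≤ Y.sg l
  cont : ∀ E ⊆ Y.Q, E.Nonempty → #E < D.κ → Dir E → ∀ g, IsGLB E g → IsGLB (Y.sg '' E) (Y.sg g)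
  ext : ∀ l ∈ Y.Q, ∀ σ : Chn Θ X, σ ≤ Y.sg l → Cof (Y.sg l).v σ.v →
    ∃ l' ∈ Y.Q, l' ≤ l ∧ Y.sg l' ≤ σ

variable (Θ X) in
/-- An own level: a good set of conditions which is the level number `a` of the system. -/
structure OL extends PreL Θ X where
  a : Θ
  code : LL Θ X → Θ

structure OL.OK (Y : OL Θ X) : Prop where
  good : Y.toPreL.Good
  bdd : ∀ l ∈ Y.Q, ∀ b ∈ (Y.sg l).lev, b < Y.a
  C : (D.S Y.a).C = Y.code '' Y.Q
  inj : ∀ l ∈ Y.Q, ∀ l' ∈ Y.Q, Y.code l = Y.code l' → l = l'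
  le : ∀ l ∈ Y.Q, ∀ l' ∈ Y.Q, ((D.S Y.a).le (Y.code l') (Y.code l) ↔ l' ≤ l)
  sgc : ∀ l ∈ Y.Q, (D.S Y.a).sg (Y.code l) = (Y.sg l).v

open Classical in
/-- The chain `sg l` with `l` on top. -/
noncomputable def OL.tp (Y : OL Θ X) (l : LL Θ X) : Chn Θ X :=
  if h : Y.code l ∈ (D.S Y.a).C then Chn.tp Y.a (Y.code l) h else ⊤

/-- The level `Y` is known to the level `Z`. -/
structure Lt (Y Z : OL Θ X) : Prop where
  al : Y.al ≤ Z.al
  a : Y.a < Z.a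
  known : ∀ l ∈ Z.Q, Y.a ∈ (Z.sg l).lev → l.res Y.al ∈ Y.Q ∧
    (Y.a, Y.code (l.res Y.al)) ∈ (Z.sg l).v
  dense : ∀ l : LL Θ X, l.In Z.al → ∃ q ∈ Z.Q, q ≤ l ∧ Y.a ∈ (Z.sg q).lev

variable (Θ X) in
/-- The least element of `Θ`. -/
noncomputable def zr : Θ := (wellFounded_lt (α := Θ)).min univ ⟨D.la, mem_univ _⟩

variable (Θ X) in
/-- The first level `P_λ * R₀`. -/
noncomputable def F0 : OL Θ X where
  al := zr Θ X
  Q := {l | l.In (zr Θ X)}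
  sg := fun l => l.1.s
  a := D.lab D.la
  code := fun l => D.code D.la l.1.s.v l.2.c

end Pool.CV
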