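import Pool.Agent.Lib.MP_cc7fb1_cf.T1

/-!
# MP_cc7fb1: the list construction (row T2)
-/

set_option autoImplicit false
set_option linter.unusedSectionVars false

open Cardinal Set Pool.CF

namespace Pool.CV

variable {Θ X : Type} [LinearOrder Θ] [WellFoundedLT Θ] [D : SG Θ X]

variable {Z : WithBot Θ → OL Θ X} {τ be al : Θ}

/-- The labels of the chain `tp l` are at most `Y.a`. -/
private lemma le_of_mem_tp {Y : OL Θ X} (hY : Y.OK) {l : LL Θ X} (hl : l ∈ Y.Q) {p : Θ × Θ}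
    (hp : p ∈ (Y.tp l).v) : p.1 ≤ Y.a := by
  rw [hY.tp_v hl] at hp
  rcases hp with rfl | hp
  · exact le_rfl
  · exact (hY.bdd l hl p.1 ⟨p.2, hp⟩).le

private lemma mem_q {l : LL Θ X} (hl : l ∈ listQ Z τ be al) {e : WithBot Θ}
    (he : e ∈ Ls τ be l) : l.res (Z e).al ∈ (Z e).Q := hl.2.2.1 e he

private lemma tp_sub_sg (H : LHyp Z τ be al) {l : LL Θ X} (hl : l ∈ listQ Z τ be al)
    {e e' : WithBot Θ} (he : e ∈ Ls τ be l) (he' : e' ∈ Ls τ be l) (hlt : e < e') :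
    ((Z e).tp (l.res (Z e).al)).v ⊆ ((Z e').sg (l.res (Z e').al)).v := by
  have hL : Lt (Z e) (Z e') := H.lt e e' hlt (ls_lt l he')
  have h := hL.sub (H.ok e (ls_lt l he)) (mem_q hl he') (hl.2.2.2 e he e' he' hlt)
  rwa [LL.res_res hL.al] at h

private lemma sg_sub_tp (H : LHyp Z τ be al) {l : LL Θ X} (hl : l ∈ listQ Z τ be al)
    {e : WithBot Θ} (he : e ∈ Ls τ be l) :
    ((Z e).sg (l.res (Z e).al)).v ⊆ ((Z e).tp (l.res (Z e).al)).v := by
  rw [(H.ok e (ls_lt l he)).tp_v (mem_q hl he)]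
  exact subset_insert _ _

private lemma top_mem (H : LHyp Z τ be al) {l : LL Θ X} (hl : l ∈ listQ Z τ be al)
    {e : WithBot Θ} (he : e ∈ Ls τ be l) :
    ((Z e).a, (Z e).code (l.res (Z e).al)) ∈ ((Z e).tp (l.res (Z e).al)).v := by
  rw [(H.ok e (ls_lt l he)).tp_v (mem_q hl he)]
  exact mem_insert _ _

private lemma tp_sub_tp (H : LHyp Z τ be al) {l : LL Θ X} (hl : l ∈ listQ Z τ be al)
    {e e' : WithBot Θ} (he : e ∈ Ls τ be l) (he' : e' ∈ Ls τ be l) (hlt : e ≤ e') :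
    ((Z e).tp (l.res (Z e).al)).v ⊆ ((Z e').tp (l.res (Z e').al)).v := by
  rcases hlt.eq_or_lt with rfl | hlt
  · exact Subset.rfl
  · exact (tp_sub_sg H hl he he' hlt).trans (sg_sub_tp H hl he')

private lemma tp_dich (H : LHyp Z τ be al) {l : LL Θ X} (hl : l ∈ listQ Z τ be al)
    {e e' : WithBot Θ} (he : e ∈ Ls τ be l) (he' : e' ∈ Ls τ be l) (hlt : e < e')
    {p : Θ × Θ} (hp : p ∈ ((Z e').tp (l.res (Z e').al)).v) :
    p ∈ ((Z e).tp (l.res (Z e).al)).v ∨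
      ∀ q ∈ ((Z e).tp (l.res (Z e).al)).v, q.1 < p.1 := by
  have hok := H.ok e (ls_lt l he)
  have hok' := H.ok e' (ls_lt l he')
  rcases lt_or_ge (Z e).a p.1 with h | h
  · exact Or.inr fun q hq => (le_of_mem_tp hok (mem_q hl he) hq).trans_lt h
  · left
    have hL : Lt (Z e) (Z e') := H.lt e e' hlt (ls_lt l he')
    have hsub := tp_sub_tp H hl he he' hlt.le
    have htop := top_mem H hl he
    rcases h.eq_or_lt with h | h
    · obtain ⟨b, r⟩ := p
      simp only at h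
      subst h
      have := ((Z e').tp (l.res (Z e').al)).ch.func _ _ _ hp (hsub htop)
      rw [this]
      exact htop
    · have hc := hok.cut_eq (mem_q hl he) (hsub htop)
      have : p ∈ (((Z e').tp (l.res (Z e').al)).cut (Z e).a).v := ⟨hp, h⟩
      rw [hc] at this
      exact sg_sub_tp H hl he this

private lemma list_ch (H : LHyp Z τ be al) {l : LL Θ X} (hl : l ∈ listQ Z τ be al) :
    IsCh D.κ D.S (⋃ e ∈ Ls τ be l, ((Z e).tp (l.res (Z e).al)).v) := by
  rw [biUnion_eq_iUnion]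
  refine isCh_iUnion D.κ_reg (mk_ls_lt l)
    (f := fun e : Ls τ be l => ((Z e).tp (l.res (Z e).al)).v) (fun e => Chn.ch _) ?_
  rintro ⟨e, he⟩ ⟨e', he'⟩
  rcases le_or_gt e e' with h | h
  · have := tp_sub_tp H hl he he' h
    exact ⟨fun p hp => Or.inl (this hp), Or.inl this⟩
  · exact ⟨fun p hp => tp_dich H hl he' he h hp, Or.inr (tp_sub_tp H hl he' he h.le)⟩

/-- T2. -/
lemma listSg_v (H : LHyp Z τ be al) {l : LL Θ X} (hl : l ∈ listQ Z τ be al) :
    (listSg Z τ be l).v = ⋃ e ∈ Ls τ be l, ((Z e).tp (l.res (Z e).al)).v := by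
  rw [listSg, dif_pos (list_ch H hl)]

private lemma mem_listSg (H : LHyp Z τ be al) {l : LL Θ X} (hl : l ∈ listQ Z τ be al)
    (p : Θ × Θ) : p ∈ (listSg Z τ be l).v ↔ ∃ e ∈ Ls τ be l,
      p ∈ ((Z e).tp (l.res (Z e).al)).v := by
  rw [listSg_v H hl]
  simp only [mem_iUnion, exists_prop]

/-- T2: the listed chains are cofinal initial segments. -/
lemma listSg_cut (H : LHyp Z τ be al) {l : LL Θ X} (hl : l ∈ listQ Z τ be al) {e : WithBot Θ}
    (he : e ∈ Ls τ be l) : (listSg Z τ be l).cut (Z e).a = (Z e).sg (l.res (Z e).al) ∧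
      ((Z e).a, (Z e).code (l.res (Z e).al)) ∈ (listSg Z τ be l).v := by
  have h : ((Z e).a, (Z e).code (l.res (Z e).al)) ∈ (listSg Z τ be l).v :=
    (mem_listSg H hl _).2 ⟨e, he, top_mem H hl he⟩
  exact ⟨(H.ok e (ls_lt l he)).cut_eq (mem_q hl he) h, h⟩

/-- T2: order of chains above `listSg`. -/
lemma le_listSg_iff (H : LHyp Z τ be al) {l : LL Θ X} (hl : l ∈ listQ Z τ be al) (p : Chn Θ X) :
    p ≤ listSg Z τ be l ↔ ∀ e ∈ Ls τ be l, p ≤ (Z e).tp (l.res (Z e).al) := by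
  constructor
  · intro h e he a r har
    exact h a r ((mem_listSg H hl _).2 ⟨e, he, har⟩)
  · intro h a r har
    obtain ⟨e, he, hp⟩ := (mem_listSg H hl _).1 har
    exact h e he a r hp

/-- T2: a known stage. -/
lemma listSg_known (H : LHyp Z τ be al) {l : LL Θ X} (hl : l ∈ listQ Z τ be al) {e : WithBot Θ}
    (he : e < τ) (ha : (Z e).a ∈ (listSg Z τ be l).lev) : l.res (Z e).al ∈ (Z e).Q ∧
      ((Z e).a, (Z e).code (l.res (Z e).al)) ∈ (listSg Z τ be l).v := by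
  obtain ⟨r, hr⟩ := ha
  obtain ⟨e', he', hp⟩ := (mem_listSg H hl _).1 hr
  have hok' := H.ok e' (ls_lt l he')
  rcases lt_trichotomy e' e with h | h | h
  · have h1 := le_of_mem_tp hok' (mem_q hl he') hp
    exact absurd ((H.lt e' e h he).a) (not_lt.2 h1)
  · subst h
    exact ⟨mem_q hl he', (listSg_cut H hl he').2⟩
  · have hL : Lt (Z e) (Z e') := H.lt e e' h (ls_lt l he')
    have hp' : ((Z e).a, r) ∈ ((Z e').sg (l.res (Z e').al)).v := by
      rw [hok'.tp_v (mem_q hl he')] at hp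
      rcases hp with hp | hp
      · exact absurd (congrArg Prod.fst hp) hL.a.ne
      · exact hp
    obtain ⟨h1, h2⟩ := hL.known _ (mem_q hl he') ⟨r, hp'⟩
    rw [LL.res_res hL.al] at h1 h2
    exact ⟨h1, (mem_listSg H hl _).2 ⟨e', he', sg_sub_tp H hl he' h2⟩⟩

end Pool.CV
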