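import Pool.Agent.Lib.MP_cc7fb1_cf.T2

/-!
# MP_cc7fb1: the list construction (row T3)
-/

set_option autoImplicit false
set_option linter.unusedSectionVars false

open Cardinal Set Pool.CF

namespace Pool.CV

variable {Θ X : Type} [LinearOrder Θ] [WellFoundedLT Θ] [D : SG Θ X]

variable {Z : WithBot Θ → OL Θ X} {τ be al : Θ}

/-- The tasks of the closing-off argument. -/
private def Tk (Θ : Type) : Type := Θ ⊕ (WithBot Θ ⊕ (WithBot Θ × WithBot Θ))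

private def TD (Z : WithBot Θ → OL Θ X) (τ be : Θ) : Tk Θ → Set (LL Θ X)
  | Sum.inl g => {l | g < D.la → ∃ v, l.Dc be g v}
  | Sum.inr (Sum.inl e) => {l | e < τ → l.res (Z e).al ∈ (Z e).Q}
  | Sum.inr (Sum.inr (e, e')) => {l | e < e' → e' < τ → l.res (Z e').al ∈ (Z e').Q ∧
      (Z e).a ∈ ((Z e').sg (l.res (Z e').al)).lev}

private def TT (τ be : Θ) (l : LL Θ X) : Set (Tk Θ) :=
  Sum.inl '' l.2.c ∪ ((fun e => Sum.inr (Sum.inl e)) '' Ls τ be l ∪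
    (fun p => Sum.inr (Sum.inr p)) '' (Ls τ be l ×ˢ Ls τ be l))

private lemma mem_TT1 {l : LL Θ X} {g : Θ} :
    (Sum.inl g : Tk Θ) ∈ TT τ be l ↔ g ∈ l.2.c := by
  constructor
  · rintro (⟨g', h, h'⟩ | ⟨e, h, h'⟩ | ⟨p, h, h'⟩)
    · cases h'
      exact h
    · cases h'
    · cases h'
  · exact fun h => Or.inl ⟨g, h, rfl⟩

private lemma mem_TT2 {l : LL Θ X} {e : WithBot Θ} :
    (Sum.inr (Sum.inl e) : Tk Θ) ∈ TT τ be l ↔ e ∈ Ls τ be l := by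
  constructor
  · rintro (⟨g', h, h'⟩ | ⟨e, h, h'⟩ | ⟨p, h, h'⟩)
    · cases h'
    · cases h'
      exact h
    · cases h'
  · exact fun h => Or.inr (Or.inl ⟨e, h, rfl⟩)

private lemma mem_TT3 {l : LL Θ X} {e e' : WithBot Θ} :
    (Sum.inr (Sum.inr (e, e')) : Tk Θ) ∈ TT τ be l ↔ e ∈ Ls τ be l ∧ e' ∈ Ls τ be l := by
  constructor
  · rintro (⟨g', h, h'⟩ | ⟨e, h, h'⟩ | ⟨p, h, h'⟩)
    · cases h'
    · cases h'
    · cases h'
      exact h
  · exact fun h => Or.inr (Or.inr ⟨(e, e'), h, rfl⟩)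

private lemma mk_TT_lt (l : LL Θ X) : #(TT τ be l) < D.κ := by
  have hκ : ℵ₀ ≤ D.κ := D.κ_unc.le
  refine (mk_union_le _ _).trans_lt (add_lt_of_lt hκ (mk_image_le.trans_lt l.2.card) ?_)
  refine (mk_union_le _ _).trans_lt (add_lt_of_lt hκ (mk_image_le.trans_lt (mk_ls_lt l)) ?_)
  refine mk_image_le.trans_lt ?_
  rw [mk_setProd]
  exact mul_lt_of_lt hκ (mk_ls_lt l) (mk_ls_lt l)

private lemma amal_in {al' : Θ} (hal : al' ≤ al) {l : LL Θ X} (hl : l.In al) {q : LL Θ X}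
    (hq : q.In al') (hle : q ≤ l.res al') : ∃ m : LL Θ X, m.In al ∧ m ≤ l ∧ m.res al' = q := by
  obtain ⟨m, -, h2, h3, -, h5, -⟩ := LL.amal hq hle
  refine ⟨m, ?_, h2, h3⟩
  intro t ht
  rw [h5] at ht
  rcases ht with ht | ht
  · exact (hq t ht).trans_le hal
  · exact hl t ht

private lemma TD_dense (H : LHyp Z τ be al) (i : Tk Θ) (p : LL Θ X) (hp : p.In al) :
    ∃ q ∈ TD Z τ be i, q.In al ∧ q ≤ p := by
  rcases i with g | e | ⟨e, e'⟩
  · by_cases hg : g < D.la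
    · obtain ⟨q, h1, h2, -, h4⟩ := p.exists_dc hp H.hbe H.hτ hg
      exact ⟨q, fun _ => h4, h2, h1⟩
    · exact ⟨p, fun h => absurd h hg, hp, le_rfl⟩
  · by_cases he : e < τ
    · obtain ⟨q, hq, hle⟩ := (H.ok e he).good.dense (p.res (Z e).al) (LL.res_in _ _)
      obtain ⟨m, hm, hm', hr⟩ := amal_in (H.hal e he) hp ((H.ok e he).good.inn q hq) hle
      exact ⟨m, fun _ => hr ▸ hq, hm, hm'⟩
    · exact ⟨p, fun h => absurd h he, hp, le_rfl⟩
  · by_cases hee : e < e' ∧ e' < τ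
    · obtain ⟨hee, he'⟩ := hee
      obtain ⟨q, hq, hle, hlev⟩ := (H.lt e e' hee he').dense (p.res (Z e').al) (LL.res_in _ _)
      obtain ⟨m, hm, hm', hr⟩ := amal_in (H.hal e' he') hp ((H.ok e' he').good.inn q hq) hle
      refine ⟨m, fun _ _ => ?_, hm, hm'⟩
      rw [hr]
      exact ⟨hq, hlev⟩
    · exact ⟨p, fun h h' => absurd ⟨h, h'⟩ hee, hp, le_rfl⟩

private lemma res_closed {Y : OL Θ X} (hY : Y.OK) {f : ℕ → LL Θ X} (hf : Antitone f)
    (h : ∀ n, (f n).res Y.al ∈ Y.Q) {g : LL Θ X} (hg : IsGLB (range f) g) :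
    g.res Y.al ∈ Y.Q := by
  obtain ⟨h1, h2, h3⟩ := dir_range D.κ_unc hf
  have hres : Antitone fun n => (f n).res Y.al := fun m n hmn => LL.res_mono _ (hf hmn)
  obtain ⟨h1', h2', h3'⟩ := dir_range D.κ_unc hres
  have hglb := LL.res_glb h1 h2 h3 hg Y.al
  have heq : LL.res Y.al '' range f = range fun n => (f n).res Y.al := by
    rw [← range_comp]
    rfl
  rw [heq] at hglb
  refine hY.good.closed _ ?_ h1' h2' h3' _ hglb
  rintro _ ⟨n, rfl⟩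
  exact h n

private lemma TD_closed (H : LHyp Z τ be al) (i : Tk Θ) (f : ℕ → LL Θ X) (hf : Antitone f)
    (h : ∀ n, f n ∈ TD Z τ be i) (g : LL Θ X) (hg : IsGLB (range f) g) :
    g ∈ TD Z τ be i := by
  have hg0 : g ≤ f 0 := hg.1 (mem_range_self 0)
  rcases i with g₀ | e | ⟨e, e'⟩
  · intro hlt
    obtain ⟨v, hv⟩ := h 0 hlt
    exact ⟨v, hv.mono hg0⟩
  · intro he
    exact res_closed (H.ok e he) hf (fun n => h n he) hg
  · intro hee he'
    have hc := res_closed (H.ok e' he') hf (fun n => (h n hee he').1) hg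
    refine ⟨hc, ?_⟩
    exact Chn.lev_mono ((H.ok e' he').good.mono _ (h 0 hee he').1 _ hc (LL.res_mono _ hg0))
      (h 0 hee he').2

private lemma TT_cont {f : ℕ → LL Θ X} (hf : Antitone f)
    (hm : ∀ n, ∀ i ∈ TT τ be (f n), ∃ d ∈ TD Z τ be i, d ≤ f n ∧ f (n + 1) ≤ d)
    {g : LL Θ X} (hg : IsGLB (range f) g) (i : Tk Θ) (hi : i ∈ TT τ be g) :
    ∃ n, ∀ m ≥ n, i ∈ TT τ be (f m) := by
  obtain ⟨h1, h2, h3⟩ := dir_range D.κ_unc hf
  have hle : ∀ n, g ≤ f n := fun n => hg.1 (mem_range_self n)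
  have hpos : ∀ g₀ ∈ g.2.c, ∃ n, ∀ m ≥ n, g₀ ∈ (f m).2.c := by
    intro g₀ hg₀
    obtain ⟨_, ⟨n, rfl⟩, hn⟩ := (LL.glb_c h1 h2 h3 hg g₀).1 hg₀
    exact ⟨n, fun m hm => (hf hm).2.1 hn⟩
  have hst : ∀ e ∈ Ls τ be g, ∃ n, ∀ m ≥ n, e ∈ Ls τ be (f m) := by
    intro e he
    rcases he with rfl | ⟨e', rfl, hlt, g₀, hg₀, hdc⟩
    · exact ⟨0, fun m _ => Or.inl rfl⟩
    · obtain ⟨n, hn⟩ := hpos g₀ hg₀
      obtain ⟨d, hd, -, hd2⟩ := hm n (Sum.inl g₀) (mem_TT1.2 (hn n le_rfl))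
      obtain ⟨v, hv⟩ := hd (g.2.sub g₀ hg₀)
      have hv' : (f (n + 1)).Dc be g₀ v := hv.mono hd2
      have hve : v = e' := (hv'.mono (hle (n + 1))).uniq hdc
      subst hve
      exact ⟨n + 1, fun m hmn => ls_mono (hf hmn)
        (Or.inr ⟨v, rfl, hlt, g₀, hn (n + 1) (Nat.le_succ n), hv'⟩)⟩
  rcases i with g₀ | e | ⟨e, e'⟩
  · obtain ⟨n, hn⟩ := hpos g₀ (mem_TT1.1 hi)
    exact ⟨n, fun m hmn => mem_TT1.2 (hn m hmn)⟩
  · obtain ⟨n, hn⟩ := hst e (mem_TT2.1 hi)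
    exact ⟨n, fun m hmn => mem_TT2.2 (hn m hmn)⟩
  · obtain ⟨n, hn⟩ := hst e (mem_TT3.1 hi).1
    obtain ⟨n', hn'⟩ := hst e' (mem_TT3.1 hi).2
    exact ⟨max n n', fun m hmn => mem_TT3.2
      ⟨hn m ((le_max_left _ _).trans hmn), hn' m ((le_max_right _ _).trans hmn)⟩⟩

private lemma exists_listed (H : LHyp Z τ be al) (l : LL Θ X) (hl : l.In al) (e : WithBot Θ)
    (he : e < τ) : ∃ m : LL Θ X, m ≤ l ∧ m.In al ∧ e ∈ Ls τ be m := by
  induction e using WithBot.recBotCoe with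
  | bot => exact ⟨l, le_rfl, hl, Or.inl rfl⟩
  | coe e' =>
    have he' : e' < τ := WithBot.coe_lt_coe.1 he
    obtain ⟨g, hg, h1, h2⟩ := l.exists_pos
    obtain ⟨c', hc', hc''⟩ := R0.exists_snoc l.2 hg h2
    have hle : ((l.1, c') : LL Θ X) ≤ l := ⟨le_rfl, hc'⟩
    have hla : ℵ₀ < #(Iio D.la) := D.κ_unc.trans D.κ_lt
    obtain ⟨m, hm1, hm2, hm3, hm4⟩ := LL.add (l := ((l.1, c') : LL Θ X)) (be := be) ({g} : Set Θ)
      (fun _ => e') (by rw [mk_singleton]; exact one_lt_aleph0.trans hla)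
      (by rintro _ rfl; exact hg) (fun _ _ => he'.trans H.hτ)
      (by
        rintro _ rfl τ' v hmem
        exact absurd (h1 _ hmem) (lt_irrefl _))
    refine ⟨m, hm1.trans hle, ?_, ?_⟩
    · intro t ht
      rw [hm4] at ht
      rcases ht with ht | ⟨_, _, rfl⟩
      · exact hl t ht
      · exact H.hbe
    · refine Or.inr ⟨e', rfl, he', g, ?_, ?_⟩
      · rw [hm3, show ((l.1, c') : LL Θ X).2.c = insert g l.2.c from hc'']
        exact mem_insert _ _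
      · refine ⟨l.1.s, ?_, ?_⟩
        · rw [hm4]
          exact Or.inr ⟨g, rfl, rfl⟩
        · exact hm2.le

/-- T3: density (closing-off lemma), with a prescribed stage. -/
lemma listQ_dense (H : LHyp Z τ be al) (l : LL Θ X) (hl : l.In al) (e : WithBot Θ) (he : e < τ) :
    ∃ q ∈ listQ Z τ be al, q ≤ l ∧ e ∈ Ls τ be q := by
  obtain ⟨p, hpl, hp, hep⟩ := exists_listed H l hl e he
  have hA : DGOn D.κ {l : LL Θ X | l.In al} := by
    intro E hE hne hc hd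
    obtain ⟨g, hg⟩ := LL.exists_glb hne hc hd
    exact ⟨g, LL.in_glb hne hc hd hg fun l hl => hE hl, hg⟩
  obtain ⟨q, hq, hqp, hqT⟩ := closing_off D.κ_reg D.κ_unc hA (TD Z τ be)
    (fun i p hp => TD_dense H i p hp) (TD_closed H) (TT τ be) (fun p _ => mk_TT_lt p)
    (fun f hf _ hm g hg i hi => TT_cont hf hm hg i hi) p hp
  refine ⟨q, ⟨hq, ?_, ?_, ?_⟩, hqp.trans hpl, ls_mono hqp hep⟩
  · intro g hg
    exact hqT (Sum.inl g) (mem_TT1.2 hg) (q.2.sub g hg)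
  · intro e he
    exact hqT (Sum.inr (Sum.inl e)) (mem_TT2.2 he) (ls_lt q he)
  · intro e he e' he' hlt
    exact (hqT (Sum.inr (Sum.inr (e, e'))) (mem_TT3.2 ⟨he, he'⟩) hlt (ls_lt q he')).2

end Pool.CV
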