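import Pool.Agent.Lib.MP_cc7fb1_cf.T3

/-!
# MP_cc7fb1: the list construction (row T4)
-/

set_option autoImplicit false
set_option linter.unusedSectionVars false

open Cardinal Set Pool.CF

namespace Pool.CV

variable {Θ X : Type} [LinearOrder Θ] [WellFoundedLT Θ] [D : SG Θ X]

variable {Z : WithBot Θ → OL Θ X} {τ be al : Θ}

/-- A tail of a directed set has the same greatest lower bound. -/
private lemma tail_glb {E : Set (LL Θ X)} (hc : #E < D.κ) (hd : Dir E)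
    {g : LL Θ X} (hg : IsGLB E g) {l₁ : LL Θ X} (h₁ : l₁ ∈ E) :
    ({l | l ∈ E ∧ l ≤ l₁}).Nonempty ∧ #{l | l ∈ E ∧ l ≤ l₁} < D.κ ∧
      Dir {l | l ∈ E ∧ l ≤ l₁} ∧ IsGLB {l | l ∈ E ∧ l ≤ l₁} g := by
  refine ⟨⟨l₁, h₁, le_rfl⟩, (mk_le_mk_of_subset fun l hl => hl.1).trans_lt hc, ?_, ?_, ?_⟩
  · intro a ha b hb
    obtain ⟨c, hcE, hca, hcb⟩ := hd a ha.1 b hb.1
    exact ⟨c, ⟨hcE, hca.trans ha.2⟩, hca, hcb⟩
  · exact fun l hl => hg.1 hl.1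
  · intro b hb
    refine hg.2 fun l hl => ?_
    obtain ⟨c, hcE, hcl, hc1⟩ := hd l hl l₁ h₁
    exact (hb (a := c) ⟨hcE, hc1⟩).trans hcl

private lemma res_dir {E : Set (LL Θ X)} (hne : E.Nonempty) (hc : #E < D.κ) (hd : Dir E)
    (al' : Θ) : (LL.res al' '' E).Nonempty ∧ #(LL.res al' '' E : Set (LL Θ X)) < D.κ ∧
      Dir (LL.res al' '' E) := by
  refine ⟨hne.image _, mk_image_le.trans_lt hc, ?_⟩
  rintro _ ⟨a, ha, rfl⟩ _ ⟨b, hb, rfl⟩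
  obtain ⟨c, hcE, hca, hcb⟩ := hd a ha b hb
  exact ⟨_, ⟨c, hcE, rfl⟩, LL.res_mono _ hca, LL.res_mono _ hcb⟩

/-- T4. -/
lemma listQ_closed (H : LHyp Z τ be al) {E : Set (LL Θ X)} (hE : E ⊆ listQ Z τ be al)
    (hne : E.Nonempty) (hc : #E < D.κ) (hd : Dir E) {g : LL Θ X} (hg : IsGLB E g) :
    g ∈ listQ Z τ be al := by
  have hdec : ∀ l ∈ E, ∀ g₀ ∈ l.2.c, ∃ v, l.Dc be g₀ v := fun l hl => (hE hl).2.1
  have hmem : ∀ e ∈ Ls τ be g, g.res (Z e).al ∈ (Z e).Q := by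
    intro e he
    obtain ⟨l₁, h₁, he₁⟩ := (ls_glb hne hc hd hdec hg e).1 he
    obtain ⟨t1, t2, t3, t4⟩ := tail_glb hc hd hg h₁
    obtain ⟨r1, r2, r3⟩ := res_dir t1 t2 t3 (Z e).al
    refine (H.ok e (ls_lt g he)).good.closed _ ?_ r1 r2 r3 _ (LL.res_glb t1 t2 t3 t4 _)
    rintro _ ⟨l, hl, rfl⟩
    exact (hE hl.1).2.2.1 e (ls_mono hl.2 he₁)
  refine ⟨LL.in_glb hne hc hd hg fun l hl => (hE hl).1, ?_, hmem, ?_⟩
  · intro g₀ hg₀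
    obtain ⟨l, hl, hlc⟩ := (LL.glb_c hne hc hd hg g₀).1 hg₀
    obtain ⟨v, hv⟩ := hdec l hl g₀ hlc
    exact ⟨v, hv.mono (hg.1 hl)⟩
  · intro e he e' he' hlt
    obtain ⟨l₁, h₁, he₁⟩ := (ls_glb hne hc hd hdec hg e).1 he
    obtain ⟨l₂, h₂, he₂⟩ := (ls_glb hne hc hd hdec hg e').1 he'
    obtain ⟨l₃, h₃, h31, h32⟩ := hd l₁ h₁ l₂ h₂
    have e3 : e ∈ Ls τ be l₃ := ls_mono h31 he₁
    have e3' : e' ∈ Ls τ be l₃ := ls_mono h32 he₂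
    exact Chn.lev_mono ((H.ok e' (ls_lt g he')).good.mono _ ((hE h₃).2.2.1 e' e3') _
      (hmem e' he') (LL.res_mono _ (hg.1 h₃))) ((hE h₃).2.2.2 e e3 e' e3' hlt)

/-- T4. -/
lemma listSg_mono (H : LHyp Z τ be al) {l l' : LL Θ X} (hl : l ∈ listQ Z τ be al)
    (hl' : l' ∈ listQ Z τ be al) (h : l' ≤ l) : listSg Z τ be l' ≤ listSg Z τ be l := by
  refine (le_listSg_iff H hl _).2 fun e he => ?_
  have he' := ls_mono (τ := τ) (be := be) h he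
  refine ((le_listSg_iff H hl' _).1 le_rfl e he').trans ?_
  exact (H.ok e (ls_lt l he)).tp_mono (hl.2.2.1 e he) (hl'.2.2.1 e he') (LL.res_mono _ h)

/-- T4. -/
lemma listSg_cont (H : LHyp Z τ be al) {E : Set (LL Θ X)} (hE : E ⊆ listQ Z τ be al)
    (hne : E.Nonempty) (hc : #E < D.κ) (hd : Dir E) {g : LL Θ X} (hg : IsGLB E g) :
    IsGLB (listSg Z τ be '' E) (listSg Z τ be g) := by
  have hgQ := listQ_closed H hE hne hc hd hg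
  have hdec : ∀ l ∈ E, ∀ g₀ ∈ l.2.c, ∃ v, l.Dc be g₀ v := fun l hl => (hE hl).2.1
  constructor
  · rintro _ ⟨l, hl, rfl⟩
    exact listSg_mono H (hE hl) hgQ (hg.1 hl)
  · intro p hp
    refine (le_listSg_iff H hgQ p).2 fun e he => ?_
    obtain ⟨l₁, h₁, he₁⟩ := (ls_glb hne hc hd hdec hg e).1 he
    obtain ⟨t1, t2, t3, t4⟩ := tail_glb hc hd hg h₁
    have hok := H.ok e (ls_lt g he)
    have key : ∀ l ∈ {l | l ∈ E ∧ l ≤ l₁}, ∃ k ∈ (Z e).Q, k ≤ l.res (Z e).al ∧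
        ((Z e).a, (Z e).code k) ∈ p.v := by
      intro l hl
      have hel : e ∈ Ls τ be l := ls_mono hl.2 he₁
      have h1 : p ≤ listSg Z τ be l := hp ⟨l, hl.1, rfl⟩
      have h2 := (le_listSg_iff H (hE hl.1) p).1 h1 e hel
      exact (hok.le_tp_iff ((hE hl.1).2.2.1 e hel) p).1 h2
    obtain ⟨k, hk, -, hkp⟩ := key l₁ ⟨h₁, le_rfl⟩
    refine (hok.le_tp_iff (hgQ.2.2.1 e he) p).2 ⟨k, hk, ?_, hkp⟩
    refine (LL.res_glb t1 t2 t3 t4 (Z e).al).2 ?_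
    rintro _ ⟨l, hl, rfl⟩
    obtain ⟨k', hk', hle, hkp'⟩ := key l hl
    have : k' = k := hok.inj k' hk' k hk (p.ch.func _ _ _ hkp' hkp)
    exact this ▸ hle

end Pool.CV
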