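import Pool.Agent.Lib.MP_cc7fb1_cf.T4

/-!
# MP_cc7fb1: the list construction (row T5)
-/

set_option autoImplicit false
set_option linter.unusedSectionVars false

open Cardinal Set Pool.CF

namespace Pool.CV

variable {Θ X : Type} [LinearOrder Θ] [WellFoundedLT Θ] [D : SG Θ X]

variable {Z : WithBot Θ → OL Θ X} {τ be al : Θ}

private lemma le_of_mem_tp' {Y : OL Θ X} (hY : Y.OK) {l : LL Θ X} (hl : l ∈ Y.Q) {p : Θ × Θ}
    (hp : p ∈ (Y.tp l).v) : p.1 ≤ Y.a := by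
  rw [hY.tp_v hl] at hp
  rcases hp with rfl | hp
  · exact le_rfl
  · exact (hY.bdd l hl p.1 ⟨p.2, hp⟩).le

/-- Everything of `p` up to the label `Y.a` lies in `tp k`, where `k` is the value of `p`. -/
private lemma mem_tp_of_le {Y : OL Θ X} (hY : Y.OK) {k : LL Θ X} (hk : k ∈ Y.Q) {p : Chn Θ X}
    (h : (Y.a, Y.code k) ∈ p.v) {t : Θ × Θ} (ht : t ∈ p.v) (hle : t.1 ≤ Y.a) :
    t ∈ (Y.tp k).v := by
  rw [hY.tp_v hk]
  rcases hle.eq_or_lt with h1 | h1
  · obtain ⟨b, r⟩ := t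
    simp only at h1
    subst h1
    rw [p.ch.func _ _ _ ht h]
    exact mem_insert _ _
  · have hc := hY.cut_eq hk h
    have : t ∈ (p.cut Y.a).v := ⟨ht, h1⟩
    rw [hc] at this
    exact mem_insert_of_mem _ this

/-- T5: lifting.  `l_e := ` the element of `(Z e).Q` whose code is the value of `σ` at
`(Z e).a` (`e` listed at `l`); these are coherent; take their limit (`LL.climit`), amalgamate
with `l`, and use the density. -/
lemma listQ_ext (H : LHyp Z τ be al) {l : LL Θ X} (hl : l ∈ listQ Z τ be al) {σ : Chn Θ X}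
    (hσ : σ ≤ listSg Z τ be l) (hc : Cof (listSg Z τ be l).v σ.v) :
    ∃ l' ∈ listQ Z τ be al, l' ≤ l ∧ listSg Z τ be l' ≤ σ := by
  classical
  have hex : ∀ e : Ls τ be l, ∃ k ∈ (Z e).Q, k ≤ l.res (Z e).al ∧
      ((Z e).a, (Z e).code k) ∈ σ.v := by
    rintro ⟨e, he⟩
    exact ((H.ok e (ls_lt l he)).le_tp_iff (hl.2.2.1 e he) σ).1
      ((le_listSg_iff H hl σ).1 hσ e he)
  choose k hkQ hkle hkσ using hex
  have hok : ∀ e : Ls τ be l, (Z e).OK := fun e => H.ok e (ls_lt l e.2)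
  have hkin : ∀ e, (k e).In (Z e).al := fun e => (hok e).good.inn _ (hkQ e)
  have hcoh1 : ∀ e e' : Ls τ be l, (e : WithBot Θ) < e' → (k e').res (Z e).al = k e := by
    intro e e' hlt
    have hL : Lt (Z e) (Z e') := H.lt e e' hlt (ls_lt l e'.2)
    have hcut := (hok e').cut_eq (hkQ e') (hkσ e')
    have hmem : ((Z e).a, (Z e).code (k e)) ∈ ((Z e').sg (k e')).v := by
      rw [← hcut]
      exact ⟨hkσ e, hL.a⟩
    obtain ⟨h1, h2⟩ := hL.known _ (hkQ e') ⟨_, hmem⟩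
    exact (hok e).inj _ h1 _ (hkQ e) (((Z e').sg (k e')).ch.func _ _ _ h2 hmem)
  have hcoh : ∀ e e' : Ls τ be l, (Z e).al ≤ (Z e').al → (k e').res (Z e).al = k e := by
    intro e e' hle
    rcases lt_trichotomy (e : WithBot Θ) e' with h | h | h
    · exact hcoh1 e e' h
    · have : e = e' := Subtype.ext h
      subst this
      exact LL.res_of_in (hkin e)
    · have h1 := hcoh1 e' e h
      have hal : (Z e).al = (Z e').al := le_antisymm hle (H.lt e' e h (ls_lt l e.2)).al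
      rw [hal, LL.res_of_in (hkin e'), ← h1, ← hal, LL.res_of_in (hkin e)]
  have hbot : (⊥ : WithBot Θ) ∈ Ls τ be l := Or.inl rfl
  have : Nonempty (Ls τ be l) := ⟨⟨⊥, hbot⟩⟩
  obtain ⟨m, hm1, hm2, hm3⟩ := LL.climit ((mk_ls_lt l).trans D.κ_lt)
    (fun e : Ls τ be l => (Z e).al) k hkin hcoh
  -- the least upper bound of the coordinates
  have hbd : ({b | ∀ e : Ls τ be l, (Z e).al ≤ b}).Nonempty :=
    ⟨al, fun e => H.hal e (ls_lt l e.2)⟩
  set de : Θ := wellFounded_lt.min {b | ∀ e : Ls τ be l, (Z e).al ≤ b} hbd with hde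
  have hde1 : ∀ e : Ls τ be l, (Z e).al ≤ de := wellFounded_lt.min_mem _ hbd
  have hde2 : ∀ b < de, ∃ e : Ls τ be l, b < (Z e).al := by
    intro b hb
    by_contra hcon
    push Not at hcon
    exact wellFounded_lt.not_lt_min {b | ∀ e : Ls τ be l, (Z e).al ≤ b} (x := b) hcon hb
  have hdeal : de ≤ al := by
    by_contra hcon
    exact wellFounded_lt.not_lt_min {b | ∀ e : Ls τ be l, (Z e).al ≤ b} (x := al)
      (fun e => H.hal e (ls_lt l e.2)) (not_le.1 hcon)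
  have hmin : m.In de := by
    intro t ht
    obtain ⟨e, he⟩ := (hm3 t).1 ht
    exact (hkin e t he).trans_le (hde1 e)
  have hmle : m ≤ l.res de := by
    refine ⟨⟨?_, ?_⟩, ?_⟩
    · rw [(hm2 ⟨⊥, hbot⟩).1]
      exact (hkle ⟨⊥, hbot⟩).1.1
    · intro t ht
      obtain ⟨e, he⟩ := hde2 _ ht.2
      exact (hm3 t).2 ⟨e, (hkle e).1.2 ⟨ht.1, he⟩⟩
    · rw [(hm2 ⟨⊥, hbot⟩).2]
      exact (hkle ⟨⊥, hbot⟩).2
  obtain ⟨m', hm'1, hm'2, -, -, hm'h, -⟩ := LL.amal hmin hmle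
  have hm'in : m'.In al := by
    intro t ht
    rw [hm'h] at ht
    rcases ht with ht | ht
    · exact (hmin t ht).trans_le hdeal
    · exact hl.1 t ht
  obtain ⟨q, hq, hqm, -⟩ := listQ_dense H m' hm'in ⊥ (WithBot.bot_lt_coe τ)
  refine ⟨q, hq, hqm.trans hm'2, ?_⟩
  intro a r har
  obtain ⟨b', hb', hab'⟩ := hc a ⟨r, har⟩
  obtain ⟨r', hr'⟩ := hb'
  rw [listSg_v H hl] at hr'
  simp only [mem_iUnion, exists_prop] at hr'
  obtain ⟨e, he, hr'⟩ := hr'
  have hle : a ≤ (Z e).a := hab'.trans (le_of_mem_tp' (hok ⟨e, he⟩) (hl.2.2.1 e he) hr')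
  have hat : (a, r) ∈ ((Z e).tp (k ⟨e, he⟩)).v :=
    mem_tp_of_le (hok ⟨e, he⟩) (hkQ ⟨e, he⟩) (hkσ ⟨e, he⟩) har hle
  have heq : e ∈ Ls τ be q := ls_mono (hqm.trans hm'2) he
  have h1 : listSg Z τ be q ≤ (Z e).tp (q.res (Z e).al) :=
    (le_listSg_iff H hq _).1 le_rfl e heq
  have h2 : q.res (Z e).al ≤ k ⟨e, he⟩ := by
    have h3 := hm1 ⟨e, he⟩
    simp only at h3
    rw [← h3]
    exact LL.res_mono _ (hqm.trans hm'1)
  have h4 := (hok ⟨e, he⟩).tp_mono (hkQ ⟨e, he⟩) (hq.2.2.1 e heq) h2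
  exact (h1.trans h4) a r hat

end Pool.CV
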