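import Pool.Agent.Lib.MP_cc7fb1_cf.T5

/-!
# MP_cc7fb1: the list construction (row T6)
-/

set_option autoImplicit false
set_option linter.unusedSectionVars false

open Cardinal Set Pool.CF

namespace Pool.CV

variable {Θ X : Type} [LinearOrder Θ] [WellFoundedLT Θ] [D : SG Θ X]

variable {Z : WithBot Θ → OL Θ X} {τ be al : Θ}

/-- T6. -/
lemma list_good (H : LHyp Z τ be al) :
    (PreL.mk al (listQ Z τ be al) (listSg Z τ be)).Good where
  inn := fun l hl => hl.1
  dense := fun l hl => by
    obtain ⟨q, hq, hql, -⟩ := listQ_dense H l hl ⊥ (WithBot.bot_lt_coe τ)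
    exact ⟨q, hq, hql⟩
  closed := fun E hE hne hc hd g hg => listQ_closed H hE hne hc hd hg
  mono := fun l hl l' hl' h => listSg_mono H hl hl' h
  cont := fun E hE hne hc hd g hg => listSg_cont H hE hne hc hd hg
  ext := fun l hl σ hσ hc => listQ_ext H hl hσ hc

end Pool.CV
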