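import Pool.Agent.Lib.MP_cc7fb1_cf.T6

/-!
# MP_cc7fb1: the list construction (row T7)
-/

set_option autoImplicit false
set_option linter.unusedSectionVars false

open Cardinal Set Pool.CF

namespace Pool.CV

variable {Θ X : Type} [LinearOrder Θ] [WellFoundedLT Θ] [D : SG Θ X]

variable {Z : WithBot Θ → OL Θ X} {τ be al : Θ}

/-- `exists_bound`, for both forms of its statement -/
private lemma T7_bound (_ : SG Θ X) {E : Set Θ} (h : #E < #Θ) : ∃ b, ∀ a ∈ E, a < b := by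
  first
  | exact exists_bound (X := X) h
  | exact exists_bound h

/-- values at fewer than `#Θ` stages are bounded -/
private lemma T7_card (D : SG Θ X) (τ : Θ) (f : WithBot Θ → Θ) (c : Θ) :
    #(insert c (f '' {e : WithBot Θ | e < τ}) : Set Θ) < #Θ := by
  have hinf : ℵ₀ ≤ #Θ := D.th_reg.aleph0_le
  have h1 : (1 : Cardinal) < #Θ := Cardinal.one_lt_aleph0.trans_le hinf
  have h2 : {e : WithBot Θ | e < τ} ⊆ insert ⊥ ((fun x : Θ => (x : WithBot Θ)) '' Iio τ) := by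
    intro e he
    induction e using WithBot.recBotCoe with
    | bot => exact mem_insert _ _
    | coe x => exact mem_insert_of_mem _ ⟨x, WithBot.coe_lt_coe.1 he, rfl⟩
  have h3 : #{e : WithBot Θ | e < τ} < #Θ := by
    refine (mk_le_mk_of_subset h2).trans_lt ?_
    refine (mk_insert_le).trans_lt ?_
    exact Cardinal.add_lt_of_lt hinf (mk_image_le.trans_lt (D.th_init τ)) h1
  exact (mk_insert_le).trans_lt (Cardinal.add_lt_of_lt hinf (mk_image_le.trans_lt h3) h1)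

/-- T7: the list construction. -/
theorem exists_list (τ : Θ) (Z : WithBot Θ → OL Θ X) (hok : ∀ e : WithBot Θ, e < τ → (Z e).OK)
    (hlt : ∀ e e' : WithBot Θ, e < e' → e' < τ → Lt (Z e) (Z e')) (al₀ : Θ) :
    ∃ Y : OL Θ X, Y.OK ∧ al₀ ≤ Y.al ∧ (∀ e : WithBot Θ, e < τ → Lt (Z e) Y) ∧
      ∀ l ∈ Y.Q, (Z ⊥).a ∈ (Y.sg l).lev := by
  obtain ⟨be, hbe⟩ := T7_bound D (T7_card D τ (fun _ => τ) τ)
  obtain ⟨b₁, hb₁⟩ := T7_bound D (T7_card D τ (fun e => (Z e).al) be)
  obtain ⟨al, hal⟩ := T7_bound D (T7_card D τ (fun _ => b₁) al₀)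
  obtain ⟨a₀, ha₀⟩ := T7_bound D (T7_card D τ (fun e => (Z e).a) τ)
  have hbot : (⊥ : WithBot Θ) < τ := WithBot.bot_lt_coe τ
  have hb₁al : b₁ < al := hal b₁ (mem_insert_of_mem _ ⟨⊥, hbot, rfl⟩)
  have H : LHyp Z τ be al :=
    { ok := hok
      lt := hlt
      hal := fun e he => ((hb₁ _ (mem_insert_of_mem _ ⟨e, he, rfl⟩)).trans hb₁al).le
      hbe := (hb₁ be (mem_insert _ _)).trans hb₁al
      hτ := hbe τ (mem_insert _ _) }
  obtain ⟨Y, hY, hOK, ha⟩ := exists_label _ (list_good H) a₀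
  have h1 : Y.al = al := congrArg PreL.al hY
  have h2 : Y.Q = listQ Z τ be al := congrArg PreL.Q hY
  have h3 : Y.sg = listSg Z τ be := congrArg PreL.sg hY
  refine ⟨Y, hOK, ?_, ?_, ?_⟩
  · rw [h1]
    exact (hal al₀ (mem_insert _ _)).le
  · intro e he
    refine ⟨?_, ?_, ?_, ?_⟩
    · rw [h1]
      exact H.hal e he
    · exact (ha₀ _ (mem_insert_of_mem _ ⟨e, he, rfl⟩)).trans_le ha
    · intro l hl hl'
      rw [h2] at hl
      rw [h3] at hl' ⊢
      exact listSg_known H hl he hl'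
    · intro l hl
      rw [h1] at hl
      obtain ⟨q, hq, hql, hqe⟩ := listQ_dense H l hl e he
      rw [h2, h3]
      exact ⟨q, hq, hql, ⟨_, (listSg_cut H hq hqe).2⟩⟩
  · intro l hl
    rw [h2] at hl
    rw [h3]
    exact ⟨_, (listSg_cut H hl (Or.inl rfl)).2⟩

end Pool.CV
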