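import Pool.Agent.Lib.MP_cc7fb1_cf.T1
import Pool.Agent.Lib.MP_cc7fb1_cf.T2
import Pool.Agent.Lib.MP_cc7fb1_cf.T3
import Pool.Agent.Lib.MP_cc7fb1_cf.T4
import Pool.Agent.Lib.MP_cc7fb1_cf.T5
import Pool.Agent.Lib.MP_cc7fb1_cf.T6
import Pool.Agent.Lib.MP_cc7fb1_cf.T7
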