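import Pool.Agent.Lib.MP_cc7fb1_cf.Lev

/-!
# MP_cc7fb1: the list construction (definitions)
-/

set_option autoImplicit false
set_option linter.unusedSectionVars false

open Cardinal Set Pool.CF

namespace Pool.CV

variable {Θ X : Type} [LinearOrder Θ] [WellFoundedLT Θ] [D : SG Θ X]

/-- The stages listed at `l`. -/
def Ls (τ be : Θ) (l : LL Θ X) : Set (WithBot Θ) :=
  {e | e = ⊥ ∨ ∃ e' : Θ, e = (e' : WithBot Θ) ∧ e' < τ ∧ ∃ g ∈ l.2.c, l.Dc be g e'}

/-- The conditions all of whose listed stages are known. -/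
def listQ (Z : WithBot Θ → OL Θ X) (τ be al : Θ) : Set (LL Θ X) :=
  {l | l.In al ∧ (∀ g ∈ l.2.c, ∃ v, l.Dc be g v) ∧
    (∀ e ∈ Ls τ be l, l.res (Z e).al ∈ (Z e).Q) ∧
    ∀ e ∈ Ls τ be l, ∀ e' ∈ Ls τ be l, e < e' → (Z e).a ∈ ((Z e').sg (l.res (Z e').al)).lev}

open Classical in
/-- The union of the chains of the listed stages. -/
noncomputable def listSg (Z : WithBot Θ → OL Θ X) (τ be : Θ) (l : LL Θ X) : Chn Θ X :=
  if h : IsCh D.κ D.S (⋃ e ∈ Ls τ be l, ((Z e).tp (l.res (Z e).al)).v) then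
    ⟨⋃ e ∈ Ls τ be l, ((Z e).tp (l.res (Z e).al)).v, h⟩ else ⊤

/-- The hypotheses of the list construction. -/
structure LHyp (Z : WithBot Θ → OL Θ X) (τ be al : Θ) : Prop where
  ok : ∀ e : WithBot Θ, e < τ → (Z e).OK
  lt : ∀ e e' : WithBot Θ, e < e' → e' < τ → Lt (Z e) (Z e')
  hal : ∀ e : WithBot Θ, e < τ → (Z e).al ≤ al
  hbe : be < al
  hτ : τ < be

end Pool.CV
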