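import Pool.Agent.Lib.MP_cc7fb1_cf.RecDef

/-!
# MP_cc7fb1: the main recursion (row M1)
-/

set_option autoImplicit false
set_option linter.unusedSectionVars false

open Cardinal Set Pool.CF

namespace Pool.CV

variable {Θ X : Type} [LinearOrder Θ] [WellFoundedLT Θ] [D : SG Θ X]

/-- M1: a general recursion lemma. -/
lemma exists_rec {Θ α : Type} [LinearOrder Θ] [WellFoundedLT Θ] [Nonempty α]
    (Q : Θ → (Θ → α) → α → Prop)
    (hcongr : ∀ τ f g s, (∀ e < τ, f e = g e) → Q τ f s → Q τ g s)
    (hstep : ∀ τ f, (∀ e < τ, Q e f (f e)) → ∃ s, Q τ f s) : ∃ f : Θ → α, ∀ τ, Q τ f (f τ) := by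
  classical
  have key : ∀ (τ : Θ) (f : Θ → α) (s : α),
      Q τ (fun k => if _ : k < τ then f k else Classical.arbitrary α) s ↔ Q τ f s := by
    intro τ f s
    constructor
    · intro h
      refine hcongr τ _ f s (fun e he => ?_) h
      simp [he]
    · intro h
      refine hcongr τ f _ s (fun e he => ?_) h
      simp [he]
  obtain ⟨f, hf⟩ := exists_wf_seq (ι := Θ) (W := α)
    (fun τ g s => Q τ (fun k => if h : k < τ then g k h else Classical.arbitrary α) s)
    (fun τ f hf => by
      obtain ⟨s, hs⟩ := hstep τ f (fun e he => (key e f (f e)).1 (hf e he))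
      exact ⟨s, (key τ f s).2 hs⟩)
  exact ⟨f, fun τ => (key τ f (f τ)).1 (hf τ)⟩

end Pool.CV
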