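import Pool.Agent.Lib.MP_cc7fb1_cf.M1

/-!
# MP_cc7fb1: the main recursion (row M2)
-/

set_option autoImplicit false
set_option linter.unusedSectionVars false

open Cardinal Set Pool.CF

namespace Pool.CV

variable {Θ X : Type} [LinearOrder Θ] [WellFoundedLT Θ] [D : SG Θ X]

private lemma M2_inj (x : X) {a b : Θ} (ha : a ∈ D.el x) (hb : b ∈ D.el x)
    (h : D.pi x a = D.pi x b) : a = b := by
  rcases lt_trichotomy a b with h1 | h1 | h1
  · exact absurd h (D.pi_mono x a ha b hb h1).ne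
  · exact h1
  · exact absurd h (D.pi_mono x b hb a ha h1).ne'

/-- M2: few elements of `Y.Q` are visible at `x`. -/
lemma mk_vis_lt {Y : OL Θ X} (hY : Y.OK) :
    ∀ᶠ x in (D.U : Filter X), #{q | q ∈ Y.Q ∧ Y.code q ∈ D.el x} < #(Iio D.la) := by
  obtain ⟨b, hb⟩ := D.bdd Y.a
  filter_upwards [D.fine b] with x hx
  have hlt : ∀ q ∈ Y.Q, Y.code q < b := fun q hq => hb _ (by
    rw [hY.C]
    exact ⟨q, hq, rfl⟩)
  refine lt_of_le_of_lt ?_ (D.la_init (D.pi x b) (D.pi_lt x b hx))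
  refine Cardinal.mk_le_of_injective
    (f := fun q : {q | q ∈ Y.Q ∧ Y.code q ∈ D.el x} =>
      (⟨D.pi x (Y.code q.1), D.pi_mono x _ q.2.2 b hx (hlt q.1 q.2.1)⟩ : Iio (D.pi x b))) ?_
  rintro ⟨q, hq1, hq2⟩ ⟨q', hq1', hq2'⟩ hqq
  have h1 : D.pi x (Y.code q) = D.pi x (Y.code q') := congrArg Subtype.val hqq
  exact Subtype.ext (hY.inj q hq1 q' hq1' (M2_inj x hq2 hq2' h1))

/-- M2: for `τ ∈ el x` few stages are visible. -/
lemma mk_vis_lt' (τ : Θ) : ∀ᶠ x in (D.U : Filter X), #{e | e < τ ∧ e ∈ D.el x} < #(Iio D.la) := by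
  filter_upwards [D.fine τ] with x hx
  refine lt_of_le_of_lt ?_ (D.la_init (D.pi x τ) (D.pi_lt x τ hx))
  refine Cardinal.mk_le_of_injective
    (f := fun e : {e | e < τ ∧ e ∈ D.el x} =>
      (⟨D.pi x e.1, D.pi_mono x _ e.2.2 τ hx e.2.1⟩ : Iio (D.pi x τ))) ?_
  rintro ⟨e, he1, he2⟩ ⟨e', he1', he2'⟩ hee
  exact Subtype.ext (M2_inj x he2 he2' (congrArg Subtype.val hee))

/-- M2: diagonal form of completeness and normality. -/
lemma diag {p : Θ → X → Prop} (h : ∀ a, ∀ᶠ x in (D.U : Filter X), p a x) :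
    ∀ᶠ x in (D.U : Filter X), ∀ a ∈ D.el x, p a x := Pool.CF.diag h

/-- M2: all elements of a level which are visible at `x`. -/
lemma diagQ {Y : OL Θ X} (hY : Y.OK) {p : LL Θ X → X → Prop}
    (h : ∀ q ∈ Y.Q, ∀ᶠ x in (D.U : Filter X), p q x) :
    ∀ᶠ x in (D.U : Filter X), ∀ q ∈ Y.Q, Y.code q ∈ D.el x → p q x := by
  have h1 : ∀ a, ∀ᶠ x in (D.U : Filter X), ∀ q ∈ Y.Q, Y.code q = a → p q x := by
    intro a
    by_cases hex : ∃ q ∈ Y.Q, Y.code q = a
    · obtain ⟨q, hq, hqa⟩ := hex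
      filter_upwards [h q hq] with x hx q' hq' hqa'
      rw [hY.inj q' hq' q hq (hqa'.trans hqa.symm)]
      exact hx
    · exact Filter.Eventually.of_forall fun x q hq hqa => absurd ⟨q, hq, hqa⟩ hex
  filter_upwards [diag h1] with x hx q hq hqx
  exact hx _ hqx q hq rfl

end Pool.CV
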