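import Pool.Agent.Lib.MP_cc7fb1_cf.M2

/-!
# MP_cc7fb1: the main recursion (row M3)
-/

set_option autoImplicit false
set_option linter.unusedSectionVars false

open Cardinal Set Pool.CF

namespace Pool.CV

variable {Θ X : Type} [LinearOrder Θ] [WellFoundedLT Θ] [D : SG Θ X]

private lemma M3_al {T : Θ → Θ → Set (BB Θ X)} {al₀ : Θ → Θ} {τ : Θ} {f : Θ → Stg Θ X}
    (hf : ∀ e < τ, SAt T al₀ e f (f e)) {Y : OL Θ X}
    (hlt : ∀ e : WithBot Θ, e < τ → Lt (lv f e) Y) {e : Θ} (he : e < τ) :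
    (f e).Y.al ≤ Y.al :=
  (hf e he).lt.al.trans (hlt (e : WithBot Θ) (WithBot.coe_lt_coe.2 he)).al

/-- M3: `pre` satisfies the formal requirements. -/
lemma pre_ok {T : Θ → Θ → Set (BB Θ X)} {al₀ : Θ → Θ} {τ : Θ} {f : Θ → Stg Θ X}
    (hf : ∀ e < τ, SAt T al₀ e f (f e)) {Y : OL Θ X} (hY : Y.OK)
    (hlt : ∀ e : WithBot Θ, e < τ → Lt (lv f e) Y)
    (hbase : ∀ l ∈ Y.Q, D.lab D.la ∈ (Y.sg l).lev) :
    ∀ᶠ x in (D.U : Filter X), NamOK (pre f τ Y x) ∧ NIn Y.al (pre f τ Y x) := by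
  have h1 : ∀ᶠ x in (D.U : Filter X), ∀ e ∈ D.el x, e < τ →
      NamOK ((f e).h x) ∧ Valid ⊤ ((f e).h x) ∧ NIn (f e).Y.al ((f e).h x) := by
    refine diag (p := fun e x => e < τ →
      NamOK ((f e).h x) ∧ Valid ⊤ ((f e).h x) ∧ NIn (f e).Y.al ((f e).h x)) fun e => ?_
    by_cases he : e < τ
    · filter_upwards [(hf e he).ok] with x hx _
      exact hx
    · exact Filter.Eventually.of_forall fun x h => absurd h he
  have h2 := diagQ hY (p := fun q x => ((Y.tp q).rx x).Low) fun q _ => Chn.rx_low (Y.tp q)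
  filter_upwards [h1, h2, mk_vis_lt hY, mk_vis_lt' (X := X) τ] with x hx1 hx2 hx3 hx4
  have hdec : pre f τ Y x = (⋃ e : {e | e < τ ∧ e ∈ D.el x}, (f e.1).h x) ∪
      ⋃ q : {q | q ∈ Y.Q ∧ Y.code q ∈ D.el x},
        {t : Chn Θ X × Θ × Θ × Θ | t.1 = (Y.tp q.1).rx x ∧ q.1.Dc t.2.1 t.2.2.1 t.2.2.2} := by
    ext t
    constructor
    · rintro (⟨e, he, hex, ht⟩ | ⟨q, hq, hqx, h3, h4⟩)
      · exact Or.inl (mem_iUnion.2 ⟨⟨e, he, hex⟩, ht⟩)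
      · exact Or.inr (mem_iUnion.2 ⟨⟨q, hq, hqx⟩, h3, h4⟩)
    · rintro (h | h)
      · obtain ⟨⟨e, he, hex⟩, ht⟩ := mem_iUnion.1 h
        exact Or.inl ⟨e, he, hex, ht⟩
      · obtain ⟨⟨q, hq, hqx⟩, h3, h4⟩ := mem_iUnion.1 h
        exact Or.inr ⟨q, hq, hqx, h3, h4⟩
  refine ⟨⟨?_, ?_, ?_, ?_⟩, ?_⟩
  · rw [hdec]
    refine (mk_union_le _ _).trans_lt (add_lt_of_lt D.la_reg.aleph0_le ?_ ?_)
    · refine (card_iUnion_lt_iff_forall_of_isRegular D.la_reg hx4).2 fun e => ?_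
      exact (hx1 e.1 e.2.2 e.2.1).1.card
    · refine (card_iUnion_lt_iff_forall_of_isRegular D.la_reg hx3).2 fun q => ?_
      refine (mk_le_mk_of_subset (t := (fun s : Chn Θ X × Θ × Θ × Θ => ((Y.tp q.1).rx x, s.2)) ''
        q.1.1.h) ?_).trans_lt (mk_image_le.trans_lt q.1.1.ok.card)
      rintro t ⟨h3, τ', h4, _⟩
      exact ⟨_, h4, Prod.ext h3.symm rfl⟩
  · rintro t (⟨e, he, hex, ht⟩ | ⟨q, hq, hqx, h3, h4⟩)
    · exact (hx1 e hex he).1.low t ht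
    · rw [h3]
      exact hx2 q hq hqx
  · rintro t (⟨e, he, hex, ht⟩ | ⟨q, hq, hqx, h3, τ', h4, _⟩)
    · exact (hx1 e hex he).1.pos t ht
    · exact q.1.ok.pos (τ', t.2.1, t.2.2.1, t.2.2.2) h4
  · rintro t (⟨e, he, hex, ht⟩ | ⟨q, hq, hqx, h3, τ', h4, _⟩)
    · exact (hx1 e hex he).1.v t ht
    · exact q.1.ok.v (τ', t.2.1, t.2.2.1, t.2.2.2) h4
  · rintro t (⟨e, he, hex, ht⟩ | ⟨q, hq, hqx, h3, τ', h4, _⟩)
    · exact ((hx1 e hex he).2.2 t ht).trans_le (M3_al hf hlt he)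
    · exact hY.good.inn q hq (τ', t.2.1, t.2.2.1, t.2.2.2) h4

end Pool.CV
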