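import Pool.Agent.Lib.MP_cc7fb1_cf.M3

/-!
# MP_cc7fb1: the main recursion (row M4)
-/

set_option autoImplicit false
set_option linter.unusedSectionVars false

open Cardinal Set Pool.CF

namespace Pool.CV

variable {Θ X : Type} [LinearOrder Θ] [WellFoundedLT Θ] [D : SG Θ X]

private lemma M4_cut_low (p : Chn Θ X) : (p.cut D.la).Low := by
  rintro b ⟨r, hr⟩
  exact hr.2

private lemma M4_cut_le {ρ p : Chn Θ X} (hp : p.Low) (h : ρ ≤ p) : ρ.cut D.la ≤ p := by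
  have h1 : p.cut D.la = p := by
    apply Chn.ext'
    ext s
    constructor
    · exact fun h => h.1
    · exact fun h => ⟨h, hp s.1 ⟨s.2, h⟩⟩
  have h2 := Chn.cut_mono D.la h
  rwa [h1] at h2

/-- If `(a, r) ∈ p` is below the cut then it is in the cut; parts of cuts are parts. -/
private lemma M4_mem {Y : OL Θ X} (hY : Y.OK) {l : LL Θ X} (hl : l ∈ Y.Q) {p : Chn Θ X}
    (h : (Y.a, Y.code l) ∈ p.v) {s : Θ × Θ} (hs : s ∈ (Y.sg l).v) : s ∈ p.v := by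
  rw [← hY.cut_eq hl h] at hs
  exact hs.1

/-- Two elements of the level. -/
private lemma M4_qq {Y : OL Θ X} (hY : Y.OK) {q q' : LL Θ X} (hq : q ∈ Y.Q) (hq' : q' ∈ Y.Q) :
    ∀ᶠ x in (D.U : Filter X), ∀ (be xi v v' : Θ) (ρ : Chn Θ X), q.Dc be xi v → q'.Dc be xi v' →
      ρ ≤ (Y.tp q).rx x → ρ ≤ (Y.tp q').rx x → v = v' := by
  by_contra hcon
  rw [← Ultrafilter.eventually_not] at hcon
  have h1 : ∀ᶠ x in (D.U : Filter X), ∃ ρ : Chn Θ X, ρ.Low ∧ ρ ≤ (Y.tp q).rx x ∧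
      ρ ≤ (Y.tp q').rx x ∧ ∃ be xi v v', q.Dc be xi v ∧ q'.Dc be xi v' ∧ v ≠ v' := by
    filter_upwards [hcon, Chn.rx_low (Y.tp q), Chn.rx_low (Y.tp q')] with x hx h2 h3
    push Not at hx
    obtain ⟨be, xi, v, v', ρ, h4, h5, h6, h7, h8⟩ := hx
    exact ⟨ρ.cut D.la, M4_cut_low _, M4_cut_le h2 h6, M4_cut_le h3 h7, be, xi, v, v', h4, h5, h8⟩
  obtain ⟨F, hF⟩ := h1.choice
  obtain ⟨x₀, hx₀⟩ := hF.exists
  obtain ⟨be, xi, v, v', h4, h5, h6⟩ := hx₀.2.2.2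
  obtain ⟨p, hp⟩ := Chn.rep F (hF.mono fun x hx => hx.1)
  have h7 : p ≤ Y.tp q := by
    rw [← Chn.rx_le]
    filter_upwards [hF, hp] with x h8 h9
    rw [← h9]
    exact h8.2.1
  have h8 : p ≤ Y.tp q' := by
    rw [← Chn.rx_le]
    filter_upwards [hF, hp] with x h8 h9
    rw [← h9]
    exact h8.2.2.1
  obtain ⟨l, hl, hle, hlc⟩ := (hY.le_tp_iff hq p).1 h7
  obtain ⟨l', hl', hle', hlc'⟩ := (hY.le_tp_iff hq' p).1 h8
  obtain rfl := hY.inj l hl l' hl' (p.ch.func _ _ _ hlc hlc')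
  exact h6 ((h4.mono hle).uniq (h5.mono hle'))

/-- An element of the level and an earlier stage. -/
private lemma M4_eq {T : Θ → Θ → Set (BB Θ X)} {al₀ : Θ → Θ} {τ : Θ} {f : Θ → Stg Θ X}
    (hf : ∀ e < τ, SAt T al₀ e f (f e)) {Y : OL Θ X} (hY : Y.OK)
    (hlt : ∀ e : WithBot Θ, e < τ → Lt (lv f e) Y) {e : Θ} (he : e < τ) {q : LL Θ X}
    (hq : q ∈ Y.Q) :
    ∀ᶠ x in (D.U : Filter X), ∀ (be xi v v' : Θ) (σ ρ : Chn Θ X), (σ, be, xi, v) ∈ (f e).h x →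
      q.Dc be xi v' → ρ ≤ σ → ρ ≤ (Y.tp q).rx x → v = v' := by
  by_contra hcon
  rw [← Ultrafilter.eventually_not] at hcon
  have hS := hf e he
  have hL : Lt (f e).Z Y := hlt (e : WithBot Θ) (WithBot.coe_lt_coe.2 he)
  -- the triple can be fixed
  let S : Set (Θ × Θ × Θ) := {t | q.Dc t.1 t.2.1 t.2.2}
  have hSc : #S < #(Iio D.la) := by
    refine (mk_le_mk_of_subset (t := (fun s : Chn Θ X × Θ × Θ × Θ => s.2) '' q.1.h)
      ?_).trans_lt (mk_image_le.trans_lt q.1.ok.card)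
    rintro t ⟨σ, h1, _⟩
    exact ⟨_, h1, rfl⟩
  obtain ⟨t, ht⟩ : ∃ t : S, ∀ᶠ x in (D.U : Filter X), ∃ (v : Θ) (σ ρ : Chn Θ X),
      (σ, t.1.1, t.1.2.1, v) ∈ (f e).h x ∧ ρ ≤ σ ∧ ρ ≤ (Y.tp q).rx x ∧ v ≠ t.1.2.2 := by
    by_contra h1
    rw [not_exists] at h1
    have h2 := D.compl S (fun t x => ¬ ∃ (v : Θ) (σ ρ : Chn Θ X),
      (σ, t.1.1, t.1.2.1, v) ∈ (f e).h x ∧ ρ ≤ σ ∧ ρ ≤ (Y.tp q).rx x ∧ v ≠ t.1.2.2) hSc
      (fun t => by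
        rw [Ultrafilter.eventually_not]
        exact h1 t)
    obtain ⟨x, hx, hx'⟩ := (hcon.and h2).exists
    push Not at hx
    obtain ⟨be, xi, v, v', σ, ρ, h4, h5, h6, h7, h8⟩ := hx
    exact hx' ⟨(be, xi, v'), h5⟩ ⟨v, σ, ρ, h4, h6, h7, h8⟩
  obtain ⟨⟨be, xi, v'⟩, hdc⟩ := t
  have hdc : q.Dc be xi v' := hdc
  have ht : ∀ᶠ x in (D.U : Filter X), ∃ (v : Θ) (σ ρ : Chn Θ X),
      (σ, be, xi, v) ∈ (f e).h x ∧ ρ ≤ σ ∧ ρ ≤ (Y.tp q).rx x ∧ v ≠ v' := ht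
  have h1 : ∀ᶠ x in (D.U : Filter X), ∃ ρ : Chn Θ X, ρ.Low ∧ ρ ≤ (Y.tp q).rx x ∧
      ∃ (v : Θ) (σ : Chn Θ X), (σ, be, xi, v) ∈ (f e).h x ∧ ρ ≤ σ ∧ v ≠ v' := by
    filter_upwards [ht, Chn.rx_low (Y.tp q), hS.ok] with x hx h2 h3
    obtain ⟨v, σ, ρ, h4, h5, h6, h7⟩ := hx
    exact ⟨ρ.cut D.la, M4_cut_low _, M4_cut_le h2 h6, v, σ, h4, M4_cut_le (h3.1.low _ h4) h5, h7⟩
  obtain ⟨F, hF⟩ := h1.choice
  have hbe : be < (f e).Y.al := by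
    obtain ⟨x, hx, hx'⟩ := (hF.and hS.ok).exists
    obtain ⟨v, σ, h2, _⟩ := hx.2.2
    exact hx'.2.2 _ h2
  obtain ⟨ρ, hρ⟩ := Chn.rep F (hF.mono fun x hx => hx.1)
  have h7 : ρ ≤ Y.tp q := by
    rw [← Chn.rx_le]
    filter_upwards [hF, hρ] with x h8 h9
    rw [← h9]
    exact h8.2.1
  -- lift
  obtain ⟨l, hl, hle, hlc⟩ := (hY.le_tp_iff hq ρ).1 h7
  obtain ⟨l', hl', hle', hla⟩ := hL.dense l (hY.good.inn l hl)
  obtain ⟨ρ', hρ', _, l'', hl'', hle'', hlc''⟩ := hY.lift hl hlc hl' hle'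
  have hla' : (f e).Z.a ∈ (Y.sg l'').lev := Chn.lev_mono (hY.good.mono l' hl' l'' hl'' hle'') hla
  obtain ⟨hz, hzc⟩ := hL.known l'' hl'' hla'
  have hzc' : ((f e).Z.a, (f e).Z.code (l''.res (f e).Z.al)) ∈ ρ'.v := M4_mem hY hl'' hlc'' hzc
  obtain ⟨hy, hyc⟩ := hS.lt.known _ hz (hS.lev _ hz)
  rw [LL.res_res hS.lt.al] at hy hyc
  have hyc' : ((f e).Y.a, (f e).Y.code (l''.res (f e).Y.al)) ∈ ρ'.v := M4_mem hS.okZ hz hzc' hyc
  have h8 : ρ' ≤ (f e).Y.tp (l''.res (f e).Y.al) :=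
    (hS.okY.le_tp_iff hy ρ').2 ⟨_, hy, le_rfl, hyc'⟩
  have h9 : (l''.res (f e).Y.al).Dc be xi v' := (hdc.mono ((hle''.trans hle').trans hle)).res hbe
  obtain ⟨x, ⟨⟨⟨⟨⟨g1, g2⟩, g3⟩, g4⟩, g5⟩, g6⟩, g7⟩ := (((((hF.and hρ).and hS.ok).and hS.mst).and
    ((Chn.rx_le ρ' _).2 h8)).and ((Chn.rx_le ρ' ρ).2 hρ')).and
    (D.fine ((f e).Y.code (l''.res (f e).Y.al))) |>.exists
  obtain ⟨v, σ, k1, k2, k3⟩ := g1.2.2
  have k4 : (((f e).Y.tp (l''.res (f e).Y.al)).rx x, be, xi, v') ∈ (f e).h x :=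
    g4 ⟨_, hy, g7, rfl, h9⟩
  rw [g2] at k2
  exact k3 (g3.2.1 _ _ _ _ _ _ k1 k4 (ρ'.rx x) le_top (g6.trans k2) g5)

/-- M4: `pre` is a partial function. -/
lemma pre_valid {T : Θ → Θ → Set (BB Θ X)} {al₀ : Θ → Θ} {τ : Θ} {f : Θ → Stg Θ X}
    (hf : ∀ e < τ, SAt T al₀ e f (f e)) {Y : OL Θ X} (hY : Y.OK)
    (hlt : ∀ e : WithBot Θ, e < τ → Lt (lv f e) Y)
    (hbase : ∀ l ∈ Y.Q, D.lab D.la ∈ (Y.sg l).lev) :
    ∀ᶠ x in (D.U : Filter X), Valid ⊤ (pre f τ Y x) := by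
  -- stages
  have h1 : ∀ᶠ x in (D.U : Filter X), ∀ e ∈ D.el x, e < τ → Valid ⊤ ((f e).h x) := by
    refine diag (p := fun e x => e < τ → Valid ⊤ ((f e).h x)) fun e => ?_
    by_cases he : e < τ
    · filter_upwards [(hf e he).ok] with x hx _
      exact hx.2.1
    · exact Filter.Eventually.of_forall fun x h => absurd h he
  have h2 : ∀ᶠ x in (D.U : Filter X), ∀ e ∈ D.el x, ∀ e' ∈ D.el x, e < τ → e' < e →
      (f e').h x ⊆ (f e).h x := by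
    refine diag (p := fun e x => ∀ e' ∈ D.el x, e < τ → e' < e → (f e').h x ⊆ (f e).h x)
      fun e => ?_
    refine diag (p := fun e' x => e < τ → e' < e → (f e').h x ⊆ (f e).h x) fun e' => ?_
    by_cases he : e < τ
    · by_cases he' : e' < e
      · filter_upwards [(hf e he).sub e' he'] with x hx _ _
        exact hx
      · exact Filter.Eventually.of_forall fun x _ h => absurd h he'
    · exact Filter.Eventually.of_forall fun x h => absurd h he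
  -- elements
  have h3 : ∀ᶠ x in (D.U : Filter X), ∀ q ∈ Y.Q, Y.code q ∈ D.el x → ∀ q' ∈ Y.Q,
      Y.code q' ∈ D.el x → ∀ (be xi v v' : Θ) (ρ : Chn Θ X), q.Dc be xi v → q'.Dc be xi v' →
      ρ ≤ (Y.tp q).rx x → ρ ≤ (Y.tp q').rx x → v = v' :=
    diagQ hY (p := fun q x => ∀ q' ∈ Y.Q,
      Y.code q' ∈ D.el x → ∀ (be xi v v' : Θ) (ρ : Chn Θ X), q.Dc be xi v → q'.Dc be xi v' →
      ρ ≤ (Y.tp q).rx x → ρ ≤ (Y.tp q').rx x → v = v') fun q hq =>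
      diagQ hY (p := fun q' x => ∀ (be xi v v' : Θ) (ρ : Chn Θ X), q.Dc be xi v →
        q'.Dc be xi v' → ρ ≤ (Y.tp q).rx x → ρ ≤ (Y.tp q').rx x → v = v') fun q' hq' =>
        M4_qq hY hq hq'
  -- mixed pairs
  have h4 : ∀ᶠ x in (D.U : Filter X), ∀ e ∈ D.el x, e < τ → ∀ q ∈ Y.Q, Y.code q ∈ D.el x →
      ∀ (be xi v v' : Θ) (σ ρ : Chn Θ X), (σ, be, xi, v) ∈ (f e).h x →
      q.Dc be xi v' → ρ ≤ σ → ρ ≤ (Y.tp q).rx x → v = v' := by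
    refine diag (p := fun e x => e < τ → ∀ q ∈ Y.Q, Y.code q ∈ D.el x →
      ∀ (be xi v v' : Θ) (σ ρ : Chn Θ X), (σ, be, xi, v) ∈ (f e).h x →
      q.Dc be xi v' → ρ ≤ σ → ρ ≤ (Y.tp q).rx x → v = v') fun e => ?_
    by_cases he : e < τ
    · filter_upwards [diagQ hY (p := fun q x =>
        ∀ (be xi v v' : Θ) (σ ρ : Chn Θ X), (σ, be, xi, v) ∈ (f e).h x →
        q.Dc be xi v' → ρ ≤ σ → ρ ≤ (Y.tp q).rx x → v = v')
        (fun q hq => M4_eq hf hY hlt he hq)] with x hx _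
      exact hx
    · exact Filter.Eventually.of_forall fun x h => absurd h he
  filter_upwards [h1, h2, h3, h4] with x g1 g2 g3 g4
  intro σ σ' be xi v v' ht ht' ρ _ hρ hρ'
  rcases ht with ⟨e, he, hex, ht⟩ | ⟨q, hq, hqx, k1, k2⟩
  · rcases ht' with ⟨e', he', hex', ht'⟩ | ⟨q', hq', hqx', k1', k2'⟩
    · rcases lt_trichotomy e e' with h | h | h
      · exact g1 e' hex' he' _ _ _ _ _ _ (g2 e' hex' e hex he' h ht) ht' ρ le_top hρ hρ'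
      · subst h
        exact g1 e hex he _ _ _ _ _ _ ht ht' ρ le_top hρ hρ'
      · exact g1 e hex he _ _ _ _ _ _ ht (g2 e hex e' hex' he h ht') ρ le_top hρ hρ'
    · have k1' : σ' = (Y.tp q').rx x := k1'
      rw [k1'] at hρ'
      exact g4 e hex he q' hq' hqx' be xi v v' σ ρ ht k2' hρ hρ'
  · have k1 : σ = (Y.tp q).rx x := k1
    rw [k1] at hρ
    rcases ht' with ⟨e', he', hex', ht'⟩ | ⟨q', hq', hqx', k1', k2'⟩
    · exact (g4 e' hex' he' q hq hqx be xi v' v σ' ρ ht' k2 hρ' hρ).symm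
    · have k1' : σ' = (Y.tp q').rx x := k1'
      rw [k1'] at hρ'
      exact g3 q hq hqx q' hq' hqx' be xi v v' ρ k2 k2' hρ hρ'

end Pool.CV
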