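import Pool.Agent.Lib.MP_cc7fb1_cf.M4

/-!
# MP_cc7fb1: the main recursion (row M5)
-/

set_option autoImplicit false
set_option linter.unusedSectionVars false

open Cardinal Set Pool.CF

namespace Pool.CV

variable {Θ X : Type} [LinearOrder Θ] [WellFoundedLT Θ] [D : SG Θ X]

private lemma M5_det {al al' : Θ} (h : al ≤ al') {T : Set (BB Θ X)} (hT : Det al T) :
    Det al' T := by
  intro b
  have h1 : (b.res al').res al = b.res al := by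
    refine BB.ext' rfl ?_
    ext t
    constructor
    · rintro ⟨⟨h2, _⟩, h3⟩
      exact ⟨h2, h3⟩
    · rintro ⟨h2, h3⟩
      exact ⟨⟨h2, h3.trans_le h⟩, h3⟩
  rw [hT b, hT (b.res al'), h1]

/-- M5: processing at almost all `x`. -/
lemma star_processing {al : Θ} (T : Θ → Set (BB Θ X)) (hT : ∀ xi, OpenD (T xi))
    (hdet : ∀ xi, Det al (T xi)) {Y : OL Θ X} (hY : Y.OK) (hal : al ≤ Y.al) {g : X → Nam Θ X}
    (hg : ∀ᶠ x in (D.U : Filter X), NamOK (g x) ∧ Valid ⊤ (g x) ∧ NIn Y.al (g x)) :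
    ∃ h : X → Nam Θ X, (∀ᶠ x in (D.U : Filter X), NamOK (h x) ∧ Valid ⊤ (h x) ∧ NIn Y.al (h x)) ∧
      (∀ᶠ x in (D.U : Filter X), g x ⊆ h x) ∧ ∀ q ∈ Y.Q, ∃ p ≤ Y.tp q, InT T p h := by
  have h1 : ∀ᶠ x in (D.U : Filter X), ∃ h' : Nam Θ X, NamOK h' ∧ Valid ⊤ h' ∧ NIn Y.al h' ∧
      g x ⊆ h' ∧ ∀ q ∈ Y.Q, Y.code q ∈ D.el x →
        ∃ b ∈ T (D.pi x D.la), b.s ≤ (Y.tp q).rx x ∧ b.h = h' := by
    filter_upwards [hg, mk_vis_lt hY, diagQ hY (p := fun q x => ((Y.tp q).rx x).Low)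
      (fun q _ => Chn.rx_low (Y.tp q))] with x hx h2 h3
    obtain ⟨h', k1, k2, k3, k4, k5⟩ := processing (al := Y.al)
      (ι := {q | q ∈ Y.Q ∧ Y.code q ∈ D.el x}) h2 (fun _ => T (D.pi x D.la)) (fun _ => hT _)
      (fun _ => M5_det hal (hdet _)) (fun q => (Y.tp q.1).rx x) (fun q => h3 q.1 q.2.1 q.2.2)
      hx.1 hx.2.1 hx.2.2
    exact ⟨h', k1, k2, k3, k4, fun q hq hqx => k5 ⟨q, hq, hqx⟩⟩
  obtain ⟨h, hh⟩ := h1.choice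
  refine ⟨h, hh.mono fun x hx => ⟨hx.1, hx.2.1, hx.2.2.1⟩, hh.mono fun x hx => hx.2.2.2.1,
    fun q hq => ?_⟩
  have h2 : ∀ᶠ x in (D.U : Filter X), ∃ b : BB Θ X, b ∈ T (D.pi x D.la) ∧
      b.s ≤ (Y.tp q).rx x ∧ b.h = h x := by
    filter_upwards [hh, D.fine (Y.code q)] with x hx hqx
    obtain ⟨b, k1, k2, k3⟩ := hx.2.2.2.2 q hq hqx
    exact ⟨b, k1, k2, k3⟩
  obtain ⟨x₀, b₀, _⟩ := h2.exists
  have : Nonempty (BB Θ X) := ⟨b₀⟩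
  obtain ⟨F, hF⟩ := h2.choice
  obtain ⟨p, hp⟩ := Chn.rep (fun x => (F x).s) (Filter.Eventually.of_forall fun x => (F x).low)
  refine ⟨p, ?_, ?_⟩
  · rw [← Chn.rx_le]
    filter_upwards [hF, hp] with x k1 k2
    rw [← k2]
    exact k1.2.1
  · filter_upwards [hF, hp] with x k1 k2
    exact ⟨F x, k1.1, k2, k1.2.2⟩

/-- M5: the chains `p` with `InT T p h` form an open set. -/
lemma inT_mono {T : Θ → Set (BB Θ X)} (hT : ∀ xi, ∀ b ∈ T xi, ∀ b' ≤ b, b' ∈ T xi)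
    {h : X → Nam Θ X} {p q : Chn Θ X} (hp : InT T p h) (hq : q ≤ p) : InT T q h := by
  filter_upwards [hp, (Chn.rx_le q p).2 hq, Chn.rx_low q] with x hx h1 h2
  obtain ⟨b, hb, h3, h4⟩ := hx
  rw [← h3] at h1
  let b' : BB Θ X := ⟨q.rx x, b.h, h2, b.ok, fun τ τ' be xi v v' k1 k2 ρ k3 k4 k5 =>
    b.val τ τ' be xi v v' k1 k2 ρ (k3.trans h1) k4 k5⟩
  exact ⟨b', hT _ b hb b' ⟨h1, Subset.rfl⟩, rfl, h4⟩

end Pool.CV
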