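import Pool.Agent.Lib.MP_cc7fb1_cf.M5

/-!
# MP_cc7fb1: the main recursion (row M6)
-/

set_option autoImplicit false
set_option linter.unusedSectionVars false

open Cardinal Set Pool.CF

namespace Pool.CV

variable {Θ X : Type} [LinearOrder Θ] [WellFoundedLT Θ] [D : SG Θ X]

/-- M6: one stage. -/
lemma exists_stage {T : Θ → Θ → Set (BB Θ X)} {al₀ : Θ → Θ} (hT : ∀ τ xi, OpenD (T τ xi))
    (hdet : ∀ τ xi, Det (al₀ τ) (T τ xi)) (τ : Θ) (f : Θ → Stg Θ X)
    (hf : ∀ e < τ, SAt T al₀ e f (f e)) : ∃ s, SAt T al₀ τ f s := by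
  have hok : ∀ e : WithBot Θ, e < τ → (lv f e).OK := by
    intro e he
    cases e with
    | bot => exact F0_ok
    | coe e => exact (hf e (WithBot.coe_lt_coe.1 he)).okZ
  have hlt : ∀ e e' : WithBot Θ, e < e' → e' < τ → Lt (lv f e) (lv f e') := by
    intro e e' hee he
    cases e' with
    | bot => exact absurd hee not_lt_bot
    | coe e' => exact (hf e' (WithBot.coe_lt_coe.1 he)).ltZ e hee
  obtain ⟨Y, hY, hal, hltY, hbase⟩ := exists_list τ (lv f) hok hlt (max (al₀ τ) τ)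
  have hbase' : ∀ l ∈ Y.Q, D.lab D.la ∈ (Y.sg l).lev := hbase
  obtain ⟨h, hh, hsub, htask⟩ := star_processing (T τ) (hT τ) (hdet τ) hY
    ((le_max_left _ _).trans hal) (g := pre f τ Y) (by
      filter_upwards [pre_ok hf hY hltY hbase', pre_valid hf hY hltY hbase'] with x h1 h2
      exact ⟨h1.1, h2, h1.2⟩)
  have hop : ∀ p ∈ {p | InT (T τ) p h}, ∀ q ≤ p, q ∈ {p | InT (T τ) p h} := fun p hp q hq =>
    inT_mono (fun xi b hb b' hb' => (hT τ xi).wk b hb b' (BB.Wk.of_le hb')) hp hq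
  obtain ⟨Z, hZ, hltZ, hlev, hZD⟩ := exists_step Y hY {p | InT (T τ) p h} hop (fun q hq => by
    obtain ⟨p, hp1, hp2⟩ := htask q hq
    exact ⟨p, hp2, hp1⟩)
  refine ⟨⟨Y, Z, h⟩, ?_⟩
  exact {
    okY := hY
    okZ := hZ
    al₀ := (le_max_left _ _).trans hal
    al := (le_max_right _ _).trans hal
    lt := hltZ
    lev := hlev
    base := hbase'
    ltY := hltY
    ltZ := fun e he => Lt.trans hZ hY (hltY e he) hltZ hlev
    ok := hh
    sub := fun e he => by
      filter_upwards [D.fine e, hsub] with x hx hx' t ht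
      exact hx' (Or.inl ⟨e, he, hx, ht⟩)
    mst := by
      filter_upwards [hsub] with x hx t ht
      exact hx (Or.inr ht)
    task := fun l hl => hop _ (hZD l hl) _ (hZ.tp_le hl) }

/-- M6: the main recursion. -/
theorem main_rec {T : Θ → Θ → Set (BB Θ X)} {al₀ : Θ → Θ} (hT : ∀ τ xi, OpenD (T τ xi))
    (hdet : ∀ τ xi, Det (al₀ τ) (T τ xi)) : ∃ f : Θ → Stg Θ X, ∀ τ, SAt T al₀ τ f (f τ) := by
  have : Nonempty (Stg Θ X) := ⟨⟨F0 Θ X, F0 Θ X, fun _ => ∅⟩⟩
  refine exists_rec (fun τ f s => SAt T al₀ τ f s) (fun τ f g s hfg hs => ?_)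
    (fun τ f hf => exists_stage hT hdet τ f hf)
  have hlv : ∀ e : WithBot Θ, e < τ → lv f e = lv g e := by
    intro e he
    cases e with
    | bot => rfl
    | coe e =>
      have := hfg e (WithBot.coe_lt_coe.1 he)
      show (f e).Z = (g e).Z
      rw [this]
  exact {
    okY := hs.okY
    okZ := hs.okZ
    al₀ := hs.al₀
    al := hs.al
    lt := hs.lt
    lev := hs.lev
    base := hs.base
    ltY := fun e he => hlv e he ▸ hs.ltY e he
    ltZ := fun e he => hlv e he ▸ hs.ltZ e he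
    ok := hs.ok
    sub := fun e he => hfg e he ▸ hs.sub e he
    mst := hs.mst
    task := hs.task }

end Pool.CV
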