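import Pool.Agent.Lib.MP_cc7fb1_cf.Post

/-!
# MP_cc7fb1: order properties of the posets (row O1)
-/

set_option autoImplicit false
set_option linter.unusedSectionVars false

open Cardinal Set Pool.CF

namespace Pool.CV

variable {Θ X : Type} [LinearOrder Θ] [WellFoundedLT Θ] [D : SG Θ X]

/-- The image of a directed set under a monotone map. -/
private lemma O1_dir {P Q : Type} [PartialOrder P] [PartialOrder Q] {f : P → Q}
    (hf : Monotone f) {E : Set P} (hd : Dir E) : Dir (f '' E) := by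
  rintro _ ⟨a, ha, rfl⟩ _ ⟨b, hb, rfl⟩
  obtain ⟨c, hc, h1, h2⟩ := hd a ha b hb
  exact ⟨f c, ⟨c, hc, rfl⟩, hf h1, hf h2⟩

private lemma O1_s_mono : Monotone (fun b : BB Θ X => b.s) := fun _ _ h => h.1

/-- O1. Small directed sets of conditions have a greatest lower bound, computed
componentwise. -/
lemma BB.exists_glb {E : Set (BB Θ X)} (hne : E.Nonempty) (hc : #E < D.κ) (hd : Dir E) :
    ∃ g : BB Θ X, IsGLB E g ∧ IsGLB ((fun b : BB Θ X => b.s) '' E) g.s ∧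
      g.h = ⋃ b ∈ E, b.h := by
  have hne' : ((fun b : BB Θ X => b.s) '' E).Nonempty := hne.image _
  have hc' : #((fun b : BB Θ X => b.s) '' E) < D.κ := mk_image_le.trans_lt hc
  have hd' : Dir ((fun b : BB Θ X => b.s) '' E) := O1_dir O1_s_mono hd
  obtain ⟨s, hs⟩ := Chn.dg _ hne' hc' hd'
  have hlow : s.Low := Chn.low_glb hne' hc' hd' hs (by rintro _ ⟨b, _, rfl⟩; exact b.low)
  have hmem : ∀ {t : Chn Θ X × Θ × Θ × Θ}, t ∈ ⋃ b ∈ E, b.h ↔ ∃ b ∈ E, t ∈ b.h := by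
    intro t
    simp only [mem_iUnion, exists_prop]
  refine ⟨⟨s, ⋃ b ∈ E, b.h, hlow, ⟨?_, ?_, ?_, ?_⟩, ?_⟩, ⟨?_, ?_⟩, hs, rfl⟩
  · exact (card_biUnion_lt_iff_forall_of_isRegular D.la_reg (hc.trans D.κ_lt)).2
      fun b _ => b.ok.card
  · intro t ht
    obtain ⟨b, _, h⟩ := hmem.1 ht
    exact b.ok.low t h
  · intro t ht
    obtain ⟨b, _, h⟩ := hmem.1 ht
    exact b.ok.pos t h
  · intro t ht
    obtain ⟨b, _, h⟩ := hmem.1 ht
    exact b.ok.v t h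
  · intro τ τ' be xi v v' h h' ρ h1 h2 h3
    obtain ⟨b, hb, k⟩ := hmem.1 h
    obtain ⟨b', hb', k'⟩ := hmem.1 h'
    obtain ⟨c, hcE, c1, c2⟩ := hd b hb b' hb'
    exact c.val τ τ' be xi v v' (c1.2 k) (c2.2 k') ρ (h1.trans (hs.1 ⟨c, hcE, rfl⟩)) h2 h3
  · intro b hb
    exact ⟨hs.1 ⟨b, hb, rfl⟩, fun t ht => hmem.2 ⟨b, hb, ht⟩⟩
  · intro m hm
    refine ⟨hs.2 ?_, ?_⟩
    · rintro _ ⟨b, hb, rfl⟩
      exact (hm hb).1
    · intro t ht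
      obtain ⟨b, hb, h⟩ := hmem.1 ht
      exact (hm hb).2 h

/-- O1. -/
lemma R0.exists_glb {E : Set (R0 Θ X)} (hne : E.Nonempty) (hc : #E < D.κ) (hd : Dir E) :
    ∃ g : R0 Θ X, IsGLB E g ∧ g.c = ⋃ b ∈ E, b.c := by
  have hmem : ∀ {t : Θ}, t ∈ ⋃ b ∈ E, b.c ↔ ∃ b ∈ E, t ∈ b.c := by
    intro t
    simp only [mem_iUnion, exists_prop]
  refine ⟨⟨⋃ b ∈ E, b.c, ?_, ?_⟩, ⟨?_, ?_⟩, rfl⟩
  · intro t ht
    obtain ⟨b, _, h⟩ := hmem.1 ht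
    exact b.sub t h
  · exact (card_biUnion_lt_iff_forall_of_isRegular D.κ_reg hc).2 fun b _ => b.card
  · intro b hb
    refine ⟨fun t ht => hmem.2 ⟨b, hb, ht⟩, fun g hg hgb g' hg' => ?_⟩
    obtain ⟨b', hb', h⟩ := hmem.1 hg
    obtain ⟨c, hcE, c1, c2⟩ := hd b hb b' hb'
    exact c1.2 g (c2.1 h) hgb g' hg'
  · intro m hm
    refine ⟨fun t ht => ?_, fun g hg hgn g' hg' => ?_⟩
    · obtain ⟨b, hb, h⟩ := hmem.1 ht
      exact (hm hb).1 h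
    · obtain ⟨b, hb, h⟩ := hmem.1 hg'
      exact (hm hb).2 g hg (fun h' => hgn (hmem.2 ⟨b, hb, h'⟩)) g' h

private lemma O1_fst {E : Set (LL Θ X)} (hne : E.Nonempty) (hc : #E < D.κ) (hd : Dir E) :
    (Prod.fst '' E).Nonempty ∧ #(Prod.fst '' E : Set (BB Θ X)) < D.κ ∧
      Dir (Prod.fst '' E : Set (BB Θ X)) :=
  ⟨hne.image _, mk_image_le.trans_lt hc, O1_dir monotone_fst hd⟩

private lemma O1_snd {E : Set (LL Θ X)} (hne : E.Nonempty) (hc : #E < D.κ) (hd : Dir E) :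
    (Prod.snd '' E).Nonempty ∧ #(Prod.snd '' E : Set (R0 Θ X)) < D.κ ∧
      Dir (Prod.snd '' E : Set (R0 Θ X)) :=
  ⟨hne.image _, mk_image_le.trans_lt hc, O1_dir monotone_snd hd⟩

/-- O1. -/
lemma LL.exists_glb {E : Set (LL Θ X)} (hne : E.Nonempty) (hc : #E < D.κ) (hd : Dir E) :
    ∃ g : LL Θ X, IsGLB E g := by
  obtain ⟨a1, a2, a3⟩ := O1_fst hne hc hd
  obtain ⟨b1, b2, b3⟩ := O1_snd hne hc hd
  obtain ⟨g1, h1, -⟩ := BB.exists_glb a1 a2 a3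
  obtain ⟨g2, h2, -⟩ := R0.exists_glb b1 b2 b3
  exact ⟨(g1, g2), isGLB_prod.2 ⟨h1, h2⟩⟩

/-- O1. -/
lemma LL.dg : DG D.κ (LL Θ X) := fun _ hne hc hd => LL.exists_glb hne hc hd

/-- O1. -/
lemma BB.dg : DG D.κ (BB Θ X) := fun _ hne hc hd => by
  obtain ⟨g, hg, -⟩ := BB.exists_glb hne hc hd
  exact ⟨g, hg⟩

/-- O1. -/
lemma LL.glb_s {E : Set (LL Θ X)} (hne : E.Nonempty) (hc : #E < D.κ) (hd : Dir E) {g : LL Θ X}
    (hg : IsGLB E g) : IsGLB ((fun l : LL Θ X => l.1.s) '' E) g.1.s := by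
  obtain ⟨a1, a2, a3⟩ := O1_fst hne hc hd
  obtain ⟨g1, h1, h2, -⟩ := BB.exists_glb a1 a2 a3
  have h3 : g1 = g.1 := h1.unique (isGLB_prod.1 hg).1
  rw [h3, image_image] at h2
  exact h2

/-- O1. -/
lemma LL.glb_h {E : Set (LL Θ X)} (hne : E.Nonempty) (hc : #E < D.κ) (hd : Dir E) {g : LL Θ X}
    (hg : IsGLB E g) (t : Chn Θ X × Θ × Θ × Θ) : t ∈ g.1.h ↔ ∃ l ∈ E, t ∈ l.1.h := by
  obtain ⟨a1, a2, a3⟩ := O1_fst hne hc hd
  obtain ⟨g1, h1, -, h2⟩ := BB.exists_glb a1 a2 a3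
  have h3 : g1 = g.1 := h1.unique (isGLB_prod.1 hg).1
  rw [h3] at h2
  rw [h2]
  simp only [mem_iUnion, exists_prop, mem_image, exists_exists_and_eq_and]

/-- O1. -/
lemma LL.glb_c {E : Set (LL Θ X)} (hne : E.Nonempty) (hc : #E < D.κ) (hd : Dir E) {g : LL Θ X}
    (hg : IsGLB E g) (a : Θ) : a ∈ g.2.c ↔ ∃ l ∈ E, a ∈ l.2.c := by
  obtain ⟨a1, a2, a3⟩ := O1_snd hne hc hd
  obtain ⟨g1, h1, h2⟩ := R0.exists_glb a1 a2 a3
  have h3 : g1 = g.2 := h1.unique (isGLB_prod.1 hg).2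
  rw [h3] at h2
  rw [h2]
  simp only [mem_iUnion, exists_prop, mem_image, exists_exists_and_eq_and]

end Pool.CV
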