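import Pool.Agent.Lib.MP_cc7fb1_cf.O1

/-!
# MP_cc7fb1: order properties of the posets (row O2)
-/

set_option autoImplicit false
set_option linter.unusedSectionVars false

open Cardinal Set Pool.CF

namespace Pool.CV

variable {Θ X : Type} [LinearOrder Θ] [WellFoundedLT Θ] [D : SG Θ X]

/-- O2. -/
lemma LL.le_res (al : Θ) (l : LL Θ X) : l ≤ l.res al :=
  ⟨⟨le_rfl, fun _ ht => ht.1⟩, le_rfl⟩

/-- O2. -/
lemma LL.res_mono (al : Θ) {l l' : LL Θ X} (h : l ≤ l') : l.res al ≤ l'.res al :=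
  ⟨⟨h.1.1, fun _ ht => ⟨h.1.2 ht.1, ht.2⟩⟩, h.2⟩

/-- O2. -/
lemma LL.res_in (al : Θ) (l : LL Θ X) : (l.res al).In al := fun _ ht => ht.2

private lemma O2_nres {al : Θ} {h : Nam Θ X} (hh : NIn al h) : nres al h = h :=
  Subset.antisymm (fun _ ht => ht.1) fun t ht => ⟨ht, hh t ht⟩

/-- O2. -/
lemma LL.res_of_in {al : Θ} {l : LL Θ X} (h : l.In al) : l.res al = l :=
  Prod.ext (BB.ext' rfl (O2_nres h)) rfl

/-- O2. -/
lemma LL.res_res {al al' : Θ} (h : al ≤ al') (l : LL Θ X) : (l.res al').res al = l.res al :=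
  Prod.ext (BB.ext' rfl (Subset.antisymm (fun _ ht => ⟨ht.1.1, ht.2⟩)
    fun _ ht => ⟨⟨ht.1, lt_of_lt_of_le ht.2 h⟩, ht.2⟩)) rfl

/-- O2. -/
lemma LL.In.mono {al al' : Θ} (h : al ≤ al') {l : LL Θ X} (hl : l.In al) : l.In al' :=
  fun t ht => lt_of_lt_of_le (hl t ht) h

/-- O2. -/
lemma LL.res_glb {E : Set (LL Θ X)} (hne : E.Nonempty) (hc : #E < D.κ) (hd : Dir E) {g : LL Θ X}
    (hg : IsGLB E g) (al : Θ) : IsGLB (LL.res al '' E) (g.res al) := by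
  constructor
  · rintro _ ⟨l, hl, rfl⟩
    exact LL.res_mono al (hg.1 hl)
  · intro m hm
    have h1 : ∀ l ∈ E, m ≤ l.res al := fun l hl => hm ⟨l, hl, rfl⟩
    refine ⟨⟨(LL.glb_s hne hc hd hg).2 ?_, ?_⟩, (isGLB_prod.1 hg).2.2 ?_⟩
    · rintro _ ⟨l, hl, rfl⟩
      exact (h1 l hl).1.1
    · rintro t ⟨ht, hlt⟩
      obtain ⟨l, hl, h2⟩ := (LL.glb_h hne hc hd hg t).1 ht
      exact (h1 l hl).1.2 ⟨h2, hlt⟩
    · rintro _ ⟨l, hl, rfl⟩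
      exact (h1 l hl).2

/-- O2. -/
lemma LL.in_glb {E : Set (LL Θ X)} (hne : E.Nonempty) (hc : #E < D.κ) (hd : Dir E) {g : LL Θ X}
    (hg : IsGLB E g) {al : Θ} (h : ∀ l ∈ E, l.In al) : g.In al := by
  intro t ht
  obtain ⟨l, hl, h2⟩ := (LL.glb_h hne hc hd hg t).1 ht
  exact h l hl t h2

/-- O2: the same in `BB`. -/
lemma BB.amal {al : Θ} {k l : BB Θ X} (hk : k.In al) (hle : k ≤ l.res al) :
    ∃ m : BB Θ X, m ≤ k ∧ m ≤ l ∧ m.res al = k ∧ m.s = k.s ∧ m.h = k.h ∪ l.h := by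
  have hs : k.s ≤ l.s := hle.1
  have hlk : ∀ t ∈ l.h, t.2.1 < al → t ∈ k.h := fun t ht h => hle.2 ⟨ht, h⟩
  refine ⟨⟨k.s, k.h ∪ l.h, k.low, ⟨?_, ?_, ?_, ?_⟩, ?_⟩, ?_, ?_, ?_, rfl, rfl⟩
  · exact (mk_union_le _ _).trans_lt (add_lt_of_lt D.la_reg.aleph0_le k.ok.card l.ok.card)
  · exact fun t ht => ht.elim (k.ok.low t) (l.ok.low t)
  · exact fun t ht => ht.elim (k.ok.pos t) (l.ok.pos t)
  · exact fun t ht => ht.elim (k.ok.v t) (l.ok.v t)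
  · intro τ τ' be xi v v' h h' ρ h1 h2 h3
    by_cases hbe : be < al
    · have k1 : (τ, be, xi, v) ∈ k.h := h.elim id fun h => hlk _ h hbe
      have k2 : (τ', be, xi, v') ∈ k.h := h'.elim id fun h => hlk _ h hbe
      exact k.val τ τ' be xi v v' k1 k2 ρ h1 h2 h3
    · have k1 : (τ, be, xi, v) ∈ l.h := h.elim (fun h => absurd (hk _ h) hbe) id
      have k2 : (τ', be, xi, v') ∈ l.h := h'.elim (fun h => absurd (hk _ h) hbe) id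
      exact l.val τ τ' be xi v v' k1 k2 ρ (h1.trans hs) h2 h3
  · exact ⟨le_rfl, subset_union_left⟩
  · exact ⟨hs, subset_union_right⟩
  · refine BB.ext' rfl (Subset.antisymm ?_ fun t ht => ⟨Or.inl ht, hk t ht⟩)
    rintro t ⟨ht | ht, h⟩
    · exact ht
    · exact hlk t ht h

/-- O2: the amalgam of `k` and `l`. -/
lemma LL.amal {al : Θ} {k l : LL Θ X} (hk : k.In al) (hle : k ≤ l.res al) :
    ∃ m : LL Θ X, m ≤ k ∧ m ≤ l ∧ m.res al = k ∧ m.1.s = k.1.s ∧ m.1.h = k.1.h ∪ l.1.h ∧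
      m.2 = k.2 := by
  obtain ⟨m, h1, h2, h3, h4, h5⟩ := BB.amal (k := k.1) (l := l.1) hk hle.1
  exact ⟨(m, k.2), ⟨h1, le_rfl⟩, ⟨h2, hle.2⟩, Prod.ext h3 rfl, h4, h5, rfl⟩

/-- O2: the amalgam with a chain: `σ ≤ l.1.s` low. -/
lemma LL.with_s {l : LL Θ X} {σ : Chn Θ X} (hσ : σ.Low) (hle : σ ≤ l.1.s) :
    ∃ m : LL Θ X, m ≤ l ∧ m.1.s = σ ∧ m.1.h = l.1.h ∧ m.2 = l.2 :=
  ⟨(⟨σ, l.1.h, hσ, l.1.ok, fun τ τ' be xi v v' h h' ρ h1 h2 h3 =>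
    l.1.val τ τ' be xi v v' h h' ρ (h1.trans hle) h2 h3⟩, l.2), ⟨⟨hle, Subset.rfl⟩, le_rfl⟩,
    rfl, rfl, rfl⟩

/-- O2: coherent families have a limit. -/
lemma LL.climit {ι : Type} [Nonempty ι] (hι : #ι < #(Iio D.la)) (al : ι → Θ) (l : ι → LL Θ X)
    (hin : ∀ i, (l i).In (al i)) (hcoh : ∀ i j, al i ≤ al j → (l j).res (al i) = l i) :
    ∃ m : LL Θ X, (∀ i, m.res (al i) = l i) ∧ (∀ i, m.1.s = (l i).1.s ∧ m.2 = (l i).2) ∧
      ∀ t, t ∈ m.1.h ↔ ∃ i, t ∈ (l i).1.h := by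
  have hs : ∀ i j, (l i).1.s = (l j).1.s ∧ (l i).2 = (l j).2 := by
    intro i j
    rcases le_total (al i) (al j) with h | h
    · rw [← hcoh i j h]
      exact ⟨rfl, rfl⟩
    · rw [← hcoh j i h]
      exact ⟨rfl, rfl⟩
  have hsub : ∀ i j, al i ≤ al j → (l i).1.h ⊆ (l j).1.h := by
    intro i j h t ht
    rw [← hcoh i j h] at ht
    exact ht.1
  have hres : ∀ i j, ∀ t ∈ (l j).1.h, t.2.1 < al i → t ∈ (l i).1.h := by
    intro i j t ht hlt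
    rcases le_total (al i) (al j) with h | h
    · rw [← hcoh i j h]
      exact ⟨ht, hlt⟩
    · exact hsub j i h ht
  obtain ⟨i0⟩ := ‹Nonempty ι›
  have hmem : ∀ t, t ∈ ⋃ i, (l i).1.h ↔ ∃ i, t ∈ (l i).1.h := fun t => mem_iUnion
  refine ⟨(⟨(l i0).1.s, ⋃ i, (l i).1.h, (l i0).1.low, ⟨?_, ?_, ?_, ?_⟩, ?_⟩, (l i0).2),
    fun i => ?_, fun i => hs i0 i, hmem⟩
  · exact (card_iUnion_lt_iff_forall_of_isRegular D.la_reg hι).2 fun i => (l i).1.ok.card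
  · intro t ht
    obtain ⟨i, h⟩ := (hmem t).1 ht
    exact (l i).1.ok.low t h
  · intro t ht
    obtain ⟨i, h⟩ := (hmem t).1 ht
    exact (l i).1.ok.pos t h
  · intro t ht
    obtain ⟨i, h⟩ := (hmem t).1 ht
    exact (l i).1.ok.v t h
  · intro τ τ' be xi v v' h h' ρ h1 h2 h3
    obtain ⟨i, k⟩ := (hmem _).1 h
    obtain ⟨j, k'⟩ := (hmem _).1 h'
    rcases le_total (al i) (al j) with hij | hij
    · rw [(hs i0 j).1] at h1
      exact (l j).1.val τ τ' be xi v v' (hsub i j hij k) k' ρ h1 h2 h3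
    · rw [(hs i0 i).1] at h1
      exact (l i).1.val τ τ' be xi v v' k (hsub j i hij k') ρ h1 h2 h3
  · refine Prod.ext (BB.ext' (hs i0 i).1 (Subset.antisymm ?_ ?_)) (hs i0 i).2
    · rintro t ⟨ht, hlt⟩
      obtain ⟨j, h⟩ := (hmem t).1 ht
      exact hres i j t h hlt
    · exact fun t ht => ⟨(hmem t).2 ⟨i, ht⟩, hin i t ht⟩

end Pool.CV
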