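import Pool.Agent.Lib.MP_cc7fb1_cf.O2

/-!
# MP_cc7fb1: order properties of the posets (row O3)
-/

set_option autoImplicit false
set_option linter.unusedSectionVars false

open Cardinal Set Pool.CF

namespace Pool.CV

variable {Θ X : Type} [LinearOrder Θ] [WellFoundedLT Θ] [D : SG Θ X]

/-- O3. -/
lemma LL.Dc.uniq {l : LL Θ X} {be xi v v' : Θ} (h : l.Dc be xi v) (h' : l.Dc be xi v') :
    v = v' := by
  obtain ⟨τ, h1, h2⟩ := h
  obtain ⟨τ', h3, h4⟩ := h'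
  exact l.1.val τ τ' be xi v v' h1 h3 l.1.s le_rfl h2 h4

/-- O3. -/
lemma LL.Dc.mono {l l' : LL Θ X} (hl : l' ≤ l) {be xi v : Θ} (h : l.Dc be xi v) :
    l'.Dc be xi v := by
  obtain ⟨τ, h1, h2⟩ := h
  exact ⟨τ, hl.1.2 h1, hl.1.1.trans h2⟩

/-- O3. -/
lemma LL.Dc.lt {l : LL Θ X} {be xi v : Θ} (h : l.Dc be xi v) : v < be := by
  obtain ⟨τ, h1, -⟩ := h
  exact l.1.ok.v _ h1

/-- O3. -/
lemma LL.Dc.res {l : LL Θ X} {be xi v al : Θ} (h : l.Dc be xi v) (hbe : be < al) :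
    (l.res al).Dc be xi v := by
  obtain ⟨τ, h1, h2⟩ := h
  exact ⟨τ, ⟨h1, hbe⟩, h2⟩

/-- O3: add values at new positions. -/
lemma LL.add {l : LL Θ X} {be : Θ} (G : Set Θ) (f : Θ → Θ) (hG : #G < #(Iio D.la))
    (hpos : ∀ g ∈ G, g < D.la) (hf : ∀ g ∈ G, f g < be)
    (hfree : ∀ g ∈ G, ∀ τ v, (τ, be, g, v) ∉ l.1.h) :
    ∃ m : LL Θ X, m ≤ l ∧ m.1.s = l.1.s ∧ m.2 = l.2 ∧
      m.1.h = l.1.h ∪ {t | ∃ g ∈ G, t = (l.1.s, be, g, f g)} := by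
  have hok : NamOK (l.1.h ∪ {t | ∃ g ∈ G, t = (l.1.s, be, g, f g)}) := by
    refine ⟨?_, ?_, ?_, ?_⟩
    · refine lt_of_le_of_lt (mk_union_le _ _) ?_
      refine add_lt_of_lt D.la_reg.aleph0_le l.1.ok.card ?_
      have h1 : {t | ∃ g ∈ G, t = (l.1.s, be, g, f g)} = (fun g => (l.1.s, be, g, f g)) '' G := by
        ext t
        constructor
        · rintro ⟨g, hg, rfl⟩
          exact ⟨g, hg, rfl⟩
        · rintro ⟨g, hg, rfl⟩
          exact ⟨g, hg, rfl⟩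
      rw [h1]
      exact lt_of_le_of_lt mk_image_le hG
    · rintro t (ht | ⟨g, hg, rfl⟩)
      · exact l.1.ok.low t ht
      · exact l.1.low
    · rintro t (ht | ⟨g, hg, rfl⟩)
      · exact l.1.ok.pos t ht
      · exact hpos g hg
    · rintro t (ht | ⟨g, hg, rfl⟩)
      · exact l.1.ok.v t ht
      · exact hf g hg
  have hval : Valid l.1.s (l.1.h ∪ {t | ∃ g ∈ G, t = (l.1.s, be, g, f g)}) := by
    rintro τ τ' be' xi v v' (h | ⟨g, hg, h⟩) (h' | ⟨g', hg', h'⟩) ρ hρ hρ1 hρ2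
    · exact l.1.val τ τ' be' xi v v' h h' ρ hρ hρ1 hρ2
    · obtain ⟨rfl, rfl, rfl, rfl⟩ : τ' = l.1.s ∧ be' = be ∧ xi = g' ∧ v' = f g' := by
        simpa only [Prod.mk.injEq] using h'
      exact absurd h (hfree _ hg' _ _)
    · obtain ⟨rfl, rfl, rfl, rfl⟩ : τ = l.1.s ∧ be' = be ∧ xi = g ∧ v = f g := by
        simpa only [Prod.mk.injEq] using h
      exact absurd h' (hfree _ hg _ _)
    · obtain ⟨-, -, rfl, rfl⟩ : τ = l.1.s ∧ be' = be ∧ xi = g ∧ v = f g := by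
        simpa only [Prod.mk.injEq] using h
      obtain ⟨-, -, rfl, rfl⟩ : τ' = l.1.s ∧ be' = be ∧ xi = g' ∧ v' = f g' := by
        simpa only [Prod.mk.injEq] using h'
      rfl
  exact ⟨(⟨l.1.s, l.1.h ∪ {t | ∃ g ∈ G, t = (l.1.s, be, g, f g)}, l.1.low, hok, hval⟩, l.2),
    ⟨⟨le_rfl, subset_union_left⟩, le_rfl⟩, rfl, rfl, rfl⟩

private lemma O3_cut_low (p : Chn Θ X) : (p.cut D.la).Low := by
  rintro b ⟨r, hr⟩
  exact hr.2

private lemma O3_cut_of_low {p : Chn Θ X} (h : p.Low) : p.cut D.la = p := by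
  apply Chn.ext'
  ext ⟨a, r⟩
  constructor
  · intro hx
    exact hx.1
  · intro hx
    exact ⟨hx, h a ⟨r, hx⟩⟩

/-- O3: decide a value. -/
lemma LL.exists_dc (l : LL Θ X) {al be xi v₀ : Θ} (hl : l.In al) (hbe : be < al) (hv : v₀ < be)
    (hxi : xi < D.la) : ∃ l' : LL Θ X, l' ≤ l ∧ l'.In al ∧ l'.2 = l.2 ∧ ∃ v, l'.Dc be xi v := by
  by_cases h : ∃ τ v, (τ, be, xi, v) ∈ l.1.h ∧ ∃ ρ : Chn Θ X, ρ ≤ l.1.s ∧ ρ ≤ τ
  · obtain ⟨τ, v, hτ, ρ, h1, h2⟩ := h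
    have h3 : ρ.cut D.la ≤ l.1.s := by
      have := Chn.cut_mono D.la h1
      rwa [O3_cut_of_low l.1.low] at this
    have h4 : ρ.cut D.la ≤ τ := by
      have := Chn.cut_mono D.la h2
      rwa [O3_cut_of_low (l.1.ok.low _ hτ)] at this
    exact ⟨(⟨ρ.cut D.la, l.1.h, O3_cut_low ρ, l.1.ok, fun τ τ' be xi v v' h h' σ hσ =>
      l.1.val τ τ' be xi v v' h h' σ (hσ.trans h3)⟩, l.2), ⟨⟨h3, Subset.rfl⟩, le_rfl⟩, hl, rfl,
      v, τ, hτ, h4⟩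
  · have hok : NamOK (insert (l.1.s, be, xi, v₀) l.1.h) := by
      refine ⟨?_, ?_, ?_, ?_⟩
      · refine lt_of_le_of_lt mk_insert_le ?_
        exact add_lt_of_lt D.la_reg.aleph0_le l.1.ok.card
          (one_lt_aleph0.trans_le D.la_reg.aleph0_le)
      · rintro t (rfl | ht)
        · exact l.1.low
        · exact l.1.ok.low t ht
      · rintro t (rfl | ht)
        · exact hxi
        · exact l.1.ok.pos t ht
      · rintro t (rfl | ht)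
        · exact hv
        · exact l.1.ok.v t ht
    have hval : Valid l.1.s (insert (l.1.s, be, xi, v₀) l.1.h) := by
      rintro τ τ' be' xi' v v' (h1 | h1) (h2 | h2) ρ hρ hρ1 hρ2
      · obtain ⟨-, -, -, rfl⟩ : τ = l.1.s ∧ be' = be ∧ xi' = xi ∧ v = v₀ := by
          simpa only [Prod.mk.injEq] using h1
        obtain ⟨-, -, -, rfl⟩ : τ' = l.1.s ∧ be' = be ∧ xi' = xi ∧ v' = v := by
          simpa only [Prod.mk.injEq] using h2
        rfl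
      · obtain ⟨-, rfl, rfl, -⟩ : τ = l.1.s ∧ be' = be ∧ xi' = xi ∧ v = v₀ := by
          simpa only [Prod.mk.injEq] using h1
        exact absurd ⟨τ', v', h2, ρ, hρ, hρ2⟩ h
      · obtain ⟨-, rfl, rfl, -⟩ : τ' = l.1.s ∧ be' = be ∧ xi' = xi ∧ v' = v₀ := by
          simpa only [Prod.mk.injEq] using h2
        exact absurd ⟨τ, v, h1, ρ, hρ, hρ1⟩ h
      · exact l.1.val τ τ' be' xi' v v' h1 h2 ρ hρ hρ1 hρ2
    refine ⟨(⟨l.1.s, insert (l.1.s, be, xi, v₀) l.1.h, l.1.low, hok, hval⟩, l.2),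
      ⟨⟨le_rfl, subset_insert _ _⟩, le_rfl⟩, ?_, rfl, v₀, l.1.s, mem_insert _ _, le_rfl⟩
    rintro t (rfl | ht)
    · exact hbe
    · exact hl t ht

end Pool.CV
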