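import Pool.Agent.Lib.MP_cc7fb1_cf.O3

/-!
# MP_cc7fb1: order properties of the posets (row O4)
-/

set_option autoImplicit false
set_option linter.unusedSectionVars false

open Cardinal Set Pool.CF

namespace Pool.CV

variable {Θ X : Type} [LinearOrder Θ] [WellFoundedLT Θ] [D : SG Θ X]

/-- O4: append elements to the clock. -/
lemma R0.exists_snoc (c : R0 Θ X) {g : Θ} (hg : g < D.la) (h : ∀ g' ∈ c.c, g' < g) :
    ∃ c' : R0 Θ X, c' ≤ c ∧ c'.c = insert g c.c := by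
  refine ⟨⟨insert g c.c, ?_, ?_⟩, ⟨subset_insert _ _, ?_⟩, rfl⟩
  · rintro a (rfl | ha)
    · exact hg
    · exact c.sub a ha
  · exact lt_of_le_of_lt mk_insert_le (add_lt_of_lt D.κ_unc.le c.card
      (one_lt_aleph0.trans D.κ_unc))
  · rintro a (rfl | ha) hn g' hg'
    · exact h g' hg'
    · exact absurd ha hn

private lemma O4_bound {E : Set Θ} (h : #E < #(Iio D.la)) (h' : ∀ a ∈ E, a < D.la) :
    ∃ b < D.la, ∀ a ∈ E, a < b := by
  by_contra hcon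
  push Not at hcon
  have hIic : ∀ i : E, #(Iic i.1) < #(Iio D.la) := by
    intro i
    rw [← Set.Iio_insert]
    exact mk_insert_le.trans_lt (add_lt_of_lt D.la_reg.aleph0_le (D.la_init i.1 (h' _ i.2))
      (one_lt_aleph0.trans_le D.la_reg.aleph0_le))
  have h1 : Iio D.la ⊆ ⋃ i : E, Iic i.1 := by
    intro b hb
    obtain ⟨i, hi, hle⟩ := hcon b hb
    exact Set.mem_iUnion.2 ⟨⟨i, hi⟩, hle⟩
  have h2 : #(⋃ i : E, Iic i.1) < #(Iio D.la) :=
    (card_iUnion_lt_iff_forall_of_isRegular D.la_reg h).2 hIic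
  exact absurd ((mk_le_mk_of_subset h1).trans_lt h2) (lt_irrefl _)

/-- O4: `R0` is separative. -/
lemma R0.exists_incomp {c c' : R0 Θ X} (h : ¬ c' ≤ c) :
    ∃ c'' : R0 Θ X, c'' ≤ c' ∧ ∀ e : R0 Θ X, e ≤ c'' → ¬ e ≤ c := by
  by_cases hsub : c.c ⊆ c'.c
  · have h1 : ¬ ∀ g ∈ c'.c, g ∉ c.c → ∀ g' ∈ c.c, g' < g := fun h2 => h ⟨hsub, h2⟩
    push Not at h1
    obtain ⟨g, hg, hgn, g', hg', hle⟩ := h1
    refine ⟨c', le_rfl, fun e he hec => ?_⟩
    exact absurd (hec.2 g (he.1 hg) hgn g' hg') (not_lt.2 hle)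
  · obtain ⟨g₀, hg₀, hg₀'⟩ := not_subset.1 hsub
    obtain ⟨γ, hγ, hb⟩ := O4_bound (E := c.c ∪ c'.c) (by
      refine lt_of_le_of_lt (mk_union_le _ _) ?_
      exact add_lt_of_lt D.la_reg.aleph0_le (c.card.trans D.κ_lt) (c'.card.trans D.κ_lt))
      (by
        rintro a (ha | ha)
        · exact c.sub a ha
        · exact c'.sub a ha)
    obtain ⟨c'', hc'', he⟩ := R0.exists_snoc c' hγ fun g' hg' => hb g' (Or.inr hg')
    refine ⟨c'', hc'', fun e hec'' hec => ?_⟩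
    have h1 : g₀ ∉ c''.c := by
      rw [he]
      rintro (rfl | h2)
      · exact lt_irrefl _ (hb _ (Or.inl hg₀))
      · exact hg₀' h2
    have h2 := hec''.2 g₀ (hec.1 hg₀) h1 γ (by
      rw [he]
      exact mem_insert _ _)
    exact lt_asymm h2 (hb _ (Or.inl hg₀))

/-- O4: a position above everything. -/
lemma LL.exists_pos (l : LL Θ X) : ∃ g < D.la, (∀ t ∈ l.1.h, t.2.2.1 < g) ∧ ∀ g' ∈ l.2.c, g' < g := by
  obtain ⟨γ, hγ, hb⟩ := O4_bound (E := (fun t : Chn Θ X × Θ × Θ × Θ => t.2.2.1) '' l.1.h ∪ l.2.c)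
    (by
      refine lt_of_le_of_lt (mk_union_le _ _) ?_
      exact add_lt_of_lt D.la_reg.aleph0_le (lt_of_le_of_lt mk_image_le l.1.ok.card)
        (l.2.card.trans D.κ_lt))
    (by
      rintro a (⟨t, ht, rfl⟩ | ha)
      · exact l.1.ok.pos t ht
      · exact l.2.sub a ha)
  exact ⟨γ, hγ, fun t ht => hb _ (Or.inl ⟨t, ht, rfl⟩), fun g' hg' => hb _ (Or.inr hg')⟩

end Pool.CV
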