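import Pool.Agent.Lib.MP_cc7fb1_cf.O4

/-!
# MP_cc7fb1: order properties of the posets (row O5)
-/

set_option autoImplicit false
set_option linter.unusedSectionVars false

open Cardinal Set Pool.CF

namespace Pool.CV

variable {Θ X : Type} [LinearOrder Θ] [WellFoundedLT Θ] [D : SG Θ X]

/-- O5. -/
lemma LL.mk_lt (al : Θ) : #{l : LL Θ X | l.In al} < #Θ := by
  have hinf : ℵ₀ ≤ #Θ := D.th_reg.aleph0_le
  let A : Set (Chn Θ X) := {p | ∀ b ∈ p.lev, b < D.la}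
  have hA : #A < #Θ := Chn.mk_lt D.la
  let S : Type := A × Iio al × Iio D.la × Iio al
  have hS : #S < #Θ := by
    show #(A × Iio al × Iio D.la × Iio al) < #Θ
    simp only [mk_prod, lift_id]
    exact mul_lt_of_lt hinf hA (mul_lt_of_lt hinf (D.th_init al)
      (mul_lt_of_lt hinf (D.th_init D.la) (D.th_init al)))
  have hT : #(A × Set S × Set (Iio D.la)) < #Θ := by
    simp only [mk_prod, lift_id, mk_set]
    exact mul_lt_of_lt hinf hA (mul_lt_of_lt hinf (D.th_sl _ hS) (D.th_sl _ (D.th_init D.la)))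
  refine lt_of_le_of_lt ?_ hT
  refine mk_le_of_injective (f := fun l : {l : LL Θ X | l.In al} =>
    ((⟨l.1.1.s, l.1.1.low⟩ : A), {t : S | (t.1.1, t.2.1.1, t.2.2.1.1, t.2.2.2.1) ∈ l.1.1.h},
      {g : Iio D.la | g.1 ∈ l.1.2.c})) ?_
  rintro ⟨l, hl⟩ ⟨l', hl'⟩ h
  obtain ⟨h1, h2, h3⟩ : (⟨l.1.s, l.1.low⟩ : A) = ⟨l'.1.s, l'.1.low⟩ ∧
      {t : S | (t.1.1, t.2.1.1, t.2.2.1.1, t.2.2.2.1) ∈ l.1.h} =
        {t : S | (t.1.1, t.2.1.1, t.2.2.1.1, t.2.2.2.1) ∈ l'.1.h} ∧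
      {g : Iio D.la | g.1 ∈ l.2.c} = {g : Iio D.la | g.1 ∈ l'.2.c} := by
    simpa only [Prod.mk.injEq] using h
  apply Subtype.ext
  have hs : l.1.s = l'.1.s := congrArg Subtype.val h1
  have hsub : ∀ m m' : LL Θ X, m.In al → m'.In al →
      {t : S | (t.1.1, t.2.1.1, t.2.2.1.1, t.2.2.2.1) ∈ m.1.h} =
        {t : S | (t.1.1, t.2.1.1, t.2.2.1.1, t.2.2.2.1) ∈ m'.1.h} → m.1.h ⊆ m'.1.h := by
    rintro m m' hm hm' he ⟨τ, be, xi, v⟩ ht
    have hbe : be < al := hm _ ht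
    have hx : ((⟨τ, m.1.ok.low _ ht⟩, ⟨be, hbe⟩, ⟨xi, m.1.ok.pos _ ht⟩,
        ⟨v, (m.1.ok.v _ ht).trans hbe⟩) : S) ∈
        {t : S | (t.1.1, t.2.1.1, t.2.2.1.1, t.2.2.2.1) ∈ m.1.h} := ht
    rw [he] at hx
    exact hx
  have hh : l.1.h = l'.1.h := subset_antisymm (hsub l l' hl hl' h2) (hsub l' l hl' hl h2.symm)
  have hc : l.2.c = l'.2.c := by
    ext g
    constructor
    · intro hg
      have : (⟨g, l.2.sub g hg⟩ : Iio D.la) ∈ {g : Iio D.la | g.1 ∈ l.2.c} := hg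
      rw [h3] at this
      exact this
    · intro hg
      have : (⟨g, l'.2.sub g hg⟩ : Iio D.la) ∈ {g : Iio D.la | g.1 ∈ l'.2.c} := hg
      rw [← h3] at this
      exact this
  exact Prod.ext (BB.ext' hs hh) (R0.ext' hc)

include D in
/-- O5: small sets of coordinates are bounded (call it as `exists_bound (X := X) h`). -/
lemma exists_bound {E : Set Θ} (h : #E < #Θ) : ∃ b, ∀ a ∈ E, a < b := by
  by_contra hcon
  push Not at hcon
  have hIic : ∀ a : Θ, #(Iic a) < #Θ := by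
    intro a
    rw [← Set.Iio_insert]
    exact mk_insert_le.trans_lt (add_lt_of_lt D.th_reg.aleph0_le (D.th_init a)
      (one_lt_aleph0.trans_le D.th_reg.aleph0_le))
  have h1 : (Set.univ : Set Θ) ⊆ ⋃ i : E, Iic i.1 := by
    intro b _
    obtain ⟨i, hi, hle⟩ := hcon b
    exact Set.mem_iUnion.2 ⟨⟨i, hi⟩, hle⟩
  have h2 : #(⋃ i : E, Iic i.1) < #Θ :=
    (card_iUnion_lt_iff_forall_of_isRegular D.th_reg h).2 fun i => hIic i.1
  have h3 := (mk_le_mk_of_subset h1).trans_lt h2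
  rw [mk_univ] at h3
  exact absurd h3 (lt_irrefl _)

/-- O5: small subsets of `λ` are bounded. -/
lemma exists_bound_la {E : Set Θ} (h : #E < #(Iio D.la)) (h' : ∀ a ∈ E, a < D.la) :
    ∃ b < D.la, ∀ a ∈ E, a < b := by
  by_contra hcon
  push Not at hcon
  have hIic : ∀ i : E, #(Iic i.1) < #(Iio D.la) := by
    intro i
    rw [← Set.Iio_insert]
    exact mk_insert_le.trans_lt (add_lt_of_lt D.la_reg.aleph0_le (D.la_init i.1 (h' _ i.2))
      (one_lt_aleph0.trans_le D.la_reg.aleph0_le))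
  have h1 : Iio D.la ⊆ ⋃ i : E, Iic i.1 := by
    intro b hb
    obtain ⟨i, hi, hle⟩ := hcon b hb
    exact Set.mem_iUnion.2 ⟨⟨i, hi⟩, hle⟩
  have h2 : #(⋃ i : E, Iic i.1) < #(Iio D.la) :=
    (card_iUnion_lt_iff_forall_of_isRegular D.la_reg h).2 hIic
  exact absurd ((mk_le_mk_of_subset h1).trans_lt h2) (lt_irrefl _)

/-- O5: every condition lies in some `LL al`. -/
lemma LL.exists_in (l : LL Θ X) : ∃ al, l.In al := by
  obtain ⟨b, hb⟩ := exists_bound (X := X) (E := (fun t : Chn Θ X × Θ × Θ × Θ => t.2.1) '' l.1.h)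
    (lt_of_le_of_lt mk_image_le (l.1.ok.card.trans (D.th_init D.la)))
  exact ⟨b, fun t ht => hb _ ⟨t, ht, rfl⟩⟩

end Pool.CV
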