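import Pool.Agent.Lib.MP_cc7fb1_cf.O5

/-!
# MP_cc7fb1: order properties of the posets (row O6)
-/

set_option autoImplicit false
set_option linter.unusedSectionVars false

open Cardinal Set Pool.CF

namespace Pool.CV

variable {Θ X : Type} [LinearOrder Θ] [WellFoundedLT Θ] [D : SG Θ X]

/-- O6. -/
lemma BB.Wk.of_le {b b' : BB Θ X} (h : b' ≤ b) : b'.Wk b :=
  ⟨h.1, fun t ht _ _ hρ => ⟨t, h.2 ht, rfl, hρ⟩⟩

/-- O6. -/
lemma BB.Wk.trans {b₁ b₂ b₃ : BB Θ X} (h : b₁.Wk b₂) (h' : b₂.Wk b₃) : b₁.Wk b₃ := by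
  refine ⟨h.1.trans h'.1, fun t ht ρ hρ hρt => ?_⟩
  obtain ⟨t', ht', he, hρ'⟩ := h'.2 t ht ρ (hρ.trans h.1) hρt
  obtain ⟨t'', ht'', he', hρ''⟩ := h.2 t' ht' ρ hρ hρ'
  exact ⟨t'', ht'', he'.trans he, hρ''⟩

/-- O6: weakly comparable conditions have the literal union as a common extension, which is
weakly equivalent to the stronger one. -/
lemma BB.Wk.union {b b' : BB Θ X} (h : b'.Wk b) :
    ∃ m : BB Θ X, m ≤ b' ∧ m ≤ b ∧ m.s = b'.s ∧ m.h = b'.h ∪ b.h ∧ b'.Wk m := by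
  have key : ∀ t ∈ b'.h ∪ b.h, ∀ ρ : Chn Θ X, ρ ≤ b'.s → ρ ≤ t.1 →
      ∃ t' ∈ b'.h, t'.2 = t.2 ∧ ρ ≤ t'.1 := by
    rintro t (ht | ht) ρ hρ hρt
    · exact ⟨t, ht, rfl, hρt⟩
    · exact h.2 t ht ρ hρ hρt
  have hla : ℵ₀ ≤ #(Iio D.la) := D.la_reg.aleph0_le
  let m : BB Θ X := {
    s := b'.s
    h := b'.h ∪ b.h
    low := b'.low
    ok := by
      refine ⟨(mk_union_le _ _).trans_lt (add_lt_of_lt hla b'.ok.card b.ok.card), ?_, ?_, ?_⟩
      · rintro t (ht | ht)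
        · exact b'.ok.low t ht
        · exact b.ok.low t ht
      · rintro t (ht | ht)
        · exact b'.ok.pos t ht
        · exact b.ok.pos t ht
      · rintro t (ht | ht)
        · exact b'.ok.v t ht
        · exact b.ok.v t ht
    val := by
      intro τ τ' be xi v v' ht ht' ρ hρ hρτ hρτ'
      obtain ⟨⟨σ, u⟩, hu, he, hρu⟩ := key _ ht ρ hρ hρτ
      obtain ⟨⟨σ', u'⟩, hu', he', hρu'⟩ := key _ ht' ρ hρ hρτ'
      simp only at he he' hρu hρu'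
      subst he he'
      exact b'.val σ σ' be xi v v' hu hu' ρ hρ hρu hρu' }
  refine ⟨m, ⟨le_rfl, subset_union_left⟩, ⟨h.1, subset_union_right⟩, rfl, rfl, le_rfl, ?_⟩
  intro t ht ρ hρ hρt
  exact key t ht ρ hρ hρt

end Pool.CV
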