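import Pool.Agent.Lib.MP_cc7fb1_cf.ProcDef

/-!
# MP_cc7fb1: processing and fusion (row P1)
-/

set_option autoImplicit false
set_option linter.unusedSectionVars false

open Cardinal Set Pool.CF

namespace Pool.CV

variable {Θ X : Type} [LinearOrder Θ] [WellFoundedLT Θ] [D : SG Θ X]

private lemma P1_lev_lt (p : Chn Θ X) : #p.lev < #(Iio D.la) := by
  have h1 : p.lev = Prod.fst '' p.v := by
    ext a
    constructor
    · rintro ⟨r, hr⟩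
      exact ⟨(a, r), hr, rfl⟩
    · rintro ⟨⟨a', r⟩, hr, rfl⟩
      exact ⟨r, hr⟩
  rw [h1]
  exact (mk_image_le.trans_lt p.ch.card).trans D.κ_lt

private lemma P1_bound (p : Chn Θ X) (hp : p.Low) : ∃ b < D.la, ∀ a ∈ p.lev, a < b :=
  exists_bound_la (X := X) (P1_lev_lt p) hp

private lemma P1_cut (p : Chn Θ X) {th : Θ} (h : ∀ a ∈ p.lev, a < th) : p.cut th = p := by
  apply Chn.ext'
  ext ⟨a, r⟩
  constructor
  · intro h1
    exact h1.1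
  · intro h1
    exact ⟨h1, h a ⟨r, h1⟩⟩

private lemma P1_lev_cut (p : Chn Θ X) (th : Θ) : ∀ a ∈ (p.cut th).lev, a < th := by
  rintro a ⟨r, hr⟩
  exact hr.2

/-- P1: one task.  Extend `(σ, h)` to a condition `b₁ ∈ T`, restrict `b₁` to the coordinates
below `al`, and localise the new name below `b₁.s`: all `(ρ, t)` with `ρ` a chain with labels
below `th`, `ρ ≤ b₁.s` and `ρ ≤ τ` for some `(τ, t) ∈ b₁.h`. -/
lemma proc_one {al : Θ} {T : Set (BB Θ X)} (hT : OpenD T) (hdet : Det al T) {h : Nam Θ X}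
    (hok : NamOK h) (hv : Valid ⊤ h) (hin : NIn al h) {σ : Chn Θ X} (hσ : σ.Low) :
    ∃ h' : Nam Θ X, NamOK h' ∧ Valid ⊤ h' ∧ NIn al h' ∧ h ⊆ h' ∧
      ∃ b ∈ T, b.s ≤ σ ∧ b.h = h' := by
  classical
  let b₀ : BB Θ X := ⟨σ, h, hσ, hok, fun τ τ' be xi v v' h1 h2 ρ _ h3 h4 =>
    hv τ τ' be xi v v' h1 h2 ρ le_top h3 h4⟩
  obtain ⟨b₂, hb₂T, hb₂⟩ := hT.dense b₀
  have hb₁T : b₂.res al ∈ T := (hdet b₂).1 hb₂T
  set b₁ : BB Θ X := b₂.res al with hb₁def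
  have hs₁ : b₁.s ≤ σ := hb₂.1
  have hh₁ : h ⊆ b₁.h := fun t ht => ⟨hb₂.2 ht, hin t ht⟩
  have hin₁ : NIn al b₁.h := fun t ht => ht.2
  -- a bound of all labels
  obtain ⟨u, hu, hu'⟩ := P1_bound b₁.s b₁.low
  have hbt : ∀ t : Chn Θ X × Θ × Θ × Θ, ∃ b, t ∈ b₁.h → b < D.la ∧ ∀ a ∈ t.1.lev, a < b := by
    intro t
    by_cases ht : t ∈ b₁.h
    · obtain ⟨b, hb, hb'⟩ := P1_bound t.1 (b₁.ok.low t ht)
      exact ⟨b, fun _ => ⟨hb, hb'⟩⟩
    · exact ⟨u, fun h => absurd h ht⟩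
  choose f hf using hbt
  have hinf : ℵ₀ ≤ #(Iio D.la) := D.la_reg.aleph0_le
  obtain ⟨th, hth, hth'⟩ := exists_bound_la (X := X) (E := insert u (f '' b₁.h)) (by
    refine mk_insert_le.trans_lt ?_
    exact add_lt_of_lt hinf (mk_image_le.trans_lt b₁.ok.card) (one_lt_aleph0.trans_le hinf)) (by
    rintro a (rfl | ⟨t, ht, rfl⟩)
    · exact hu
    · exact (hf t ht).1)
  have hsth : ∀ a ∈ b₁.s.lev, a < th := fun a ha => (hu' a ha).trans (hth' u (mem_insert _ _))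
  have htth : ∀ t ∈ b₁.h, ∀ a ∈ t.1.lev, a < th := fun t ht a ha =>
    ((hf t ht).2 a ha).trans (hth' _ (mem_insert_of_mem _ ⟨t, ht, rfl⟩))
  let Loc : Nam Θ X := {t | (∀ a ∈ t.1.lev, a < th) ∧ t.1 ≤ b₁.s ∧ ∃ t' ∈ b₁.h, t'.2 = t.2 ∧
    t.1 ≤ t'.1}
  have hLoc : #Loc < #(Iio D.la) := by
    have h1 : Loc ⊆ {p : Chn Θ X | ∀ b ∈ p.lev, b < th} ×ˢ (Prod.snd '' b₁.h) := by
      rintro t ⟨h1, h2, t', ht', h3, h4⟩
      exact ⟨h1, t', ht', h3⟩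
    refine (mk_le_mk_of_subset h1).trans_lt ?_
    rw [mk_setProd]
    exact mul_lt_of_lt hinf (Chn.mk_low_lt th hth) (mk_image_le.trans_lt b₁.ok.card)
  have hok' : NamOK (h ∪ Loc) := by
    refine ⟨(mk_union_le _ _).trans_lt (add_lt_of_lt hinf hok.card hLoc), ?_, ?_, ?_⟩
    · rintro t (ht | ht)
      · exact hok.low t ht
      · intro a ha
        exact (ht.1 a ha).trans hth
    · rintro t (ht | ⟨-, -, t', ht', h3, -⟩)
      · exact hok.pos t ht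
      · rw [← h3]; exact b₁.ok.pos t' ht'
    · rintro t (ht | ⟨-, -, t', ht', h3, -⟩)
      · exact hok.v t ht
      · rw [← h3]; exact b₁.ok.v t' ht'
  -- every tuple below `b₁.s` comes from `b₁`
  have hkey : ∀ τ be xi v, (τ, be, xi, v) ∈ h ∪ Loc →
      ∃ τ', (τ', be, xi, v) ∈ b₁.h ∧ τ ≤ τ' := by
    rintro τ be xi v (ht | ⟨-, -, ⟨τ', t'⟩, ht', h3, h4⟩)
    · exact ⟨τ, hh₁ ht, le_rfl⟩
    · simp only at h3 h4
      subst h3
      exact ⟨τ', ht', h4⟩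
  have hval' : Valid ⊤ (h ∪ Loc) := by
    intro τ τ' be xi v v' h1 h2 ρ _ h3 h4
    by_cases hb : ρ ≤ b₁.s
    · obtain ⟨τ₁, h5, h6⟩ := hkey _ _ _ _ h1
      obtain ⟨τ₂, h7, h8⟩ := hkey _ _ _ _ h2
      exact b₁.val τ₁ τ₂ be xi v v' h5 h7 ρ hb (h3.trans h6) (h4.trans h8)
    · have h1' : (τ, be, xi, v) ∈ h := by
        rcases h1 with h1 | h1
        · exact h1
        · exact absurd (h3.trans h1.2.1) hb
      have h2' : (τ', be, xi, v') ∈ h := by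
        rcases h2 with h2 | h2
        · exact h2
        · exact absurd (h4.trans h2.2.1) hb
      exact hv τ τ' be xi v v' h1' h2' ρ le_top h3 h4
  refine ⟨h ∪ Loc, hok', hval', ?_, subset_union_left, ?_⟩
  · rintro t (ht | ⟨-, -, t', ht', h3, -⟩)
    · exact hin t ht
    · rw [← h3]; exact hin₁ t' ht'
  · refine ⟨⟨b₁.s, h ∪ Loc, b₁.low, hok', fun τ τ' be xi v v' h1 h2 ρ _ h3 h4 =>
      hval' τ τ' be xi v v' h1 h2 ρ le_top h3 h4⟩, hT.wk b₁ hb₁T _ ⟨le_rfl, ?_⟩, hs₁, rfl⟩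
    intro t ht ρ hρ hρt
    refine ⟨(ρ.cut th, t.2), Or.inr ⟨P1_lev_cut ρ th, ?_, t, ht, rfl, ?_⟩, rfl, Chn.le_cut _ _⟩
    · have := Chn.cut_mono th hρ
      rwa [P1_cut b₁.s hsth] at this
    · have := Chn.cut_mono th hρt
      rwa [P1_cut t.1 (htth t ht)] at this

end Pool.CV
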