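import Pool.Agent.Lib.MP_cc7fb1_cf.P1

/-!
# MP_cc7fb1: processing and fusion (row P2)
-/

set_option autoImplicit false
set_option linter.unusedSectionVars false

open Cardinal Set Pool.CF

namespace Pool.CV

variable {Θ X : Type} [LinearOrder Θ] [WellFoundedLT Θ] [D : SG Θ X]

/-- P2: unions of fewer than `λ` names. -/
lemma nam_union {ι : Type} [LinearOrder ι] (hι : #ι < #(Iio D.la)) (h : ι → Nam Θ X)
    (hmono : Monotone h) (hok : ∀ i, NamOK (h i)) {σ : Chn Θ X} (hv : ∀ i, Valid σ (h i)) :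
    NamOK (⋃ i, h i) ∧ Valid σ (⋃ i, h i) := by
  refine ⟨⟨?_, ?_, ?_, ?_⟩, ?_⟩
  · exact (card_iUnion_lt_iff_forall_of_isRegular D.la_reg hι).2 fun i => (hok i).card
  · intro t ht
    obtain ⟨i, hi⟩ := mem_iUnion.1 ht
    exact (hok i).low t hi
  · intro t ht
    obtain ⟨i, hi⟩ := mem_iUnion.1 ht
    exact (hok i).pos t hi
  · intro t ht
    obtain ⟨i, hi⟩ := mem_iUnion.1 ht
    exact (hok i).v t hi
  · intro τ τ' be xi v v' h1 h2 ρ hρ hρ1 hρ2
    obtain ⟨i, hi⟩ := mem_iUnion.1 h1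
    obtain ⟨j, hj⟩ := mem_iUnion.1 h2
    exact hv (max i j) τ τ' be xi v v' (hmono (le_max_left i j) hi) (hmono (le_max_right i j) hj)
      ρ hρ hρ1 hρ2

end Pool.CV
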