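import Pool.Agent.Lib.MP_cc7fb1_cf.P2

/-!
# MP_cc7fb1: processing and fusion (row P3)
-/

set_option autoImplicit false
set_option linter.unusedSectionVars false

open Cardinal Set Pool.CF

namespace Pool.CV

variable {Θ X : Type} [LinearOrder Θ] [WellFoundedLT Θ] [D : SG Θ X]

private def P3_good (al : Θ) (h : Nam Θ X) : Prop := NamOK h ∧ Valid ⊤ h ∧ NIn al h

open Classical in
private noncomputable def P3_step {al : Θ} {ι : Type} (T : ι → Set (BB Θ X))
    (hT : ∀ i, OpenD (T i)) (hdet : ∀ i, Det al (T i)) (σ : ι → Chn Θ X) (hσ : ∀ i, (σ i).Low)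
    (i : ι) (g : Nam Θ X) : Nam Θ X :=
  if H : P3_good al g then
    (proc_one (hT i) (hdet i) H.1 H.2.1 H.2.2 (hσ i)).choose else g

private lemma P3_step_spec {al : Θ} {ι : Type} (T : ι → Set (BB Θ X))
    (hT : ∀ i, OpenD (T i)) (hdet : ∀ i, Det al (T i)) (σ : ι → Chn Θ X) (hσ : ∀ i, (σ i).Low)
    (i : ι) {g : Nam Θ X} (H : P3_good al g) :
    P3_good al (P3_step T hT hdet σ hσ i g) ∧ g ⊆ P3_step T hT hdet σ hσ i g ∧
      ∃ b ∈ T i, b.s ≤ σ i ∧ b.h = P3_step T hT hdet σ hσ i g := by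
  unfold P3_step
  rw [dif_pos H]
  obtain ⟨h1, h2, h3, h4, h5⟩ := (proc_one (hT i) (hdet i) H.1 H.2.1 H.2.2 (hσ i)).choose_spec
  exact ⟨⟨h1, h2, h3⟩, h4, h5⟩

/-- P3: fewer than `λ` tasks. -/
theorem processing {al : Θ} {ι : Type} (hι : #ι < #(Iio D.la)) (T : ι → Set (BB Θ X))
    (hT : ∀ i, OpenD (T i)) (hdet : ∀ i, Det al (T i)) (σ : ι → Chn Θ X) (hσ : ∀ i, (σ i).Low)
    {h : Nam Θ X} (hok : NamOK h) (hv : Valid ⊤ h) (hin : NIn al h) :
    ∃ h' : Nam Θ X, NamOK h' ∧ Valid ⊤ h' ∧ NIn al h' ∧ h ⊆ h' ∧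
      ∀ i, ∃ b ∈ T i, b.s ≤ σ i ∧ b.h = h' := by
  classical
  obtain ⟨_, _⟩ := exists_wellOrder ι
  have hla : ℵ₀ ≤ #(Iio D.la) := D.la_reg.aleph0_le
  have hW : #(WithBot ι) < #(Iio D.la) := by
    have : #(WithBot ι) = #ι + 1 := mk_option
    rw [this]
    exact add_lt_of_lt hla hι (one_lt_aleph0.trans_le hla)
  -- the recursion
  obtain ⟨H, hH⟩ : ∃ H : WithBot ι → Nam Θ X, ∀ w, H w = WithBot.recBotCoe (C := fun _ => Nam Θ X)
      h (fun i => P3_step T hT hdet σ hσ i (⋃ j : {j : WithBot ι // j < w}, H j)) w :=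
    ⟨(wellFounded_lt (α := WithBot ι)).fix fun w rec =>
      WithBot.recBotCoe (C := fun _ => Nam Θ X) h
        (fun i => P3_step T hT hdet σ hσ i (⋃ j : {j : WithBot ι // j < w}, rec j j.2)) w,
      fun w => (wellFounded_lt (α := WithBot ι)).fix_eq _ w⟩
  have key : ∀ w, P3_good al (H w) ∧ (∀ j < w, H j ⊆ H w) ∧
      ∀ i : ι, w = i → ∃ b ∈ T i, b.s ≤ σ i ∧ b.h = H w := by
    intro w
    induction w using WellFoundedLT.induction with
    | _ w ih =>
      cases w with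
      | bot =>
        have h0 : H ⊥ = h := hH ⊥
        refine ⟨by rw [h0]; exact ⟨hok, hv, hin⟩, fun j hj => absurd hj not_lt_bot,
          fun i hi => absurd hi.symm (WithBot.coe_ne_bot)⟩
      | coe i =>
        have hi : H (i : WithBot ι) = P3_step T hT hdet σ hσ i
            (⋃ j : {j : WithBot ι // j < (i : WithBot ι)}, H j) := hH i
        have hmono : Monotone fun j : {j : WithBot ι // j < (i : WithBot ι)} => H j := by
          intro j j' hjj
          rcases eq_or_lt_of_le hjj with hjj | hjj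
          · rw [hjj]
          · exact (ih j' j'.2).2.1 j hjj
        have hcard : #{j : WithBot ι // j < (i : WithBot ι)} < #(Iio D.la) :=
          (mk_subtype_le _).trans_lt hW
        obtain ⟨g1, g2⟩ := nam_union hcard _ hmono (fun j => (ih j j.2).1.1) (σ := ⊤)
          (fun j => (ih j j.2).1.2.1)
        have hg : P3_good al (⋃ j : {j : WithBot ι // j < (i : WithBot ι)}, H j) := by
          refine ⟨g1, g2, fun t ht => ?_⟩
          obtain ⟨j, hj⟩ := mem_iUnion.1 ht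
          exact (ih j j.2).1.2.2 t hj
        obtain ⟨s1, s2, s3⟩ := P3_step_spec T hT hdet σ hσ i hg
        rw [← hi] at s1 s2 s3
        refine ⟨s1, fun j hj => ?_, fun i' hi' => ?_⟩
        · exact Subset.trans
            (subset_iUnion (fun j : {j : WithBot ι // j < (i : WithBot ι)} => H j) ⟨j, hj⟩) s2
        · have : i = i' := WithBot.coe_injective hi'
          subst this
          exact s3
  have hmono : Monotone H := by
    intro j j' hjj
    rcases eq_or_lt_of_le hjj with hjj | hjj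
    · rw [hjj]
    · exact (key j').2.1 j hjj
  obtain ⟨g1, g2⟩ := nam_union hW H hmono (fun j => (key j).1.1) (σ := ⊤)
    (fun j => (key j).1.2.1)
  have h0 : H ⊥ = h := hH ⊥
  refine ⟨⋃ w, H w, g1, g2, fun t ht => ?_, ?_, fun i => ?_⟩
  · obtain ⟨j, hj⟩ := mem_iUnion.1 ht
    exact (key j).1.2.2 t hj
  · rw [← h0]
    exact subset_iUnion H ⊥
  · obtain ⟨b, hb, hbs, hbh⟩ := (key i).2.2 i rfl
    let b' : BB Θ X := ⟨b.s, ⋃ w, H w, b.low, g1,
      fun τ τ' be xi v v' ht ht' ρ _ hρ hρ' => g2 τ τ' be xi v v' ht ht' ρ le_top hρ hρ'⟩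
    have hle : b' ≤ b := ⟨le_rfl, by rw [hbh]; exact subset_iUnion H i⟩
    exact ⟨b', (hT i).wk b hb b' (BB.Wk.of_le hle), hbs, rfl⟩

end Pool.CV
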