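import Pool.Agent.Lib.MP_cc7fb1_cf.P3

/-!
# MP_cc7fb1: processing and fusion (row P4)
-/

set_option autoImplicit false
set_option linter.unusedSectionVars false

open Cardinal Set Pool.CF

namespace Pool.CV

variable {Θ X : Type} [LinearOrder Θ] [WellFoundedLT Θ] [D : SG Θ X]

private lemma P4_lev_lt (p : Chn Θ X) : #p.lev < D.κ := by
  have h1 : p.lev ⊆ Prod.fst '' p.v := by
    rintro a ⟨r, hr⟩
    exact ⟨(a, r), hr, rfl⟩
  exact (mk_le_mk_of_subset h1).trans_lt (mk_image_le.trans_lt p.ch.card)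

private lemma P4_bound (p : Chn Θ X) (hp : p.Low) : ∃ b < D.la, ∀ a ∈ p.lev, a < b :=
  exists_bound_la (X := X) ((P4_lev_lt p).trans D.κ_lt) hp

private lemma P4_cut (p : Chn Θ X) {th : Θ} (h : ∀ a ∈ p.lev, a < th) : p.cut th = p := by
  apply Chn.ext'
  ext ⟨a, r⟩
  constructor
  · intro h1
    exact h1.1
  · intro h1
    exact ⟨h1, h a ⟨r, h1⟩⟩

private lemma P4_lev_cut (p : Chn Θ X) (th : Θ) : ∀ a ∈ (p.cut th).lev, a < th := by
  rintro a ⟨r, hr⟩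
  exact hr.2

private def P4_good (al : Θ) (h : Nam Θ X) : Prop := NamOK h ∧ Valid ⊤ h ∧ NIn al h

/-- The localisation of a name. -/
private lemma P4_loc (al : Θ) (b : BB Θ X) (a₀ : Θ) (ha₀ : a₀ < D.la) :
    ∃ (g : Nam Θ X) (t : Θ), P4_good al g ∧ t < D.la ∧ a₀ ≤ t ∧ (∀ a ∈ b.s.lev, a < t) ∧
      ∀ t' ∈ b.h, t'.2.1 < al → ∀ ρ ≤ b.s, ρ ≤ t'.1 → (ρ.cut t, t'.2) ∈ g := by
  classical
  obtain ⟨u, hu, hu'⟩ := P4_bound b.s b.low
  have hbt : ∀ t : Chn Θ X × Θ × Θ × Θ, ∃ c, t ∈ b.h → c < D.la ∧ ∀ a ∈ t.1.lev, a < c := by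
    intro t
    by_cases ht : t ∈ b.h
    · obtain ⟨c, hb, hb'⟩ := P4_bound t.1 (b.ok.low t ht)
      exact ⟨c, fun _ => ⟨hb, hb'⟩⟩
    · exact ⟨u, fun h => absurd h ht⟩
  choose f hf using hbt
  have hinf : ℵ₀ ≤ #(Iio D.la) := D.la_reg.aleph0_le
  obtain ⟨th, hth, hth'⟩ := exists_bound_la (X := X) (E := insert a₀ (insert u (f '' b.h))) (by
    refine mk_insert_le.trans_lt (add_lt_of_lt hinf ?_ (one_lt_aleph0.trans_le hinf))
    refine mk_insert_le.trans_lt ?_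
    exact add_lt_of_lt hinf (mk_image_le.trans_lt b.ok.card) (one_lt_aleph0.trans_le hinf)) (by
    rintro a (rfl | rfl | ⟨t, ht, rfl⟩)
    · exact ha₀
    · exact hu
    · exact (hf t ht).1)
  have hsth : ∀ a ∈ b.s.lev, a < th := fun a ha =>
    (hu' a ha).trans (hth' u (mem_insert_of_mem _ (mem_insert _ _)))
  have htth : ∀ t ∈ b.h, ∀ a ∈ t.1.lev, a < th := fun t ht a ha =>
    ((hf t ht).2 a ha).trans (hth' _ (mem_insert_of_mem _ (mem_insert_of_mem _ ⟨t, ht, rfl⟩)))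
  let Loc : Nam Θ X := {t | (∀ a ∈ t.1.lev, a < th) ∧ t.1 ≤ b.s ∧ ∃ t' ∈ b.h, t'.2.1 < al ∧
    t'.2 = t.2 ∧ t.1 ≤ t'.1}
  have hLoc : #Loc < #(Iio D.la) := by
    have h1 : Loc ⊆ {p : Chn Θ X | ∀ b ∈ p.lev, b < th} ×ˢ (Prod.snd '' b.h) := by
      rintro t ⟨h1, h2, t', ht', -, h3, h4⟩
      exact ⟨h1, t', ht', h3⟩
    refine (mk_le_mk_of_subset h1).trans_lt ?_
    rw [mk_setProd]
    exact mul_lt_of_lt hinf (Chn.mk_low_lt th hth) (mk_image_le.trans_lt b.ok.card)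
  refine ⟨Loc, th, ⟨⟨hLoc, ?_, ?_, ?_⟩, ?_, ?_⟩, hth, (hth' _ (mem_insert _ _)).le, hsth, ?_⟩
  · intro t ht a ha
    exact (ht.1 a ha).trans hth
  · rintro t ⟨-, -, t', ht', -, h3, -⟩
    rw [← h3]; exact b.ok.pos t' ht'
  · rintro t ⟨-, -, t', ht', -, h3, -⟩
    rw [← h3]; exact b.ok.v t' ht'
  · rintro τ τ' be xi v v' ⟨-, h1, ⟨τ₁, t₁⟩, ht₁, -, h3, h4⟩ ⟨-, -, ⟨τ₂, t₂⟩, ht₂, -, h5, h6⟩
      ρ - h7 h8
    simp only at h3 h4 h5 h6 h1
    subst h3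
    subst h5
    exact b.val τ₁ τ₂ be xi v v' ht₁ ht₂ ρ (h7.trans h1) (h7.trans h4) (h8.trans h6)
  · rintro t ⟨-, -, t', -, h2, h3, -⟩
    rw [← h3]; exact h2
  · intro t' ht' hal ρ hρ hρt
    refine ⟨P4_lev_cut ρ th, ?_, t', ht', hal, rfl, ?_⟩
    · have := Chn.cut_mono th hρ
      rwa [P4_cut b.s hsth] at this
    · have := Chn.cut_mono th hρt
      rwa [P4_cut t'.1 (htth t' ht')] at this

/-- One round. -/
private lemma P4_round {al : Θ} {ι : Type} (hι : #ι < #(Iio D.la)) (T : ι → Set (BB Θ X))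
    (hT : ∀ i, OpenD (T i)) (hdet : ∀ i, Det al (T i)) {g : Nam Θ X} (H : P4_good al g) {t : Θ}
    (ht : t < D.la) :
    ∃ s : Nam Θ X × Θ, P4_good al s.1 ∧ g ⊆ s.1 ∧ t < s.2 ∧ s.2 < D.la ∧
      ∀ i, ∀ σ : Chn Θ X, (∀ a ∈ σ.lev, a < t) → ∃ c ∈ T i, c.s ≤ σ ∧
        (∀ a ∈ c.s.lev, a < s.2) ∧ c.h = s.1 := by
  have hinf : ℵ₀ ≤ #(Iio D.la) := D.la_reg.aleph0_le
  have hJ : #(ι × {p : Chn Θ X // ∀ b ∈ p.lev, b < t}) < #(Iio D.la) := by
    rw [mk_prod, lift_id, lift_id]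
    exact mul_lt_of_lt hinf hι (Chn.mk_low_lt t ht)
  obtain ⟨h, g1, g2, g3, g4, g5⟩ := processing hJ (fun j => T j.1) (fun j => hT j.1)
    (fun j => hdet j.1) (fun j => j.2.1) (fun j a ha => (j.2.2 a ha).trans ht) H.1 H.2.1 H.2.2
  choose c hc using g5
  obtain ⟨t', ht', ht''⟩ := exists_bound_la (X := X) (E := insert t (⋃ j, (c j).s.lev)) (by
    refine mk_insert_le.trans_lt (add_lt_of_lt hinf ?_ (one_lt_aleph0.trans_le hinf))
    exact (card_iUnion_lt_iff_forall_of_isRegular D.la_reg hJ).2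
      fun j => (P4_lev_lt _).trans D.κ_lt) (by
    rintro a (rfl | ha)
    · exact ht
    · obtain ⟨j, hj⟩ := mem_iUnion.1 ha
      exact (c j).low a hj)
  refine ⟨(h, t'), ⟨g1, g2, g3⟩, g4, ht'' t (mem_insert _ _), ht', fun i σ hσ => ?_⟩
  obtain ⟨h1, h2, h3⟩ := hc (i, ⟨σ, hσ⟩)
  exact ⟨c (i, ⟨σ, hσ⟩), h1, h2, fun a ha => ht'' a (mem_insert_of_mem _
    (mem_iUnion.2 ⟨_, ha⟩)), h3⟩

open Classical in
private noncomputable def P4_stp {al : Θ} {ι : Type} (hι : #ι < #(Iio D.la))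
    (T : ι → Set (BB Θ X)) (hT : ∀ i, OpenD (T i)) (hdet : ∀ i, Det al (T i)) (g : Nam Θ X)
    (t : Θ) : Nam Θ X × Θ :=
  if H : P4_good al g ∧ t < D.la then (P4_round hι T hT hdet H.1 H.2).choose else (g, t)

private lemma P4_stp_spec {al : Θ} {ι : Type} (hι : #ι < #(Iio D.la))
    (T : ι → Set (BB Θ X)) (hT : ∀ i, OpenD (T i)) (hdet : ∀ i, Det al (T i)) {g : Nam Θ X}
    {t : Θ} (H : P4_good al g) (ht : t < D.la) :
    P4_good al (P4_stp hι T hT hdet g t).1 ∧ g ⊆ (P4_stp hι T hT hdet g t).1 ∧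
      t < (P4_stp hι T hT hdet g t).2 ∧ (P4_stp hι T hT hdet g t).2 < D.la ∧
      ∀ i, ∀ σ : Chn Θ X, (∀ a ∈ σ.lev, a < t) → ∃ c ∈ T i, c.s ≤ σ ∧
        (∀ a ∈ c.s.lev, a < (P4_stp hι T hT hdet g t).2) ∧
          c.h = (P4_stp hι T hT hdet g t).1 := by
  unfold P4_stp
  rw [dif_pos ⟨H, ht⟩]
  exact (P4_round hι T hT hdet H ht).choose_spec

open Classical in
private noncomputable def P4_bd (Θ X : Type) [LinearOrder Θ] [WellFoundedLT Θ] [D : SG Θ X]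
    (E : Set Θ) : Θ :=
  if h : ∃ b < D.la, ∀ a ∈ E, a < b then h.choose else D.la

private lemma P4_bd_spec {E : Set Θ} (h : #E < #(Iio D.la)) (h' : ∀ a ∈ E, a < D.la) :
    P4_bd Θ X E < D.la ∧ ∀ a ∈ E, a < P4_bd Θ X E := by
  have h1 := exists_bound_la (X := X) h h'
  unfold P4_bd
  rw [dif_pos h1]
  exact h1.choose_spec

/-- The index set. -/
private abbrev P4_K (Θ X : Type) [LinearOrder Θ] [WellFoundedLT Θ] [D : SG Θ X] : Type :=
  D.κ.ord.ToType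

private lemma P4_K_bdd {E : Set Θ} (hE : #E < D.κ) (w : Θ → WithBot (P4_K Θ X)) :
    ∃ k : P4_K Θ X, ∀ a ∈ E, w a < (k : WithBot (P4_K Θ X)) := by
  by_contra hcon
  push Not at hcon
  have hK : #(P4_K Θ X) = D.κ := mk_ord_toType _
  have h1 : (Set.univ : Set (P4_K Θ X)) ⊆ ⋃ i : E, {k : P4_K Θ X | (k : WithBot _) ≤ w i.1} := by
    intro k _
    obtain ⟨a, ha, hle⟩ := hcon k
    exact Set.mem_iUnion.2 ⟨⟨a, ha⟩, hle⟩
  have h2 : ∀ x : WithBot (P4_K Θ X), #{k : P4_K Θ X | (k : WithBot _) ≤ x} < D.κ := by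
    intro x
    cases x with
    | bot =>
      have : {k : P4_K Θ X | (k : WithBot (P4_K Θ X)) ≤ ⊥} = ∅ := by
        ext k
        simp
      rw [this, mk_eq_zero]
      exact D.κ_reg.pos
    | coe x =>
      have : {k : P4_K Θ X | (k : WithBot (P4_K Θ X)) ≤ x} = insert x (Iio x) := by
        ext k
        simp [le_iff_eq_or_lt]
      rw [this]
      refine mk_insert_le.trans_lt (add_lt_of_lt D.κ_reg.aleph0_le ?_
        (one_lt_aleph0.trans_le D.κ_reg.aleph0_le))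
      exact mk_Iio_toType_ord_lt x
  have h3 := (mk_le_mk_of_subset h1).trans_lt
    ((card_iUnion_lt_iff_forall_of_isRegular D.κ_reg hE).2 fun i => h2 _)
  rw [mk_univ, hK] at h3
  exact lt_irrefl _ h3

/-- P4: the fusion lemma. -/
theorem fusion {al : Θ} {ι : Type} (hι : #ι < #(Iio D.la)) (T : ι → Set (BB Θ X))
    (hT : ∀ i, OpenD (T i)) (hdet : ∀ i, Det al (T i)) (b : BB Θ X) (a₀ : Θ) (ha₀ : a₀ < D.la) :
    ∃ (th : Θ) (b' : BB Θ X), th < D.la ∧ a₀ ≤ th ∧ b'.s = b.s ∧ b.h ⊆ b'.h ∧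
      (∀ a ∈ b.s.lev, a < th) ∧
      ∀ i, ∀ σ : Chn Θ X, σ ≤ b.s → (∀ a ∈ σ.lev, a < th) →
        ∃ b'' ∈ T i, b''.s ≤ σ ∧ (∀ a ∈ b''.s.lev, a < th) ∧ b''.h = b'.h := by
  classical
  obtain ⟨g₀, t₀, hg₀, ht₀, hat₀, hst₀, hloc⟩ := P4_loc al b a₀ ha₀
  have hla : ℵ₀ ≤ #(Iio D.la) := D.la_reg.aleph0_le
  have hW : #(WithBot (P4_K Θ X)) < #(Iio D.la) := by
    have h1 : #(WithBot (P4_K Θ X)) = #(P4_K Θ X) + 1 := mk_option
    rw [h1, mk_ord_toType]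
    exact add_lt_of_lt hla D.κ_lt (one_lt_aleph0.trans_le hla)
  obtain ⟨F, hF⟩ : ∃ F : WithBot (P4_K Θ X) → Nam Θ X × Θ, ∀ w : WithBot (P4_K Θ X), F w =
      WithBot.recBotCoe (C := fun _ => Nam Θ X × Θ) (g₀, t₀)
        (fun i : P4_K Θ X => P4_stp hι T hT hdet
          (⋃ j : {j : WithBot (P4_K Θ X) // j < (i : WithBot (P4_K Θ X))}, (F j).1)
          (P4_bd Θ X (range fun j : {j : WithBot (P4_K Θ X) // j < (i : WithBot (P4_K Θ X))} =>
            (F j).2))) w :=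
    ⟨(wellFounded_lt (α := WithBot (P4_K Θ X))).fix fun w rec =>
      WithBot.recBotCoe (C := fun x => (∀ y : WithBot (P4_K Θ X), y < x → Nam Θ X × Θ) →
          Nam Θ X × Θ) (fun _ => (g₀, t₀))
        (fun (i : P4_K Θ X) rec => P4_stp hι T hT hdet
          (⋃ j : {j : WithBot (P4_K Θ X) // j < (i : WithBot (P4_K Θ X))}, (rec j j.2).1)
          (P4_bd Θ X (range fun j : {j : WithBot (P4_K Θ X) // j < (i : WithBot (P4_K Θ X))} =>
            (rec j j.2).2))) w rec,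
      fun w => by
        rw [(wellFounded_lt (α := WithBot (P4_K Θ X))).fix_eq _ w]
        cases w <;> rfl⟩
  have key : ∀ w, P4_good al (F w).1 ∧ (F w).2 < D.la ∧
      (∀ j < w, (F j).1 ⊆ (F w).1 ∧ (F j).2 < (F w).2) ∧
      ∀ k : P4_K Θ X, w = k → ∀ i, ∀ σ : Chn Θ X, (∀ a ∈ σ.lev, ∃ j < w, a < (F j).2) →
        ∃ c ∈ T i, c.s ≤ σ ∧ (∀ a ∈ c.s.lev, a < (F w).2) ∧ c.h = (F w).1 := by
    intro w
    induction w using WellFoundedLT.induction with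
    | _ w ih =>
      cases w with
      | bot =>
        have h0 : F ⊥ = (g₀, t₀) := hF ⊥
        refine ⟨by rw [h0]; exact hg₀, by rw [h0]; exact ht₀, fun j hj => absurd hj not_lt_bot,
          fun i hi => absurd hi.symm (WithBot.coe_ne_bot)⟩
      | coe i =>
        have hi := hF (i : WithBot (P4_K Θ X))
        have hi' : F (i : WithBot (P4_K Θ X)) = P4_stp hι T hT hdet
          (⋃ j : {j : WithBot (P4_K Θ X) // j < (i : WithBot (P4_K Θ X))}, (F j).1)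
          (P4_bd Θ X (range fun j : {j : WithBot (P4_K Θ X) // j < (i : WithBot (P4_K Θ X))} =>
            (F j).2)) := hi
        have hmono : Monotone fun j : {j : WithBot (P4_K Θ X) // j < (i : WithBot (P4_K Θ X))} => (F j).1 := by
          intro j j' hjj
          rcases eq_or_lt_of_le hjj with hjj | hjj
          · rw [hjj]
          · exact ((ih j' j'.2).2.2.1 j hjj).1
        have hcard : #{j : WithBot (P4_K Θ X) // j < (i : WithBot (P4_K Θ X))} < #(Iio D.la) :=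
          (mk_subtype_le _).trans_lt hW
        obtain ⟨g1, g2⟩ := nam_union hcard _ hmono (fun j => (ih j j.2).1.1) (σ := ⊤)
          (fun j => (ih j j.2).1.2.1)
        have hg : P4_good al (⋃ j : {j : WithBot (P4_K Θ X) // j < (i : WithBot (P4_K Θ X))}, (F j).1) := by
          refine ⟨g1, g2, fun t ht => ?_⟩
          obtain ⟨j, hj⟩ := mem_iUnion.1 ht
          exact (ih j j.2).1.2.2 t hj
        obtain ⟨hb1, hb2⟩ := P4_bd_spec (X := X)
          (E := range fun j : {j : WithBot (P4_K Θ X) // j < (i : WithBot (P4_K Θ X))} => (F j).2)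
          (mk_range_le.trans_lt hcard) (by
            rintro a ⟨j, rfl⟩
            exact (ih j j.2).2.1)
        obtain ⟨s1, s2, s3, s4, s5⟩ := P4_stp_spec hι T hT hdet hg hb1
        rw [← hi'] at s1 s2 s3 s4 s5
        refine ⟨s1, s4, fun j hj => ⟨?_, ?_⟩, fun k hk i' σ hσ => ?_⟩
        · exact Subset.trans
            (subset_iUnion (fun j : {j : WithBot (P4_K Θ X) // j < (i : WithBot (P4_K Θ X))} => (F j).1) ⟨j, hj⟩) s2
        · exact (hb2 _ ⟨⟨j, hj⟩, rfl⟩).trans s3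
        · refine s5 i' σ fun a ha => ?_
          obtain ⟨j, hj, haj⟩ := hσ a ha
          exact haj.trans (hb2 _ ⟨⟨j, hj⟩, rfl⟩)
  have hmono : Monotone fun w => (F w).1 := by
    intro j j' hjj
    rcases eq_or_lt_of_le hjj with hjj | hjj
    · rw [hjj]
    · exact ((key j').2.2.1 j hjj).1
  obtain ⟨g1, g2⟩ := nam_union hW (fun w => (F w).1) hmono (fun j => (key j).1.1) (σ := ⊤)
    (fun j => (key j).1.2.1)
  have g3 : NIn al (⋃ w, (F w).1) := by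
    intro t ht
    obtain ⟨j, hj⟩ := mem_iUnion.1 ht
    exact (key j).1.2.2 t hj
  have h0 : F ⊥ = (g₀, t₀) := hF ⊥
  have hg₀F : g₀ ⊆ ⋃ w, (F w).1 := by
    have : (F ⊥).1 = g₀ := by rw [h0]
    rw [← this]
    exact subset_iUnion (fun w => (F w).1) ⊥
  -- the supremum
  obtain ⟨bd, hbd, hbd'⟩ := exists_bound_la (X := X) (E := range fun w => (F w).2)
    (mk_range_le.trans_lt hW) (by
      rintro a ⟨w, rfl⟩
      exact (key w).2.1)
  let S : Set Θ := {t | ∀ w, (F w).2 ≤ t}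
  have hSne : S.Nonempty := ⟨bd, fun w => (hbd' _ ⟨w, rfl⟩).le⟩
  let th : Θ := (wellFounded_lt (α := Θ)).min S hSne
  have hthS : ∀ w, (F w).2 ≤ th := (wellFounded_lt (α := Θ)).min_mem S hSne
  have hthla : th < D.la :=
    lt_of_le_of_lt (not_lt.1 ((wellFounded_lt (α := Θ)).not_lt_min S
      (x := bd) (fun w => (hbd' _ ⟨w, rfl⟩).le))) hbd
  have hlt : ∀ a < th, ∃ w, a < (F w).2 := by
    intro a ha
    by_contra hcon
    push Not at hcon
    exact (wellFounded_lt (α := Θ)).not_lt_min S (x := a) hcon ha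
  have ht₀th : t₀ ≤ th := by
    have := hthS ⊥
    rw [h0] at this
    exact this
  have hval : Valid b.s ((⋃ w, (F w).1) ∪ b.h) := by
    have hmix : ∀ τ τ' be xi v v', (τ, be, xi, v) ∈ (⋃ w, (F w).1) → (τ', be, xi, v') ∈ b.h →
        ∀ ρ : Chn Θ X, ρ ≤ b.s → ρ ≤ τ → ρ ≤ τ' → v = v' := by
      intro τ τ' be xi v v' h1 h2 ρ hρ h3 h4
      have hbe : be < al := g3 (τ, be, xi, v) h1
      have h5 := hg₀F (hloc _ h2 hbe ρ hρ h4)
      exact g2 τ (ρ.cut t₀) be xi v v' h1 h5 ρ le_top h3 (Chn.le_cut _ _)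
    rintro τ τ' be xi v v' (h1 | h1) (h2 | h2) ρ hρ h3 h4
    · exact g2 τ τ' be xi v v' h1 h2 ρ le_top h3 h4
    · exact hmix τ τ' be xi v v' h1 h2 ρ hρ h3 h4
    · exact (hmix τ' τ be xi v' v h2 h1 ρ hρ h4 h3).symm
    · exact b.val τ τ' be xi v v' h1 h2 ρ hρ h3 h4
  have hok : NamOK ((⋃ w, (F w).1) ∪ b.h) := by
    refine ⟨(mk_union_le _ _).trans_lt (add_lt_of_lt hla g1.card b.ok.card), ?_, ?_, ?_⟩
    · rintro t (ht | ht)
      · exact g1.low t ht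
      · exact b.ok.low t ht
    · rintro t (ht | ht)
      · exact g1.pos t ht
      · exact b.ok.pos t ht
    · rintro t (ht | ht)
      · exact g1.v t ht
      · exact b.ok.v t ht
  refine ⟨th, ⟨b.s, (⋃ w, (F w).1) ∪ b.h, b.low, hok, hval⟩, hthla, hat₀.trans ht₀th, rfl,
    subset_union_right, fun a ha => (hst₀ a ha).trans_le ht₀th, fun i σ hσ hσth => ?_⟩
  have hw : ∀ a : Θ, ∃ w, a < th → a < (F w).2 := by
    intro a
    by_cases ha : a < th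
    · obtain ⟨w, hw⟩ := hlt a ha
      exact ⟨w, fun _ => hw⟩
    · exact ⟨⊥, fun h => absurd h ha⟩
  choose w hw using hw
  obtain ⟨k, hk⟩ := P4_K_bdd (P4_lev_lt σ) w
  obtain ⟨c, hcT, hcs, hcl, hch⟩ := (key k).2.2.2 k rfl i σ fun a ha =>
    ⟨w a, hk a ha, hw a (hσth a ha)⟩
  refine ⟨⟨c.s, (⋃ w, (F w).1) ∪ b.h, c.low, hok, fun τ τ' be xi v v' h1 h2 ρ hρ h3 h4 =>
    hval τ τ' be xi v v' h1 h2 ρ (hρ.trans (hcs.trans hσ)) h3 h4⟩,
    (hT i).wk c hcT _ (BB.Wk.of_le ⟨le_rfl, ?_⟩), hcs,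
    fun a ha => (hcl a ha).trans_le (hthS k), rfl⟩
  rw [hch]
  exact (subset_iUnion (fun w => (F w).1) k).trans subset_union_left

end Pool.CV
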