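import Pool.Agent.Lib.MP_cc7fb1_cf.Chn

/-!
# MP_cc7fb1: the posets
-/

set_option autoImplicit false
set_option linter.unusedSectionVars false

open Cardinal Set Pool.CF

namespace Pool.CV

variable {Θ X : Type} [LinearOrder Θ] [WellFoundedLT Θ] [D : SG Θ X]

variable (Θ X) in
/-- Names: sets of tuples (chain, coordinate, position, value). -/
abbrev Nam := Set (Chn Θ X × Θ × Θ × Θ)

/-- The formal requirements on a name. -/
structure NamOK (h : Nam Θ X) : Prop where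
  card : #h < #(Iio D.la)
  low : ∀ t ∈ h, t.1.Low
  pos : ∀ t ∈ h, t.2.2.1 < D.la
  v : ∀ t ∈ h, t.2.2.2 < t.2.1

/-- The name `h` is a partial function below `σ`. -/
def Valid (σ : Chn Θ X) (h : Nam Θ X) : Prop :=
  ∀ τ τ' be xi v v', (τ, be, xi, v) ∈ h → (τ', be, xi, v') ∈ h →
    ∀ ρ : Chn Θ X, ρ ≤ σ → ρ ≤ τ → ρ ≤ τ' → v = v'

/-- All coordinates of `h` are below `al`. -/
def NIn (al : Θ) (h : Nam Θ X) : Prop := ∀ t ∈ h, t.2.1 < al

/-- The part of `h` below the coordinate `al`. -/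
def nres (al : Θ) (h : Nam Θ X) : Nam Θ X := {t | t ∈ h ∧ t.2.1 < al}

variable (Θ X) in
/-- The poset `P_λ * Col(λ, <δ)`. -/
structure BB where
  s : Chn Θ X
  h : Nam Θ X
  low : s.Low
  ok : NamOK h
  val : Valid s h

namespace BB

@[ext] lemma ext' {b b' : BB Θ X} (h₁ : b.s = b'.s) (h₂ : b.h = b'.h) : b = b' := by
  cases b; cases b'; congr

instance : PartialOrder (BB Θ X) where
  le b' b := b'.s ≤ b.s ∧ b.h ⊆ b'.h
  le_refl b := ⟨le_rfl, Subset.rfl⟩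
  le_trans _ _ _ h₁ h₂ := ⟨h₁.1.trans h₂.1, h₂.2.trans h₁.2⟩
  le_antisymm _ _ h₁ h₂ := BB.ext' (le_antisymm h₁.1 h₂.1) (subset_antisymm h₂.2 h₁.2)

lemma le_def {b' b : BB Θ X} : b' ≤ b ↔ b'.s ≤ b.s ∧ b.h ⊆ b'.h := Iff.rfl

/-- The part below the coordinate `al`. -/
def res (al : Θ) (b : BB Θ X) : BB Θ X where
  s := b.s
  h := nres al b.h
  low := b.low
  ok := ⟨(mk_le_mk_of_subset (sep_subset _ _)).trans_lt b.ok.card, fun t ht => b.ok.low t ht.1,
    fun t ht => b.ok.pos t ht.1, fun t ht => b.ok.v t ht.1⟩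
  val := fun τ τ' be xi v v' h h' => b.val τ τ' be xi v v' h.1 h'.1

/-- All coordinates are below `al`. -/
def In (al : Θ) (b : BB Θ X) : Prop := NIn al b.h

/-- The weak (forced) order. -/
def Wk (b' b : BB Θ X) : Prop :=
  b'.s ≤ b.s ∧ ∀ t ∈ b.h, ∀ ρ : Chn Θ X, ρ ≤ b'.s → ρ ≤ t.1 → ∃ t' ∈ b'.h, t'.2 = t.2 ∧ ρ ≤ t'.1

end BB

variable (Θ X) in
/-- Small subsets of `λ`, ordered by end extension. -/
structure R0 where
  c : Set Θ
  sub : ∀ g ∈ c, g < D.la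
  card : #c < D.κ

namespace R0

@[ext] lemma ext' {b b' : R0 Θ X} (h : b.c = b'.c) : b = b' := by
  cases b; cases b'; congr

lemma endExt_trans {c₁ c₂ c₃ : Set Θ} (h₁ : EndExt c₁ c₂) (h₂ : EndExt c₂ c₃) : EndExt c₁ c₃ := by
  refine ⟨h₂.1.trans h₁.1, fun g hg hn g' hg' => ?_⟩
  by_cases h : g ∈ c₂
  · exact h₂.2 g h hn g' hg'
  · exact h₁.2 g hg h g' (h₂.1 hg')

instance : PartialOrder (R0 Θ X) where
  le b' b := EndExt b'.c b.c
  le_refl b := ⟨Subset.rfl, fun _ h h' => absurd h h'⟩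
  le_trans _ _ _ h₁ h₂ := endExt_trans h₁ h₂
  le_antisymm _ _ h₁ h₂ := R0.ext' (subset_antisymm h₂.1 h₁.1)

lemma le_def {b' b : R0 Θ X} : b' ≤ b ↔ EndExt b'.c b.c := Iff.rfl

end R0

variable (Θ X) in
/-- The poset `P_λ * Col(λ, <δ) * R₀`. -/
abbrev LL := BB Θ X × R0 Θ X

namespace LL

/-- The part below the coordinate `al`. -/
def res (al : Θ) (l : LL Θ X) : LL Θ X := (l.1.res al, l.2)

/-- All coordinates are below `al`. -/
def In (al : Θ) (l : LL Θ X) : Prop := l.1.In al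

/-- The condition `l` decides that the value at coordinate `be` and position `xi` is `v`. -/
def Dc (l : LL Θ X) (be xi v : Θ) : Prop := ∃ τ, (τ, be, xi, v) ∈ l.1.h ∧ l.1.s ≤ τ

end LL

end Pool.CV
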