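import Pool.Agent.Lib.MP_cc7fb1_cf.RfDef

/-!
# MP_cc7fb1: the reflected system (row R1)
-/

set_option autoImplicit false

open Cardinal Set

namespace Pool.CF

variable {Θ X : Type} [LinearOrder Θ] [WellFoundedLT Θ] [HG Θ X]

theorem R1_extS_lt (S₀ : Θ → Lv Θ) {a : Θ} (ha : a < la X) : extS X S₀ a = S₀ a := by
  unfold extS
  rw [if_pos ha]

theorem R1_extS_ge (S₀ : Θ → Lv Θ) {a : Θ} (ha : ¬ a < la X) : extS X S₀ a =
    { C := {r | ∀ᶠ x in FF Θ X, pi x r ∈ (S₀ (pi x a)).C}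
      le := fun r' r => ∀ᶠ x in FF Θ X, (S₀ (pi x a)).le (pi x r') (pi x r)
      sg := fun r => {p | ∀ᶠ x in FF Θ X, (pi x p.1, pi x p.2) ∈ (S₀ (pi x a)).sg (pi x r)} } := by
  unfold extS
  rw [if_neg ha]

/-- for almost all `x` the level number `pi x a` is a level of the given system -/
theorem R1_ae_eq (S₀ : Θ → Lv Θ) (a : Θ) :
    ∀ᶠ x in FF Θ X, extS X S₀ (pi x a) = S₀ (pi x a) := by
  filter_upwards [ae_pi_lt_la (X := X) a] with x hx
  exact R1_extS_lt S₀ hx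

/-- the elements of the levels below `la` are below `la` -/
theorem R1_lt_la {S₀ : Θ → Lv Θ} (h : LaSys (κ Θ X) (la X) S₀) {a : Θ} (ha : a < la X) {r : Θ}
    (hr : r ∈ (S₀ a).C) : r < la X := by
  obtain ⟨b, hb, hb'⟩ := h.bdd a ha
  exact (hb' r hr).trans hb

/-- the coordinates of the pairs attached to elements of the levels below `la` are below `la` -/
theorem R1_pairs_lt {S₀ : Θ → Lv Θ} (h : LaSys (κ Θ X) (la X) S₀) {a : Θ} (ha : a < la X) {r : Θ}
    (hr : r ∈ (S₀ a).C) {p : Θ × Θ} (hp : p ∈ (S₀ a).sg r) : p.1 < la X ∧ p.2 < la X := by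
  have h1 := (h.str a ha).lt r hr p.1 ⟨p.2, hp⟩
  have h2 := ((h.str a ha).ch r hr).mem p.1 p.2 hp
  exact ⟨h1.trans ha, R1_lt_la h (h1.trans ha) h2⟩

theorem R1_rep_ge {S₀ : Θ → Lv Θ} (h : LaSys (κ Θ X) (la X) S₀) {a : Θ} (ha : ¬ a < la X) :
    Rep (extS X S₀ a) (fun x : X => extS X S₀ (pi x a)) := by
  have hE := R1_extS_ge S₀ ha
  have hsg : ∀ r ∈ (extS X S₀ a).C, ∃ t : Set (Θ × Θ), #t < κ Θ X ∧ (extS X S₀ a).sg r = t ∧
      ∀ᶠ x in FF Θ X, (S₀ (pi x a)).sg (pi x r) = tr (pi x) t := by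
    intro r hr
    rw [hE] at hr
    change ∀ᶠ x in FF Θ X, pi x r ∈ (S₀ (pi x a)).C at hr
    obtain ⟨t, ht, ht'⟩ := rep_pairs (s := fun x : X => (S₀ (pi x a)).sg (pi x r)) (by
      filter_upwards [hr, ae_pi_lt_la (X := X) a] with x hx hx'
      exact ⟨((h.str _ hx').ch _ hx).card, fun p hp => R1_pairs_lt h hx' hx hp⟩)
    refine ⟨t, ht, ?_, ?_⟩
    · rw [hE]
      ext p
      change (∀ᶠ x in FF Θ X, (pi x p.1, pi x p.2) ∈ (S₀ (pi x a)).sg (pi x r)) ↔ p ∈ t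
      have h1 : ∀ᶠ x in FF Θ X, ((pi x p.1, pi x p.2) ∈ (S₀ (pi x a)).sg (pi x r) ↔ p ∈ t) := by
        filter_upwards [ht', HG.fine (X := X) p.1, HG.fine (X := X) p.2] with x hx h1 h2
        rw [hx.1]
        exact mem_tr x hx.2 h1 h2
      rw [Filter.eventually_congr h1]
      exact Filter.eventually_const
    · filter_upwards [ht'] with x hx
      exact hx.1
  refine ⟨?_, ?_, ?_, ?_, ?_⟩
  · intro r
    rw [hE]
    change (∀ᶠ x in FF Θ X, pi x r ∈ (S₀ (pi x a)).C) ↔ _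
    apply Filter.eventually_congr
    filter_upwards [R1_ae_eq (X := X) S₀ a] with x hx
    rw [hx]
  · intro r _ s _
    rw [hE]
    change (∀ᶠ x in FF Θ X, (S₀ (pi x a)).le (pi x r) (pi x s)) ↔ _
    apply Filter.eventually_congr
    filter_upwards [R1_ae_eq (X := X) S₀ a] with x hx
    rw [hx]
  · intro r hr
    obtain ⟨t, -, h2, h3⟩ := hsg r hr
    filter_upwards [h3, R1_ae_eq (X := X) S₀ a] with x hx hx'
    rw [hx', h2]
    exact hx
  · intro r hr
    obtain ⟨t, h1, h2, -⟩ := hsg r hr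
    rw [h2]
    exact h1
  · filter_upwards [R1_ae_eq (X := X) S₀ a, ae_pi_lt_la (X := X) a] with x hx hx' r hr
    rw [hx] at hr
    exact R1_lt_la h hx' hr

theorem R1_rep_lt {S₀ : Θ → Lv Θ} (h : LaSys (κ Θ X) (la X) S₀) {a : Θ} (ha : a < la X) :
    Rep (extS X S₀ a) (fun x : X => extS X S₀ (pi x a)) := by
  have hE := R1_extS_lt S₀ ha
  have hae : ∀ᶠ x in FF Θ X, extS X S₀ (pi x a) = S₀ a := by
    filter_upwards [HG.pi_id (X := X) a ha] with x hx
    rw [hx, hE]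
  have hid : ∀ r ∈ (S₀ a).C, ∀ᶠ x in FF Θ X, pi x r = r := fun r hr =>
    HG.pi_id (X := X) r (R1_lt_la h ha hr)
  refine ⟨?_, ?_, ?_, ?_, ?_⟩
  · intro r
    rw [hE]
    constructor
    · intro hr
      filter_upwards [hae, hid r hr] with x hx hx'
      rw [hx, hx']
      exact hr
    · intro hr
      obtain ⟨b, hb, hb'⟩ := h.bdd a ha
      have h1 : ∀ᶠ x in FF Θ X, pi x r < pi x b := by
        filter_upwards [hr, hae, HG.pi_id (X := X) b hb] with x h1 h2 h3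
        rw [h2] at h1
        rw [h3]
        exact hb' _ h1
      have h2 : r < la X := (ae_pi_lt_iff.1 h1).trans hb
      have h3 : ∀ᶠ x in FF Θ X, r ∈ (S₀ a).C := by
        filter_upwards [hr, hae, HG.pi_id (X := X) r h2] with x h1 h2 h3
        rw [h2, h3] at h1
        exact h1
      exact Filter.eventually_const.1 h3
  · intro r hr s hs
    rw [hE] at hr hs ⊢
    have h1 : ∀ᶠ x in FF Θ X, ((extS X S₀ (pi x a)).le (pi x r) (pi x s) ↔ (S₀ a).le r s) := by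
      filter_upwards [hae, hid r hr, hid s hs] with x h1 h2 h3
      rw [h1, h2, h3]
    rw [Filter.eventually_congr h1]
    exact Filter.eventually_const.symm
  · intro r hr
    rw [hE] at hr ⊢
    have hc := ((h.str a ha).ch r hr).card
    have h1 : ∀ᶠ x in FF Θ X, ∀ p : ↥((S₀ a).sg r), pi x p.1.1 = p.1.1 ∧ pi x p.1.2 = p.1.2 := by
      apply HG.compl (X := X) _ (fun (p : ↥((S₀ a).sg r)) (x : X) =>
        pi x p.1.1 = p.1.1 ∧ pi x p.1.2 = p.1.2) (hc.trans HG.κ_lt)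
      intro p
      have h2 := R1_pairs_lt h ha hr p.2
      filter_upwards [HG.pi_id (X := X) p.1.1 h2.1, HG.pi_id (X := X) p.1.2 h2.2] with x h3 h4
      exact ⟨h3, h4⟩
    filter_upwards [h1, hae, hid r hr] with x h1 h2 h3
    rw [h2, h3]
    ext p
    constructor
    · intro hp
      refine ⟨p, hp, ?_⟩
      have h4 := h1 ⟨p, hp⟩
      exact Prod.ext h4.1 h4.2
    · rintro ⟨q, hq, rfl⟩
      have h4 := h1 ⟨q, hq⟩
      have h5 : (pi x q.1, pi x q.2) = q := Prod.ext h4.1 h4.2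
      change (pi x q.1, pi x q.2) ∈ (S₀ a).sg r
      rw [h5]
      exact hq
  · intro r hr
    rw [hE] at hr ⊢
    exact ((h.str a ha).ch r hr).card
  · filter_upwards [hae] with x hx r hr
    rw [hx] at hr
    exact R1_lt_la h ha hr

/-- Row R1.  The extension reflects.  (For `a < la`: `pi x a = a` a.e.; `r ∈ C` is `< la`, so
`pi x r = r` a.e.; if a.e. `pi x r ∈ C` then `pi x r < b < la`, so `pi x r` is constant a.e., `= c = pi x c`,
so `r = c`.  `sg`: the pairs are small sets with labels and values below `la`: `rep_pairs`, and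
`(p ∈ sg r ↔ a.e. ...)` by `mem_tr`.  `univ_la`: `IsStr.congr`.) -/
theorem rf_extS {S₀ : Θ → Lv Θ} (h : LaSys (κ Θ X) (la X) S₀) : Rf X (extS X S₀) := by
  refine ⟨⟨?_, ?_, ?_⟩, ?_, ?_⟩
  · intro a
    by_cases ha : a < la X
    · exact R1_rep_lt h ha
    · exact R1_rep_ge h ha
  · intro a ha
    rw [R1_extS_lt S₀ ha]
    rw [IsStr.congr (S' := S₀) fun c hc => R1_extS_lt S₀ (hc.trans ha)]
    exact h.str a ha
  · intro a ha
    rw [R1_extS_lt S₀ ha]
    exact h.bdd a ha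
  · intro a r r' hle
    by_cases ha : a < la X
    · rw [R1_extS_lt S₀ ha] at hle ⊢
      exact (h.nrm a ha).le r' r hle
    · rw [R1_extS_ge S₀ ha] at hle ⊢
      change ∀ᶠ x in FF Θ X, (S₀ (pi x a)).le (pi x r') (pi x r) at hle
      change (∀ᶠ x in FF Θ X, pi x r' ∈ (S₀ (pi x a)).C) ∧
        ∀ᶠ x in FF Θ X, pi x r ∈ (S₀ (pi x a)).C
      rw [← Filter.eventually_and]
      filter_upwards [hle, ae_pi_lt_la (X := X) a] with x h1 h2
      exact (h.nrm _ h2).le _ _ h1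
  · intro a₀ ha₀ Y hY hb
    rw [IsStr.congr (S' := S₀) fun c hc => R1_extS_lt S₀ (hc.trans ha₀)] at hY
    obtain ⟨a, h1, h2, h3⟩ := h.univ a₀ ha₀ Y hY hb
    refine ⟨a, h1, h2, ?_⟩
    rw [R1_extS_lt S₀ h1]
    exact h3

end Pool.CF
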