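import Pool.Agent.Lib.MP_cc7fb1_cf.R2

/-!
# MP_cc7fb1: transfer of infima (row R3)
-/

set_option autoImplicit false

open Cardinal Set

namespace Pool.CF

variable {Θ X : Type} [LinearOrder Θ] [WellFoundedLT Θ] [HG Θ X]

/-- Completeness for small sets of indices. -/
theorem R3_compl {T : Type} {D : Set T} (hD : #D < κ Θ X) {p : T → X → Prop}
    (h : ∀ d ∈ D, ∀ᶠ x in FF Θ X, p d x) : ∀ᶠ x in FF Θ X, ∀ d ∈ D, p d x := by
  have h1 := HG.compl (Θ := Θ) (X := X) D (fun d x => p d.1 x) (hD.trans HG.κ_lt)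
    (fun d => h d.1 d.2)
  filter_upwards [h1] with x hx d hd using hx ⟨d, hd⟩

/-- Values are few. -/
theorem R3_card_vals {D : Set Θ} (hD : #D < κ Θ X) {Y : Lv Θ}
    (hs : ∀ d ∈ D, #(Y.sg d) < κ Θ X) (b : Θ) : #(vals (Y.sg '' D) b) < κ Θ X := by
  have h1 : vals (Y.sg '' D) b ⊆ ⋃ d ∈ D, Prod.snd '' (Y.sg d) := by
    rintro s ⟨σ, ⟨d, hd, rfl⟩, hbs⟩
    exact mem_biUnion hd ⟨(b, s), hbs, rfl⟩
  refine (mk_le_mk_of_subset h1).trans_lt ?_
  rw [card_biUnion_lt_iff_forall_of_isRegular HG.κ_reg hD]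
  intro d hd
  exact mk_image_le.trans_lt (hs d hd)

variable {S : Θ → Lv Θ} (hS : Rf0 X S)
include hS

/-! ### Row R3: transfer of infima -/

theorem los_isInf {Y : Lv Θ} {Yx : X → Lv Θ} (hY : Rep Y Yx) {D : Set Θ} (hD : #D < κ Θ X)
    (hDC : D ⊆ Y.C) (r : Θ) :
    Y.IsInf D r ↔ ∀ᶠ x in FF Θ X, (Yx x).IsInf (pi x '' D) (pi x r) := by
  classical
  constructor
  · rintro ⟨hr, hle, hglb⟩
    have h1 := (hY.C r).1 hr
    have h2 : ∀ᶠ x in FF Θ X, ∀ d ∈ D, (Yx x).le (pi x r) (pi x d) :=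
      R3_compl hD fun d hd => (hY.le r hr d (hDC hd)).1 (hle d hd)
    have h3 : ∀ᶠ x in FF Θ X, ∀ s ∈ (Yx x).C, (∀ d ∈ D, (Yx x).le s (pi x d)) →
        (Yx x).le s (pi x r) := by
      by_contra hcon
      have h4 := ae_not.2 hcon
      have h5 : ∀ x, (¬ ∀ s ∈ (Yx x).C, (∀ d ∈ D, (Yx x).le s (pi x d)) →
          (Yx x).le s (pi x r)) → ∃ s, s ∈ (Yx x).C ∧ (∀ d ∈ D, (Yx x).le s (pi x d)) ∧
          ¬ (Yx x).le s (pi x r) := by
        intro x hx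
        push Not at hx
        exact hx
      let f : X → Θ := fun x => if hx : ∃ s, s ∈ (Yx x).C ∧ (∀ d ∈ D, (Yx x).le s (pi x d)) ∧
          ¬ (Yx x).le s (pi x r) then hx.choose else r
      have hf : ∀ᶠ x in FF Θ X, f x ∈ (Yx x).C ∧ (∀ d ∈ D, (Yx x).le (f x) (pi x d)) ∧
          ¬ (Yx x).le (f x) (pi x r) := by
        filter_upwards [h4] with x hx
        have h6 := h5 x hx
        have h7 : f x = h6.choose := dif_pos h6
        rw [h7]
        exact h6.choose_spec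
      obtain ⟨a, ha⟩ := rep (Θ := Θ) (f := f) (by
        filter_upwards [hf, hY.lt_la] with x hx hx2 using hx2 _ hx.1)
      have haC : a ∈ Y.C := (hY.C a).2 (by
        filter_upwards [hf, ha] with x hx hx2
        rw [← hx2]
        exact hx.1)
      have hle2 : Y.le a r := hglb a haC fun d hd => (hY.le a haC d (hDC hd)).2 (by
        filter_upwards [hf, ha] with x hx hx2
        rw [← hx2]
        exact hx.2.1 d hd)
      obtain ⟨x, hx1, hx2, hx3⟩ := (hf.and (ha.and ((hY.le a haC r hr).1 hle2))).exists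
      apply hx1.2.2
      rw [hx2]
      exact hx3
    filter_upwards [h1, h2, h3] with x a1 a2 a3
    refine ⟨a1, ?_, ?_⟩
    · rintro _ ⟨d, hd, rfl⟩
      exact a2 d hd
    · intro s hs hsd
      exact a3 s hs fun d hd => hsd _ (mem_image_of_mem _ hd)
  · intro h
    have hr : r ∈ Y.C := (hY.C r).2 (by filter_upwards [h] with x hx using hx.1)
    refine ⟨hr, ?_, ?_⟩
    · intro d hd
      exact (hY.le r hr d (hDC hd)).2 (by
        filter_upwards [h] with x hx using hx.2.1 _ (mem_image_of_mem _ hd))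
    · intro s hs hsd
      have h1 := (hY.C s).1 hs
      have h2 : ∀ᶠ x in FF Θ X, ∀ d ∈ D, (Yx x).le (pi x s) (pi x d) :=
        R3_compl hD fun d hd => (hY.le s hs d (hDC hd)).1 (hsd d hd)
      refine (hY.le s hs r hr).2 ?_
      filter_upwards [h, h1, h2] with x a1 a2 a3
      refine a1.2.2 _ a2 ?_
      rintro _ ⟨d, hd, rfl⟩
      exact a3 d hd

theorem los_vals {D : Set Θ} (hD : #D < κ Θ X) {Y : Lv Θ} {Yx : X → Lv Θ} (hY : Rep Y Yx)
    (hDC : D ⊆ Y.C) : ∀ᶠ x in FF Θ X, ∀ b ∈ el x,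
      vals ((Yx x).sg '' (pi x '' D)) (pi x b) = pi x '' vals (Y.sg '' D) b := by
  have h1 : ∀ᶠ x in FF Θ X, ∀ d ∈ D, (Yx x).sg (pi x d) = tr (pi x) (Y.sg d) :=
    R3_compl hD fun d hd => hY.sg d (hDC hd)
  have h2 : ∀ᶠ x in FF Θ X, ∀ d ∈ D, ∀ p ∈ Y.sg d, p.1 ∈ el x ∧ p.2 ∈ el x :=
    R3_compl hD fun d hd => ae_pairs_mem (hY.small d (hDC hd))
  filter_upwards [h1, h2] with x a1 a2 b hb
  ext s
  constructor
  · rintro ⟨_, ⟨_, ⟨d, hd, rfl⟩, rfl⟩, hbs⟩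
    rw [a1 d hd] at hbs
    obtain ⟨p, hp, he⟩ := hbs
    have e1 : pi x p.1 = pi x b := congrArg Prod.fst he
    have e2 : pi x p.2 = s := congrArg Prod.snd he
    have e3 : p.1 = b := pi_inj x (a2 d hd p hp).1 hb e1
    refine ⟨p.2, ⟨Y.sg d, mem_image_of_mem _ hd, ?_⟩, e2⟩
    rw [← e3]
    exact hp
  · rintro ⟨s', ⟨_, ⟨d, hd, rfl⟩, hbs⟩, rfl⟩
    refine ⟨_, ⟨_, ⟨d, hd, rfl⟩, rfl⟩, ?_⟩
    rw [a1 d hd]
    exact ⟨(b, s'), hbs, rfl⟩

theorem los_isLInf {D : Set Θ} (hD : #D < κ Θ X) {Y : Lv Θ} {Yx : X → Lv Θ} (hY : Rep Y Yx)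
    (hDC : D ⊆ Y.C) (hmem : ∀ d ∈ D, ∀ p ∈ Y.sg d, p.2 ∈ (S p.1).C) {r : Θ} (hr : r ∈ Y.C) :
    IsLInf S (Y.sg '' D) (Y.sg r) ↔
      ∀ᶠ x in FF Θ X, IsLInf S ((Yx x).sg '' (pi x '' D)) ((Yx x).sg (pi x r)) := by
  have hsg := hY.sg r hr
  have hel := ae_pairs_mem (hY.small r hr)
  have h1 : ∀ᶠ x in FF Θ X, ∀ d ∈ D, (Yx x).sg (pi x d) = tr (pi x) (Y.sg d) :=
    R3_compl hD fun d hd => hY.sg d (hDC hd)
  have hvals := los_vals hS hD hY hDC
  have hVC : ∀ b, vals (Y.sg '' D) b ⊆ (S b).C := by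
    rintro b s ⟨_, ⟨d, hd, rfl⟩, hbs⟩
    exact hmem d hd (b, s) hbs
  have hVc : ∀ b, #(vals (Y.sg '' D) b) < κ Θ X := fun b =>
    R3_card_vals hD (fun d hd => hY.small d (hDC hd)) b
  constructor
  · rintro ⟨hlev, hval⟩
    have h2 : ∀ᶠ x in FF Θ X, ∀ p ∈ Y.sg r,
        (S (pi x p.1)).IsInf (pi x '' vals (Y.sg '' D) p.1) (pi x p.2) :=
      R3_compl (hY.small r hr) fun p hp =>
        (los_isInf hS (hS.rep p.1) (hVc p.1) (hVC p.1) p.2).1 (hval p.1 p.2 hp)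
    filter_upwards [hsg, hel, h1, hvals, h2] with x a1 a2 a3 a4 a5
    refine ⟨?_, ?_⟩
    · intro b'
      constructor
      · rintro ⟨s', hs'⟩
        rw [a1] at hs'
        obtain ⟨⟨b, s⟩, hp, he⟩ := hs'
        have e1 : pi x b = b' := congrArg Prod.fst he
        obtain ⟨t, _, ⟨d, hd, rfl⟩, hbt⟩ := (hlev b).1 ⟨s, hp⟩
        refine ⟨pi x t, _, ⟨_, ⟨d, hd, rfl⟩, rfl⟩, ?_⟩
        rw [a3 d hd, ← e1]
        exact ⟨(b, t), hbt, rfl⟩
      · rintro ⟨s', _, ⟨_, ⟨d, hd, rfl⟩, rfl⟩, hbs⟩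
        rw [a3 d hd] at hbs
        obtain ⟨⟨b, s⟩, hp, he⟩ := hbs
        have e1 : pi x b = b' := congrArg Prod.fst he
        obtain ⟨t, ht⟩ := (hlev b).2 ⟨s, _, mem_image_of_mem _ hd, hp⟩
        refine ⟨pi x t, ?_⟩
        rw [a1, ← e1]
        exact ⟨(b, t), ht, rfl⟩
    · intro b' s' hs'
      rw [a1] at hs'
      obtain ⟨⟨b, s⟩, hp, he⟩ := hs'
      have e1 : pi x b = b' := congrArg Prod.fst he
      have e2 : pi x s = s' := congrArg Prod.snd he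
      rw [← e1, ← e2, a4 b (a2 _ hp).1]
      exact a5 _ hp
  · intro h
    refine ⟨?_, ?_⟩
    · intro b
      have hb := HG.fine (Θ := Θ) (X := X) b
      constructor
      · rintro ⟨s, hs⟩
        obtain ⟨x, b1, b2, b3, b4⟩ := (h.and (hsg.and (hvals.and hb))).exists
        have h3 := (b1.lev (pi x b)).1 ⟨pi x s, by
          rw [b2]
          exact ⟨(b, s), hs, rfl⟩⟩
        rw [b3 b b4] at h3
        exact h3.of_image
      · intro hne
        obtain ⟨x, b1, b2, b3, b4, b5⟩ := (h.and (hsg.and (hvals.and (hb.and hel)))).exists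
        have h3 := (b1.lev (pi x b)).2 (by
          rw [b3 b b4]
          exact hne.image _)
        rw [b2] at h3
        obtain ⟨s', ⟨⟨b1, s1⟩, hp, he⟩⟩ := h3
        have e1 : pi x b1 = pi x b := congrArg Prod.fst he
        have e3 : b1 = b := pi_inj x (b5 _ hp).1 b4 e1
        exact ⟨s1, e3 ▸ hp⟩
    · intro b s hs
      refine (los_isInf hS (hS.rep b) (hVc b) (hVC b) s).2 ?_
      filter_upwards [h, hsg, hvals, HG.fine (Θ := Θ) (X := X) b] with x b1 b2 b3 b4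
      rw [← b3 b b4]
      refine b1.val _ _ ?_
      rw [b2]
      exact ⟨(b, s), hs, rfl⟩

end Pool.CF
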