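import Pool.Agent.Lib.MP_cc7fb1_cf.R3

/-!
# MP_cc7fb1: transfer of structuredness (row R4)
-/

set_option autoImplicit false

open Cardinal Set

namespace Pool.CF

variable {Θ X : Type} [LinearOrder Θ] [WellFoundedLT Θ] [HG Θ X]

/-- Elements of the levels `Yx x` are represented by elements of `Y`. -/
private lemma R4_ex {Y : Lv Θ} {Yx : X → Lv Θ} (hY : Rep Y Yx) {P : X → Θ → Prop}
    (h : ∀ᶠ x in FF Θ X, ∃ r ∈ (Yx x).C, P x r) :
    ∃ r ∈ Y.C, ∀ᶠ x in FF Θ X, P x (pi x r) := by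
  classical
  have h1 : ∀ x : X, ∃ r : Θ, (∃ r ∈ (Yx x).C, P x r) → r ∈ (Yx x).C ∧ P x r := by
    intro x
    by_cases hx : ∃ r ∈ (Yx x).C, P x r
    · obtain ⟨r, hr, hP⟩ := hx
      exact ⟨r, fun _ => ⟨hr, hP⟩⟩
    · exact ⟨la X, fun h => absurd h hx⟩
  choose f hf using h1
  obtain ⟨r, hr⟩ := rep (Θ := Θ) (X := X) (f := f) (by
    filter_upwards [h, hY.lt_la] with x hx hlt
    exact hlt _ (hf x hx).1)
  refine ⟨r, (hY.C r).2 ?_, ?_⟩
  · filter_upwards [h, hr] with x hx hrx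
    rw [← hrx]
    exact (hf x hx).1
  · filter_upwards [h, hr] with x hx hrx
    rw [← hrx]
    exact (hf x hx).2

private lemma R4_all {Y : Lv Θ} {Yx : X → Lv Θ} (hY : Rep Y Yx) {P : X → Θ → Prop}
    (h : ∀ r ∈ Y.C, ∀ᶠ x in FF Θ X, P x (pi x r)) :
    ∀ᶠ x in FF Θ X, ∀ r ∈ (Yx x).C, P x r := by
  by_contra hne
  have h1 : ∀ᶠ x in FF Θ X, ¬ ∀ r ∈ (Yx x).C, P x r := ae_not.2 hne
  obtain ⟨r, hr, hr'⟩ := R4_ex hY (P := fun x r => ¬ P x r) (by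
    filter_upwards [h1] with x hx
    push Not at hx
    exact hx)
  exact (ae_not.1 hr') (h r hr)

private lemma R4_sets {Y : Lv Θ} {Yx : X → Lv Θ} (hY : Rep Y Yx) {P : X → Set Θ → Prop}
    (h : ∀ D ⊆ Y.C, #D < κ Θ X → ∀ᶠ x in FF Θ X, P x (pi x '' D)) :
    ∀ᶠ x in FF Θ X, ∀ D ⊆ (Yx x).C, #D < κ Θ X → P x D := by
  classical
  by_contra hne
  have h1 : ∀ᶠ x in FF Θ X, ¬ ∀ D ⊆ (Yx x).C, #D < κ Θ X → P x D := ae_not.2 hne
  have h2 : ∀ x : X, ∃ D : Set Θ, (¬ ∀ D ⊆ (Yx x).C, #D < κ Θ X → P x D) →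
      D ⊆ (Yx x).C ∧ #D < κ Θ X ∧ ¬ P x D := by
    intro x
    by_cases hx : ∀ D ⊆ (Yx x).C, #D < κ Θ X → P x D
    · exact ⟨∅, fun h => absurd hx h⟩
    · have hx' := hx
      push Not at hx'
      obtain ⟨D, hD⟩ := hx'
      exact ⟨D, fun _ => hD⟩
  choose f hf using h2
  obtain ⟨t, ht, htx⟩ := rep_set (Θ := Θ) (s := f) (by
    filter_upwards [h1, hY.lt_la] with x hx hlt
    exact ⟨(hf x hx).2.1, fun r hr => hlt r ((hf x hx).1 hr)⟩)
  have h3 : t ⊆ Y.C := by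
    intro r hr
    refine (hY.C r).2 ?_
    filter_upwards [h1, htx] with x hx htx
    apply (hf x hx).1
    rw [htx.1]
    exact mem_image_of_mem _ hr
  have h4 := h t h3 ht
  have h5 : ∀ᶠ x in FF Θ X, ¬ P x (pi x '' t) := by
    filter_upwards [h1, htx] with x hx htx
    rw [← htx.1]
    exact (hf x hx).2.2
  exact (ae_not.1 h5) h4

private lemma R4_pairs {P : X → Set (Θ × Θ) → Prop}
    (h : ∀ t : Set (Θ × Θ), #t < κ Θ X → ∀ᶠ x in FF Θ X, P x (tr (pi x) t)) :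
    ∀ᶠ x in FF Θ X, ∀ σ : Set (Θ × Θ), #σ < κ Θ X → (∀ p ∈ σ, p.1 < la X ∧ p.2 < la X) →
      P x σ := by
  classical
  by_contra hne
  have h1 : ∀ᶠ x in FF Θ X, ¬ ∀ σ : Set (Θ × Θ), #σ < κ Θ X →
      (∀ p ∈ σ, p.1 < la X ∧ p.2 < la X) → P x σ := ae_not.2 hne
  have h2 : ∀ x : X, ∃ σ : Set (Θ × Θ), (¬ ∀ σ : Set (Θ × Θ), #σ < κ Θ X →
      (∀ p ∈ σ, p.1 < la X ∧ p.2 < la X) → P x σ) →
      #σ < κ Θ X ∧ (∀ p ∈ σ, p.1 < la X ∧ p.2 < la X) ∧ ¬ P x σ := by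
    intro x
    by_cases hx : ∀ σ : Set (Θ × Θ), #σ < κ Θ X → (∀ p ∈ σ, p.1 < la X ∧ p.2 < la X) → P x σ
    · exact ⟨∅, fun h => absurd hx h⟩
    · have hx' := hx
      push Not at hx'
      obtain ⟨D, hD⟩ := hx'
      exact ⟨D, fun _ => hD⟩
  choose f hf using h2
  obtain ⟨t, ht, htx⟩ := rep_pairs (Θ := Θ) (s := f) (by
    filter_upwards [h1] with x hx
    exact ⟨(hf x hx).1, (hf x hx).2.1⟩)
  have h5 : ∀ᶠ x in FF Θ X, ¬ P x (tr (pi x) t) := by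
    filter_upwards [h1, htx] with x hx htx
    rw [← htx.1]
    exact (hf x hx).2.2
  exact (ae_not.1 h5) (h t ht)

private lemma R4_compl {D : Set Θ} (hD : #D < κ Θ X) {P : X → Θ → Prop}
    (h : ∀ d ∈ D, ∀ᶠ x in FF Θ X, P x d) : ∀ᶠ x in FF Θ X, ∀ d ∈ D, P x d := by
  have h1 : ∀ᶠ x in FF Θ X, ∀ i : D, P x i :=
    HG.compl D (fun i x => P x i) (hD.trans HG.κ_lt) fun i => h i i.2
  exact h1.mono fun x hx i hi => hx ⟨i, hi⟩

variable {S : Θ → Lv Θ} (hS : Rf0 X S)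
include hS

/-! ### Row R4: transfer of `IsStr` -/

private lemma R4_chLe {σ σ' : Set (Θ × Θ)} (hσ : IsCh (κ Θ X) S σ) (hσ' : IsCh (κ Θ X) S σ') :
    ChLe S σ' σ ↔ ∀ᶠ x in FF Θ X, ChLe S (tr (pi x) σ') (tr (pi x) σ) := by
  have h1 : ∀ p ∈ σ, p.2 ∈ (S p.1).C := fun p hp => hσ.mem p.1 p.2 hp
  have h2 : ∀ p ∈ σ', p.2 ∈ (S p.1).C := fun p hp => hσ'.mem p.1 p.2 hp
  have h3 := los_chLe hS hσ.card hσ'.card
  constructor
  · intro h
    exact (h3.1 ⟨h, h1, h2⟩).mono fun x hx => hx.1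
  · intro h
    refine (h3.2 ?_).1
    filter_upwards [h, (los_isCh hS hσ.card).1 hσ, (los_isCh hS hσ'.card).1 hσ'] with x hx h4 h5
    exact ⟨hx, fun p hp => h4.mem p.1 p.2 hp, fun p hp => h5.mem p.1 p.2 hp⟩

private lemma R4_mp {Y : Lv Θ} {Yx : X → Lv Θ} (hY : Rep Y Yx) (a : Θ)
    (h : IsStr (κ Θ X) S a Y) : ∀ᶠ x in FF Θ X, IsStr (κ Θ X) S (pi x a) (Yx x) := by
  classical
  have hnle : ∀ r ∈ Y.C, ∀ s ∈ Y.C, ¬ Y.le r s → ∀ᶠ x in FF Θ X, ¬ (Yx x).le (pi x r) (pi x s) :=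
    fun r hr s hs hrs => ae_not.2 fun h1 => hrs ((hY.le r hr s hs).2 h1)
  -- refl
  have e1 : ∀ᶠ x in FF Θ X, ∀ r ∈ (Yx x).C, (Yx x).le r r :=
    R4_all hY (P := fun x r => (Yx x).le r r) fun r hr => (hY.le r hr r hr).1 (h.refl r hr)
  -- trans
  have e2 : ∀ᶠ x in FF Θ X, ∀ r ∈ (Yx x).C, ∀ s ∈ (Yx x).C, ∀ t ∈ (Yx x).C, (Yx x).le r s →
      (Yx x).le s t → (Yx x).le r t := by
    refine R4_all hY (P := fun x r => ∀ s ∈ (Yx x).C, ∀ t ∈ (Yx x).C, (Yx x).le r s →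
      (Yx x).le s t → (Yx x).le r t) fun r hr => ?_
    refine R4_all hY (P := fun x s => ∀ t ∈ (Yx x).C, (Yx x).le (pi x r) s →
      (Yx x).le s t → (Yx x).le (pi x r) t) fun s hs => ?_
    refine R4_all hY (P := fun x t => (Yx x).le (pi x r) (pi x s) →
      (Yx x).le (pi x s) t → (Yx x).le (pi x r) t) fun t ht => ?_
    by_cases h1 : Y.le r s
    · by_cases h2 : Y.le s t
      · exact ((hY.le r hr t ht).1 (h.trans r hr s hs t ht h1 h2)).mono fun x hx _ _ => hx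
      · exact (hnle s hs t ht h2).mono fun x hx _ h3 => absurd h3 hx
    · exact (hnle r hr s hs h1).mono fun x hx h3 => absurd h3 hx
  -- antisymm
  have e3 : ∀ᶠ x in FF Θ X, ∀ r ∈ (Yx x).C, ∀ s ∈ (Yx x).C, (Yx x).le r s →
      (Yx x).le s r → r = s := by
    refine R4_all hY (P := fun x r => ∀ s ∈ (Yx x).C, (Yx x).le r s →
      (Yx x).le s r → r = s) fun r hr => ?_
    refine R4_all hY (P := fun x s => (Yx x).le (pi x r) s →
      (Yx x).le s (pi x r) → pi x r = s) fun s hs => ?_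
    by_cases h1 : Y.le r s
    · by_cases h2 : Y.le s r
      · have := h.antisymm r hr s hs h1 h2
        subst this
        exact Filter.Eventually.of_forall fun x _ _ => rfl
      · exact (hnle s hs r hr h2).mono fun x hx _ h3 => absurd h3 hx
    · exact (hnle r hr s hs h1).mono fun x hx h3 => absurd h3 hx
  -- ch
  have e4 : ∀ᶠ x in FF Θ X, ∀ r ∈ (Yx x).C, IsCh (κ Θ X) S ((Yx x).sg r) := by
    refine R4_all hY (P := fun x r => IsCh (κ Θ X) S ((Yx x).sg r)) fun r hr => ?_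
    filter_upwards [hY.sg r hr, (los_isCh hS (hY.small r hr)).1 (h.ch r hr)] with x hx hx'
    rw [hx]
    exact hx'
  -- lt
  have e5 : ∀ᶠ x in FF Θ X, ∀ r ∈ (Yx x).C, ∀ b ∈ lev ((Yx x).sg r), b < pi x a := by
    refine R4_all hY (P := fun x r => ∀ b ∈ lev ((Yx x).sg r), b < pi x a) fun r hr => ?_
    filter_upwards [hY.sg r hr, ae_pairs_mem (hY.small r hr), HG.fine (X := X) a] with x hx h1 ha b hb
    rw [hx] at hb
    obtain ⟨v, ⟨⟨b', v'⟩, hp, he⟩⟩ := hb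
    obtain ⟨h2, h3⟩ := Prod.mk.inj he
    rw [← h2]
    exact HG.pi_mono x b' (h1 _ hp).1 a ha (h.lt r hr b' ⟨v', hp⟩)
  -- mono
  have e6 : ∀ᶠ x in FF Θ X, ∀ r ∈ (Yx x).C, ∀ s ∈ (Yx x).C, (Yx x).le s r →
      ChLe S ((Yx x).sg s) ((Yx x).sg r) := by
    refine R4_all hY (P := fun x r => ∀ s ∈ (Yx x).C, (Yx x).le s r →
      ChLe S ((Yx x).sg s) ((Yx x).sg r)) fun r hr => ?_
    refine R4_all hY (P := fun x s => (Yx x).le s (pi x r) →
      ChLe S ((Yx x).sg s) ((Yx x).sg (pi x r))) fun s hs => ?_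
    by_cases h1 : Y.le s r
    · filter_upwards [hY.sg r hr, hY.sg s hs,
        (R4_chLe hS (h.ch r hr) (h.ch s hs)).1 (h.mono r hr s hs h1)] with x hx hx' hc _
      rw [hx, hx']
      exact hc
    · exact (hnle s hs r hr h1).mono fun x hx h3 => absurd h3 hx
  -- inf
  have e7 : ∀ᶠ x in FF Θ X, ∀ D ⊆ (Yx x).C, #D < κ Θ X → (D.Nonempty →
      (∀ d ∈ D, ∀ d' ∈ D, ∃ e ∈ D, (Yx x).le e d ∧ (Yx x).le e d') →
      ∃ r, (Yx x).IsInf D r ∧ IsLInf S ((Yx x).sg '' D) ((Yx x).sg r)) := by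
    refine R4_sets hY (P := fun x D => D.Nonempty →
      (∀ d ∈ D, ∀ d' ∈ D, ∃ e ∈ D, (Yx x).le e d ∧ (Yx x).le e d') →
      ∃ r, (Yx x).IsInf D r ∧ IsLInf S ((Yx x).sg '' D) ((Yx x).sg r)) fun D hDC hD => ?_
    by_cases hne : D.Nonempty
    · by_cases hdir : ∀ d ∈ D, ∀ d' ∈ D, ∃ e ∈ D, Y.le e d ∧ Y.le e d'
      · obtain ⟨r, hr1, hr2⟩ := h.inf D hDC hne hD hdir
        filter_upwards [(los_isInf hS hY hD hDC r).1 hr1,
          (los_isLInf hS hD hY hDC (fun d hd p hp => (h.ch d (hDC hd)).mem p.1 p.2 hp) hr1.1).1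
            hr2] with x h1 h2 _ _
        exact ⟨pi x r, h1, h2⟩
      · push Not at hdir
        obtain ⟨d, hd, d', hd', hno⟩ := hdir
        have h1 : ∀ᶠ x in FF Θ X, ∀ e ∈ D, ¬ ((Yx x).le (pi x e) (pi x d) ∧
            (Yx x).le (pi x e) (pi x d')) := by
          refine R4_compl hD (P := fun x e => ¬ ((Yx x).le (pi x e) (pi x d) ∧
            (Yx x).le (pi x e) (pi x d'))) fun e he => ?_
          by_cases h2 : Y.le e d
          · exact (hnle e (hDC he) d' (hDC hd') (hno e he h2)).mono fun x hx h3 => hx h3.2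
          · exact (hnle e (hDC he) d (hDC hd) h2).mono fun x hx h3 => hx h3.1
        filter_upwards [h1] with x hx _ hdx
        obtain ⟨_, ⟨e, he, rfl⟩, h3⟩ := hdx _ (mem_image_of_mem _ hd) _ (mem_image_of_mem _ hd')
        exact absurd h3 (hx e he)
    · exact Filter.Eventually.of_forall fun x h1 => absurd (Set.image_nonempty.1 h1) hne
  -- ext
  have e8 : ∀ᶠ x in FF Θ X, ∀ r ∈ (Yx x).C, ∀ σ, IsCh (κ Θ X) S σ → ChLe S σ ((Yx x).sg r) →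
      Cof ((Yx x).sg r) σ → ∃ r' ∈ (Yx x).C, (Yx x).le r' r ∧ ChLe S ((Yx x).sg r') σ := by
    refine R4_all hY (P := fun x r => ∀ σ, IsCh (κ Θ X) S σ → ChLe S σ ((Yx x).sg r) →
      Cof ((Yx x).sg r) σ → ∃ r' ∈ (Yx x).C, (Yx x).le r' r ∧ ChLe S ((Yx x).sg r') σ)
      fun r hr => ?_
    have h1 : ∀ᶠ x in FF Θ X, ∀ σ : Set (Θ × Θ), #σ < κ Θ X →
        (∀ p ∈ σ, p.1 < la X ∧ p.2 < la X) → (IsCh (κ Θ X) S σ → ChLe S σ ((Yx x).sg (pi x r)) →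
        Cof ((Yx x).sg (pi x r)) σ →
        ∃ r' ∈ (Yx x).C, (Yx x).le r' (pi x r) ∧ ChLe S ((Yx x).sg r') σ) := by
      refine R4_pairs (P := fun x σ => (IsCh (κ Θ X) S σ → ChLe S σ ((Yx x).sg (pi x r)) →
        Cof ((Yx x).sg (pi x r)) σ →
        ∃ r' ∈ (Yx x).C, (Yx x).le r' (pi x r) ∧ ChLe S ((Yx x).sg r') σ)) fun t ht => ?_
      by_cases g1 : IsCh (κ Θ X) S t
      · by_cases g2 : ChLe S t (Y.sg r)
        · by_cases g3 : Cof (Y.sg r) t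
          · obtain ⟨r', hr', hle, hch⟩ := h.ext r hr t g1 g2 g3
            filter_upwards [(hY.C r').1 hr', (hY.le r' hr' r hr).1 hle, hY.sg r' hr',
              (R4_chLe hS g1 (h.ch r' hr')).1 hch] with x h2 h3 h4 h5 _ _ _
            refine ⟨pi x r', h2, h3, ?_⟩
            rw [h4]
            exact h5
          · have g4 : ∀ᶠ x in FF Θ X, ¬ Cof (tr (pi x) (Y.sg r)) (tr (pi x) t) :=
              ae_not.2 fun h2 => g3 ((los_cof hS (hY.small r hr) ht).2 h2)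
            filter_upwards [g4, hY.sg r hr] with x h2 h3 _ _ h4
            rw [h3] at h4
            exact absurd h4 h2
        · have g4 : ∀ᶠ x in FF Θ X, ¬ ChLe S (tr (pi x) t) (tr (pi x) (Y.sg r)) :=
            ae_not.2 fun h2 => g2 ((R4_chLe hS (h.ch r hr) g1).2 h2)
          filter_upwards [g4, hY.sg r hr] with x h2 h3 _ h4 _
          rw [h3] at h4
          exact absurd h4 h2
      · have g4 : ∀ᶠ x in FF Θ X, ¬ IsCh (κ Θ X) S (tr (pi x) t) :=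
          ae_not.2 fun h2 => g1 ((los_isCh hS ht).2 h2)
        filter_upwards [g4] with x h2 h3 _ _
        exact absurd h3 h2
    filter_upwards [h1, hY.sg r hr, ae_pairs_mem (hY.small r hr)] with x h2 h3 h4 σ hσ hle hcof
    refine h2 σ hσ.card (fun p hp => ?_) hσ hle hcof
    have h5 : p.1 < la X := by
      obtain ⟨b', hb', hle'⟩ := hcof p.1 ⟨p.2, hp⟩
      rw [h3] at hb'
      obtain ⟨v, ⟨⟨b'', v'⟩, hq, he⟩⟩ := hb'
      obtain ⟨h6, h7⟩ := Prod.mk.inj he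
      refine hle'.trans_lt ?_
      rw [← h6]
      exact HG.pi_lt x b'' (h4 _ hq).1
    refine ⟨h5, ?_⟩
    obtain ⟨b, hb, hbd⟩ := hS.bdd_la p.1 h5
    exact (hbd p.2 (hσ.mem p.1 p.2 hp)).trans hb
  filter_upwards [e1, e2, e3, e4, e5, e6, e7, e8] with x f1 f2 f3 f4 f5 f6 f7 f8
  exact ⟨f1, f2, f3, f4, f5, f6, fun D h1 h2 h3 h4 => f7 D h1 h3 h2 h4, f8⟩

private lemma R4_mpr {Y : Lv Θ} {Yx : X → Lv Θ} (hY : Rep Y Yx) (a : Θ)
    (h : ∀ᶠ x in FF Θ X, IsStr (κ Θ X) S (pi x a) (Yx x)) : IsStr (κ Θ X) S a Y := by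
  classical
  have hch : ∀ r ∈ Y.C, IsCh (κ Θ X) S (Y.sg r) := by
    intro r hr
    rw [los_isCh hS (hY.small r hr)]
    filter_upwards [h, hY.sg r hr, (hY.C r).1 hr] with x h1 h2 h3
    rw [← h2]
    exact h1.ch _ h3
  refine ⟨?_, ?_, ?_, hch, ?_, ?_, ?_, ?_⟩
  · intro r hr
    rw [hY.le r hr r hr]
    filter_upwards [h, (hY.C r).1 hr] with x h1 h3
    exact h1.refl _ h3
  · intro r hr s hs t ht hrs hst
    rw [hY.le r hr t ht]
    filter_upwards [h, (hY.C r).1 hr, (hY.C s).1 hs, (hY.C t).1 ht, (hY.le r hr s hs).1 hrs,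
      (hY.le s hs t ht).1 hst] with x h1 h2 h3 h4 h5 h6
    exact h1.trans _ h2 _ h3 _ h4 h5 h6
  · intro r hr s hs hrs hsr
    rw [← ae_pi_eq_iff (X := X)]
    filter_upwards [h, (hY.C r).1 hr, (hY.C s).1 hs, (hY.le r hr s hs).1 hrs,
      (hY.le s hs r hr).1 hsr] with x h1 h2 h3 h5 h6
    exact h1.antisymm _ h2 _ h3 h5 h6
  · intro r hr b hb
    obtain ⟨v, hv⟩ := hb
    rw [← ae_pi_lt_iff (X := X)]
    filter_upwards [h, hY.sg r hr, (hY.C r).1 hr] with x h1 h2 h3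
    refine h1.lt _ h3 _ ⟨pi x v, ?_⟩
    rw [h2]
    exact ⟨(b, v), hv, rfl⟩
  · intro r hr s hs hle
    rw [R4_chLe hS (hch r hr) (hch s hs)]
    filter_upwards [h, hY.sg r hr, hY.sg s hs, (hY.C r).1 hr, (hY.C s).1 hs,
      (hY.le s hs r hr).1 hle] with x h1 h2 h3 h4 h5 h6
    rw [← h2, ← h3]
    exact h1.mono _ h4 _ h5 h6
  · intro D hDC hne hD hdir
    have g1 : ∀ᶠ x in FF Θ X, ∀ d ∈ D, pi x d ∈ (Yx x).C :=
      R4_compl hD (P := fun x d => pi x d ∈ (Yx x).C) fun d hd => (hY.C d).1 (hDC hd)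
    have g2 : ∀ᶠ x in FF Θ X, ∀ d ∈ D, ∀ d' ∈ D, ∃ e ∈ D, (Yx x).le (pi x e) (pi x d) ∧
        (Yx x).le (pi x e) (pi x d') := by
      refine R4_compl hD (P := fun x d => ∀ d' ∈ D, ∃ e ∈ D, (Yx x).le (pi x e) (pi x d) ∧
        (Yx x).le (pi x e) (pi x d')) fun d hd => ?_
      refine R4_compl hD (P := fun x d' => ∃ e ∈ D, (Yx x).le (pi x e) (pi x d) ∧
        (Yx x).le (pi x e) (pi x d')) fun d' hd' => ?_
      obtain ⟨e, he, h1, h2⟩ := hdir d hd d' hd'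
      filter_upwards [(hY.le e (hDC he) d (hDC hd)).1 h1,
        (hY.le e (hDC he) d' (hDC hd')).1 h2] with x h3 h4
      exact ⟨e, he, h3, h4⟩
    obtain ⟨r, hr, hr'⟩ := R4_ex hY (P := fun x r => (Yx x).IsInf (pi x '' D) r ∧
        IsLInf S ((Yx x).sg '' (pi x '' D)) ((Yx x).sg r)) (by
      filter_upwards [h, g1, g2] with x h1 h2 h3
      obtain ⟨r, hr1, hr2⟩ := h1.inf (pi x '' D) (by
        rintro _ ⟨d, hd, rfl⟩
        exact h2 d hd) (Set.image_nonempty.2 hne) (Cardinal.mk_image_le.trans_lt hD) (by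
        rintro _ ⟨d, hd, rfl⟩ _ ⟨d', hd', rfl⟩
        obtain ⟨e, he, h4, h5⟩ := h3 d hd d' hd'
        exact ⟨_, mem_image_of_mem _ he, h4, h5⟩)
      exact ⟨r, hr1.1, hr1, hr2⟩)
    refine ⟨r, (los_isInf hS hY hD hDC r).2 (hr'.mono fun x hx => hx.1), ?_⟩
    exact (los_isLInf hS hD hY hDC (fun d hd p hp => (hch d (hDC hd)).mem p.1 p.2 hp) hr).2
      (hr'.mono fun x hx => hx.2)
  · intro r hr σ hσ hle hcof
    obtain ⟨r', hr', h1⟩ := R4_ex hY (P := fun x r' => (Yx x).le r' (pi x r) ∧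
        ChLe S ((Yx x).sg r') (tr (pi x) σ)) (by
      filter_upwards [h, hY.sg r hr, (hY.C r).1 hr, (los_isCh hS hσ.card).1 hσ,
        (R4_chLe hS (hch r hr) hσ).1 hle, (los_cof hS (hY.small r hr) hσ.card).1 hcof]
        with x h1 h2 h3 h4 h5 h6
      rw [← h2] at h5 h6
      exact h1.ext _ h3 _ h4 h5 h6)
    refine ⟨r', hr', (hY.le r' hr' r hr).2 (h1.mono fun x hx => hx.1), ?_⟩
    rw [R4_chLe hS hσ (hch r' hr')]
    filter_upwards [h1, hY.sg r' hr'] with x h2 h3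
    rw [← h3]
    exact h2.2

/-- THE TRANSFER THEOREM. -/
theorem los_isStr {Y : Lv Θ} {Yx : X → Lv Θ} (hY : Rep Y Yx) (a : Θ) :
    IsStr (κ Θ X) S a Y ↔ ∀ᶠ x in FF Θ X, IsStr (κ Θ X) S (pi x a) (Yx x) :=
  ⟨R4_mp hS hY a, R4_mpr hS hY a⟩

end Pool.CF
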