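import Pool.Agent.Lib.MP_cc7fb1_cf.W1

/-!
# MP_cc7fb1: the step construction (row W2)
-/

set_option autoImplicit false
set_option linter.unusedSectionVars false

open Cardinal Set Pool.CF

namespace Pool.CV

variable {Θ X : Type} [LinearOrder Θ] [WellFoundedLT Θ] [D : SG Θ X]

variable {Y : OL Θ X} {D' : Set (Chn Θ X)} {th be al : Θ} {bb : Θ → Chn Θ X}

/-- W2. -/
lemma acc_iff (l : LL Θ X) (g : Θ) : Acc Y D' th be bb l g ↔ g ∈ l.2.c ∧ ∃ v, l.Dc be g v ∧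
    bb v ∈ PS Y D' th ∧ (∀ g' < g, Acc Y D' th be bb l g' → ∀ v', l.Dc be g' v' → bb v ≤ bb v') ∧
    l.res Y.al ≤ Y.pr (bb v) := by
  unfold Acc
  rw [WellFounded.fix_eq]

private lemma W2_acc_eq {l : LL Θ X} {g v : Θ} (h : Acc Y D' th be bb l g) (hv : l.Dc be g v) :
    g ∈ l.2.c ∧ bb v ∈ PS Y D' th ∧
      (∀ g' < g, Acc Y D' th be bb l g' → ∀ v', l.Dc be g' v' → bb v ≤ bb v') ∧
      l.res Y.al ≤ Y.pr (bb v) := by
  obtain ⟨h1, v', hv', h2, h3, h4⟩ := (acc_iff l g).1 h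
  obtain rfl := hv.uniq hv'
  exact ⟨h1, h2, h3, h4⟩

/-- W2: the run of a stronger condition continues the run. -/
lemma acc_mono {l l' : LL Θ X} (hl : l ∈ DD0 Y be al bb) (h : l' ≤ l) {g : Θ} (hg : g ∈ l.2.c) :
    Acc Y D' th be bb l' g ↔ Acc Y D' th be bb l g := by
  induction g using WellFoundedLT.induction with
  | ind g ih =>
    obtain ⟨v, hv, htr⟩ := hl.2.2 g hg
    have hle2 : EndExt l'.2.c l.2.c := h.2
    constructor
    · intro ha
      obtain ⟨-, h2, h3, h4⟩ := W2_acc_eq ha (hv.mono h)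
      refine (acc_iff l g).2 ⟨hg, v, hv, h2, fun g' hg' ha' v'' hv'' => ?_, ?_⟩
      · have hg'c : g' ∈ l.2.c := ((acc_iff l g').1 ha').1
        exact h3 g' hg' ((ih g' hg' hg'c).2 ha') v'' (hv''.mono h)
      · rcases htr with htr | htr
        · exact htr
        · exact absurd h4 (htr _ (LL.res_mono Y.al h))
    · intro ha
      obtain ⟨-, h2, h3, h4⟩ := W2_acc_eq ha hv
      refine (acc_iff l' g).2 ⟨hle2.1 hg, v, hv.mono h, h2, fun g' hg' ha' v'' hv'' => ?_,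
        (LL.res_mono Y.al h).trans h4⟩
      have hg'c' : g' ∈ l'.2.c := ((acc_iff l' g').1 ha').1
      have hg'c : g' ∈ l.2.c := by
        by_contra hcon
        exact lt_asymm hg' (hle2.2 g' hg'c' hcon g hg)
      obtain ⟨v₀, hv₀, -⟩ := hl.2.2 g' hg'c
      obtain rfl := (hv₀.mono h).uniq hv''
      exact h3 g' hg' ((ih g' hg' hg'c).1 ha') v₀ hv₀

/-- W2. -/
lemma accV_mono {l l' : LL Θ X} (hl : l ∈ DD0 Y be al bb) (h : l' ≤ l) :
    AccV Y D' th be bb l ⊆ AccV Y D' th be bb l' := by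
  rintro p ⟨g, v, ha, hv, rfl⟩
  exact ⟨g, v, (acc_mono hl h ((acc_iff l g).1 ha).1).2 ha, hv.mono h, rfl⟩

/-- W2: the accepted chains form a small chain. -/
lemma accV_dir (l : LL Θ X) : Dir (AccV Y D' th be bb l) ∧ #(AccV Y D' th be bb l) < D.κ := by
  classical
  constructor
  · rintro _ ⟨g, v, ha, hv, rfl⟩ _ ⟨g', v', ha', hv', rfl⟩
    rcases lt_trichotomy g g' with h | h | h
    · exact ⟨bb v', ⟨g', v', ha', hv', rfl⟩, (W2_acc_eq ha' hv').2.2.1 g h ha v hv, le_rfl⟩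
    · subst h
      obtain rfl := hv.uniq hv'
      exact ⟨bb v, ⟨g, v, ha, hv, rfl⟩, le_rfl, le_rfl⟩
    · exact ⟨bb v, ⟨g, v, ha, hv, rfl⟩, le_rfl, (W2_acc_eq ha hv).2.2.1 g' h ha' v' hv'⟩
  · have h1 : AccV Y D' th be bb l ⊆
        (fun g => if h : ∃ v, l.Dc be g v then bb h.choose else ⊤) '' l.2.c := by
      rintro _ ⟨g, v, ha, hv, rfl⟩
      refine ⟨g, ((acc_iff l g).1 ha).1, ?_⟩
      have h2 : ∃ v, l.Dc be g v := ⟨v, hv⟩
      show (if h : ∃ v, l.Dc be g v then bb h.choose else ⊤) = bb v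
      rw [dif_pos h2]
      exact congrArg bb (h2.choose_spec.uniq hv)
    exact lt_of_le_of_lt ((mk_le_mk_of_subset h1).trans mk_image_le) l.2.card

/-- W2: the accepted chains of a greatest lower bound. -/
lemma accV_glb {E : Set (LL Θ X)} (hne : E.Nonempty) (hc : #E < D.κ) (hd : Dir E)
    (hE : E ⊆ DD0 Y be al bb) {g : LL Θ X} (hg : IsGLB E g) (p : Chn Θ X) :
    p ∈ AccV Y D' th be bb g ↔ ∃ l ∈ E, p ∈ AccV Y D' th be bb l := by
  constructor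
  · rintro ⟨g₀, v, ha, hv, rfl⟩
    obtain ⟨l, hl, hgl⟩ := (LL.glb_c hne hc hd hg g₀).1 ((acc_iff g g₀).1 ha).1
    obtain ⟨v₀, hv₀, -⟩ := (hE hl).2.2 g₀ hgl
    obtain rfl := (hv₀.mono (hg.1 hl)).uniq hv
    exact ⟨l, hl, g₀, v₀, (acc_mono (hE hl) (hg.1 hl) hgl).1 ha, hv₀, rfl⟩
  · rintro ⟨l, hl, hp⟩
    exact accV_mono (hE hl) (hg.1 hl) hp

end Pool.CV
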