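import Pool.Agent.Lib.MP_cc7fb1_cf.W2

/-!
# MP_cc7fb1: the step construction (row W3)
-/

set_option autoImplicit false
set_option linter.unusedSectionVars false

open Cardinal Set Pool.CF

namespace Pool.CV

variable {Θ X : Type} [LinearOrder Θ] [WellFoundedLT Θ] [D : SG Θ X]

variable {Y : OL Θ X} {D' : Set (Chn Θ X)} {th be al : Θ} {bb : Θ → Chn Θ X}

/-- W3. -/
lemma xl_glb {l : LL Θ X} (hne : (AccV Y D' th be bb l).Nonempty) :
    IsGLB (AccV Y D' th be bb l) (xl Y D' th be bb l) := by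
  classical
  have h1 := accV_dir (Y := Y) (D' := D') (th := th) (be := be) (bb := bb) l
  have h2 : ∃ g, IsGLB (AccV Y D' th be bb l) g := Chn.dg _ hne h1.2 h1.1
  unfold xl
  rw [dif_pos h2]
  exact h2.choose_spec

private lemma W3_mem {l : LL Θ X} {p : Chn Θ X} (hp : p ∈ AccV Y D' th be bb l) :
    p ∈ PS Y D' th ∧ l.res Y.al ≤ Y.pr p := by
  obtain ⟨g, v, ha, hv, rfl⟩ := hp
  obtain ⟨-, v', hv', h2, -, h4⟩ := (acc_iff l g).1 ha
  obtain rfl := hv.uniq hv'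
  exact ⟨h2, h4⟩

/-- W3. -/
lemma xl_mem (H : SHyp Y D' th be al bb) {l : LL Θ X} (hne : (AccV Y D' th be bb l).Nonempty) :
    xl Y D' th be bb l ∈ PS Y D' th ∧ l.res Y.al ≤ Y.pr (xl Y D' th be bb l) := by
  have hg := xl_glb hne
  have h1 := accV_dir (Y := Y) (D' := D') (th := th) (be := be) (bb := bb) l
  refine ⟨⟨?_, ?_, fun b hb => ?_⟩, ?_⟩
  · obtain ⟨p, hp⟩ := hne
    exact Chn.lev_mono (hg.1 hp) (W3_mem hp).1.1
  · obtain ⟨p, hp⟩ := hne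
    exact H.op p (W3_mem hp).1.2.1 _ (hg.1 hp)
  · obtain ⟨p, hp, hbp⟩ := (Chn.lev_glb hne h1.2 h1.1 hg b).1 hb
    exact (W3_mem hp).1.2.2 b hbp
  · refine (H.ok.pr_glb hne h1.2 h1.1 (fun p hp => (W3_mem hp).1.1) hg).2 ?_
    rintro _ ⟨p, hp, rfl⟩
    exact (W3_mem hp).2

end Pool.CV
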