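import Pool.Agent.Lib.MP_cc7fb1_cf.W3

/-!
# MP_cc7fb1: the step construction (row W4)
-/

set_option autoImplicit false
set_option linter.unusedSectionVars false

open Cardinal Set Pool.CF

namespace Pool.CV

variable {Θ X : Type} [LinearOrder Θ] [WellFoundedLT Θ] [D : SG Θ X]

variable {Y : OL Θ X} {D' : Set (Chn Θ X)} {th be al : Θ} {bb : Θ → Chn Θ X}

private lemma W4_trt_mono {l l' : LL Θ X} (h : l' ≤ l) {g : Θ} (ht : Trt Y be bb l g) :
    Trt Y be bb l' g := by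
  obtain ⟨v, hv, h1⟩ := ht
  refine ⟨v, hv.mono h, ?_⟩
  rcases h1 with h1 | h1
  · exact Or.inl ((LL.res_mono Y.al h).trans h1)
  · exact Or.inr fun m hm => h1 m (hm.trans (LL.res_mono Y.al h))

/-- W4. -/
lemma DD0_closed {E : Set (LL Θ X)} (hne : E.Nonempty) (hc : #E < D.κ) (hd : Dir E)
    (hE : E ⊆ DD0 Y be al bb) {g : LL Θ X} (hg : IsGLB E g) : g ∈ DD0 Y be al bb := by
  refine ⟨LL.in_glb hne hc hd hg fun l hl => (hE hl).1, fun t ht hbe => ?_, fun g₁ hg₁ => ?_⟩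
  · obtain ⟨l, hl, htl⟩ := (LL.glb_h hne hc hd hg t).1 ht
    obtain ⟨g', hg', hle⟩ := (hE hl).2.1 t htl hbe
    exact ⟨g', (LL.glb_c hne hc hd hg g').2 ⟨l, hl, hg'⟩, hle⟩
  · obtain ⟨l, hl, hgl⟩ := (LL.glb_c hne hc hd hg g₁).1 hg₁
    exact W4_trt_mono (hg.1 hl) ((hE hl).2.2 g₁ hgl)

private lemma W4_pr_in (hY : Y.OK) (p : Chn Θ X) : (Y.pr p).In Y.al := by
  classical
  unfold OL.pr
  split_ifs with h
  · exact hY.good.inn _ h.choose_spec.1
  · intro t ht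
    exact absurd ht (notMem_empty _)

private lemma W4_exists_lt (H : SHyp Y D' th be al bb) (l : LL Θ X) : ∃ v, v < be := by
  obtain ⟨q, hq, -⟩ := H.ok.good.dense (l.res Y.al) (LL.res_in Y.al l)
  obtain ⟨p, hp, hple, hplt⟩ := H.hD q hq
  obtain ⟨v, hv, -⟩ := H.hbb p ⟨(H.ok.pr_le hq hple).1, hp, hplt⟩
  exact ⟨v, hv⟩

private lemma W4_dense_some (H : SHyp Y D' th be al bb) {g : Θ} (hg : g < D.la) (p : LL Θ X)
    (hp : p.In al) : ∃ q : LL Θ X, Trt Y be bb q g ∧ q.In al ∧ q ≤ p := by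
  obtain ⟨v₀, hv₀⟩ := W4_exists_lt H p
  obtain ⟨l', hl', hin, -, v, hv⟩ := LL.exists_dc p hp H.hbe hv₀ hg
  by_cases h : ∃ m : LL Θ X, m ≤ l'.res Y.al ∧ m ≤ Y.pr (bb v)
  · obtain ⟨m, hm1, hm2⟩ := h
    have h1 : m.res Y.al ≤ l'.res Y.al := by
      have := LL.res_mono Y.al hm1
      rwa [LL.res_of_in (LL.res_in Y.al l')] at this
    have h2 : m.res Y.al ≤ Y.pr (bb v) := by
      have := LL.res_mono Y.al hm2
      rwa [LL.res_of_in (W4_pr_in H.ok (bb v))] at this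
    obtain ⟨k, -, hk2, hk3, -, hk5, -⟩ := LL.amal (LL.res_in Y.al m) h1
    refine ⟨k, ⟨v, hv.mono hk2, Or.inl ?_⟩, ?_, hk2.trans hl'⟩
    · rw [hk3]
      exact h2
    · intro t ht
      rw [hk5] at ht
      rcases ht with ht | ht
      · exact ((LL.res_in Y.al m) t ht).trans_le (H.hal.trans H.hbe.le)
      · exact hin t ht
  · exact ⟨l', ⟨v, hv, Or.inr fun m hm1 hm2 => h ⟨m, hm1, hm2⟩⟩, hin, hl'⟩

/-- W4: density (closing-off lemma; tasks: the positions, and the frozen condition). -/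
lemma DD0_dense (H : SHyp Y D' th be al bb) (l : LL Θ X) (hl : l.In al) :
    ∃ q ∈ DD0 Y be al bb, q ≤ l := by
  classical
  let A : Set (LL Θ X) := {l | l.In al}
  have hA : DGOn D.κ A := by
    intro E hE hne hc hd
    obtain ⟨g, hg⟩ := LL.dg E hne hc hd
    exact ⟨g, LL.in_glb hne hc hd hg fun l hl => hE hl, hg⟩
  let Dn : Option (Iio D.la) → Set (LL Θ X) := fun i => i.elim
    {l | ∀ t ∈ l.1.h, t.2.1 = be → ∃ g ∈ l.2.c, t.2.2.1 ≤ g} (fun g => {l | Trt Y be bb l g.1})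
  let T : LL Θ X → Set (Option (Iio D.la)) := fun l =>
    {i | ∀ g : Iio D.la, i = some g → g.1 ∈ l.2.c}
  obtain ⟨q, hq, hql, hqD⟩ := closing_off (P := LL Θ X) D.κ_reg D.κ_unc hA Dn
    (by
      rintro (_ | g) p hp
      · obtain ⟨g, hg, h1, h2⟩ := LL.exists_pos p
        obtain ⟨c', hc', h3⟩ := R0.exists_snoc p.2 hg h2
        refine ⟨(p.1, c'), fun t ht _ => ⟨g, ?_, (h1 t ht).le⟩, hp, ⟨le_rfl, hc'⟩⟩
        show g ∈ c'.c
        rw [h3]
        exact mem_insert _ _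
      · exact W4_dense_some H g.2 p hp)
    (by
      rintro (_ | g') f hf hfD g hg
      · obtain ⟨hne, hc, hd⟩ := dir_range D.κ_unc hf
        intro t ht hbe
        obtain ⟨_, ⟨n, rfl⟩, htl⟩ := (LL.glb_h hne hc hd hg t).1 ht
        obtain ⟨g', hg', hle⟩ := hfD n t htl hbe
        exact ⟨g', (LL.glb_c hne hc hd hg g').2 ⟨_, ⟨n, rfl⟩, hg'⟩, hle⟩
      · exact W4_trt_mono (hg.1 ⟨0, rfl⟩) (hfD 0))
    T
    (by
      intro p _
      have h1 : T p ⊆ insert none (some '' {g : Iio D.la | g.1 ∈ p.2.c}) := by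
        rintro (_ | g) hg
        · exact mem_insert _ _
        · exact mem_insert_of_mem _ ⟨g, hg g rfl, rfl⟩
      refine lt_of_le_of_lt (mk_le_mk_of_subset h1) ?_
      refine lt_of_le_of_lt mk_insert_le ?_
      refine add_lt_of_lt D.κ_unc.le ?_ ?_
      · refine lt_of_le_of_lt mk_image_le ?_
        refine lt_of_le_of_lt (mk_le_of_injective
          (f := fun g : {g : Iio D.la | g.1 ∈ p.2.c} => (⟨g.1.1, g.2⟩ : p.2.c)) ?_) p.2.card
        intro a b h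
        have h2 : a.1.1 = b.1.1 := congrArg (fun z : p.2.c => z.1) h
        exact Subtype.ext (Subtype.ext h2)
      · exact one_lt_aleph0.trans D.κ_unc)
    (by
      intro f hf hfA _ g hg i hi
      obtain ⟨hne, hc, hd⟩ := dir_range D.κ_unc hf
      cases i with
      | none => exact ⟨0, fun m _ g h => by cases h⟩
      | some g' =>
        obtain ⟨_, ⟨n, rfl⟩, hn⟩ := (LL.glb_c hne hc hd hg g'.1).1 (hi g' rfl)
        refine ⟨n, fun m hm g h => ?_⟩
        cases h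
        exact (hf hm).2.1 hn) l hl
  refine ⟨q, ⟨hq, ?_, fun g hg => ?_⟩, hql⟩
  · exact hqD none fun g h => by cases h
  · exact hqD (some ⟨g, q.2.sub g hg⟩) fun g' h => by
      cases h
      exact hg

end Pool.CV
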