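import Pool.Agent.Lib.MP_cc7fb1_cf.W4

/-!
# MP_cc7fb1: the step construction (row W5)
-/

set_option autoImplicit false
set_option linter.unusedSectionVars false

open Cardinal Set Pool.CF

namespace Pool.CV

variable {Θ X : Type} [LinearOrder Θ] [WellFoundedLT Θ] [D : SG Θ X]

variable {Y : OL Θ X} {D' : Set (Chn Θ X)} {th be al : Θ} {bb : Θ → Chn Θ X}

/-- W5: append a proposal. -/
lemma append (H : SHyp Y D' th be al bb) {l : LL Θ X} (hl : l ∈ DD0 Y be al bb) {y : Chn Θ X}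
    (hy : y ∈ PS Y D' th) (hle : ∀ p ∈ AccV Y D' th be bb l, y ≤ p) (hpr : Y.pr y ≤ l.res Y.al) :
    ∃ k ∈ DD0 Y be al bb, k ≤ l ∧ k.res Y.al ≤ Y.pr y ∧ y ∈ AccV Y D' th be bb k := by
  obtain ⟨v, hv, hbv⟩ := H.hbb y hy
  obtain ⟨hq, -, -, -⟩ := H.ok.pr_spec hy.1
  have hin : (Y.pr y).In Y.al := H.ok.good.inn _ hq
  obtain ⟨m, hmk, hml, hmres, hms, hmh, hm2⟩ := LL.amal hin hpr
  obtain ⟨g, hg, hgh, hgc⟩ := LL.exists_pos m
  obtain ⟨c', hc', hc'c⟩ := R0.exists_snoc m.2 hg hgc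
  have hm'm : ((m.1, c') : LL Θ X) ≤ m := ⟨le_rfl, hc'⟩
  have hc'l : c' ≤ l.2 := hc'.trans hml.2
  have hnew : ∀ γ ∈ c'.c, γ ∉ l.2.c → ∀ g' ∈ l.2.c, g' < γ := hc'l.2
  have hfree : ∀ γ ∈ c'.c \ l.2.c, ∀ τ v', (τ, be, γ, v') ∉ ((m.1, c') : LL Θ X).1.h := by
    rintro γ ⟨hγ, hγl⟩ τ v' ht
    have ht' : (τ, be, γ, v') ∈ (Y.pr y).1.h ∪ l.1.h := by
      rw [← hmh]
      exact ht
    rcases ht' with ht' | ht'
    · exact absurd (hin _ ht') (not_lt.2 H.hal)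
    · obtain ⟨g₁, hg₁, hle₁⟩ := hl.2.1 _ ht' rfl
      exact absurd (hnew γ hγ hγl g₁ hg₁) (not_lt.2 hle₁)
  obtain ⟨k, hk, hks, hk2, hkh⟩ := LL.add (l := ((m.1, c') : LL Θ X)) (be := be)
    (c'.c \ l.2.c) (fun _ => v)
    (((mk_le_mk_of_subset diff_subset).trans_lt c'.card).trans D.κ_lt)
    (fun γ hγ => c'.sub γ hγ.1) (fun _ _ => hv) hfree
  have hkm : k ≤ m := hk.trans hm'm
  have hkl : k ≤ l := hkm.trans hml
  have hkres : k.res Y.al ≤ Y.pr y := by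
    rw [← hmres]
    exact LL.res_mono _ hkm
  have hkc : k.2.c = c'.c := by rw [hk2]
  have hDc : ∀ γ ∈ c'.c, γ ∉ l.2.c → k.Dc be γ v := by
    intro γ hγ hγl
    refine ⟨m.1.s, ?_, ?_⟩
    · rw [hkh]
      exact Or.inr ⟨γ, ⟨hγ, hγl⟩, rfl⟩
    · rw [hks]
  have hmem : ∀ t ∈ k.1.h, t ∈ (Y.pr y).1.h ∨ t ∈ l.1.h ∨
      ∃ γ ∈ c'.c \ l.2.c, t = (m.1.s, be, γ, v) := by
    intro t ht
    rw [hkh] at ht
    rcases ht with ht | ht
    · have ht' : t ∈ (Y.pr y).1.h ∪ l.1.h := by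
        rw [← hmh]
        exact ht
      exact ht'.imp id Or.inl
    · exact Or.inr (Or.inr ht)
  have hkD : k ∈ DD0 Y be al bb := by
    refine ⟨?_, ?_, ?_⟩
    · intro t ht
      rcases hmem t ht with ht | ht | ⟨γ, -, rfl⟩
      · exact ((hin _ ht).trans_le H.hal).trans H.hbe
      · exact hl.1 _ ht
      · exact H.hbe
    · intro t ht hbe
      rw [hkc]
      rcases hmem t ht with ht | ht | ⟨γ, hγ, rfl⟩
      · have h1 := hin _ ht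
        rw [hbe] at h1
        exact absurd h1 (not_lt.2 H.hal)
      · obtain ⟨g₁, hg₁, hle₁⟩ := hl.2.1 _ ht hbe
        exact ⟨g₁, hc'l.1 hg₁, hle₁⟩
      · exact ⟨γ, hγ.1, le_rfl⟩
    · intro γ hγ
      rw [hkc] at hγ
      by_cases hγl : γ ∈ l.2.c
      · obtain ⟨v', hv', h1⟩ := hl.2.2 γ hγl
        refine ⟨v', hv'.mono hkl, ?_⟩
        rcases h1 with h1 | h1
        · exact Or.inl ((LL.res_mono _ hkl).trans h1)
        · exact Or.inr fun m' hm' => h1 m' (hm'.trans (LL.res_mono _ hkl))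
      · refine ⟨v, hDc γ hγ hγl, Or.inl ?_⟩
        rw [hbv]
        exact hkres
  have hgc' : g ∈ c'.c := by
    rw [hc'c]
    exact mem_insert _ _
  have hgl : g ∉ l.2.c := fun h => lt_irrefl g (hgc g (hml.2.1 h))
  refine ⟨k, hkD, hkl, hkres, g, v, ?_, hDc g hgc' hgl, hbv.symm⟩
  rw [acc_iff, hkc]
  refine ⟨hgc', v, hDc g hgc' hgl, by rw [hbv]; exact hy, ?_, by rw [hbv]; exact hkres⟩
  intro g' hg' hacc v' hv'
  rw [hbv]
  have hg'c : g' ∈ c'.c := by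
    rw [← hkc]
    exact ((acc_iff k g').1 hacc).1
  by_cases hg'l : g' ∈ l.2.c
  · have h1 := (acc_mono hl hkl hg'l).1 hacc
    obtain ⟨v'', hv'', -⟩ := hl.2.2 g' hg'l
    have h2 : v' = v'' := hv'.uniq (hv''.mono hkl)
    rw [h2]
    exact hle _ ⟨g', v'', h1, hv'', rfl⟩
  · have h2 : v' = v := hv'.uniq (hDc g' hg'c hg'l)
    rw [h2, hbv]

end Pool.CV
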