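import Pool.Agent.Lib.MP_cc7fb1_cf.W5

/-!
# MP_cc7fb1: the step construction (row W6)
-/

set_option autoImplicit false
set_option linter.unusedSectionVars false

open Cardinal Set Pool.CF

namespace Pool.CV

variable {Θ X : Type} [LinearOrder Θ] [WellFoundedLT Θ] [D : SG Θ X]

variable {Y : OL Θ X} {D' : Set (Chn Θ X)} {th be al : Θ} {bb : Θ → Chn Θ X}

private lemma W6_step (H : SHyp Y D' th be al bb) {k : LL Θ X} (hk : k ∈ DD0 Y be al bb) :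
    ∃ k' ∈ DD0 Y be al bb, k' ≤ k ∧ ∃ y ∈ PS Y D' th, Y.pr y ≤ k.res Y.al ∧
      y ∈ AccV Y D' th be bb k' := by
  obtain ⟨q, hq, hqk⟩ := H.ok.good.dense (k.res Y.al) (LL.res_in Y.al k)
  by_cases hne : (AccV Y D' th be bb k).Nonempty
  · obtain ⟨h1, h2⟩ := xl_mem H hne
    obtain ⟨y, hy, hyx, hyq⟩ := H.ok.pr_lift H.op h1 hq (hqk.trans h2)
    obtain ⟨k', hk', hle, -, hacc⟩ := append H hk hy
      (fun p hp => hyx.trans ((xl_glb hne).1 hp)) (hyq.trans hqk)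
    exact ⟨k', hk', hle, y, hy, hyq.trans hqk, hacc⟩
  · obtain ⟨y, hyD, hyq, hyth⟩ := H.hD q hq
    obtain ⟨h1, h2⟩ := H.ok.pr_le hq hyq
    obtain ⟨k', hk', hle, -, hacc⟩ := append H hk (y := y) ⟨h1, hyD, hyth⟩
      (fun p hp => absurd ⟨p, hp⟩ hne) (h2.trans hqk)
    exact ⟨k', hk', hle, y, ⟨h1, hyD, hyth⟩, h2.trans hqk, hacc⟩

/-- W6: density. -/
lemma stepQ_dense (H : SHyp Y D' th be al bb) (l : LL Θ X) (hl : l.In al) :
    ∃ q ∈ stepQ Y D' th be al bb, q ≤ l := by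
  classical
  obtain ⟨k₀, hk₀, hk₀l⟩ := DD0_dense H l hl
  choose! nx hnx using fun (k : LL Θ X) (hk : k ∈ DD0 Y be al bb) => W6_step H hk
  let f : ℕ → LL Θ X := fun n => nx^[n] k₀
  have hfs : ∀ n, f (n + 1) = nx (f n) := fun n => Function.iterate_succ_apply' nx n k₀
  have hf : ∀ n, f n ∈ DD0 Y be al bb := by
    intro n
    induction n with
    | zero => exact hk₀
    | succ n ih =>
      rw [hfs]
      exact (hnx _ ih).1
  have hanti : Antitone f := antitone_nat_of_succ_le fun n => by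
    rw [hfs]
    exact (hnx _ (hf n)).2.1
  obtain ⟨hne, hc, hd⟩ := dir_range D.κ_unc hanti
  obtain ⟨g, hg⟩ := LL.dg _ hne hc hd
  have hsub : range f ⊆ DD0 Y be al bb := by
    rintro _ ⟨n, rfl⟩
    exact hf n
  have hgD : g ∈ DD0 Y be al bb := DD0_closed hne hc hd hsub hg
  have hy : ∀ n, ∃ y ∈ PS Y D' th, Y.pr y ≤ (f n).res Y.al ∧ y ∈ AccV Y D' th be bb g := by
    intro n
    obtain ⟨y, hy, h1, h2⟩ := (hnx _ (hf n)).2.2
    rw [← hfs] at h2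
    exact ⟨y, hy, h1, accV_mono (hf (n + 1)) (hg.1 ⟨n + 1, rfl⟩) h2⟩
  have hAne : (AccV Y D' th be bb g).Nonempty := by
    obtain ⟨y, -, -, hy⟩ := hy 0
    exact ⟨y, hy⟩
  obtain ⟨h1, h2⟩ := xl_mem H hAne
  refine ⟨g, ⟨hgD, hAne, le_antisymm ?_ h2⟩, (hg.1 ⟨0, rfl⟩).trans hk₀l⟩
  refine (LL.res_glb hne hc hd hg Y.al).2 ?_
  rintro _ ⟨_, ⟨n, rfl⟩, rfl⟩
  obtain ⟨y, hyPS, hy1, hy2⟩ := hy n
  exact (H.ok.pr_mono hyPS.1 ((xl_glb hAne).1 hy2)).trans hy1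

end Pool.CV
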