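import Pool.Agent.Lib.MP_cc7fb1_cf.W6

/-!
# MP_cc7fb1: the step construction (row W7)
-/

set_option autoImplicit false
set_option linter.unusedSectionVars false

open Cardinal Set Pool.CF

namespace Pool.CV

variable {Θ X : Type} [LinearOrder Θ] [WellFoundedLT Θ] [D : SG Θ X]

variable {Y : OL Θ X} {D' : Set (Chn Θ X)} {th be al : Θ} {bb : Θ → Chn Θ X}

private lemma W7_mono {l l' : LL Θ X} (hl : l ∈ stepQ Y D' th be al bb)
    (hl' : (AccV Y D' th be bb l').Nonempty) (h : l' ≤ l) :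
    xl Y D' th be bb l' ≤ xl Y D' th be bb l :=
  (xl_glb hl.2.1).2 fun _ hp => (xl_glb hl').1 (accV_mono hl.1 h hp)

/-- W7. -/
lemma stepQ_closed (H : SHyp Y D' th be al bb) {E : Set (LL Θ X)}
    (hE : E ⊆ stepQ Y D' th be al bb) (hne : E.Nonempty) (hc : #E < D.κ) (hd : Dir E)
    {g : LL Θ X} (hg : IsGLB E g) : g ∈ stepQ Y D' th be al bb ∧
      IsGLB (xl Y D' th be bb '' E) (xl Y D' th be bb g) := by
  have hE0 : E ⊆ DD0 Y be al bb := fun l hl => (hE hl).1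
  have hgD : g ∈ DD0 Y be al bb := DD0_closed hne hc hd hE0 hg
  have hAne : (AccV Y D' th be bb g).Nonempty := by
    obtain ⟨l, hl⟩ := hne
    obtain ⟨p, hp⟩ := (hE hl).2.1
    exact ⟨p, accV_mono (hE hl).1 (hg.1 hl) hp⟩
  have hglb : IsGLB (xl Y D' th be bb '' E) (xl Y D' th be bb g) := by
    constructor
    · rintro _ ⟨l, hl, rfl⟩
      exact W7_mono (hE hl) hAne (hg.1 hl)
    · intro m hm
      refine (xl_glb hAne).2 fun p hp => ?_
      obtain ⟨l, hl, hpl⟩ := (accV_glb hne hc hd hE0 hg p).1 hp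
      exact (hm ⟨l, hl, rfl⟩).trans ((xl_glb (hE hl).2.1).1 hpl)
  refine ⟨⟨hgD, hAne, ?_⟩, hglb⟩
  have hne' : (xl Y D' th be bb '' E).Nonempty := hne.image _
  have hc' : #(xl Y D' th be bb '' E) < D.κ := lt_of_le_of_lt mk_image_le hc
  have hd' : Dir (xl Y D' th be bb '' E) := by
    rintro _ ⟨l, hl, rfl⟩ _ ⟨m, hm, rfl⟩
    obtain ⟨n, hn, h1, h2⟩ := hd l hl m hm
    exact ⟨_, ⟨n, hn, rfl⟩, W7_mono (hE hl) (hE hn).2.1 h1, W7_mono (hE hm) (hE hn).2.1 h2⟩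
  have h1 := H.ok.pr_glb hne' hc' hd' (by
    rintro _ ⟨l, hl, rfl⟩
    exact (xl_mem H (hE hl).2.1).1.1) hglb
  have h2 : Y.pr '' (xl Y D' th be bb '' E) = LL.res Y.al '' E := by
    rw [← image_comp]
    exact image_congr fun l hl => (hE hl).2.2
  rw [h2] at h1
  exact h1.unique (LL.res_glb hne hc hd hg Y.al)

/-- W7. -/
lemma xl_mono (H : SHyp Y D' th be al bb) {l l' : LL Θ X} (hl : l ∈ stepQ Y D' th be al bb)
    (hl' : l' ∈ stepQ Y D' th be al bb) (h : l' ≤ l) :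
    xl Y D' th be bb l' ≤ xl Y D' th be bb l := W7_mono hl hl'.2.1 h

end Pool.CV
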