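import Pool.Agent.Lib.MP_cc7fb1_cf.W7

/-!
# MP_cc7fb1: the step construction (row W8)
-/

set_option autoImplicit false
set_option linter.unusedSectionVars false

open Cardinal Set Pool.CF

namespace Pool.CV

variable {Θ X : Type} [LinearOrder Θ] [WellFoundedLT Θ] [D : SG Θ X]

variable {Y : OL Θ X} {D' : Set (Chn Θ X)} {th be al : Θ} {bb : Θ → Chn Θ X}

/-- W8: lifting: append `σ`, then density. -/
lemma stepQ_ext (H : SHyp Y D' th be al bb) {l : LL Θ X} (hl : l ∈ stepQ Y D' th be al bb)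
    {σ : Chn Θ X} (hσ : σ ≤ xl Y D' th be bb l) (hc : Cof (xl Y D' th be bb l).v σ.v) :
    ∃ l' ∈ stepQ Y D' th be al bb, l' ≤ l ∧ xl Y D' th be bb l' ≤ σ := by
  have hne := hl.2.1
  obtain ⟨hxP, hxle⟩ := xl_mem H hne
  have hσP : σ ∈ PS Y D' th := ⟨Chn.lev_mono hσ hxP.1, H.op _ hxP.2.1 _ hσ, fun b hb => by
    obtain ⟨b', hb', hbb⟩ := hc b hb
    exact hbb.trans_lt (hxP.2.2 b' hb')⟩
  obtain ⟨k, hk, hkl, -, hkσ⟩ := append H hl.1 hσP (fun p hp => hσ.trans ((xl_glb hne).1 hp)) (by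
    rw [← hl.2.2]
    exact H.ok.pr_mono hxP.1 hσ)
  obtain ⟨l', hl', hl'k⟩ := stepQ_dense H k hk.1
  exact ⟨l', hl', hl'k.trans hkl, (xl_glb hl'.2.1).1 (accV_mono hk hl'k hkσ)⟩

end Pool.CV
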