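import Pool.Agent.Lib.MP_cc7fb1_cf.W8

/-!
# MP_cc7fb1: the step construction (row W9)
-/

set_option autoImplicit false
set_option linter.unusedSectionVars false

open Cardinal Set Pool.CF

namespace Pool.CV

variable {Θ X : Type} [LinearOrder Θ] [WellFoundedLT Θ] [D : SG Θ X]

variable {Y : OL Θ X} {D' : Set (Chn Θ X)} {th be al : Θ} {bb : Θ → Chn Θ X}

include D in
private lemma W9_one_lt : (1 : Cardinal.{0}) < #Θ := by
  have h := D.κ_unc.trans (D.κ_lt.trans (D.th_init D.la))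
  exact one_lt_aleph0.trans h

private lemma W9_levels (Y : OL Θ X) (hY : Y.OK) (f : LL Θ X → Chn Θ X) :
    ∃ th, Y.a < th ∧ ∀ q ∈ Y.Q, ∀ b ∈ (f q).lev, b < th := by
  have hreg := D.th_reg
  have hQ : #Y.Q < #Θ :=
    (mk_le_mk_of_subset (fun l hl => hY.good.inn l hl)).trans_lt (LL.mk_lt Y.al)
  have hl : ∀ p : Chn Θ X, #p.lev < #Θ := by
    intro p
    have h1 : p.lev ⊆ Prod.fst '' p.v := by
      rintro a ⟨r, hr⟩
      exact ⟨_, hr, rfl⟩
    exact ((mk_le_mk_of_subset h1).trans mk_image_le).trans_lt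
      (p.ch.card.trans (D.κ_lt.trans (D.th_init D.la)))
  have h2 : #(⋃ q : Y.Q, (f q.1).lev : Set Θ) < #Θ := by
    refine (mk_iUnion_le_sum_mk).trans_lt ?_
    exact sum_lt_of_isRegular hreg hQ fun q => hl _
  obtain ⟨b₁, hb₁⟩ := exists_bound (Θ := Θ) (X := X) h2
  obtain ⟨b₂, hb₂⟩ := exists_bound (Θ := Θ) (X := X) (E := {Y.a}) (by
    rw [mk_singleton]; exact W9_one_lt (X := X))
  refine ⟨max b₁ b₂, lt_max_of_lt_right (hb₂ _ rfl), fun q hq b hb => lt_max_of_lt_left ?_⟩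
  exact hb₁ b (mem_iUnion.2 ⟨⟨q, hq⟩, hb⟩)

/-- W9: the step construction. -/
theorem exists_step (Y : OL Θ X) (hY : Y.OK) (D' : Set (Chn Θ X))
    (hop : ∀ p ∈ D', ∀ q ≤ p, q ∈ D') (hD : ∀ q ∈ Y.Q, ∃ p ∈ D', p ≤ Y.tp q) :
    ∃ Z : OL Θ X, Z.OK ∧ Lt Y Z ∧ (∀ l ∈ Z.Q, Y.a ∈ (Z.sg l).lev) ∧ ∀ l ∈ Z.Q, Z.sg l ∈ D' := by
  classical
  choose! f hf using hD
  obtain ⟨th, hth, hlev⟩ := W9_levels Y hY f
  have hPS : #(PS Y D' th) < #Θ :=
    (mk_le_mk_of_subset (fun p hp => hp.2.2)).trans_lt (Chn.mk_lt th)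
  obtain ⟨g⟩ : Nonempty (PS Y D' th ↪ Θ) := Cardinal.le_def _ _ |>.1 hPS.le
  obtain ⟨b₀, hb₀⟩ := exists_bound (Θ := Θ) (X := X) (E := range g) (mk_range_le.trans_lt hPS)
  obtain ⟨al, hal⟩ := exists_bound (Θ := Θ) (X := X) (E := {max b₀ Y.al}) (by
    rw [mk_singleton]; exact W9_one_lt (X := X))
  set be := max b₀ Y.al with hbe
  let bb : Θ → Chn Θ X := fun v => if h : ∃ p, g p = v then (h.choose : PS Y D' th).1 else ⊤
  have hbb : ∀ p ∈ PS Y D' th, ∃ v < be, bb v = p := by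
    intro p hp
    refine ⟨g ⟨p, hp⟩, lt_max_of_lt_left (hb₀ _ ⟨_, rfl⟩), ?_⟩
    have h : ∃ p', g p' = g ⟨p, hp⟩ := ⟨_, rfl⟩
    show (if h : ∃ p', g p' = g ⟨p, hp⟩ then (h.choose : PS Y D' th).1 else ⊤) = p
    rw [dif_pos h]
    have := g.injective h.choose_spec
    rw [this]
  have H : SHyp Y D' th be al bb :=
    { ok := hY
      op := hop
      hD := fun q hq => ⟨f q, (hf q hq).1, (hf q hq).2, hlev q hq⟩
      hth := hth
      hal := le_max_right _ _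
      hbe := hal _ rfl
      hbb := hbb }
  have hG : (PreL.mk al (stepQ Y D' th be al bb) (xl Y D' th be bb)).Good :=
    { inn := fun l hl => hl.1.1
      dense := fun l hl => stepQ_dense H l hl
      closed := fun E hE hne hc hd g hg => (stepQ_closed H hE hne hc hd hg).1
      mono := fun l hl l' hl' h => xl_mono H hl hl' h
      cont := fun E hE hne hc hd g hg => (stepQ_closed H hE hne hc hd hg).2
      ext := fun l hl σ hσ hc => stepQ_ext H hl hσ hc }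
  obtain ⟨⟨Z₀, a, code⟩, hZ, hok, ha⟩ := exists_label _ hG th
  have hZ' : Z₀ = PreL.mk al (stepQ Y D' th be al bb) (xl Y D' th be bb) := hZ
  subst hZ'
  refine ⟨_, hok, ⟨?_, hth.trans_le ha, ?_, ?_⟩, ?_, ?_⟩
  · exact (le_max_right _ _).trans (hal _ rfl).le
  · intro l hl hla
    obtain ⟨h1, h2, -, -⟩ := hY.pr_spec (xl_mem H hl.2.1).1.1
    have h3 : Y.pr (xl Y D' th be bb l) = l.res Y.al := hl.2.2
    rw [h3] at h1 h2
    exact ⟨h1, h2⟩
  · intro l hl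
    obtain ⟨q, hq, hql⟩ := stepQ_dense H l hl
    exact ⟨q, hq, hql, (xl_mem H hq.2.1).1.1⟩
  · intro l hl
    exact (xl_mem H hl.2.1).1.1
  · intro l hl
    exact (xl_mem H hl.2.1).1.2.1

end Pool.CV
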