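import Pool.Agent.Lib.MP_cc7fb1_cf.W1
import Pool.Agent.Lib.MP_cc7fb1_cf.W2
import Pool.Agent.Lib.MP_cc7fb1_cf.W3
import Pool.Agent.Lib.MP_cc7fb1_cf.W4
import Pool.Agent.Lib.MP_cc7fb1_cf.W5
import Pool.Agent.Lib.MP_cc7fb1_cf.W6
import Pool.Agent.Lib.MP_cc7fb1_cf.W7
import Pool.Agent.Lib.MP_cc7fb1_cf.W8
import Pool.Agent.Lib.MP_cc7fb1_cf.W9
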