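import Pool.Agent.Lib.MP_cc7fb1_cf.Lst
import Pool.Agent.Lib.MP_cc7fb1_cf.Stp
import Pool.Agent.Lib.MP_cc7fb1_cf.Proc

/-!
# MP_cc7fb1: the main recursion (definitions)
-/

set_option autoImplicit false
set_option linter.unusedSectionVars false

open Cardinal Set Pool.CF

namespace Pool.CV

variable {Θ X : Type} [LinearOrder Θ] [WellFoundedLT Θ] [D : SG Θ X]

/-- The pair `(p, h)` is in the dense set number `th x` for almost all `x`. -/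
def InT (T : Θ → Set (BB Θ X)) (p : Chn Θ X) (h : X → Nam Θ X) : Prop :=
  ∀ᶠ x in (D.U : Filter X), ∃ b ∈ T (D.pi x D.la), b.s = p.rx x ∧ b.h = h x

/-- The part of the master condition which is visible at `x`. -/
def mst (Y : OL Θ X) (x : X) : Nam Θ X :=
  {t | ∃ q ∈ Y.Q, Y.code q ∈ D.el x ∧ t.1 = (Y.tp q).rx x ∧ q.Dc t.2.1 t.2.2.1 t.2.2.2}

variable (Θ X) in
/-- The data of one stage: the list level, the step level, the name. -/
structure Stg where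
  Y : OL Θ X
  Z : OL Θ X
  h : X → Nam Θ X

/-- The level known before the stage `e`: `F0` for `⊥`. -/
noncomputable def lv (f : Θ → Stg Θ X) : WithBot Θ → OL Θ X
  | ⊥ => F0 Θ X
  | (e : Θ) => (f e).Z

/-- The requirements on the stage number `τ`. -/
structure SAt (T : Θ → Θ → Set (BB Θ X)) (al₀ : Θ → Θ) (τ : Θ) (f : Θ → Stg Θ X)
    (s : Stg Θ X) : Prop where
  okY : s.Y.OK
  okZ : s.Z.OK
  al₀ : al₀ τ ≤ s.Y.al
  al : τ ≤ s.Y.al
  lt : Lt s.Y s.Z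
  lev : ∀ l ∈ s.Z.Q, s.Y.a ∈ (s.Z.sg l).lev
  base : ∀ l ∈ s.Y.Q, D.lab D.la ∈ (s.Y.sg l).lev
  ltY : ∀ e : WithBot Θ, e < τ → Lt (lv f e) s.Y
  ltZ : ∀ e : WithBot Θ, e < τ → Lt (lv f e) s.Z
  ok : ∀ᶠ x in (D.U : Filter X), NamOK (s.h x) ∧ Valid ⊤ (s.h x) ∧ NIn s.Y.al (s.h x)
  sub : ∀ e < τ, ∀ᶠ x in (D.U : Filter X), (f e).h x ⊆ s.h x
  mst : ∀ᶠ x in (D.U : Filter X), mst s.Y x ⊆ s.h x
  task : ∀ l ∈ s.Z.Q, InT (T τ) (s.Z.tp l) s.h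

/-- The name before the processing at stage `τ`. -/
def pre (f : Θ → Stg Θ X) (τ : Θ) (Y : OL Θ X) (x : X) : Nam Θ X :=
  {t | (∃ e < τ, e ∈ D.el x ∧ t ∈ (f e).h x) ∨ t ∈ mst Y x}

end Pool.CV
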