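import Pool.Agent.Lib.MP_cc7fb1_cf.E4
import Pool.Agent.Lib.MP_cc7fb1_cf.E6
import Pool.Agent.Lib.MP_cc7fb1_cf.E7
import Pool.Agent.Lib.MP_cc7fb1_cf.E8

/-!
# MP_cc7fb1: the relation `Er` (all)
-/

set_option autoImplicit false
set_option linter.unusedSectionVars false

open Cardinal Set Pool.CF

namespace Pool.CV

variable {Θ X : Type} [LinearOrder Θ] [WellFoundedLT Θ] [D : SG Θ X]



end Pool.CV
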