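import Pool.Agent.Lib.MP_cc7fb1_cf.Rec
import Pool.Agent.Lib.MP_cc7fb1_cf.D2
import Pool.Agent.Lib.MP_cc7fb1_cf.D4

/-!
# MP_cc7fb1: the relation `Er` (definitions)
-/

set_option autoImplicit false
set_option linter.unusedSectionVars false

open Cardinal Set Pool.CF

namespace Pool.CV

variable {Θ X : Type} [LinearOrder Θ] [WellFoundedLT Θ] [D : SG Θ X]

/-- The stages constructed by the main recursion for all tasks. -/
theorem exists_stages : ∃ (T : Θ → Θ → Set (BB Θ X)) (al₀ : Θ → Θ) (f : Θ → Stg Θ X),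
    (∀ τ, SAt T al₀ τ f (f τ)) ∧ (∀ τ xi, OpenD (T τ xi)) ∧
    ∀ (S : Θ → Set (BB Θ X)) (al : Θ), (∀ xi, OpenD (S xi)) → (∀ xi, Det al (S xi)) →
      ∃ τ, ∀ xi < D.la, T τ xi = S xi := by
  obtain ⟨T, al₀, h1, h2, h3⟩ := exists_tasks (Θ := Θ) (X := X)
  obtain ⟨f, hf⟩ := main_rec h1 h2
  exact ⟨T, al₀, f, hf, h1, h3⟩

variable (Θ X) in
/-- The tasks. -/
noncomputable def TT : Θ → Θ → Set (BB Θ X) := (exists_stages (Θ := Θ) (X := X)).choose

variable (Θ X) in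
/-- The supports. -/
noncomputable def aa : Θ → Θ := (exists_stages (Θ := Θ) (X := X)).choose_spec.choose

variable (Θ X) in
/-- The stages. -/
noncomputable def ff : Θ → Stg Θ X :=
  (exists_stages (Θ := Θ) (X := X)).choose_spec.choose_spec.choose

lemma ff_spec (τ : Θ) : SAt (TT Θ X) (aa Θ X) τ (ff Θ X) (ff Θ X τ) :=
  (exists_stages (Θ := Θ) (X := X)).choose_spec.choose_spec.choose_spec.1 τ

lemma TT_open (τ xi : Θ) : OpenD (TT Θ X τ xi) :=
  (exists_stages (Θ := Θ) (X := X)).choose_spec.choose_spec.choose_spec.2.1 τ xi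

lemma TT_all (S : Θ → Set (BB Θ X)) (al : Θ) (h : ∀ xi, OpenD (S xi)) (h' : ∀ xi, Det al (S xi)) :
    ∃ τ, ∀ xi < D.la, TT Θ X τ xi = S xi :=
  (exists_stages (Θ := Θ) (X := X)).choose_spec.choose_spec.choose_spec.2.2 S al h h'

/-- At the stage `τ` the condition `l` decides that `A` holds. -/
def At (τ : Θ) (l : LL Θ X) (A : Θ → Set (BB Θ X)) : Prop :=
  l.res (ff Θ X τ).Z.al ∈ (ff Θ X τ).Z.Q ∧
    InT A ((ff Θ X τ).Z.tp (l.res (ff Θ X τ).Z.al)) (ff Θ X τ).h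

/-- The condition `(b, c)` forces that `A` is in the generic normal ultrafilter. -/
def Er (b : BB Θ X) (c : R0 Θ X) (A : Θ → Set (BB Θ X)) : Prop :=
  ∀ l' : LL Θ X, l' ≤ (b, c) → ∃ l'' ≤ l', ∃ τ, At τ l'' A

/-- The set number `c`: the ordinals `xi` such that `(σ, c')` is the value at the label
`lab xi`, for some `c' ≤ c`. -/
def AC (c : R0 Θ X) (xi : Θ) : Set (BB Θ X) :=
  {b | ∀ b' ≤ b, ∃ b'' ≤ b', ∃ (σ : Set (Θ × Θ)) (c' : R0 Θ X), PP D.κ D.S xi σ c'.c ∧ c' ≤ c ∧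
    (D.lab xi, D.code xi σ c'.c) ∈ b''.s.v}

end Pool.CV
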