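import Pool.Agent.Lib.MP_cc7fb1_cf.LaSys

/-!
# MP_cc7fb1: representation of levels, the reflected system (definitions)
-/

set_option autoImplicit false

open Cardinal Set

namespace Pool.CF

variable {Θ X : Type} [LinearOrder Θ] [WellFoundedLT Θ] [HG Θ X]

/-- A level `Y` is the limit of the levels `Yx x`. -/
structure Rep (Y : Lv Θ) (Yx : X → Lv Θ) : Prop where
  C : ∀ r, r ∈ Y.C ↔ ∀ᶠ x in FF Θ X, pi x r ∈ (Yx x).C
  le : ∀ r ∈ Y.C, ∀ s ∈ Y.C, (Y.le r s ↔ ∀ᶠ x in FF Θ X, (Yx x).le (pi x r) (pi x s))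
  sg : ∀ r ∈ Y.C, ∀ᶠ x in FF Θ X, (Yx x).sg (pi x r) = tr (pi x) (Y.sg r)
  small : ∀ r ∈ Y.C, #(Y.sg r) < κ Θ X
  lt_la : ∀ᶠ x in FF Θ X, ∀ r ∈ (Yx x).C, r < la X

variable (X) in
/-- The system reflects (the part used for the transfer). -/
structure Rf0 (S : Θ → Lv Θ) : Prop where
  rep : ∀ a, Rep (S a) (fun x : X => S (pi x a))
  str_la : ∀ a < la X, IsStr (κ Θ X) S a (S a)
  bdd_la : ∀ a < la X, ∃ b < la X, ∀ r ∈ (S a).C, r < b

variable (X) in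
/-- The system reflects. -/
structure Rf (S : Θ → Lv Θ) : Prop extends Rf0 X S where
  le : ∀ a r r', (S a).le r' r → r' ∈ (S a).C ∧ r ∈ (S a).C
  univ_la : ∀ a₀ < la X, ∀ Y : Lv Θ, IsStr (κ Θ X) S a₀ Y → (∃ b < la X, ∀ r ∈ Y.C, r < b) →
    ∃ a < la X, a₀ ≤ a ∧ (S a).Agree Y

variable (X) in
open Classical in
/-- The system defined by reflection. -/
noncomputable def extS (S₀ : Θ → Lv Θ) : Θ → Lv Θ := fun a =>
  if a < la X then S₀ a else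
    { C := {r | ∀ᶠ x in FF Θ X, pi x r ∈ (S₀ (pi x a)).C}
      le := fun r' r => ∀ᶠ x in FF Θ X, (S₀ (pi x a)).le (pi x r') (pi x r)
      sg := fun r => {p | ∀ᶠ x in FF Θ X, (pi x p.1, pi x p.2) ∈ (S₀ (pi x a)).sg (pi x r)} }

end Pool.CF
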