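import Pool.Agent.Lib.MP_cc7fb1_cf.LevDef

/-!
# MP_cc7fb1: a function with unbounded fibres (row V1)
-/

set_option autoImplicit false
set_option linter.unusedSectionVars false

open Cardinal Set Pool.CF

namespace Pool.CV

variable {Θ X : Type} [LinearOrder Θ] [WellFoundedLT Θ] [D : SG Θ X]

private theorem V1_zr_le (a : Θ) : zr Θ X ≤ a :=
  not_lt.1 ((wellFounded_lt (α := Θ)).not_lt_min univ (mem_univ a))

private theorem V1_mk_Iic {c : Cardinal.{0}} (hc : ℵ₀ ≤ c) {a : Θ} (h : #(Iio a) < c) :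
    #(Iic a) < c := by
  have h1 : (Iic a : Set Θ) = insert a (Iio a) := by
    ext x
    simp [le_iff_eq_or_lt]
  rw [h1]
  refine lt_of_le_of_lt (mk_insert_le) ?_
  exact add_lt_of_lt hc h (lt_of_lt_of_le one_lt_aleph0 hc)

/-- The position of a cardinal. -/
private theorem V1_pos {a : Θ} {c : Cardinal.{0}} (h : c < #(Iio a)) :
    ∃ th < a, #(Iio th) = c ∧ ∀ b < th, #(Iio b) < c := by
  have hcard : ∀ b : Θ, (Ordinal.typein (α := Θ) (· < ·) b).card = #(Iio b) := fun b =>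
    Ordinal.card_typein (r := ((· < ·) : Θ → Θ → Prop)) b
  have h1 : c.ord < Ordinal.typein (α := Θ) (· < ·) a := by
    by_contra hcon
    rw [not_lt] at hcon
    have h2 := Ordinal.card_le_card hcon
    rw [hcard, card_ord] at h2
    exact absurd h (not_lt.2 h2)
  obtain ⟨th, hth⟩ := Ordinal.typein_surj ((· < ·) : Θ → Θ → Prop)
    (h1.trans (Ordinal.typein_lt_type _ a))
  refine ⟨th, ?_, ?_, fun b hb => ?_⟩
  · rw [← hth] at h1
    exact (Ordinal.typein_lt_typein (r := ((· < ·) : Θ → Θ → Prop))).1 h1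
  · rw [← hcard th, hth, card_ord]
  · have h2 := (Ordinal.typein_lt_typein (r := ((· < ·) : Θ → Θ → Prop))).2 hb
    rw [hth, lt_ord, hcard] at h2
    exact h2

/-- The function for one `th`. -/
private theorem V1_fun (th : Θ) : ∃ F : Θ → Θ, (zr Θ X < th → ∀ g, F g < th) ∧
    (ℵ₀ ≤ #(Iio th) → (∀ b < th, #(Iio b) < #(Iio th)) →
      ∀ v < th, ∀ g₀ < th, ∃ g, g₀ ≤ g ∧ g < th ∧ F g = v) := by
  classical
  by_cases h0 : ℵ₀ ≤ #(Iio th)
  · have hcard : #(Iio th) = #(Iio th × Iio th) := by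
      rw [mk_prod]
      simp only [lift_id]
      exact (mul_eq_self h0).symm
    obtain ⟨e⟩ := Cardinal.eq.1 hcard
    refine ⟨fun g => if h : g < th then (e ⟨g, h⟩).1.1 else zr Θ X, ?_, ?_⟩
    · intro hz g
      dsimp only
      split_ifs with h
      · exact (e ⟨g, h⟩).1.2
      · exact hz
    · intro _ hinit v hv g₀ hg₀
      by_contra hcon
      push Not at hcon
      have h1 : #(Iio th) ≤ #(Iio g₀) := by
        refine Cardinal.mk_le_of_injective (f := fun y : Iio th =>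
          (⟨(e.symm (⟨v, hv⟩, y)).1, ?_⟩ : Iio g₀)) ?_
        · by_contra hge
          have h2 : (e.symm (⟨v, hv⟩, y)).1 < th := (e.symm (⟨v, hv⟩, y)).2
          have h3 := hcon (e.symm (⟨v, hv⟩, y)).1 (not_lt.1 hge) h2
          rw [dif_pos h2] at h3
          have h4 : (⟨(e.symm (⟨v, hv⟩, y)).1, h2⟩ : Iio th) = e.symm (⟨v, hv⟩, y) := rfl
          rw [h4, e.apply_symm_apply] at h3
          exact h3 rfl
        · intro y y' hyy
          have h2 : (e.symm (⟨v, hv⟩, y)).1 = (e.symm (⟨v, hv⟩, y')).1 :=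
            congrArg (fun z : Iio g₀ => z.1) hyy
          have h3 := e.symm.injective (Subtype.ext h2)
          exact (Prod.ext_iff.1 h3).2
      exact absurd (hinit g₀ hg₀) (not_lt.2 h1)
  · exact ⟨fun _ => zr Θ X, fun hz _ => hz, fun h => absurd h h0⟩

/-- V1.  For `a < λ` let `μ := max #(Iio a) κ`, `th := ` the least element with
`#(Iio th) = μ⁺ < λ` (regular): sets of at most `κ` elements of `Iio th` are bounded in `Iio th`,
bounded subsets have fewer than `μ⁺` elements, and a bijection of `Iio th` with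
`Iio th × Iio th` gives `fib th` with fibres of cardinality `μ⁺`, so unbounded. -/
theorem exists_fib : ∃ fib : Θ → Θ → Θ, (∀ th g, zr Θ X < th → fib th g < th) ∧
    ∀ a < D.la, ∃ th < D.la, a ≤ th ∧ zr Θ X < th ∧
      (∀ E : Set Θ, #E ≤ D.κ → (∀ g ∈ E, g < th) → ∃ g < th, ∀ g' ∈ E, g' < g) ∧
      ∀ v < th, ∀ g₀ < th, ∃ g, g₀ ≤ g ∧ g < th ∧ fib th g = v := by
  choose F hF1 hF2 using V1_fun (Θ := Θ) (X := X)
  refine ⟨F, fun th g hz => hF1 th hz g, fun a ha => ?_⟩
  have hκ0 : ℵ₀ ≤ D.κ := D.κ_reg.aleph0_le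
  have hmax : max #(Iio a) D.κ < #(Iio D.la) := max_lt (D.la_init a ha) D.κ_lt
  have hsucc : Order.succ (max #(Iio a) D.κ) < #(Iio D.la) :=
    lt_of_le_of_lt (Order.succ_le_of_lt (cantor _)) (D.la_sl _ hmax)
  have hreg : (Order.succ (max #(Iio a) D.κ)).IsRegular :=
    isRegular_succ (hκ0.trans (le_max_right _ _))
  obtain ⟨th, hth, hcard, hinit⟩ := V1_pos hsucc
  refine ⟨th, hth, ?_, ?_, ?_, ?_⟩
  · by_contra hlt
    rw [not_le] at hlt
    have h1 : #(Iio th) ≤ #(Iio a) := mk_le_mk_of_subset (Iio_subset_Iio hlt.le)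
    rw [hcard] at h1
    exact absurd (lt_of_le_of_lt (h1.trans (le_max_left _ D.κ)) (Order.lt_succ _)) (lt_irrefl _)
  · have hne : #(Iio th) ≠ 0 := by
      rw [hcard]
      exact (lt_of_lt_of_le aleph0_pos hreg.aleph0_le).ne'
    rw [mk_ne_zero_iff] at hne
    obtain ⟨b, hb⟩ := hne
    exact (V1_zr_le b).trans_lt hb
  · intro E hE hEth
    have hElt : #E < Order.succ (max #(Iio a) D.κ) :=
      lt_of_le_of_lt (hE.trans (le_max_right _ _)) (Order.lt_succ _)
    have h1 : #(⋃ g : E, (Iic g.1 : Set Θ)) < Order.succ (max #(Iio a) D.κ) :=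
      (card_iUnion_lt_iff_forall_of_isRegular hreg hElt).2 fun g =>
        V1_mk_Iic hreg.aleph0_le (hinit g.1 (hEth g.1 g.2))
    by_contra hcon
    push Not at hcon
    have h2 : (Iio th : Set Θ) ⊆ ⋃ g : E, (Iic g.1 : Set Θ) := by
      intro g hg
      obtain ⟨g', hg', hle⟩ := hcon g hg
      exact mem_iUnion.2 ⟨⟨g', hg'⟩, hle⟩
    have h3 := mk_le_mk_of_subset h2
    rw [hcard] at h3
    exact absurd h1 (not_lt.2 h3)
  · refine hF2 th ?_ ?_
    · rw [hcard]
      exact hreg.aleph0_le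
    · rw [hcard]
      exact hinit

end Pool.CV
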