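import Pool.Agent.Lib.MP_cc7fb1_cf.V0
import Pool.Agent.Lib.MP_cc7fb1_cf.V1

/-!
# MP_cc7fb1: the collapse maps (definitions)
-/

set_option autoImplicit false
set_option linter.unusedSectionVars false

open Cardinal Set Pool.CF

namespace Pool.CV

variable {Θ X : Type} [LinearOrder Θ] [WellFoundedLT Θ] [D : SG Θ X]

/-- The element `g` of `c` has the number `i`. -/
def Nth (c : Set Θ) (g : Θ) (i : D.κ.ord.ToType) : Prop :=
  g ∈ c ∧ Nonempty (({g' | g' ∈ c ∧ g' < g} : Set Θ) ≃o Iio i)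

variable (Θ X) in
/-- A function with unbounded fibres. -/
noncomputable def fib : Θ → Θ → Θ := (exists_fib (Θ := Θ) (X := X)).choose

lemma fib_lt {th g : Θ} (h : zr Θ X < th) : fib Θ X th g < th :=
  (exists_fib (Θ := Θ) (X := X)).choose_spec.1 th g h

lemma fib_spec (a : Θ) (ha : a < D.la) : ∃ th < D.la, a ≤ th ∧ zr Θ X < th ∧
    (∀ E : Set Θ, #E ≤ D.κ → (∀ g ∈ E, g < th) → ∃ g < th, ∀ g' ∈ E, g' < g) ∧
    ∀ v < th, ∀ g₀ < th, ∃ g, g₀ ≤ g ∧ g < th ∧ fib Θ X th g = v :=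
  (exists_fib (Θ := Θ) (X := X)).choose_spec.2 a ha

/-- The collapse of `th`. -/
def Rl (th : Θ) (p : BB Θ X) (i : D.κ.ord.ToType) (v : Θ) : Prop :=
  ∃ (σ : Chn Θ X) (c : R0 Θ X) (g : Θ), PP D.κ D.S th σ.v c.c ∧
    (D.lab th, D.code th σ.v c.c) ∈ p.s.v ∧ Nth (X := X) c.c g i ∧
    zr Θ X < th ∧ v = fib Θ X th g

end Pool.CV
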