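import Pool.Agent.Lib.MP_cc7fb1_cf.Data

/-!
# MP_cc7fb1: recursion with a specification (row U0)
-/

set_option autoImplicit false

open Cardinal Set

namespace Pool.CF

/-! ### Row U0: recursion with a specification (no ultrafilter) -/

/-- Recursion with a specification: if every partial solution below `i` can be continued at `i`
then there is a solution.  (`WellFounded.fix`, `if h : ∃ v, Q i .. v then h.choose else default`,
strong induction.) -/
theorem exists_wf_seq {ι : Type} {W : Type*} [LinearOrder ι] [WellFoundedLT ι] [Nonempty W]
    (Q : (i : ι) → ((j : ι) → j < i → W) → W → Prop)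
    (h : ∀ (i : ι) (s : ι → W), (∀ j < i, Q j (fun k _ => s k) (s j)) →
      ∃ v, Q i (fun k _ => s k) v) :
    ∃ s : ι → W, ∀ i, Q i (fun k _ => s k) (s i) := by
  classical
  let F : (i : ι) → ((j : ι) → j < i → W) → W := fun i IH =>
    if hh : ∃ v, Q i IH v then hh.choose else Classical.arbitrary W
  let s : ι → W := (wellFounded_lt (α := ι)).fix F
  have hs : ∀ i, s i = F i (fun j _ => s j) := fun i => WellFounded.fix_eq _ F i
  refine ⟨s, fun i => ?_⟩
  induction i using WellFoundedLT.induction with
  | ind i ih =>
    have hex := h i s (fun j hj => ih j hj)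
    have h1 : s i = hex.choose := (hs i).trans (dif_pos hex)
    rw [h1]
    exact hex.choose_spec

end Pool.CF
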