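import Pool.Agent.Lib.MP_cc7fb1_cf.Lev

/-!
# MP_cc7fb1: the step construction (definitions)
-/

set_option autoImplicit false
set_option linter.unusedSectionVars false

open Cardinal Set Pool.CF

namespace Pool.CV

variable {Θ X : Type} [LinearOrder Θ] [WellFoundedLT Θ] [D : SG Θ X]

/-- The chains that may be proposed. -/
def PS (Y : OL Θ X) (D' : Set (Chn Θ X)) (th : Θ) : Set (Chn Θ X) :=
  {p | Y.a ∈ p.lev ∧ p ∈ D' ∧ ∀ b ∈ p.lev, b < th}

/-- The weakest condition. -/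
def LL.top : LL Θ X :=
  (⟨⊤, ∅, fun _ h => absurd h (by rintro ⟨r, hr⟩; exact hr),
    ⟨by rw [mk_eq_zero]; exact D.la_reg.pos, fun _ h => absurd h (notMem_empty _),
      fun _ h => absurd h (notMem_empty _), fun _ h => absurd h (notMem_empty _)⟩,
    fun _ _ _ _ _ _ h => absurd h (notMem_empty _)⟩,
   ⟨∅, fun _ h => absurd h (notMem_empty _), by
      rw [mk_eq_zero]; exact D.κ_reg.pos⟩)

open Classical in
/-- The condition coded by the value of `p` at the label `Y.a`. -/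
noncomputable def OL.pr (Y : OL Θ X) (p : Chn Θ X) : LL Θ X :=
  if h : ∃ l ∈ Y.Q, (Y.a, Y.code l) ∈ p.v then h.choose else LL.top

section run
variable (Y : OL Θ X) (D' : Set (Chn Θ X)) (th be al : Θ) (bb : Θ → Chn Θ X)

/-- The accepted positions. -/
def Acc (l : LL Θ X) : Θ → Prop :=
  (wellFounded_lt (α := Θ)).fix fun g rec => g ∈ l.2.c ∧ ∃ v, l.Dc be g v ∧
    bb v ∈ PS Y D' th ∧ (∀ g' (h : g' < g), rec g' h → ∀ v', l.Dc be g' v' → bb v ≤ bb v') ∧
    l.res Y.al ≤ Y.pr (bb v)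

/-- The accepted chains. -/
def AccV (l : LL Θ X) : Set (Chn Θ X) :=
  {p | ∃ g v, Acc Y D' th be bb l g ∧ l.Dc be g v ∧ p = bb v}

open Classical in
/-- The result of the run. -/
noncomputable def xl (l : LL Θ X) : Chn Θ X :=
  if h : ∃ g, IsGLB (AccV Y D' th be bb l) g then h.choose else ⊤

/-- The position `g` is treated: the value is decided, and its acceptance too. -/
def Trt (l : LL Θ X) (g : Θ) : Prop :=
  ∃ v, l.Dc be g v ∧ (l.res Y.al ≤ Y.pr (bb v) ∨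
    ∀ m : LL Θ X, m ≤ l.res Y.al → ¬ m ≤ Y.pr (bb v))

/-- The conditions whose run is decided and frozen. -/
def DD0 : Set (LL Θ X) :=
  {l | l.In al ∧ (∀ t ∈ l.1.h, t.2.1 = be → ∃ g ∈ l.2.c, t.2.2.1 ≤ g) ∧
    ∀ g ∈ l.2.c, Trt Y be bb l g}

/-- The conditions whose run has been exact. -/
def stepQ : Set (LL Θ X) :=
  {l | l ∈ DD0 Y be al bb ∧ (AccV Y D' th be bb l).Nonempty ∧
    Y.pr (xl Y D' th be bb l) = l.res Y.al}

/-- The hypotheses of the step construction. -/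
structure SHyp : Prop where
  ok : Y.OK
  op : ∀ p ∈ D', ∀ q ≤ p, q ∈ D'
  hD : ∀ q ∈ Y.Q, ∃ p ∈ D', p ≤ Y.tp q ∧ ∀ b ∈ p.lev, b < th
  hth : Y.a < th
  hal : Y.al ≤ be
  hbe : be < al
  hbb : ∀ p ∈ PS Y D' th, ∃ v < be, bb v = p

end run

end Pool.CV
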