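import Mathlib

/-!
# MP_cc7fb1: structured systems and chains

Labels and values are elements of a well-ordered type `Θ`.  A level `Y : Lv Θ` has a carrier
`Y.C`, an order `Y.le r' r` (`r'` is below `r`) and for every element `r` a set of pairs
`Y.sg r`.  A system is a function `S : Θ → Lv Θ`.  A chain is a small partial function `σ`
(a set of pairs (label, value)) with `(S a).sg r = cut a σ` for all `(a, r) ∈ σ`.
-/

set_option autoImplicit false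

open Cardinal Set

namespace Pool.CF

/-- A level. -/
structure Lv (Θ : Type) where
  /-- the carrier -/
  C : Set Θ
  /-- the order: `le r' r` means that `r'` is stronger than `r` -/
  le : Θ → Θ → Prop
  /-- the chain attached to an element -/
  sg : Θ → Set (Θ × Θ)

section
variable {Θ : Type} [LinearOrder Θ]

/-- The part of `σ` below the label `b`. -/
def cut (b : Θ) (σ : Set (Θ × Θ)) : Set (Θ × Θ) := {p | p ∈ σ ∧ p.1 < b}

/-- The labels of `σ`. -/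
def lev (σ : Set (Θ × Θ)) : Set Θ := {a | ∃ r, (a, r) ∈ σ}

/-- `σ` is a chain over the system `S`. -/
structure IsCh (κ : Cardinal.{0}) (S : Θ → Lv Θ) (σ : Set (Θ × Θ)) : Prop where
  card : #σ < κ
  func : ∀ a r r', (a, r) ∈ σ → (a, r') ∈ σ → r = r'
  mem : ∀ a r, (a, r) ∈ σ → r ∈ (S a).C
  coh : ∀ a r, (a, r) ∈ σ → (S a).sg r = cut a σ

/-- The order of chains: `σ'` is stronger than `σ`. -/
def ChLe (S : Θ → Lv Θ) (σ' σ : Set (Θ × Θ)) : Prop :=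
  ∀ a r, (a, r) ∈ σ → ∃ r', (a, r') ∈ σ' ∧ (S a).le r' r

/-- `r` is the infimum of `D` in the level `Y`. -/
def Lv.IsInf (Y : Lv Θ) (D : Set Θ) (r : Θ) : Prop :=
  r ∈ Y.C ∧ (∀ d ∈ D, Y.le r d) ∧ ∀ s ∈ Y.C, (∀ d ∈ D, Y.le s d) → Y.le s r

/-- The values of the members of the family `F` at the label `b`. -/
def vals (F : Set (Set (Θ × Θ))) (b : Θ) : Set Θ := {s | ∃ σ ∈ F, (b, s) ∈ σ}

/-- `σ` is the levelwise infimum of the family `F`. -/
structure IsLInf (S : Θ → Lv Θ) (F : Set (Set (Θ × Θ))) (σ : Set (Θ × Θ)) : Prop where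
  lev : ∀ b, (∃ s, (b, s) ∈ σ) ↔ (vals F b).Nonempty
  val : ∀ b s, (b, s) ∈ σ → (S b).IsInf (vals F b) s

/-- The labels of `σ` are cofinal in the labels of `σ'`. -/
def Cof (σ σ' : Set (Θ × Θ)) : Prop := ∀ b ∈ lev σ', ∃ b' ∈ lev σ, b ≤ b'

/-- `Y` is a structured poset over the system `S`, all labels being `< a`. -/
structure IsStr (κ : Cardinal.{0}) (S : Θ → Lv Θ) (a : Θ) (Y : Lv Θ) : Prop where
  refl : ∀ r ∈ Y.C, Y.le r r
  trans : ∀ r ∈ Y.C, ∀ s ∈ Y.C, ∀ t ∈ Y.C, Y.le r s → Y.le s t → Y.le r t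
  antisymm : ∀ r ∈ Y.C, ∀ s ∈ Y.C, Y.le r s → Y.le s r → r = s
  ch : ∀ r ∈ Y.C, IsCh κ S (Y.sg r)
  lt : ∀ r ∈ Y.C, ∀ b ∈ lev (Y.sg r), b < a
  mono : ∀ r ∈ Y.C, ∀ s ∈ Y.C, Y.le s r → ChLe S (Y.sg s) (Y.sg r)
  inf : ∀ D ⊆ Y.C, D.Nonempty → #D < κ →
    (∀ d ∈ D, ∀ d' ∈ D, ∃ e ∈ D, Y.le e d ∧ Y.le e d') →
    ∃ r, Y.IsInf D r ∧ IsLInf S (Y.sg '' D) (Y.sg r)
  ext : ∀ r ∈ Y.C, ∀ σ, IsCh κ S σ → ChLe S σ (Y.sg r) → Cof (Y.sg r) σ →
    ∃ r' ∈ Y.C, Y.le r' r ∧ ChLe S (Y.sg r') σ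

/-- All levels are structured posets over the levels with smaller labels. -/
def Structured (κ : Cardinal.{0}) (S : Θ → Lv Θ) : Prop := ∀ a, IsStr κ S a (S a)

/-- The two levels are the same. -/
structure Lv.Agree (Y Z : Lv Θ) : Prop where
  C : Y.C = Z.C
  le : ∀ r ∈ Y.C, ∀ s ∈ Y.C, (Y.le r s ↔ Z.le r s)
  sg : ∀ r ∈ Y.C, Y.sg r = Z.sg r

/-- Transport of a chain. -/
def tr {Θ' : Type} (f : Θ → Θ') (σ : Set (Θ × Θ)) : Set (Θ' × Θ') :=
  (fun p : Θ × Θ => (f p.1, f p.2)) '' σ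

/-- One more level. -/
def addTop (σ : Set (Θ × Θ)) (a r : Θ) : Set (Θ × Θ) := insert (a, r) σ

end

end Pool.CF
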