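import Pool.Agent.Lib.MP_cc7fb1_cf.LstDef

/-!
# MP_cc7fb1: the list construction (row T1)
-/

set_option autoImplicit false
set_option linter.unusedSectionVars false

open Cardinal Set Pool.CF

namespace Pool.CV

variable {Θ X : Type} [LinearOrder Θ] [WellFoundedLT Θ] [D : SG Θ X]

variable {Z : WithBot Θ → OL Θ X} {τ be al : Θ}

/-- T1. -/
lemma ls_lt (l : LL Θ X) {e : WithBot Θ} (h : e ∈ Ls τ be l) : e < τ := by
  rcases h with rfl | ⟨e', rfl, h, -⟩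
  · exact WithBot.bot_lt_coe τ
  · exact WithBot.coe_lt_coe.2 h

/-- T1. -/
lemma mk_ls_lt (l : LL Θ X) : #(Ls τ be l) < D.κ := by
  classical
  have hκ : ℵ₀ ≤ D.κ := D.κ_unc.le
  have hsub : Ls τ be l ⊆ insert (⊥ : WithBot Θ) (range fun g : l.2.c =>
      if h : ∃ v, l.Dc be g v then ((h.choose : Θ) : WithBot Θ) else ⊥) := by
    intro e he
    rcases he with rfl | ⟨e', rfl, -, g, hg, hdc⟩
    · exact mem_insert _ _
    · refine mem_insert_of_mem _ ⟨⟨g, hg⟩, ?_⟩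
      have hex : ∃ v, l.Dc be g v := ⟨e', hdc⟩
      simp only [dif_pos hex]
      exact congrArg _ (LL.Dc.uniq hex.choose_spec hdc)
  refine (mk_le_mk_of_subset hsub).trans_lt ((mk_insert_le).trans_lt ?_)
  exact add_lt_of_lt hκ (mk_range_le.trans_lt l.2.card) (one_lt_aleph0.trans_le hκ)

/-- T1. -/
lemma ls_mono {l l' : LL Θ X} (h : l' ≤ l) : Ls τ be l ⊆ Ls τ be l' := by
  intro e he
  rcases he with rfl | ⟨e', rfl, hlt, g, hg, hdc⟩
  · exact Or.inl rfl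
  · exact Or.inr ⟨e', rfl, hlt, g, h.2.1 hg, hdc.mono h⟩

/-- T1: for elements of `listQ` every listed stage of a greatest lower bound is listed
before. -/
lemma ls_glb {E : Set (LL Θ X)} (hne : E.Nonempty) (hc : #E < D.κ) (hd : Dir E)
    (hE : ∀ l ∈ E, ∀ g ∈ l.2.c, ∃ v, l.Dc be g v) {g : LL Θ X} (hg : IsGLB E g)
    (e : WithBot Θ) : e ∈ Ls τ be g ↔ ∃ l ∈ E, e ∈ Ls τ be l := by
  constructor
  · intro he
    rcases he with rfl | ⟨e', rfl, hlt, g₀, hg₀, hdc⟩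
    · obtain ⟨l, hl⟩ := hne
      exact ⟨l, hl, Or.inl rfl⟩
    · obtain ⟨l, hl, hlc⟩ := (LL.glb_c hne hc hd hg g₀).1 hg₀
      obtain ⟨v, hv⟩ := hE l hl g₀ hlc
      have hve : v = e' := (hv.mono (hg.1 hl)).uniq hdc
      subst hve
      exact ⟨l, hl, Or.inr ⟨v, rfl, hlt, g₀, hlc, hv⟩⟩
  · rintro ⟨l, hl, he⟩
    exact ls_mono (hg.1 hl) he

end Pool.CV
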