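import Pool.Agent.Lib.MP_cc7fb1_cf.U1

/-!
# MP_cc7fb1: tools for the normal ultrafilter (row U2)
-/

set_option autoImplicit false

open Cardinal Set

namespace Pool.CF

variable {Θ X : Type} [LinearOrder Θ] [WellFoundedLT Θ] [HG Θ X]

/-! ### Row U2 -/

/-- Diagonal intersections. -/
theorem diag {B : Θ → X → Prop} (h : ∀ d, ∀ᶠ x in FF Θ X, B d x) :
    ∀ᶠ x in FF Θ X, ∀ d ∈ el x, B d x := by
  classical
  by_contra hne
  have h1 : ∀ᶠ x in FF Θ X, ¬ ∀ d ∈ el x, B d x := ae_not.2 hne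
  have h2 : ∀ x : X, ∃ d : Θ, (¬ ∀ d ∈ el x, B d x) → d ∈ el x ∧ ¬ B d x := by
    intro x
    by_cases hx : ∀ d ∈ el x, B d x
    · exact ⟨la X, fun h => absurd hx h⟩
    · have hx' := hx
      push Not at hx'
      obtain ⟨d, hd, hd'⟩ := hx'
      exact ⟨d, fun _ => ⟨hd, hd'⟩⟩
  choose f hf using h2
  obtain ⟨a, ha⟩ := HG.normal f (h1.mono fun x hx => (hf x hx).1)
  have h3 : ∀ᶠ x in FF Θ X, False := by
    filter_upwards [h1, ha, h a] with x hx hax hBx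
    exact (hf x hx).2 (hax ▸ hBx)
  exact (Filter.eventually_false_iff_eq_bot.1 h3 |> (HG.U Θ : Ultrafilter X).neBot.ne)

/-- `x ∩ λ` is the initial segment given by `pi x la`, and `pi x` is the identity there (`pi_id`,
`diag`, `pi_lt_iff`). -/
theorem ae_init : ∀ᶠ x in FF Θ X, (∀ d : Θ, d < pi x (la X) ↔ d ∈ el x ∧ d < la X) ∧
    ∀ d : Θ, d < pi x (la X) → pi x d = d := by
  have h1 : ∀ᶠ x in FF Θ X, ∀ d ∈ (el x : Set Θ), (d < la X → pi x d = d) := by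
    refine diag fun d => ?_
    by_cases hd : d < la X
    · exact (HG.pi_id d hd).mono fun x hx _ => hx
    · exact Filter.Eventually.of_forall fun x h => absurd h hd
  filter_upwards [h1, HG.fine (X := X) (la X)] with x hx hla
  have h2 : ∀ d : Θ, d < pi x (la X) → d ∈ el x ∧ d < la X := by
    intro d hd
    have hdl : d < la X := hd.trans (HG.pi_lt x _ hla)
    obtain ⟨e, he, hed⟩ := HG.pi_surj x d hdl
    have hel : e < la X := by
      rw [← pi_lt_iff x he hla, hed]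
      exact hd
    have := hx e he hel
    rw [this] at hed
    rw [← hed]
    exact ⟨he, hel⟩
  refine ⟨fun d => ⟨h2 d, fun ⟨hd, hdl⟩ => ?_⟩, fun d hd => hx d (h2 d hd).1 (h2 d hd).2⟩
  have h3 := (pi_lt_iff x hd hla).2 hdl
  rwa [hx d hd hdl] at h3

/-- `pi x la` is above every fixed `d < la`. -/
theorem ae_lt_la {d : Θ} (hd : d < la X) : ∀ᶠ x in FF Θ X, d < pi x (la X) := by
  filter_upwards [ae_init (Θ := Θ) (X := X), HG.fine (X := X) d] with x hx hdx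
  exact (hx.1 d).2 ⟨hdx, hd⟩

theorem diag_la {B : Θ → X → Prop} (h : ∀ d < la X, ∀ᶠ x in FF Θ X, B d x) :
    ∀ᶠ x in FF Θ X, ∀ d < pi x (la X), B d x := by
  have h1 : ∀ᶠ x in FF Θ X, ∀ d ∈ (el x : Set Θ), (d < la X → B d x) := by
    refine diag fun d => ?_
    by_cases hd : d < la X
    · exact (h d hd).mono fun x hx _ => hx
    · exact Filter.Eventually.of_forall fun x h => absurd h hd
  filter_upwards [h1, ae_init (Θ := Θ) (X := X)] with x hx hi d hd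
  exact hx d ((hi.1 d).1 hd).1 ((hi.1 d).1 hd).2

/-- Functions with fewer than `λ` values are constant a.e. -/
theorem const_of_card {T : Type} (hT : #T < #(Iio (la X : Θ))) (f : X → T) :
    ∃ t, ∀ᶠ x in FF Θ X, f x = t := by
  by_contra hne
  have h1 : ∀ᶠ x in FF Θ X, ∀ t, ¬ f x = t :=
    HG.compl T (fun t x => ¬ f x = t) hT fun t => ae_not.2 (fun h => hne ⟨t, h⟩)
  have h2 : ∀ᶠ x in FF Θ X, False := h1.mono fun x hx => hx (f x) rfl
  exact (Filter.eventually_false_iff_eq_bot.1 h2 |> (HG.U Θ : Ultrafilter X).neBot.ne)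

/-- Small sets are contained in `x`. -/
theorem ae_subset {t : Set Θ} (ht : #t < #(Iio (la X : Θ))) :
    ∀ᶠ x in FF Θ X, t ⊆ el x := by
  have h1 : ∀ᶠ x in FF Θ X, ∀ i : t, (i : Θ) ∈ el x :=
    HG.compl t (fun i x => (i : Θ) ∈ el x) ht fun i => HG.fine _
  exact h1.mono fun x hx i hi => hx ⟨i, hi⟩

/-- Small families of functions into `λ` are represented. -/
theorem rep_fun {ι : Type} (hι : #ι < #(Iio (la X : Θ))) {f : X → ι → Θ}
    (h : ∀ᶠ x in FF Θ X, ∀ i, f x i < la X) :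
    ∃ g : ι → Θ, ∀ᶠ x in FF Θ X, ∀ i, f x i = pi x (g i) ∧ g i ∈ el x := by
  have h1 : ∀ i, ∃ a, ∀ᶠ x in FF Θ X, f x i = pi x a := fun i => rep (h.mono fun x hx => hx i)
  choose g hg using h1
  exact ⟨g, HG.compl ι (fun i x => f x i = pi x (g i) ∧ g i ∈ el x) hι
    fun i => (hg i).and (HG.fine _)⟩

/-- Enumeration of small sets by a fixed set. -/
private theorem U2_enum {W : Type} [Nonempty W] {s : X → Set W}
    (h : ∀ᶠ x in FF Θ X, #(s x) < κ Θ X) :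
    ∃ (T : Type) (f : X → T → W), #T < κ Θ X ∧ ∀ᶠ x in FF Θ X, s x = range (f x) := by
  classical
  have h1 : ∀ x : X, ∃ (A : Set (κ Θ X).out) (f : (κ Θ X).out → W), #(s x) < κ Θ X →
      #A < κ Θ X ∧ s x = f '' A := by
    intro x
    by_cases hx : #(s x) < κ Θ X
    · have h2 : #(s x) ≤ #(κ Θ X).out := by
        rw [Cardinal.mk_out]
        exact hx.le
      obtain ⟨e⟩ := (Cardinal.le_def _ _).1 h2
      refine ⟨range e, Function.extend e Subtype.val (fun _ => Classical.arbitrary W),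
        fun _ => ⟨?_, ?_⟩⟩
      · rw [Cardinal.mk_range_eq e e.injective]
        exact hx
      · rw [← range_comp]
        have h3 : Function.extend e Subtype.val (fun _ => Classical.arbitrary W) ∘ e =
            (Subtype.val : s x → W) := by
          funext y
          exact e.injective.extend_apply _ _ y
        rw [h3, Subtype.range_coe]
    · exact ⟨∅, fun _ => Classical.arbitrary W, fun h => absurd h hx⟩
  choose A f hAf using h1
  have hcard : #(Set (κ Θ X).out) < #(Iio (la X : Θ)) := by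
    rw [Cardinal.mk_set, Cardinal.mk_out]
    exact HG.la_sl _ HG.κ_lt
  obtain ⟨A₀, hA₀⟩ := const_of_card (Θ := Θ) hcard A
  have hlt : #A₀ < κ Θ X := by
    obtain ⟨x, hx1, hx2⟩ := (h.and hA₀).exists
    rw [← hx2]
    exact (hAf x hx1).1
  refine ⟨A₀, fun x i => f x i, hlt, ?_⟩
  filter_upwards [h, hA₀] with x hx1 hx2
  rw [(hAf x hx1).2, hx2]
  ext w
  simp

/-- Sets of size `< κ` of elements below `λ` are represented (enumerate `s x` by an initial segment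
of `κ.ord.ToType`: the order type / cardinality is constant a.e. by `const_of_card`, then
`rep_fun`). -/
theorem rep_set {s : X → Set Θ} (h : ∀ᶠ x in FF Θ X, #(s x) < κ Θ X ∧ ∀ r ∈ s x, r < la X) :
    ∃ t : Set Θ, #t < κ Θ X ∧ ∀ᶠ x in FF Θ X, s x = pi x '' t ∧ t ⊆ el x := by
  have : Nonempty Θ := ⟨la X⟩
  obtain ⟨T, f, hT, hf⟩ := U2_enum (Θ := Θ) (h.mono fun x hx => hx.1)
  obtain ⟨g, hg⟩ := rep_fun (Θ := Θ) (hT.trans HG.κ_lt) (f := f) (by
    filter_upwards [h, hf] with x hx hfx i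
    exact hx.2 _ (hfx ▸ mem_range_self i))
  refine ⟨range g, (Cardinal.mk_range_le).trans_lt hT, ?_⟩
  filter_upwards [hf, hg] with x hfx hgx
  refine ⟨?_, ?_⟩
  · rw [hfx, ← range_comp]
    congr 1
    funext i
    exact (hgx i).1
  · rintro _ ⟨i, rfl⟩
    exact (hgx i).2

/-- The same for sets of pairs. -/
theorem rep_pairs {s : X → Set (Θ × Θ)} (h : ∀ᶠ x in FF Θ X, #(s x) < κ Θ X ∧
    ∀ p ∈ s x, p.1 < la X ∧ p.2 < la X) :
    ∃ t : Set (Θ × Θ), #t < κ Θ X ∧ ∀ᶠ x in FF Θ X, s x = tr (pi x) t ∧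
      ∀ p ∈ t, p.1 ∈ el x ∧ p.2 ∈ el x := by
  have : Nonempty (Θ × Θ) := ⟨(la X, la X)⟩
  obtain ⟨T, f, hT, hf⟩ := U2_enum (Θ := Θ) (h.mono fun x hx => hx.1)
  obtain ⟨g, hg⟩ := rep_fun (Θ := Θ) (hT.trans HG.κ_lt) (f := fun x i => (f x i).1) (by
    filter_upwards [h, hf] with x hx hfx i
    exact (hx.2 _ (hfx ▸ mem_range_self i)).1)
  obtain ⟨g', hg'⟩ := rep_fun (Θ := Θ) (hT.trans HG.κ_lt) (f := fun x i => (f x i).2) (by
    filter_upwards [h, hf] with x hx hfx i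
    exact (hx.2 _ (hfx ▸ mem_range_self i)).2)
  refine ⟨range (fun i => (g i, g' i)), (Cardinal.mk_range_le).trans_lt hT, ?_⟩
  filter_upwards [hf, hg, hg'] with x hfx hgx hgx'
  refine ⟨?_, ?_⟩
  · rw [hfx]
    unfold tr
    rw [← range_comp]
    congr 1
    funext i
    exact Prod.ext (hgx i).1 (hgx' i).1
  · rintro _ ⟨i, rfl⟩
    exact ⟨(hgx i).2, (hgx' i).2⟩

/-- Pairs in small sets have their coordinates in `x`. -/
theorem ae_pairs_mem {t : Set (Θ × Θ)} (ht : #t < κ Θ X) :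
    ∀ᶠ x in FF Θ X, ∀ p ∈ t, p.1 ∈ el x ∧ p.2 ∈ el x := by
  have h1 : ∀ᶠ x in FF Θ X, ∀ i : t, (i : Θ × Θ).1 ∈ el x ∧ (i : Θ × Θ).2 ∈ el x :=
    HG.compl t (fun i x => (i : Θ × Θ).1 ∈ el x ∧ (i : Θ × Θ).2 ∈ el x) (ht.trans HG.κ_lt)
      fun i => (HG.fine _).and (HG.fine _)
  exact h1.mono fun x hx i hi => hx ⟨i, hi⟩

/-- Injectivity of the transport. -/
theorem image_pi_inj (x : X) {s t : Set Θ} (hs : s ⊆ el x) (ht : t ⊆ el x)
    (h : pi x '' s = pi x '' t) : s = t := by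
  ext a
  constructor
  · intro ha
    have h1 : pi x a ∈ pi x '' t := h ▸ mem_image_of_mem _ ha
    obtain ⟨b, hb, hab⟩ := h1
    rwa [← pi_inj x (ht hb) (hs ha) hab]
  · intro ha
    have h1 : pi x a ∈ pi x '' s := h ▸ mem_image_of_mem _ ha
    obtain ⟨b, hb, hab⟩ := h1
    rwa [← pi_inj x (hs hb) (ht ha) hab]

theorem mem_tr (x : X) {s : Set (Θ × Θ)} (hs : ∀ p ∈ s, p.1 ∈ el x ∧ p.2 ∈ el x) {a b : Θ}
    (ha : a ∈ el x) (hb : b ∈ el x) : (pi x a, pi x b) ∈ tr (pi x) s ↔ (a, b) ∈ s := by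
  constructor
  · rintro ⟨⟨c, d⟩, hp, hpe⟩
    obtain ⟨h1, h2⟩ := Prod.mk.inj hpe
    rwa [← pi_inj x (hs _ hp).1 ha h1, ← pi_inj x (hs _ hp).2 hb h2]
  · intro h
    exact ⟨(a, b), h, rfl⟩

theorem tr_inj (x : X) {s t : Set (Θ × Θ)} (hs : ∀ p ∈ s, p.1 ∈ el x ∧ p.2 ∈ el x)
    (ht : ∀ p ∈ t, p.1 ∈ el x ∧ p.2 ∈ el x) (h : tr (pi x) s = tr (pi x) t) : s = t := by
  ext ⟨a, b⟩
  constructor
  · intro hp
    rw [← mem_tr x ht (hs _ hp).1 (hs _ hp).2, ← h]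
    exact ⟨(a, b), hp, rfl⟩
  · intro hp
    rw [← mem_tr x hs (ht _ hp).1 (ht _ hp).2, h]
    exact ⟨(a, b), hp, rfl⟩

/-- Small sets of elements: what holds a.e. for every small set holds a.e. for all small subsets
of `x` (otherwise choose a bad `t x ⊆ el x`; its image under `pi x` is represented by one `t`, and
`t x = t` by injectivity). -/
theorem diag_small {B : Set Θ → X → Prop}
    (h : ∀ t : Set Θ, #t < κ Θ X → ∀ᶠ x in FF Θ X, B t x) :
    ∀ᶠ x in FF Θ X, ∀ t ⊆ el x, #t < κ Θ X → B t x := by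
  classical
  by_contra hne
  have h1 : ∀ᶠ x in FF Θ X, ¬ ∀ t ⊆ el x, #t < κ Θ X → B t x := ae_not.2 hne
  have h2 : ∀ x : X, ∃ t : Set Θ, (¬ ∀ t ⊆ el x, #t < κ Θ X → B t x) →
      t ⊆ el x ∧ #t < κ Θ X ∧ ¬ B t x := by
    intro x
    by_cases hx : ∀ t ⊆ el x, #t < κ Θ X → B t x
    · exact ⟨∅, fun h => absurd hx h⟩
    · have hx' := hx
      push Not at hx'
      obtain ⟨t, ht1, ht2, ht3⟩ := hx'
      exact ⟨t, fun _ => ⟨ht1, ht2, ht3⟩⟩
  choose f hf using h2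
  obtain ⟨t, ht, htx⟩ := rep_set (Θ := Θ) (s := fun x => pi x '' f x) (by
    filter_upwards [h1] with x hx
    refine ⟨(Cardinal.mk_image_le).trans_lt (hf x hx).2.1, ?_⟩
    rintro _ ⟨r, hr, rfl⟩
    exact HG.pi_lt x r ((hf x hx).1 hr))
  have h3 : ∀ᶠ x in FF Θ X, False := by
    filter_upwards [h1, htx, h t ht] with x hx htx hB
    have := image_pi_inj x (hf x hx).1 htx.2 htx.1
    exact (hf x hx).2.2 (this ▸ hB)
  exact (Filter.eventually_false_iff_eq_bot.1 h3 |> (HG.U Θ : Ultrafilter X).neBot.ne)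

theorem diag_pairs {B : Set (Θ × Θ) → X → Prop}
    (h : ∀ t : Set (Θ × Θ), #t < κ Θ X → ∀ᶠ x in FF Θ X, B t x) :
    ∀ᶠ x in FF Θ X, ∀ t : Set (Θ × Θ), (∀ p ∈ t, p.1 ∈ el x ∧ p.2 ∈ el x) →
      #t < κ Θ X → B t x := by
  classical
  by_contra hne
  have h1 : ∀ᶠ x in FF Θ X, ¬ ∀ t : Set (Θ × Θ), (∀ p ∈ t, p.1 ∈ el x ∧ p.2 ∈ el x) →
      #t < κ Θ X → B t x := ae_not.2 hne
  have h2 : ∀ x : X, ∃ t : Set (Θ × Θ), (¬ ∀ t : Set (Θ × Θ), (∀ p ∈ t, p.1 ∈ el x ∧ p.2 ∈ el x) →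
      #t < κ Θ X → B t x) → (∀ p ∈ t, p.1 ∈ el x ∧ p.2 ∈ el x) ∧ #t < κ Θ X ∧ ¬ B t x := by
    intro x
    by_cases hx : ∀ t : Set (Θ × Θ), (∀ p ∈ t, p.1 ∈ el x ∧ p.2 ∈ el x) → #t < κ Θ X → B t x
    · exact ⟨∅, fun h => absurd hx h⟩
    · have hx' := hx
      push Not at hx'
      obtain ⟨t, ht1, ht2, ht3⟩ := hx'
      exact ⟨t, fun _ => ⟨ht1, ht2, ht3⟩⟩
  choose f hf using h2
  obtain ⟨t, ht, htx⟩ := rep_pairs (Θ := Θ) (s := fun x => tr (pi x) (f x)) (by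
    filter_upwards [h1] with x hx
    refine ⟨(Cardinal.mk_image_le).trans_lt (hf x hx).2.1, ?_⟩
    rintro _ ⟨r, hr, rfl⟩
    exact ⟨HG.pi_lt x _ ((hf x hx).1 r hr).1, HG.pi_lt x _ ((hf x hx).1 r hr).2⟩)
  have h3 : ∀ᶠ x in FF Θ X, False := by
    filter_upwards [h1, htx, h t ht] with x hx htx hB
    have := tr_inj x (hf x hx).1 htx.2 htx.1
    exact (hf x hx).2.2 (this ▸ hB)
  exact (Filter.eventually_false_iff_eq_bot.1 h3 |> (HG.U Θ : Ultrafilter X).neBot.ne)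


end Pool.CF
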