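import Pool.Agent.Lib.MP_cc7fb1_cf.U1

/-!
# MP_cc7fb1: bounds (row U3)
-/

set_option autoImplicit false

open Cardinal Set

namespace Pool.CF

variable {Θ X : Type} [LinearOrder Θ] [WellFoundedLT Θ] [HG Θ X]

/-! ### Row U3: bounds -/

omit [WellFoundedLT Θ] in
private theorem mk_Iic_lt_U3 {c : Cardinal.{0}} (hc : ℵ₀ ≤ c) {a : Θ} (h : #(Iio a) < c) :
    #(Iic a) < c := by
  rw [← Set.Iio_insert]
  exact mk_insert_le.trans_lt (add_lt_of_lt hc h (one_lt_aleph0.trans_le hc))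

variable (X) in
/-- Fewer than `λ` elements below `λ` are bounded below `λ`. -/
theorem bound_la {ι : Type} (hι : #ι < #(Iio (la X : Θ))) (f : ι → Θ) (hf : ∀ i, f i < la X) :
    ∃ b < la X, ∀ i, f i < b := by
  by_contra hcon
  push Not at hcon
  have hreg : (#(Iio (la X : Θ))).IsRegular := HG.la_reg (X := X)
  have h1 : Iio (la X : Θ) ⊆ ⋃ i, Iic (f i) := by
    intro b hb
    obtain ⟨i, hi⟩ := hcon b hb
    exact Set.mem_iUnion.2 ⟨i, hi⟩
  have h2 : #(⋃ i, Iic (f i)) < #(Iio (la X : Θ)) :=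
    (card_iUnion_lt_iff_forall_of_isRegular hreg hι).2 fun i =>
      mk_Iic_lt_U3 hreg.aleph0_le (HG.la_init (X := X) (f i) (hf i))
  exact absurd ((mk_le_mk_of_subset h1).trans_lt h2) (lt_irrefl _)

variable (X) in
include X in
/-- Fewer than `δ` elements are bounded. -/
theorem bound_th {ι : Type} (hι : #ι < #Θ) (f : ι → Θ) : ∃ b, ∀ i, f i < b := by
  by_contra hcon
  push Not at hcon
  have hreg : (#Θ).IsRegular := HG.th_reg (X := X)
  have h1 : (Set.univ : Set Θ) ⊆ ⋃ i, Iic (f i) := by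
    intro b _
    obtain ⟨i, hi⟩ := hcon b
    exact Set.mem_iUnion.2 ⟨i, hi⟩
  have h2 : #(⋃ i, Iic (f i)) < #Θ :=
    (card_iUnion_lt_iff_forall_of_isRegular hreg hι).2 fun i =>
      mk_Iic_lt_U3 hreg.aleph0_le (HG.th_init (X := X) (f i))
  have h3 := (mk_le_mk_of_subset h1).trans_lt h2
  rw [mk_univ] at h3
  exact absurd h3 (lt_irrefl _)

variable (X) in
/-- Cardinal arithmetic below `λ`. -/
theorem κ_lt_mul {c d : Cardinal.{0}} (hc : c < #(Iio (la X : Θ))) (hd : d < #(Iio (la X : Θ))) :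
    c * d < #(Iio (la X : Θ)) ∧ c + d < #(Iio (la X : Θ)) ∧ c ^ d < #(Iio (la X : Θ)) := by
  have hreg : (#(Iio (la X : Θ))).IsRegular := HG.la_reg (X := X)
  have h0 : ℵ₀ < #(Iio (la X : Θ)) := (HG.κ_unc (Θ := Θ) (X := X)).trans (HG.κ_lt (X := X))
  refine ⟨mul_lt_of_lt hreg.aleph0_le hc hd, add_lt_of_lt hreg.aleph0_le hc hd, ?_⟩
  set m : Cardinal.{0} := max (max c d) ℵ₀ with hm
  have hm1 : m < #(Iio (la X : Θ)) := max_lt (max_lt hc hd) h0
  have hm0 : ℵ₀ ≤ m := le_max_right _ _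
  have hcm : c ≤ m := (le_max_left c d).trans (le_max_left _ _)
  have hdm : d ≤ m := (le_max_right c d).trans (le_max_left _ _)
  have hmne : m ≠ 0 := (aleph0_pos.trans_le hm0).ne'
  calc c ^ d ≤ m ^ d := power_le_power_right hcm
    _ ≤ m ^ m := power_le_power_left hmne hdm
    _ = 2 ^ m := power_self_eq hm0
    _ < #(Iio (la X : Θ)) := HG.la_sl (X := X) m hm1

end Pool.CF
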