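import Pool.Agent.Lib.MP_cc7fb1_cf.Ord
import Pool.Agent.Lib.MP_cc7fb1_cf.C4

/-!
# MP_cc7fb1: the levels `D.lab th` for `th < λ` (row V0)
-/

set_option autoImplicit false
set_option linter.unusedSectionVars false

open Cardinal Set Pool.CF

namespace Pool.CV

variable {Θ X : Type} [LinearOrder Θ] [WellFoundedLT Θ] [D : SG Θ X]

/-- V0: the value at the label `D.lab th`. -/
lemma lab_part {r : Chn Θ X} {th : Θ} (hth : th ≤ D.la) (h : D.lab th ∈ r.lev) :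
    ∃ (σ : Chn Θ X) (c : R0 Θ X), PP D.κ D.S th σ.v c.c ∧
      (D.lab th, D.code th σ.v c.c) ∈ r.v := by
  obtain ⟨v, hv⟩ := h
  have h1 := r.ch.mem _ _ hv
  rw [D.lab_C th hth] at h1
  obtain ⟨σ, c, hp, rfl⟩ := h1
  exact ⟨⟨σ, hp.ch⟩, ⟨c, fun g hg => (hp.sub g hg).trans_le hth, hp.card⟩, hp, hv⟩

/-- V0: the part below this label (`ch.coh`, `D.lab_sg`). -/
lemma lab_cut {r σ : Chn Θ X} {c : R0 Θ X} {th : Θ} (hth : th ≤ D.la)
    (hp : PP D.κ D.S th σ.v c.c) (h : (D.lab th, D.code th σ.v c.c) ∈ r.v) :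
    r.cut (D.lab th) = σ := by
  apply Chn.ext'
  have h1 := r.ch.coh _ _ h
  rw [D.lab_sg th hth _ _ hp] at h1
  exact h1.symm

/-- V0: the value is unique. -/
lemma lab_uniq {r σ σ' : Chn Θ X} {c c' : R0 Θ X} {th : Θ} (hth : th ≤ D.la)
    (hp : PP D.κ D.S th σ.v c.c) (h : (D.lab th, D.code th σ.v c.c) ∈ r.v)
    (hp' : PP D.κ D.S th σ'.v c'.c) (h' : (D.lab th, D.code th σ'.v c'.c) ∈ r.v) :
    σ = σ' ∧ c = c' := by
  have h1 := r.ch.func _ _ _ h h'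
  obtain ⟨h2, h3⟩ := D.code_inj th hth _ _ _ _ hp hp' h1
  exact ⟨Chn.ext' h2, R0.ext' h3⟩

/-- V0: values of stronger chains (`D.lab_le`). -/
lemma lab_mono {r r' σ : Chn Θ X} {c : R0 Θ X} {th : Θ} (hth : th ≤ D.la)
    (hp : PP D.κ D.S th σ.v c.c) (h : (D.lab th, D.code th σ.v c.c) ∈ r.v) (hr : r' ≤ r) :
    ∃ (σ' : Chn Θ X) (c' : R0 Θ X), PP D.κ D.S th σ'.v c'.c ∧
      (D.lab th, D.code th σ'.v c'.c) ∈ r'.v ∧ σ' ≤ σ ∧ c' ≤ c := by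
  obtain ⟨v, hv, hle⟩ := hr _ _ h
  obtain ⟨σ', c', hp', h'⟩ := lab_part hth ⟨v, hv⟩
  have h1 := r'.ch.func _ _ _ hv h'
  subst h1
  obtain ⟨h2, h3⟩ := (D.lab_le th hth _ _ _ _ hp hp').1 hle
  exact ⟨σ', c', hp', h', h2, h3⟩

/-- V0: put the level `D.lab th` on top of `σ` (`Chn.tp`). -/
lemma lab_top {σ : Chn Θ X} {c : R0 Θ X} {th : Θ} (hth : th < D.la)
    (hp : PP D.κ D.S th σ.v c.c) : ∃ r : Chn Θ X, r.Low ∧ r ≤ σ ∧
      (D.lab th, D.code th σ.v c.c) ∈ r.v := by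
  have hC : D.code th σ.v c.c ∈ (D.S (D.lab th)).C := by
    rw [D.lab_C th hth.le]
    exact ⟨_, _, hp, rfl⟩
  have hv : (Chn.tp (D.lab th) _ hC).v = insert (D.lab th, D.code th σ.v c.c) σ.v := by
    show insert _ _ = _
    rw [D.lab_sg th hth.le _ _ hp]
  have hmem : (D.lab th, D.code th σ.v c.c) ∈ (Chn.tp (D.lab th) _ hC).v := by
    rw [hv]; exact mem_insert _ _
  refine ⟨Chn.tp (D.lab th) _ hC, ?_, ?_, hmem⟩
  · rintro b ⟨s, hs⟩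
    rw [hv] at hs
    rcases hs with hs | hs
    · have : b = D.lab th := congrArg Prod.fst hs
      rw [this]
      exact D.lab_lt th hth
    · exact (hp.lt b ⟨s, hs⟩).trans hth
  · have h1 := Chn.le_cut (D.lab th) (Chn.tp (D.lab th) _ hC)
    rwa [lab_cut hth.le hp hmem] at h1

/-- V0: strengthen the value at the label `D.lab th` (`Chn.lift_at`; labels stay below `λ` because
of `Cof`). -/
lemma lab_lift {r σ σ' : Chn Θ X} {c c' : R0 Θ X} {th : Θ} (hth : th < D.la) (hr : r.Low)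
    (hp : PP D.κ D.S th σ.v c.c) (h : (D.lab th, D.code th σ.v c.c) ∈ r.v)
    (hp' : PP D.κ D.S th σ'.v c'.c) (hσ : σ' ≤ σ) (hc : c' ≤ c) :
    ∃ r' : Chn Θ X, r'.Low ∧ r' ≤ r ∧ r' ≤ σ' ∧
      ∃ (σ'' : Chn Θ X) (c'' : R0 Θ X), PP D.κ D.S th σ''.v c''.c ∧
        (D.lab th, D.code th σ''.v c''.c) ∈ r'.v ∧ σ'' ≤ σ' ∧ c'' ≤ c' := by
  have hC : D.code th σ'.v c'.c ∈ (D.S (D.lab th)).C := by
    rw [D.lab_C th hth.le]
    exact ⟨_, _, hp', rfl⟩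
  have hle : (D.S (D.lab th)).le (D.code th σ'.v c'.c) (D.code th σ.v c.c) :=
    (D.lab_le th hth.le _ _ _ _ hp hp').2 ⟨hσ, hc⟩
  obtain ⟨q, hq, hcof, v, hv, hvle⟩ := Chn.lift_at h hC hle
  obtain ⟨σ'', c'', hp'', h''⟩ := lab_part hth.le (r := q) ⟨v, hv⟩
  have h1 := q.ch.func _ _ _ hv h''
  subst h1
  obtain ⟨h2, h3⟩ := (D.lab_le th hth.le _ _ _ _ hp' hp'').1 hvle
  refine ⟨q, ?_, hq, ?_, σ'', c'', hp'', h'', h2, h3⟩
  · intro b hb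
    obtain ⟨b', hb', hbb⟩ := hcof b hb
    exact hbb.trans_lt (hr b' hb')
  · have h4 := Chn.le_cut (D.lab th) q
    rw [lab_cut hth.le hp'' h''] at h4
    exact h4.trans h2

end Pool.CV
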