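import Pool.Agent.Lib.MP_cc7fb1_cf.RlDef

/-!
# MP_cc7fb1: the collapse maps (row V2)
-/

set_option autoImplicit false
set_option linter.unusedSectionVars false

open Cardinal Set Pool.CF

namespace Pool.CV

variable {Θ X : Type} [LinearOrder Θ] [WellFoundedLT Θ] [D : SG Θ X]

private theorem V2_aux {c : Set Θ} {g g' : Θ} {T : Type} [LinearOrder T]
    (h : Nonempty (({x | x ∈ c ∧ x < g} : Set Θ) ≃o T))
    (h' : Nonempty (({x | x ∈ c ∧ x < g'} : Set Θ) ≃o T)) (hg : g ∈ c) : ¬ g < g' := by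
  intro hlt
  obtain ⟨e⟩ := h
  obtain ⟨e'⟩ := h'
  have hf : StrictMono (fun x : ({x | x ∈ c ∧ x < g'} : Set Θ) =>
      (⟨(e.symm (e' x)).1, (e.symm (e' x)).2.1, (e.symm (e' x)).2.2.trans hlt⟩ :
        ({x | x ∈ c ∧ x < g'} : Set Θ))) := by
    intro x y hxy
    have h1 : e.symm (e' x) < e.symm (e' y) := e.symm.strictMono (e'.strictMono hxy)
    exact h1
  have h2 := hf.le_apply (x := ⟨g, hg, hlt⟩)
  have h3 : g ≤ (e.symm (e' ⟨g, hg, hlt⟩)).1 := h2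
  exact absurd (e.symm (e' ⟨g, hg, hlt⟩)).2.2 (not_lt.2 h3)

include D in
/-- V2: the element number `i` is unique (well-orders). -/
lemma Nth_uniq {c : Set Θ} {g g' : Θ} {i : D.κ.ord.ToType} (h : Nth (X := X) c g i)
    (h' : Nth (X := X) c g' i) : g = g' := by
  rcases lt_trichotomy g g' with hlt | heq | hlt
  · exact absurd hlt (V2_aux h.2 h'.2 h.1)
  · exact heq
  · exact absurd hlt (V2_aux h'.2 h.2 h'.1)

/-- V2: end extensions have the same elements number `i`. -/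
lemma Nth_mono {c c' : R0 Θ X} (h : c' ≤ c) {g : Θ} {i : D.κ.ord.ToType}
    (hg : Nth (X := X) c.c g i) : Nth (X := X) c'.c g i := by
  have h1 : c.c ⊆ c'.c := h.1
  have e : ({g' | g' ∈ c'.c ∧ g' < g} : Set Θ) = {g' | g' ∈ c.c ∧ g' < g} := by
    ext x
    constructor
    · rintro ⟨hx, hxg⟩
      refine ⟨?_, hxg⟩
      by_contra hn
      exact absurd (h.2 x hx hn g hg.1) (not_lt.2 hxg.le)
    · rintro ⟨hx, hxg⟩
      exact ⟨h1 hx, hxg⟩
  refine ⟨h1 hg.1, ?_⟩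
  rw [e]
  exact hg.2

/-- Positions in well-orders. -/
private theorem V2_num {W V : Type} [LinearOrder W] [WellFoundedLT W] [LinearOrder V]
    [WellFoundedLT V] (i : V)
    (h : Ordinal.typein (α := V) (· < ·) i < Ordinal.type ((· < ·) : W → W → Prop)) :
    ∃ g : W, Nonempty (Iio g ≃o Iio i) := by
  obtain ⟨g, hg⟩ := Ordinal.typein_surj ((· < ·) : W → W → Prop) h
  refine ⟨g, ?_⟩
  rw [← Ordinal.type_subrel, ← Ordinal.type_subrel] at hg
  obtain ⟨e⟩ := Ordinal.type_eq.1 hg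
  exact ⟨⟨e.toEquiv, fun {a b} => by
    have h1 := e.map_rel_iff (a := b) (b := a)
    have h2 : e b < e a ↔ b < a := h1
    rw [← not_lt, ← not_lt]
    exact not_congr h2⟩⟩

private theorem V2_sub {c : Set Θ} (g : c) {T : Type} [LinearOrder T]
    (h : Nonempty (Iio g ≃o T)) :
    Nonempty (({x | x ∈ c ∧ x < g.1} : Set Θ) ≃o T) := by
  obtain ⟨e⟩ := h
  have e' : ({x | x ∈ c ∧ x < g.1} : Set Θ) ≃o Iio g :=
    { toFun := fun x => ⟨⟨x.1, x.2.1⟩, x.2.2⟩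
      invFun := fun x => ⟨x.1.1, x.1.2, x.2⟩
      left_inv := fun _ => rfl
      right_inv := fun _ => rfl
      map_rel_iff' := Iff.rfl }
  exact ⟨e'.trans e⟩

/-- V2: every element of a small set has a number (its order type is `< κ.ord`). -/
lemma exists_Nth {c : R0 Θ X} {g : Θ} (hg : g ∈ c.c) : ∃ i, Nth (X := X) c.c g i := by
  have h1 : Ordinal.typein (α := c.c) (· < ·) (⟨g, hg⟩ : c.c) <
      Ordinal.type ((· < ·) : D.κ.ord.ToType → D.κ.ord.ToType → Prop) := by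
    rw [Ordinal.type_toType, lt_ord]
    have h2 := Ordinal.card_typein (r := ((· < ·) : c.c → c.c → Prop)) (⟨g, hg⟩ : c.c)
    rw [h2]
    exact lt_of_le_of_lt (mk_subtype_le _) c.card
  obtain ⟨i, ⟨e⟩⟩ := V2_num (W := D.κ.ord.ToType) (V := c.c) (⟨g, hg⟩ : c.c) h1
  exact ⟨i, hg, V2_sub ⟨g, hg⟩ ⟨e.symm⟩⟩

/-- V2: extend `c` such that there is an element number `i` (append `#(Iio i) + 1` many elements,
chosen by recursion). -/
lemma exists_Nth_ext {th : Θ} (hth : th < D.la)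
    (hcf : ∀ E : Set Θ, #E ≤ D.κ → (∀ g ∈ E, g < th) → ∃ g < th, ∀ g' ∈ E, g' < g)
    (c : R0 Θ X) (hc : ∀ g ∈ c.c, g < th) (i : D.κ.ord.ToType) :
    ∃ c' : R0 Θ X, c' ≤ c ∧ (∀ g ∈ c'.c, g < th) ∧ ∃ g, Nth (X := X) c'.c g i := by
  classical
  -- the new elements
  obtain ⟨f, hf⟩ : ∃ f : D.κ.ord.ToType → Θ, ∀ j, f j < th ∧ (∀ g ∈ c.c, g < f j) ∧
      ∀ k < j, f k < f j := by
    have key : ∀ E : Set Θ, ∃ g, (#E ≤ D.κ → (∀ g ∈ E, g < th) → g < th ∧ ∀ g' ∈ E, g' < g) := by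
      intro E
      by_cases h : #E ≤ D.κ ∧ ∀ g ∈ E, g < th
      · obtain ⟨g, hg⟩ := hcf E h.1 h.2
        exact ⟨g, fun _ _ => hg⟩
      · exact ⟨th, fun h1 h2 => absurd ⟨h1, h2⟩ h⟩
    choose G hG using key
    let f : D.κ.ord.ToType → Θ := (wellFounded_lt (α := D.κ.ord.ToType)).fix
      (fun j F => G (c.c ∪ {g | ∃ k, ∃ h : k < j, g = F k h}))
    have hfd : ∀ j, f j = G (c.c ∪ {g | ∃ k, ∃ _ : k < j, g = f k}) := fun j =>
      (wellFounded_lt (α := D.κ.ord.ToType)).fix_eq _ j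
    have hcard : ∀ j, #(c.c ∪ {g | ∃ k, ∃ _ : k < j, g = f k} : Set Θ) ≤ D.κ := by
      intro j
      refine (mk_union_le _ _).trans ?_
      have h1 : #{g | ∃ k, ∃ _ : k < j, g = f k} ≤ #(Iio j) := by
        have : {g | ∃ k, ∃ _ : k < j, g = f k} = f '' (Iio j) := by
          ext g
          constructor
          · rintro ⟨k, hk, rfl⟩
            exact ⟨k, hk, rfl⟩
          · rintro ⟨k, hk, rfl⟩
            exact ⟨k, hk, rfl⟩
        rw [this]
        exact mk_image_le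
      exact (add_lt_of_lt D.κ_reg.aleph0_le c.card (h1.trans_lt (mk_Iio_toType_ord_lt j))).le
    have hall : ∀ j, f j < th ∧ ∀ g' ∈ c.c ∪ {g | ∃ k, ∃ _ : k < j, g = f k}, g' < f j := by
      intro j
      induction j using (wellFounded_lt (α := D.κ.ord.ToType)).induction with
      | _ j ih =>
        have h2 := hG (c.c ∪ {g | ∃ k, ∃ _ : k < j, g = f k}) (hcard j) (by
          rintro g (hg | ⟨k, hk, rfl⟩)
          · exact hc g hg
          · exact (ih k hk).1)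
        rw [← hfd j] at h2
        exact h2
    exact ⟨f, fun j => ⟨(hall j).1, fun g hg => (hall j).2 g (Or.inl hg),
      fun k hk => (hall j).2 _ (Or.inr ⟨k, hk, rfl⟩)⟩⟩
  have hIic : #(f '' (Iic i)) < D.κ := by
    refine mk_image_le.trans_lt ?_
    have h1 : (Iic i : Set D.κ.ord.ToType) = insert i (Iio i) := by
      ext x
      simp [le_iff_eq_or_lt]
    rw [h1]
    refine lt_of_le_of_lt (mk_insert_le) ?_
    exact add_lt_of_lt D.κ_reg.aleph0_le (mk_Iio_toType_ord_lt i)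
      (lt_of_lt_of_le one_lt_aleph0 D.κ_reg.aleph0_le)
  have hfth : ∀ g ∈ c.c ∪ f '' (Iic i), g < th := by
    rintro g (hg | ⟨j, _, rfl⟩)
    · exact hc g hg
    · exact (hf j).1
  let c' : R0 Θ X := ⟨c.c ∪ f '' (Iic i), fun g hg => (hfth g hg).trans hth,
    lt_of_le_of_lt (mk_union_le _ _) (add_lt_of_lt D.κ_reg.aleph0_le c.card hIic)⟩
  refine ⟨c', ⟨subset_union_left, ?_⟩, hfth, ?_⟩
  · rintro g (hg | ⟨j, _, rfl⟩) hn g' hg'
    · exact absurd hg hn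
    · exact (hf j).2.1 g' hg'
  · have hlt : Ordinal.typein (α := D.κ.ord.ToType) (· < ·) i <
        Ordinal.type ((· < ·) : c'.c → c'.c → Prop) := by
      by_contra hcon
      rw [not_lt, ← Ordinal.type_subrel, Ordinal.type_le_iff'] at hcon
      obtain ⟨e⟩ := hcon
      have hmono : StrictMono (fun j : Iic i => (⟨(e ⟨f j.1, Or.inr ⟨j.1, j.2, rfl⟩⟩).1,
          le_of_lt (e ⟨f j.1, Or.inr ⟨j.1, j.2, rfl⟩⟩).2⟩ : Iic i)) := by
        intro j k hjk
        have h1 : (⟨f j.1, Or.inr ⟨j.1, j.2, rfl⟩⟩ : c'.c) < ⟨f k.1, Or.inr ⟨k.1, k.2, rfl⟩⟩ :=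
          (hf k.1).2.2 j.1 hjk
        exact e.map_rel_iff.2 h1
      have h2 := hmono.le_apply (x := ⟨i, mem_Iic.2 le_rfl⟩)
      have h3 : i ≤ (e ⟨f i, Or.inr ⟨i, mem_Iic.2 le_rfl, rfl⟩⟩).1 := h2
      exact absurd (e ⟨f i, Or.inr ⟨i, mem_Iic.2 le_rfl, rfl⟩⟩).2 (not_lt.2 h3)
    obtain ⟨g, hg⟩ := V2_num (W := c'.c) (V := D.κ.ord.ToType) i hlt
    exact ⟨g.1, g.2, V2_sub g hg⟩

end Pool.CV
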