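import Pool.Agent.Lib.MP_cc7fb1_cf.V2

/-!
# MP_cc7fb1: the collapse maps (row V2b)
-/

set_option autoImplicit false
set_option linter.unusedSectionVars false

open Cardinal Set Pool.CF

namespace Pool.CV

variable {Θ X : Type} [LinearOrder Θ] [WellFoundedLT Θ] [D : SG Θ X]

/-- V2b (`lab_mono`, `Nth_mono`). -/
lemma Rl_mono {th : Θ} (hth : th < D.la) {p q : BB Θ X} {i : D.κ.ord.ToType} {v : Θ} (hq : q ≤ p)
    (h : Rl th p i v) : Rl th q i v := by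
  obtain ⟨σ, c, g, hp, hm, hn, hz, hv⟩ := h
  obtain ⟨σ', c', hp', hm', _, hc⟩ := lab_mono hth.le hp hm hq.1
  exact ⟨σ', c', g, hp', hm', Nth_mono hc hn, hz, hv⟩

/-- V2b (`lab_uniq`, `Nth_uniq`). -/
lemma Rl_uniq {th : Θ} (hth : th < D.la) {p : BB Θ X} {i : D.κ.ord.ToType} {v v' : Θ}
    (h : Rl th p i v) (h' : Rl th p i v') : v = v' := by
  obtain ⟨σ, c, g, hp, hm, hn, hz, hv⟩ := h
  obtain ⟨σ', c', g', hp', hm', hn', hz', hv'⟩ := h'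
  obtain ⟨-, e⟩ := lab_uniq hth.le hp hm hp' hm'
  rw [← e] at hn'
  rw [hv, hv', Nth_uniq hn hn']

/-- V2b. -/
lemma Rl_lt {th : Θ} {p : BB Θ X} {i : D.κ.ord.ToType} {v : Θ} (h : Rl th p i v) : v < th := by
  obtain ⟨_, _, g, _, _, _, hz, hv⟩ := h
  rw [hv]
  exact fib_lt hz

/-- A condition with a stronger chain. -/
private theorem V2b_with {r : BB Θ X} {s : Chn Θ X} (hs : s.Low) (hle : s ≤ r.s) :
    ∃ r' ≤ r, r'.s = s :=
  ⟨⟨s, r.h, hs, r.ok, fun t t' be xi v v' h h' ρ h1 h2 h3 =>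
    r.val t t' be xi v v' h h' ρ (h1.trans hle) h2 h3⟩, ⟨hle, Subset.rfl⟩, rfl⟩

/-- V2b: the collapse maps are total and onto.  `th` from `fib_spec` above `a` and all labels of
`p.s`; `q := (lab_top of (p.s, ∅) at th, p.h)`.  Total: `exists_Nth_ext`, `lab_lift`, `Nth_mono`.
Onto: append an element `g` of the fibre of `v` above all elements of `c`, `lab_lift`,
`exists_Nth`, `Nth_mono`. -/
theorem exists_col (a : Θ) (ha : a < D.la) (p : BB Θ X) : ∃ q ≤ p, ∃ th ≥ a, th < D.la ∧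
    (∀ i, ∀ r ≤ q, ∃ r' ≤ r, ∃ v, Rl th r' i v) ∧
    ∀ v < th, ∀ r ≤ q, ∃ r' ≤ r, ∃ i, Rl th r' i v := by
  -- a bound of the labels of `p.s`
  obtain ⟨b, hb, hbl⟩ : ∃ b < D.la, ∀ x ∈ p.s.lev, x < b := by
    obtain ⟨b, hb, h1⟩ := bound_la (Θ := Θ) (X := X) (ι := p.s.v)
      (p.s.ch.card.trans D.κ_lt) (fun x => x.1.1) (fun x => p.low x.1.1 ⟨x.1.2, x.2⟩)
    refine ⟨b, hb, fun x hx => ?_⟩
    obtain ⟨r, hr⟩ := hx
    exact h1 ⟨(x, r), hr⟩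
  obtain ⟨th, hth, hle, hz, hcf, hfib⟩ := fib_spec (X := X) (max a b) (max_lt ha hb)
  let c0 : R0 Θ X := ⟨∅, fun _ h => absurd h (notMem_empty _), by
    rw [mk_eq_zero]; exact D.κ_reg.pos⟩
  have hP0 : PP D.κ D.S th p.s.v c0.c :=
    ⟨p.s.ch, fun x hx => (hbl x hx).trans_le ((le_max_right a b).trans hle),
      fun _ h => absurd h (notMem_empty _), c0.card⟩
  obtain ⟨s, hs, hsp, hsm⟩ := lab_top hth hP0
  obtain ⟨q, hq, hqs⟩ := V2b_with hs hsp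
  refine ⟨q, hq, th, (le_max_left a b).trans hle, hth, ?_, ?_⟩
  · intro i r hr
    rw [← hqs] at hsm
    obtain ⟨σ1, c1, hP1, hm1, _, _⟩ := lab_mono hth.le hP0 hsm hr.1
    obtain ⟨c2, hc2, hc2th, g, hg⟩ := exists_Nth_ext hth hcf c1 hP1.sub i
    have hP2 : PP D.κ D.S th σ1.v c2.c := ⟨hP1.ch, hP1.lt, hc2th, c2.card⟩
    obtain ⟨s', hs', hs'r, _, σ'', c'', hP'', hm'', _, hc''⟩ :=
      lab_lift hth r.low hP1 hm1 hP2 le_rfl hc2
    obtain ⟨r', hr', hrs'⟩ := V2b_with hs' hs'r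
    rw [← hrs'] at hm''
    exact ⟨r', hr', fib Θ X th g, σ'', c'', g, hP'', hm'', Nth_mono hc'' hg, hz, rfl⟩
  · intro v hv r hr
    rw [← hqs] at hsm
    obtain ⟨σ1, c1, hP1, hm1, _, _⟩ := lab_mono hth.le hP0 hsm hr.1
    obtain ⟨g₀, hg₀, hg₀'⟩ := hcf c1.c c1.card.le hP1.sub
    obtain ⟨g, hgg, hgth, hgv⟩ := hfib v hv g₀ hg₀
    obtain ⟨c2, hc2, hc2e⟩ := R0.exists_snoc c1 (hgth.trans hth)
      (fun g' hg' => (hg₀' g' hg').trans_le hgg)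
    have hc2th : ∀ x ∈ c2.c, x < th := by
      intro x hx
      rw [hc2e] at hx
      rcases hx with rfl | hx
      · exact hgth
      · exact hP1.sub x hx
    have hP2 : PP D.κ D.S th σ1.v c2.c := ⟨hP1.ch, hP1.lt, hc2th, c2.card⟩
    obtain ⟨i, hi⟩ := exists_Nth (c := c2) (g := g) (by rw [hc2e]; exact mem_insert _ _)
    obtain ⟨s', hs', hs'r, _, σ'', c'', hP'', hm'', _, hc''⟩ :=
      lab_lift hth r.low hP1 hm1 hP2 le_rfl hc2
    obtain ⟨r', hr', hrs'⟩ := V2b_with hs' hs'r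
    rw [← hrs'] at hm''
    exact ⟨r', hr', i, σ'', c'', g, hP'', hm'', Nth_mono hc'' hi, hz, hgv.symm⟩

end Pool.CV
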