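import Pool.Agent.Lib.MP_cc7fb1_cf.V0
import Pool.Agent.Lib.MP_cc7fb1_cf.P4
import Pool.Agent.Lib.MP_cc7fb1_cf.D2

/-!
# MP_cc7fb1: fusion and names for subsets of `κ` (row V3)
-/

set_option autoImplicit false
set_option linter.unusedSectionVars false

open Cardinal Set Pool.CF

namespace Pool.CV

variable {Θ X : Type} [LinearOrder Θ] [WellFoundedLT Θ] [D : SG Θ X]

private lemma V3_valid_mono {σ σ' : Chn Θ X} {h : Nam Θ X} (hv : Valid σ h) (hs : σ' ≤ σ) :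
    Valid σ' h :=
  fun τ τ' be xi v v' h1 h2 ρ h3 h4 h5 => hv τ τ' be xi v v' h1 h2 ρ (h3.trans hs) h4 h5

/-- V3: the common part of fusion.  For `OpenD`, determined `T i` (`fusion` with a `th` above all
labels of `p.s`, then `lab_top` of `(p.s, ∅)` at `th`): below every `r ≤ q` there are `r' ≤ r` and a
chain `t` with labels below `th` such that `(t, h) ∈ T i` and `r'.s ≤ t`, where `h ⊆ q.h` is fixed:
for `r ≤ q` take the value `(σ, c)` of `r.s` at `D.lab th` (`lab_mono`), `b'' ∈ T i` with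
`b''.s ≤ σ`, and `lab_lift` with `(b''.s, c)`; `r'.h := r.h`. -/
theorem fus_det {I : Type} (T : I → Set (BB Θ X)) (hI : #I < #(Iio D.la))
    (hT : ∀ i, OpenD (T i)) {al : Θ} (hd : ∀ i, Det al (T i)) (p : BB Θ X) :
    ∃ q ≤ p, ∃ th < D.la, ∃ h : Nam Θ X, h ⊆ q.h ∧ ∀ i, ∀ r ≤ q, ∃ b ∈ T i,
      (∀ a ∈ b.s.lev, a < th) ∧ b.h = h ∧ ∃ r' ≤ r, r' ≤ b := by
  have hla : ∃ a₀ : Θ, a₀ < D.la := by
    have h1 : (0 : Cardinal.{0}) < #(Iio (D.la : Θ)) := D.la_reg.pos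
    obtain ⟨a, ha⟩ := Cardinal.mk_ne_zero_iff.1 h1.ne'
    exact ⟨a, ha⟩
  obtain ⟨a₀, ha₀⟩ := hla
  obtain ⟨th, b', hth, -, hs, hh, hlev, hfus⟩ := fusion hI T hT hd p a₀ ha₀
  have h0card : #(∅ : Set Θ) < D.κ := by
    rw [Cardinal.mk_eq_zero]
    exact D.κ_reg.pos
  let c₀ : R0 Θ X := ⟨∅, fun g hg => absurd hg (notMem_empty g), h0card⟩
  have hp : PP D.κ D.S th p.s.v c₀.c :=
    { ch := p.s.ch
      lt := hlev
      sub := fun g hg => absurd hg (notMem_empty g)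
      card := h0card }
  obtain ⟨r₀, hlow, hr₀, hmem⟩ := lab_top hth hp
  have hval : Valid r₀ b'.h := V3_valid_mono b'.val (by rw [hs]; exact hr₀)
  let q : BB Θ X := ⟨r₀, b'.h, hlow, b'.ok, hval⟩
  refine ⟨q, ⟨hr₀, hh⟩, th, hth, b'.h, Subset.rfl, ?_⟩
  intro i r hr
  obtain ⟨σ', c', hp', hmem', hσ', -⟩ := lab_mono hth.le hp hmem hr.1
  obtain ⟨b, hbT, hbs, hblev, hbh⟩ := hfus i σ' hσ' hp'.lt
  refine ⟨b, hbT, hblev, hbh, ?_⟩
  have hp'' : PP D.κ D.S th b.s.v c'.c :=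
    { ch := b.s.ch
      lt := hblev
      sub := hp'.sub
      card := hp'.card }
  obtain ⟨r', hr'low, hr'r, hr'b, -⟩ := lab_lift hth r.low hp' hmem' hp'' hbs (le_refl c')
  let r₁ : BB Θ X := ⟨r', r.h, hr'low, r.ok, V3_valid_mono r.val hr'r⟩
  refine ⟨r₁, ⟨hr'r, Subset.rfl⟩, ⟨hr'b, ?_⟩⟩
  rw [hbh]
  exact hr.2

private lemma V3_exists_antichain (T : Set (BB Θ X)) : ∃ A ⊆ T,
    (∀ a ∈ A, ∀ b ∈ A, a ≠ b → ∀ c : BB Θ X, c ≤ a → ¬ c ≤ b) ∧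
    ∀ b ∈ T, ∃ a ∈ A, ∃ c ≤ b, c ≤ a := by
  obtain ⟨A, hA⟩ := zorn_subset {A : Set (BB Θ X) | A ⊆ T ∧
    ∀ a ∈ A, ∀ b ∈ A, a ≠ b → ∀ c : BB Θ X, c ≤ a → ¬ c ≤ b} (by
      intro C hC hchain
      refine ⟨⋃₀ C, ⟨?_, ?_⟩, fun s hs => subset_sUnion_of_mem hs⟩
      · exact sUnion_subset fun s hs => (hC hs).1
      · rintro a ⟨s, hs, ha⟩ b ⟨t, ht, hb⟩
        rcases hchain.total hs ht with h | h
        · exact (hC ht).2 a (h ha) b hb
        · exact (hC hs).2 a ha b (h hb))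
  refine ⟨A, hA.1.1, hA.1.2, ?_⟩
  intro b hb
  by_contra hcon
  push Not at hcon
  have h1 : insert b A ∈ {A : Set (BB Θ X) | A ⊆ T ∧
      ∀ a ∈ A, ∀ b ∈ A, a ≠ b → ∀ c : BB Θ X, c ≤ a → ¬ c ≤ b} := by
    refine ⟨insert_subset hb hA.1.1, ?_⟩
    intro a ha a' ha' hne c hc hc'
    rcases mem_insert_iff.1 ha with h2 | h2
    · rcases mem_insert_iff.1 ha' with h3 | h3
      · exact hne (h2.trans h3.symm)
      · exact hcon a' h3 c (h2 ▸ hc) hc'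
    · rcases mem_insert_iff.1 ha' with h3 | h3
      · exact hcon a h2 c (h3 ▸ hc') hc
      · exact hA.1.2 a h2 a' h3 hne c hc hc'
  have h2 : b ∈ A := hA.2 h1 (subset_insert b A) (mem_insert b A)
  exact hcon b h2 b le_rfl le_rfl

private lemma V3_bound (A : Set (BB Θ X)) (hA : #A < #Θ) : ∃ al : Θ, ∀ a ∈ A, a.In al := by
  have h1 : ∀ a : BB Θ X, ∃ al : Θ, a.In al := by
    intro a
    have h0card : #(∅ : Set Θ) < D.κ := by
      rw [Cardinal.mk_eq_zero]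
      exact D.κ_reg.pos
    obtain ⟨al, hal⟩ := LL.exists_in
      ((a, ⟨∅, fun g hg => absurd hg (notMem_empty g), h0card⟩) : LL Θ X)
    exact ⟨al, hal⟩
  choose f hf using h1
  obtain ⟨b, hb⟩ := exists_bound (X := X) (E := f '' A) (mk_image_le.trans_lt hA)
  refine ⟨b, fun a ha t ht => ?_⟩
  exact (hf a t ht).trans (hb (f a) ⟨a, ha, rfl⟩)

private lemma V3_le_res (al : Θ) (b : BB Θ X) : b ≤ b.res al :=
  ⟨le_rfl, fun _ ht => ht.1⟩

private lemma V3_wk_res {al : Θ} {a b : BB Θ X} (ha : a.In al) (h : b.Wk a) : (b.res al).Wk a := by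
  refine ⟨h.1, fun t ht ρ h1 h2 => ?_⟩
  obtain ⟨t', h3, h4, h5⟩ := h.2 t ht ρ h1 h2
  refine ⟨t', ⟨h3, ?_⟩, h4, h5⟩
  have : t'.2.1 = t.2.1 := by rw [h4]
  rw [this]
  exact ha t ht

/-- V3: fusion for arbitrary dense open sets.  Choose maximal antichains `A i ⊆ T i` (fewer than
`δ` elements by `BB.cc`, supports bounded), `T' i := {b | ∃ a ∈ A i, b.Wk a}` is `OpenD` and
determined; apply `fus_det`.  For every `i` and every `b ∈ T' i` with `b.h = h` and labels below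
`th` choose `a ∈ A i` with `b.Wk a` and let `m := b ∪ a` (`BB.Wk.union`); `W` is the set of these
`m` (`Chn.mk_low_lt`).  If `r' ≤ r`, `r' ≤ b` then `r'.Wk a`, and `r'' := r' ∪ a ≤ r', a`, so
`r'' ≤ m`. -/
theorem fus (I : Type) (T : I → Set (BB Θ X)) (hI : #I < #(Iio D.la))
    (ho : ∀ i, ∀ p ∈ T i, ∀ q ≤ p, q ∈ T i) (hd : ∀ i p, ∃ q ≤ p, q ∈ T i) (p : BB Θ X) :
    ∃ q ≤ p, ∃ W : Set (BB Θ X), #W < #(Iio D.la) ∧
      ∀ i, ∀ r ≤ q, ∃ t ∈ W, t ∈ T i ∧ ∃ r' ≤ r, r' ≤ t := by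
  classical
  choose A hAT hanti hmax using fun i => V3_exists_antichain (T i)
  have hIΘ : #I < #Θ := hI.trans (D.th_init D.la)
  have hcard : #(⋃ i, A i : Set (BB Θ X)) < #Θ :=
    (card_iUnion_lt_iff_forall_of_isRegular D.th_reg hIΘ).2 fun i => BB.cc (A i) (hanti i)
  obtain ⟨al, hal⟩ := V3_bound _ hcard
  set T' : I → Set (BB Θ X) := fun i => {b | ∃ a ∈ A i, b.Wk a} with hT'
  have hopen : ∀ i, OpenD (T' i) := by
    intro i
    refine ⟨?_, ?_⟩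
    · intro b
      obtain ⟨b', hb', hb'T⟩ := hd i b
      obtain ⟨a, ha, c, hcb, hca⟩ := hmax i b' hb'T
      exact ⟨c, ⟨a, ha, BB.Wk.of_le hca⟩, hcb.trans hb'⟩
    · rintro b ⟨a, ha, hba⟩ b' hb'
      exact ⟨a, ha, hb'.trans hba⟩
  have hdet : ∀ i, Det al (T' i) := by
    intro i b
    constructor
    · rintro ⟨a, ha, hba⟩
      exact ⟨a, ha, V3_wk_res (hal a (mem_iUnion.2 ⟨i, ha⟩)) hba⟩
    · rintro ⟨a, ha, hba⟩
      exact ⟨a, ha, (BB.Wk.of_le (V3_le_res al b)).trans hba⟩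
  obtain ⟨q, hqp, th, hth, h, hh, hq⟩ := fus_det T' hI hopen hdet p
  -- the chosen elements
  have hch : ∀ (i : I) (b : BB Θ X), ∃ m : BB Θ X, b ∈ T' i →
      m ∈ T i ∧ ∀ r' ≤ b, ∃ r'' ≤ r', r'' ≤ m := by
    intro i b
    by_cases hb : b ∈ T' i
    · obtain ⟨a, ha, hba⟩ := hb
      obtain ⟨m, hmb, hma, hms, hmh, -⟩ := BB.Wk.union hba
      refine ⟨m, fun _ => ⟨ho i a (hAT i ha) m hma, ?_⟩⟩
      intro r' hr'
      have h1 : r'.Wk a := (BB.Wk.of_le hr').trans hba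
      obtain ⟨r'', h2, h3, h4, h5, -⟩ := BB.Wk.union h1
      refine ⟨r'', h2, ?_⟩
      refine ⟨?_, ?_⟩
      · rw [h4, hms]
        exact hr'.1
      · rw [h5, hmh]
        exact union_subset_union_left _ hr'.2
    · exact ⟨b, fun h => absurd h hb⟩
  choose m hm using hch
  -- the set of the chosen elements, indexed by `I` and the chains with labels below `th`
  set Ch : Set (Chn Θ X) := {p : Chn Θ X | ∀ b ∈ p.lev, b < th} with hCh
  have hex : ∀ x : I × Ch, ∃ b : BB Θ X, ∀ b' : BB Θ X, b'.s = x.2.1 → b'.h = h → b = b' := by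
    intro x
    by_cases hx : ∃ b' : BB Θ X, b'.s = x.2.1 ∧ b'.h = h
    · obtain ⟨b', h1, h2⟩ := hx
      exact ⟨b', fun b'' h3 h4 => BB.ext' (h1.trans h3.symm) (h2.trans h4.symm)⟩
    · exact ⟨p, fun b' h1 h2 => absurd ⟨b', h1, h2⟩ hx⟩
  choose g hg using hex
  refine ⟨q, hqp, range (fun x : I × Ch => m x.1 (g x)), ?_, ?_⟩
  · refine mk_range_le.trans_lt ?_
    rw [Cardinal.mk_prod, Cardinal.lift_id, Cardinal.lift_id]
    exact (κ_lt_mul (Θ := Θ) X hI (Chn.mk_low_lt th hth)).1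
  · intro i r hr
    obtain ⟨b, hbT, hblev, hbh, r', hr', hr'b⟩ := hq i r hr
    have h1 : g (i, ⟨b.s, hblev⟩) = b := hg (i, ⟨b.s, hblev⟩) b rfl hbh
    refine ⟨m i b, ⟨(i, ⟨b.s, hblev⟩), by simp only [h1]⟩, (hm i b hbT).1, ?_⟩
    obtain ⟨r'', h2, h3⟩ := (hm i b hbT).2 r' hr'b
    exact ⟨r'', h2.trans hr', h3⟩

end Pool.CV
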