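import Pool.Agent.Lib.MP_cc7fb1_cf.V3

/-!
# MP_cc7fb1: names for subsets of `κ` (row V4)
-/

set_option autoImplicit false
set_option linter.unusedSectionVars false

open Cardinal Set Pool.CF

namespace Pool.CV

variable {Θ X : Type} [LinearOrder Θ] [WellFoundedLT Θ] [D : SG Θ X]

variable (Θ X) in
/-- The ordinals below `λ`. -/
abbrev La : Type := ↥(Iio (D.la : Θ))

/-- The pairs `(th, N)`. -/
private def V4Pr (Θ X : Type) [LinearOrder Θ] [WellFoundedLT Θ] [D : SG Θ X] : Type :=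
  Σ th : La Θ X, (D.κ.ord.ToType → Set ↥{p : Chn Θ X | ∀ b ∈ p.lev, b < th.1})

private lemma V4_card : #(V4Pr Θ X) ≤ #(La Θ X) := by
  have hreg : (#(Iio (D.la : Θ))).IsRegular := D.la_reg
  have h1 : ∀ th : La Θ X,
      #(D.κ.ord.ToType → Set ↥{p : Chn Θ X | ∀ b ∈ p.lev, b < th.1}) ≤ #(La Θ X) := by
    intro th
    rw [Cardinal.mk_arrow, Cardinal.lift_id, Cardinal.lift_id, Cardinal.mk_set,
      Cardinal.mk_ord_toType]
    have h2 := Chn.mk_low_lt (X := X) th.1 th.2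
    exact (κ_lt_mul (Θ := Θ) X (D.la_sl _ h2) D.κ_lt).2.2.le
  unfold V4Pr
  rw [Cardinal.mk_sigma]
  calc Cardinal.sum (fun th : La Θ X =>
        #(D.κ.ord.ToType → Set ↥{p : Chn Θ X | ∀ b ∈ p.lev, b < th.1}))
      ≤ Cardinal.sum (fun _ : La Θ X => #(La Θ X)) := Cardinal.sum_le_sum _ _ h1
    _ = #(La Θ X) * #(La Θ X) := by simp only [Cardinal.sum_const, Cardinal.lift_id]
    _ = #(La Θ X) := Cardinal.mul_eq_self hreg.aleph0_le

/-- V4: there are `λ` many pairs `(th, N)`, `N` a function from `κ` to sets of chains with labels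
below `th` (`Chn.mk_low_lt`, `D.la_sl`, `D.la_reg`). -/
lemma exists_code_N : ∃ B : La Θ X → D.κ.ord.ToType → Set (Chn Θ X),
    ∀ th < D.la, ∀ N : D.κ.ord.ToType → Set (Chn Θ X), (∀ i, ∀ t ∈ N i, ∀ a ∈ t.lev, a < th) →
      ∃ z, B z = N := by
  have hle := V4_card (Θ := Θ) (X := X)
  obtain ⟨f⟩ := Cardinal.le_def _ _ |>.1 hle
  have hla : Nonempty (La Θ X) := by
    have h1 : (0 : Cardinal.{0}) < #(Iio (D.la : Θ)) := D.la_reg.pos
    exact Cardinal.mk_ne_zero_iff.1 h1.ne'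
  have : Nonempty (V4Pr Θ X) := ⟨⟨hla.some, fun _ => ∅⟩⟩
  have hsurj := Function.invFun_surjective f.injective
  set g : La Θ X → V4Pr Θ X := Function.invFun f with hg
  let G : V4Pr Θ X → D.κ.ord.ToType → Set (Chn Θ X) := fun x i => Subtype.val '' (x.2 i)
  refine ⟨fun z => G (g z), ?_⟩
  intro th hth N hN
  obtain ⟨z, hz⟩ := hsurj (⟨⟨th, hth⟩, fun i => {p | p.1 ∈ N i}⟩ : V4Pr Θ X)
  refine ⟨z, ?_⟩
  show G (g z) = N
  rw [hz]
  funext i
  ext t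
  constructor
  · rintro ⟨p, hp, rfl⟩
    exact hp
  · intro ht
    exact ⟨⟨t, hN i t ht⟩, ht, rfl⟩

/-- V4: `λ` many names for the subsets of `κ`.  `B z i := {b | ∃ t ∈ N i, b.s ≤ t}` for the pair
number `z`.  Given `A`, `p`: `exists_det`, `OpenD_union_perp`, `fus_det` for `T i := A i ∪ perp (A i)`
give `q`, `th`, `h`; `N i := {t | labels < th, ∃ b ∈ A i, b.s = t ∧ b.h = h}`.  For `r ≤ q`:
`r ∈ A i` and `r' ≤ r` give `b ∈ T i`, `r'' ≤ r', b`, so `b ∉ perp (A i)`, `b ∈ A i`.  Conversely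
`r'' ≤ r'` with `r''.s ≤ t ∈ N i`: `r''.h ⊇ h`, so `r'' ≤ (t, h) ∈ A i`; use regularity. -/
theorem pow : ∃ B : La Θ X → D.κ.ord.ToType → Set (BB Θ X),
    (∀ z xi, ∀ p ∈ B z xi, ∀ q ≤ p, q ∈ B z xi) ∧
    ∀ A : D.κ.ord.ToType → Set (BB Θ X), (∀ xi, RegOpen (A xi)) → ∀ p, ∃ q ≤ p, ∃ z, ∀ xi,
      ∀ r ≤ q, (r ∈ A xi ↔ ∀ r' ≤ r, ∃ r'' ≤ r', r'' ∈ B z xi) := by
  obtain ⟨N, hN⟩ := exists_code_N (Θ := Θ) (X := X)
  refine ⟨fun z i => {b | ∃ t ∈ N z i, b.s ≤ t}, ?_, ?_⟩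
  · rintro z i b ⟨t, ht, hbt⟩ q hq
    exact ⟨t, ht, hq.1.trans hbt⟩
  · intro A hA p
    have hκ : #(D.κ.ord.ToType) < #(Iio (D.la : Θ)) := by
      rw [Cardinal.mk_ord_toType]
      exact D.κ_lt
    obtain ⟨al, hal⟩ := exists_det (hκ.trans (D.th_init D.la)) A hA
    have hdet : ∀ i, Det al (A i ∪ perp (A i)) := by
      intro i b
      have h1 := hal i b
      have h2 := Det_perp (hal i) (hA i).1 b
      exact or_congr h1 h2
    obtain ⟨q, hqp, th, hth, h, hh, hq⟩ := fus_det (fun i => A i ∪ perp (A i)) hκ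
      (fun i => OpenD_union_perp (hA i)) hdet p
    obtain ⟨z, hz⟩ := hN th hth
      (fun i => {t | (∀ a ∈ t.lev, a < th) ∧ ∃ b ∈ A i, b.s = t ∧ b.h = h})
      (fun i t ht => ht.1)
    refine ⟨q, hqp, z, ?_⟩
    intro xi r hr
    constructor
    · intro hrA r' hr'
      obtain ⟨b, hbT, hblev, hbh, r'', hr'', hr''b⟩ := hq xi r' (hr'.trans hr)
      refine ⟨r'', hr'', b.s, ?_, hr''b.1⟩
      rw [hz]
      refine ⟨hblev, b, ?_, rfl, hbh⟩
      rcases hbT with h1 | h1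
      · exact h1
      · exfalso
        exact h1 r'' hr''b ((hA xi).1 r hrA r'' (hr''.trans hr'))
    · intro h1
      apply (hA xi).2 r
      intro r' hr'
      obtain ⟨r'', hr'', t, ht, hrt⟩ := h1 r' hr'
      rw [hz] at ht
      obtain ⟨-, b, hbA, hbs, hbh⟩ := ht
      refine ⟨r'', hr'', (hA xi).1 b hbA r'' ⟨?_, ?_⟩⟩
      · rw [hbs]
        exact hrt
      · rw [hbh]
        exact hh.trans ((hr''.trans (hr'.trans hr)).2)

end Pool.CV
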