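import Pool.Agent.Lib.MP_cc7fb1_cf.Ord
import Pool.Agent.Lib.MP_cc7fb1_cf.VS

/-!
# MP_cc7fb1: the values of the generic functions, closure (row V5)
-/

set_option autoImplicit false
set_option linter.unusedSectionVars false

open Cardinal Set Pool.CF

namespace Pool.CV

variable {Θ X : Type} [LinearOrder Θ] [WellFoundedLT Θ] [D : SG Θ X]

/-- V5: the values of the generic functions, in `BB`. -/
def Dcb (p : BB Θ X) (be xi v : Θ) : Prop := ∃ τ, (τ, be, xi, v) ∈ p.h ∧ p.s ≤ τ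

/-- V5. -/
lemma Dcb_mono {p q : BB Θ X} (h : q ≤ p) {be xi v : Θ} (hp : Dcb p be xi v) : Dcb q be xi v := by
  obtain ⟨τ, h1, h2⟩ := hp
  exact ⟨τ, h.2 h1, h.1.trans h2⟩

/-- V5. -/
lemma Dcb_uniq {p : BB Θ X} {be xi v v' : Θ} (h : Dcb p be xi v) (h' : Dcb p be xi v') :
    v = v' := by
  obtain ⟨τ, h1, h2⟩ := h
  obtain ⟨τ', h1', h2'⟩ := h'
  exact p.val τ τ' be xi v v' h1 h1' p.s le_rfl h2 h2'

/-- V5. -/
lemma Dcb_lt {p : BB Θ X} {be xi v : Θ} (h : Dcb p be xi v) : v < be := by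
  obtain ⟨τ, h1, h2⟩ := h
  exact p.ok.v _ h1

private noncomputable def V5_emp : R0 Θ X where
  c := ∅
  sub := fun g hg => absurd hg (Set.notMem_empty g)
  card := by
    rw [Cardinal.mk_emptyCollection]
    exact lt_trans Cardinal.aleph0_pos D.κ_unc

/-- V5 (`LL.exists_dc` for `(p, ∅)`). -/
lemma Dcb_tot (p : BB Θ X) (be xi : Θ) (hbe : ∃ v, v < be) (hxi : xi < D.la) :
    ∃ q ≤ p, ∃ v, Dcb q be xi v := by
  obtain ⟨v₀, hv⟩ := hbe
  obtain ⟨al₀, hal₀⟩ := LL.exists_in ((p, V5_emp) : LL Θ X)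
  have hinf : #({be} : Set Θ) < #Θ := by
    rw [Cardinal.mk_singleton]
    exact lt_of_lt_of_le Cardinal.one_lt_aleph0 D.th_reg.aleph0_le
  obtain ⟨b, hb⟩ := exists_bound (X := X) hinf
  have hbe' : be < max al₀ b := lt_of_lt_of_le (hb be rfl) (le_max_right _ _)
  obtain ⟨l', hl, -, -, v, hv'⟩ := LL.exists_dc ((p, V5_emp) : LL Θ X)
    (LL.In.mono (le_max_left al₀ b) hal₀) hbe' hv hxi
  exact ⟨l'.1, hl.1, v, hv'⟩

/-- V5 (`LL.exists_pos`, `LL.add` for `(p, ∅)`). -/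
lemma Dcb_onto (p : BB Θ X) (be v : Θ) (hv : v < be) :
    ∃ q ≤ p, ∃ xi < D.la, Dcb q be xi v := by
  obtain ⟨g, hg, hpos, -⟩ := LL.exists_pos ((p, V5_emp) : LL Θ X)
  have hG : #({g} : Set Θ) < #(Iio D.la) := by
    rw [Cardinal.mk_singleton]
    exact lt_of_lt_of_le Cardinal.one_lt_aleph0 D.la_reg.aleph0_le
  obtain ⟨m, hm, hs, -, hh⟩ := LL.add (l := ((p, V5_emp) : LL Θ X)) (be := be) {g} (fun _ => v) hG
    (by rintro x rfl; exact hg) (by rintro x rfl; exact hv)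
    (by
      rintro x rfl τ w hw
      exact lt_irrefl _ (hpos _ hw))
  refine ⟨m.1, hm.1, g, hg, p.s, ?_, ?_⟩
  · rw [hh]
    exact Or.inr ⟨g, rfl, rfl⟩
  · rw [hs]

/-- V5: `R0` has `λ` elements (small subsets of `λ` are bounded; `D.la_sl`, `D.la_reg`). -/
lemma R0_enum : ∃ e : ↥(Iio (D.la : Θ)) → R0 Θ X, Function.Surjective e := by
  have hle : #(R0 Θ X) ≤ #(Iio (D.la : Θ)) := by
    have hb : ∀ c : R0 Θ X, ∃ b : Iio (D.la : Θ), ∀ a ∈ c.c, a < (b : Θ) := by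
      intro c
      obtain ⟨b, hb, hc⟩ := exists_bound_la (X := X) (c.card.trans D.κ_lt) c.sub
      exact ⟨⟨b, hb⟩, hc⟩
    choose bd hbd using hb
    have hinj : Function.Injective (fun c : R0 Θ X =>
        (⟨bd c, {x : Iio ((bd c : Iio (D.la : Θ)) : Θ) | (x : Θ) ∈ c.c}⟩ :
          Σ b : Iio (D.la : Θ), Set (Iio (b : Θ)))) := by
      intro c c' h
      simp only [Sigma.mk.injEq] at h
      obtain ⟨h1, h2⟩ := h
      have hc' := hbd c'
      rw [← h1] at hc'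
      have key : ∀ (b b' : Iio (D.la : Θ)) (s s' : Set Θ), b = b' →
          HEq ({x : Iio (b : Θ) | (x : Θ) ∈ s}) ({x : Iio (b' : Θ) | (x : Θ) ∈ s'}) →
          (∀ a ∈ s, a < (b : Θ)) → (∀ a ∈ s', a < (b : Θ)) → s = s' := by
        rintro b _ s s' rfl h hs hs'
        have h3 := eq_of_heq h
        ext a
        constructor
        · intro ha
          have : (⟨a, hs a ha⟩ : Iio (b : Θ)) ∈ {x : Iio (b : Θ) | (x : Θ) ∈ s} := ha
          rw [h3] at this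
          exact this
        · intro ha
          have : (⟨a, hs' a ha⟩ : Iio (b : Θ)) ∈ {x : Iio (b : Θ) | (x : Θ) ∈ s'} := ha
          rw [← h3] at this
          exact this
      exact R0.ext' (key _ _ _ _ h1 h2 (hbd c) hc')
    refine (Cardinal.mk_le_of_injective hinj).trans ?_
    rw [Cardinal.mk_sigma]
    refine (Cardinal.sum_le_sum _ (fun _ => #(Iio (D.la : Θ))) fun b => ?_).trans ?_
    · rw [Cardinal.mk_set]
      exact (D.la_sl _ (D.la_init _ b.2)).le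
    · rw [Cardinal.sum_const, Cardinal.lift_id]
      exact (Cardinal.mul_eq_self D.la_reg.aleph0_le).le
  obtain ⟨f⟩ := (Cardinal.le_def _ _).1 hle
  haveI : Nonempty (R0 Θ X) := ⟨V5_emp⟩
  exact ⟨Function.invFun f, Function.invFun_surjective f.injective⟩

/-- V5. -/
lemma R0_dir : DirClosed D.κ (R0 Θ X) := by
  intro E hne hc hd
  obtain ⟨g, hg, -⟩ := R0.exists_glb hne hc hd
  exact ⟨g, fun a ha => hg.1 ha⟩

/-- V5. -/
lemma BB_dir : DirClosed D.κ (BB Θ X) := by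
  intro E hne hc hd
  obtain ⟨g, hg, -⟩ := BB.exists_glb hne hc hd
  exact ⟨g, fun a ha => hg.1 ha⟩

end Pool.CV
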