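import Pool.Agent.Lib.MP_cc7fb1_cf.Rel
import Pool.Agent.Lib.MP_cc7fb1_cf.V2b
import Pool.Agent.Lib.MP_cc7fb1_cf.V4
import Pool.Agent.Lib.MP_cc7fb1_cf.V5

/-!
# MP_cc7fb1: the V-side as an instance of `VS` (row V6)
-/

set_option autoImplicit false
set_option linter.unusedSectionVars false

open Cardinal Set Pool.CF

namespace Pool.CV

variable {Θ X : Type} [LinearOrder Θ] [WellFoundedLT Θ] [D : SG Θ X]

instance : OrderTop (R0 Θ X) where
  top := ⟨∅, fun _ h => absurd h (notMem_empty _), by rw [mk_eq_zero]; exact D.κ_reg.pos⟩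
  le_top a := ⟨empty_subset _, fun _ _ _ _ h => absurd h (notMem_empty _)⟩

/-- A family of sets indexed by the ordinals below `λ`, extended by `univ`. -/
noncomputable def xt (A : La Θ X → Set (BB Θ X)) (xi : Θ) : Set (BB Θ X) :=
  if h : xi < D.la then A ⟨xi, h⟩ else Set.univ

private lemma V6_xt {A : La Θ X → Set (BB Θ X)} {xi : Θ} (h : xi < D.la) :
    xt A xi = A ⟨xi, h⟩ := dif_pos h

private lemma V6_univ {P : Type} [PartialOrder P] : RegOpen (Set.univ : Set P) :=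
  ⟨fun _ _ _ _ => mem_univ _, fun _ _ => mem_univ _⟩

private lemma V6_reg {A : La Θ X → Set (BB Θ X)} (hA : ∀ ξ, RegOpen (A ξ)) (xi : Θ) :
    RegOpen (xt A xi) := by
  unfold xt
  split_ifs with h
  · exact hA _
  · exact V6_univ

/-- The double extension. -/
noncomputable def xt2 (A : La Θ X → La Θ X → Set (BB Θ X)) (nu xi : Θ) : Set (BB Θ X) :=
  if h : nu < D.la then xt (A ⟨nu, h⟩) xi else Set.univ

private lemma V6_reg2 {A : La Θ X → La Θ X → Set (BB Θ X)} (hA : ∀ ν ξ, RegOpen (A ν ξ))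
    (nu xi : Θ) : RegOpen (xt2 A nu xi) := by
  unfold xt2
  split_ifs with h
  · exact V6_reg (hA _) xi
  · exact V6_univ

variable (Θ X) in
/-- V6: the instance, with `E b c A := Er b c (xt A)`, `AC c xi := AC c xi.1`,
`Rl th := Rl th.1`, `Dc p be xi v := Dcb p be xi.1 v`. -/
noncomputable def vs : VS (BB Θ X) (La Θ X) Θ (R0 Θ X) where
  κ := D.κ
  κ_reg := D.κ_reg
  κ_unc := D.κ_unc
  κ_sl := D.κ_sl
  κ_lt := D.κ_lt
  Λ_init a := by
    refine lt_of_le_of_lt ?_ (D.la_init a.1 a.2)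
    refine mk_le_of_injective (f := fun x : Iio a => (⟨x.1.1, x.2⟩ : Iio a.1)) ?_
    rintro ⟨x, hx⟩ ⟨y, hy⟩ h
    have := congrArg Subtype.val h
    exact Subtype.ext (Subtype.ext this)
  Λ_reg := D.la_reg
  Λ_sl := D.la_sl
  Λ_lt := D.th_init D.la
  Θ_init := D.th_init
  Θ_reg := D.th_reg
  ne := ⟨(LL.top (Θ := Θ) (X := X)).1⟩
  dir := BB_dir
  cc A h := BB.cc A h
  Dc p be xi v := Dcb p be xi.1 v
  Dc_mono _ _ _ _ _ h h' := Dcb_mono h h'
  Dc_uniq _ _ _ _ _ h h' := Dcb_uniq h h'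
  Dc_lt _ _ _ _ h := Dcb_lt h
  Dc_tot p be h xi := Dcb_tot p be xi.1 h xi.2
  Dc_onto p be v h := by
    obtain ⟨q, hq, xi, hxi, h1⟩ := Dcb_onto p be v h
    exact ⟨q, hq, ⟨xi, hxi⟩, h1⟩
  fus I T hI ho hd p := fus I T hI ho hd p
  pow := pow
  Rl th p i v := Rl th.1 p i v.1
  Rl_mono th _ _ _ _ hq h := Rl_mono th.2 hq h
  Rl_uniq th _ _ _ _ h h' := Subtype.ext (Rl_uniq th.2 h h')
  Rl_lt th _ _ v h := show v.1 < th.1 from Rl_lt (th := th.1) (v := v.1) h
  col a p := by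
    obtain ⟨q, hq, th, ha, hth, h1, h2⟩ := exists_col a.1 a.2 p
    refine ⟨q, hq, ⟨th, hth⟩, ha, fun i r hr => ?_, fun v hv r hr => ?_⟩
    · obtain ⟨r', hr', v, hv⟩ := h1 i r hr
      exact ⟨r', hr', ⟨v, (Rl_lt hv).trans hth⟩, hv⟩
    · exact h2 v.1 hv r hr
  E b c A := Er b c (xt A)
  E_mono _ _ _ _ _ hb hc h := h.mono hb hc
  E_reg _ _ _ _ h := Er.reg h
  E_sub b c A A' hA hA' hs h := by
    refine Er.sub (V6_reg hA) (V6_reg hA') h fun xi hxi b' hb' hb => ?_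
    rw [V6_xt hxi] at hb ⊢
    exact hs _ b' hb' hb
  E_inter b c A A' hA hA' h h' := by
    refine (Er.congr fun xi hxi => ?_).1 (Er.inter (V6_reg hA) (V6_reg hA') h h')
    rw [V6_xt hxi, V6_xt hxi, V6_xt hxi]
  E_bot b c := Er.bot fun xi hxi => V6_xt hxi
  E_dec b c A hA := by
    obtain ⟨b', hb', c', hc', h⟩ := Er.dec b c (V6_reg hA)
    refine ⟨b', hb', c', hc', h.imp id fun h => (Er.congr fun xi hxi => ?_).1 h⟩
    rw [V6_xt hxi, V6_xt hxi]
  E_diag b c A hA h := by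
    have h1 := Er.diag (V6_reg2 hA) (b := b) (c := c) fun nu hnu => by
      have : xt2 A nu = xt (A ⟨nu, hnu⟩) := by
        funext xi
        exact dif_pos hnu
      rw [this]
      exact h ⟨nu, hnu⟩
    refine (Er.congr fun xi hxi => ?_).1 h1
    rw [V6_xt hxi]
    ext q
    constructor
    · intro hq ν hν
      have h2 := hq ν.1 hν
      have hl : ν.1 < D.la := ν.2
      unfold xt2 at h2
      rw [dif_pos hl, V6_xt hxi] at h2
      exact h2
    · intro hq nu hnu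
      have hl : nu < D.la := hnu.trans hxi
      unfold xt2
      rw [dif_pos hl, V6_xt hxi]
      exact hq ⟨nu, hl⟩ hnu
  E_seg b c η := by
    refine Er.seg η.1 η.2 fun xi hxi h => ?_
    rw [V6_xt hxi]
    ext q
    exact ⟨fun _ => mem_univ _, fun _ => h⟩
  AC c ξ := AC c ξ.1
  AC_reg c ξ := AC_reg c ξ.1
  AC_mono _ _ h ξ := AC_mono h ξ.1
  AC_disj c c' h ξ := by
    rw [← Set.disjoint_iff_inter_eq_empty]
    exact AC_disj h ξ.1 ξ.2
  E_AC b c := by
    refine (Er.congr fun xi hxi => ?_).1 (Er.ac b c)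
    rw [V6_xt hxi]
  R_dir := R0_dir
  R_sep _ _ h := R0.exists_incomp h
  enum := R0_enum.choose
  enum_surj := R0_enum.choose_spec

end Pool.CV
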