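import Pool.Agent.Lib.MP_cc7fb1_cf.StpDef

/-!
# MP_cc7fb1: the step construction (row W1)
-/

set_option autoImplicit false
set_option linter.unusedSectionVars false

open Cardinal Set Pool.CF

namespace Pool.CV

variable {Θ X : Type} [LinearOrder Θ] [WellFoundedLT Θ] [D : SG Θ X]

variable {Y : OL Θ X} {D' : Set (Chn Θ X)} {th be al : Θ} {bb : Θ → Chn Θ X}

/-- W1. -/
lemma OL.OK.pr_spec {Y : OL Θ X} (hY : Y.OK) {p : Chn Θ X} (h : Y.a ∈ p.lev) :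
    Y.pr p ∈ Y.Q ∧ (Y.a, Y.code (Y.pr p)) ∈ p.v ∧ p ≤ Y.tp (Y.pr p) ∧ p.cut Y.a = Y.sg (Y.pr p) := by
  classical
  have h1 : ∃ l ∈ Y.Q, (Y.a, Y.code l) ∈ p.v := hY.exists_code h
  have h2 : Y.pr p = h1.choose := dif_pos h1
  have h3 : Y.pr p ∈ Y.Q := by
    rw [h2]
    exact h1.choose_spec.1
  have h4 : (Y.a, Y.code (Y.pr p)) ∈ p.v := by
    rw [h2]
    exact h1.choose_spec.2
  exact ⟨h3, h4, (hY.le_tp_iff h3 p).2 ⟨_, h3, le_rfl, h4⟩, hY.cut_eq h3 h4⟩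

private lemma W1_pr_eq {Y : OL Θ X} (hY : Y.OK) {p : Chn Θ X} {l : LL Θ X} (hl : l ∈ Y.Q)
    (h : (Y.a, Y.code l) ∈ p.v) : Y.pr p = l := by
  obtain ⟨h1, h2, -, -⟩ := hY.pr_spec (p := p) ⟨_, h⟩
  exact hY.inj _ h1 _ hl (p.ch.func _ _ _ h2 h)

/-- W1. -/
lemma OL.OK.pr_mono {Y : OL Θ X} (hY : Y.OK) {p q : Chn Θ X} (h : Y.a ∈ q.lev) (hle : p ≤ q) :
    Y.pr p ≤ Y.pr q := by
  obtain ⟨h1, -, h3, -⟩ := hY.pr_spec h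
  obtain ⟨l', hl', h4, h5⟩ := (hY.le_tp_iff h1 p).1 (hle.trans h3)
  rw [W1_pr_eq hY hl' h5]
  exact h4

/-- W1. -/
lemma OL.OK.pr_le {Y : OL Θ X} (hY : Y.OK) {p : Chn Θ X} {q : LL Θ X} (hq : q ∈ Y.Q)
    (h : p ≤ Y.tp q) : Y.a ∈ p.lev ∧ Y.pr p ≤ q := by
  obtain ⟨l', hl', h4, h5⟩ := (hY.le_tp_iff hq p).1 h
  refine ⟨⟨_, h5⟩, ?_⟩
  rw [W1_pr_eq hY hl' h5]
  exact h4

/-- W1. -/
lemma OL.OK.pr_glb {Y : OL Θ X} (hY : Y.OK) {E : Set (Chn Θ X)} (hne : E.Nonempty)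
    (hc : #E < D.κ) (hd : Dir E) (hE : ∀ p ∈ E, Y.a ∈ p.lev) {g : Chn Θ X} (hg : IsGLB E g) :
    IsGLB (Y.pr '' E) (Y.pr g) := by
  have hga : Y.a ∈ g.lev := by
    obtain ⟨p, hp⟩ := hne
    exact Chn.lev_mono (hg.1 hp) (hE p hp)
  have hsub : Y.pr '' E ⊆ Y.Q := by
    rintro _ ⟨p, hp, rfl⟩
    exact (hY.pr_spec (hE p hp)).1
  have hne' : (Y.pr '' E).Nonempty := hne.image _
  have hc' : #(Y.pr '' E) < D.κ := lt_of_le_of_lt mk_image_le hc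
  have hd' : Dir (Y.pr '' E) := by
    rintro _ ⟨p, hp, rfl⟩ _ ⟨q, hq, rfl⟩
    obtain ⟨r, hr, h1, h2⟩ := hd p hp q hq
    exact ⟨_, ⟨r, hr, rfl⟩, hY.pr_mono (hE p hp) h1, hY.pr_mono (hE q hq) h2⟩
  obtain ⟨g', hg'⟩ := LL.dg (Y.pr '' E) hne' hc' hd'
  have hg'Q : g' ∈ Y.Q := hY.good.closed _ hsub hne' hc' hd' g' hg'
  obtain ⟨h1, h2, -, -⟩ := hY.pr_spec hga
  have h3 : Y.pr g ≤ g' := hg'.2 (by
    rintro _ ⟨p, hp, rfl⟩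
    exact hY.pr_mono (hE p hp) (hg.1 hp))
  have h4 : g' ≤ Y.pr g := by
    have h5 := (Chn.val_glb hne hc hd hg h2).2.2 (Y.code g') (by
      rw [hY.C]
      exact ⟨g', hg'Q, rfl⟩) (by
      rintro s ⟨p, hp, hs⟩
      obtain ⟨h6, h7, -, -⟩ := hY.pr_spec (hE p hp)
      rw [p.ch.func _ _ _ hs h7]
      exact (hY.le _ h6 _ hg'Q).2 (hg'.1 ⟨p, hp, rfl⟩))
    exact (hY.le _ h1 _ hg'Q).1 h5
  rw [le_antisymm h3 h4]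
  exact hg'

/-- W1. -/
lemma OL.OK.pr_lift {Y : OL Θ X} (hY : Y.OK) {D' : Set (Chn Θ X)} {th : Θ}
    (hop : ∀ p ∈ D', ∀ q ≤ p, q ∈ D') {p : Chn Θ X} (hp : p ∈ PS Y D' th) {q : LL Θ X}
    (hq : q ∈ Y.Q) (hle : q ≤ Y.pr p) : ∃ p' ∈ PS Y D' th, p' ≤ p ∧ Y.pr p' ≤ q := by
  obtain ⟨h1, h2, -, -⟩ := hY.pr_spec hp.1
  obtain ⟨r, hr, hcof, l'', hl'', h3, h4⟩ := hY.lift h1 h2 hq hle
  refine ⟨r, ⟨⟨_, h4⟩, hop p hp.2.1 r hr, fun b hb => ?_⟩, hr, ?_⟩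
  · obtain ⟨b', hb', hle'⟩ := hcof b hb
    exact hle'.trans_lt (hp.2.2 b' hb')
  · rw [W1_pr_eq hY hl'' h4]
    exact h3

end Pool.CV
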